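import Pool.Agent.Lib.SmB.P4Defs

/-!
Block B of SMITH, part 4, module P4Roots (elementary facts on finite fields). About 150 lines.

`k` a finite field with `q = Nat.card k` elements, `F` an algebraically closed field, algebraic
over `k`.

PROOFS.
* `ncard_fixed`: the polynomial `X^(q^N) - X` over `F` has derivative `-1` (as `q = 0` in `F`:
  `q` is a power of the characteristic), so it is separable (Mathlib: `galois_poly_separable`,
  or `FiniteField.X_pow_card_pow_sub_X_natDegree_eq` and friends); `F` is algebraically closed,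
  so it has exactly `q^N` roots (`Polynomial.card_rootSet_eq_natDegree`), and its roots are the
  `c` with `c^(q^N) = c`.
* `natDegree_dvd`: let `d = (minpoly k c).natDegree`, `E = k(c)` (`IntermediateField.adjoin` or
  `AdjoinRoot`), a finite field with `q^d` elements (`Module.card_eq_pow_finrank`,
  `IntermediateField.adjoin.finrank`). Every element `x` of `E` is `g(c)` with `g ∈ k[X]`, and
  `g(c)^(q^N) = g(c^(q^N)) = g(c)` (the map `x ↦ x^(q^N)` is a ring homomorphism fixing `k`:
  Mathlib `FiniteField.frobeniusAlgHom`, its powers; or `Polynomial.expand_card`). So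
  `x^(q^N) = x` for all `x ∈ E`; a generator of the cyclic group `Eˣ` of order `q^d - 1` gives
  `q^d - 1 ∣ q^N - 1`, so `d ∣ N` (`Nat.pow_sub_one_gcd_pow_sub_one` or
  `Nat.pow_dvd_pow_iff...`). ALTERNATIVE without `E`: let `N = a d + b`, `b < d`. By the same
  argument with the finite field `E` of `q^d` elements, `c^(q^d) = c`, so `c^(q^b) = c`; if
  `b > 0` all the `q^d` elements `g(c)`, `deg g < d`, are roots of `X^(q^b) - X`, which has only
  `q^b < q^d` roots. Contradiction.
* `root_fixed`: `P` monic irreducible of degree `N` with root `c`: `minpoly k c = P`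
  (`minpoly.eq_of_irreducible_of_monic`), `E = k(c)` has `q^N` elements, so
  `c^(q^N) = c` (`FiniteField.pow_card`).
* `ncard_roots`: `P` irreducible over the finite (so perfect) field `k`, so separable
  (`Irreducible.separable`, instance `PerfectField`), `F` algebraically closed:
  `Polynomial.card_rootSet_eq_natDegree`; the set is finite (`Polynomial.rootSet_finite`).
* `ncard_small`: by `natDegree_dvd` the elements `c` of the set have
  `d = (minpoly k c).natDegree ∣ N`, `d ≠ N`, `d ≥ 1`, so `d ≤ N / 2`, and `c^(q^d) = c` by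
  `root_fixed` (the minimal polynomial is monic irreducible). So the set is contained in the union
  over `d ∈ [1, N/2]` of the sets `{c | c^(q^d) = c}`, of cardinality `q^d`, and
  `∑_{1 ≤ d ≤ m} q^d ≤ 2 q^m` (induction on `m`, `q ≥ 2`: for `m = 0` the sum is `0`;
  `∑_{d ≤ m+1} q^d ≤ 2 q^m + q^(m+1) ≤ 2 q^(m+1)`).
* `sum_minpoly`: the finset of the `c` with `c^(q^N) = c` and `(minpoly k c).natDegree = N` is
  partitioned by `c ↦ minpoly k c ∈ IrrF k N` (`Finset.sum_fiberwise_of_maps_to`), and the fibre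
  over `P` is the set of roots of `P` in `F` (`root_fixed` and
  `minpoly.eq_of_irreducible_of_monic`), of cardinality `N` by `ncard_roots`.
-/

namespace Pool.Agent.SmB

open Module Polynomial

open IntermediateField in
private theorem P4Roots_aux {A F : Type*} [Field A] [Field F] [Algebra A F] [IsAlgClosed F]
    {Q : A[X]} (hQ : Q.Separable) :
    {c : F | aeval c Q = 0}.Finite ∧ {c : F | aeval c Q = 0}.ncard = Q.natDegree := by
  have h1 : {c : F | aeval c Q = 0} = Q.rootSet F := by
    ext c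
    rw [mem_rootSet]
    exact ⟨fun h => ⟨hQ.ne_zero, h⟩, fun h => h.2⟩
  rw [h1]
  refine ⟨rootSet_finite Q F, ?_⟩
  rw [← Nat.card_coe_set_eq, Nat.card_eq_fintype_card]
  exact card_rootSet_eq_natDegree hQ (IsAlgClosed.splits _)

section

variable (k : Type*) [Field k] [Finite k] (F : Type*) [Field F] [Algebra k F] [IsAlgClosed F]
  [Algebra.IsAlgebraic k F]

private theorem P4Roots_q : 1 < Nat.card k := Finite.one_lt_card

omit [Algebra.IsAlgebraic k F] in
private theorem P4Roots_fixed (N : ℕ) (hN : N ≠ 0) :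
    {c : F | c ^ (Nat.card k) ^ N = c}.Finite ∧
      {c : F | c ^ (Nat.card k) ^ N = c}.ncard = (Nat.card k) ^ N := by
  have := Fintype.ofFinite k
  obtain ⟨p, hp⟩ := CharP.exists k
  have hpF : CharP F p := charP_of_injective_algebraMap (algebraMap k F).injective p
  have h1 : p ∣ Nat.card k := by
    rw [Nat.card_eq_fintype_card]
    exact (CharP.cast_eq_zero_iff k p _).1 (FiniteField.cast_card_eq_zero k)
  have h2 : (X ^ (Nat.card k) ^ N - X : F[X]).Separable :=
    galois_poly_separable p _ (dvd_pow h1 hN)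
  have h3 := P4Roots_aux (F := F) h2
  have h4 : (X ^ (Nat.card k) ^ N - X : F[X]).natDegree = Nat.card k ^ N :=
    FiniteField.X_pow_card_pow_sub_X_natDegree_eq F hN (P4Roots_q k)
  have h5 : {c : F | aeval c (X ^ (Nat.card k) ^ N - X : F[X]) = 0} =
      {c : F | c ^ (Nat.card k) ^ N = c} := by
    ext c
    simp [sub_eq_zero]
  rw [h5, h4] at h3
  exact h3

open IntermediateField in
omit [IsAlgClosed F] in
private theorem P4Roots_E (c : F) :
    ((k⟮c⟯ : IntermediateField k F) : Set F).ncard = (Nat.card k) ^ (minpoly k c).natDegree ∧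
      ∀ x ∈ k⟮c⟯, x ^ (Nat.card k) ^ (minpoly k c).natDegree = x := by
  have hc : IsIntegral k c := Algebra.IsIntegral.isIntegral c
  have h0 : FiniteDimensional k k⟮c⟯ := IntermediateField.adjoin.finiteDimensional hc
  have h1 : Nat.card k⟮c⟯ = (Nat.card k) ^ (minpoly k c).natDegree := by
    rw [← IntermediateField.adjoin.finrank hc]
    exact Module.natCard_eq_pow_finrank
  have h2 : Finite k⟮c⟯ := Module.finite_of_finite k
  have h3 := Fintype.ofFinite k⟮c⟯
  refine ⟨?_, fun x hx => ?_⟩
  · rw [← Nat.card_coe_set_eq]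
    exact h1
  · have h2 := FiniteField.pow_card (⟨x, hx⟩ : k⟮c⟯)
    rw [← Nat.card_eq_fintype_card, h1] at h2
    exact congrArg Subtype.val h2

open IntermediateField in
omit [IsAlgClosed F] in
private theorem P4Roots_cl {N : ℕ} {c : F} (hc : c ^ (Nat.card k) ^ N = c) (x : F)
    (hx : x ∈ k⟮c⟯) : x ^ (Nat.card k) ^ N = x := by
  have := Fintype.ofFinite k
  obtain ⟨φ, hφ⟩ : ∃ φ : F →ₐ[k] F, ∀ x, φ x = x ^ (Nat.card k) ^ N := by
    refine ⟨(FiniteField.frobeniusAlgHom k F) ^ N, fun x => ?_⟩
    rw [AlgHom.coe_pow, FiniteField.coe_frobeniusAlgHom, pow_iterate, Nat.card_eq_fintype_card]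
  have h1 : k⟮c⟯.toSubalgebra = Algebra.adjoin k {c} :=
    IntermediateField.adjoin_simple_toSubalgebra_of_isAlgebraic (Algebra.IsAlgebraic.isAlgebraic c)
  have h2 : Algebra.adjoin k {c} ≤ AlgHom.equalizer φ (AlgHom.id k F) :=
    AlgHom.adjoin_le_equalizer _ _ (by
      intro y hy
      rw [Set.mem_singleton_iff.1 hy, hφ, hc]
      rfl)
  have h3 : x ∈ Algebra.adjoin k {c} := by
    rw [← h1]
    exact hx
  have h4 : φ x = x := h2 h3
  rw [← hφ x, h4]

theorem fixed_finite (N : ℕ) (hN : N ≠ 0) : {c : F | c ^ (Nat.card k) ^ N = c}.Finite :=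
  (P4Roots_fixed k F N hN).1

theorem ncard_fixed (N : ℕ) (hN : N ≠ 0) :
    {c : F | c ^ (Nat.card k) ^ N = c}.ncard = (Nat.card k) ^ N :=
  (P4Roots_fixed k F N hN).2

/-- The finset of the elements fixed by the `N`-th power of Frobenius (for `N ≠ 0`). -/
noncomputable def FixF (N : ℕ) (hN : N ≠ 0) : Finset F := (fixed_finite k F N hN).toFinset

variable {k F}

theorem mem_fixF {N : ℕ} {hN : N ≠ 0} {c : F} :
    c ∈ FixF k F N hN ↔ c ^ (Nat.card k) ^ N = c := by
  simp [FixF]

theorem card_fixF {N : ℕ} (hN : N ≠ 0) : (FixF k F N hN).card = (Nat.card k) ^ N := by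
  rw [← ncard_fixed k F N hN, FixF, Set.ncard_eq_toFinset_card _ (fixed_finite k F N hN)]

private theorem P4Roots_pos (c : F) : 0 < (minpoly k c).natDegree :=
  minpoly.natDegree_pos (Algebra.IsIntegral.isIntegral c)

open IntermediateField in
theorem natDegree_dvd {N : ℕ} (hN : N ≠ 0) {c : F} (hc : c ^ (Nat.card k) ^ N = c) :
    (minpoly k c).natDegree ∣ N := by
  have hE := P4Roots_E k F c
  have hdpos := P4Roots_pos (k := k) c
  obtain ⟨d, hd⟩ : ∃ d, d = (minpoly k c).natDegree := ⟨_, rfl⟩
  rw [← hd] at hE hdpos ⊢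
  have hcl := P4Roots_cl k F hc
  have hiter : ∀ (a : ℕ) (x : F), x ∈ k⟮c⟯ → x ^ (Nat.card k) ^ (d * a) = x := by
    intro a x hx
    induction a with
    | zero => simp
    | succ a ih => rw [Nat.mul_succ, pow_add, pow_mul, ih, hE.2 x hx]
  by_contra hdn
  have hb0 : N % d ≠ 0 := fun h => hdn (Nat.dvd_of_mod_eq_zero h)
  have hsub : (k⟮c⟯ : Set F) ⊆ {x : F | x ^ (Nat.card k) ^ (N % d) = x} := by
    intro x hx
    have h1 := hcl x hx
    rw [← Nat.div_add_mod N d, pow_add, pow_mul, hiter _ x hx] at h1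
    exact h1
  have h2 := Set.ncard_le_ncard hsub (fixed_finite k F _ hb0)
  rw [ncard_fixed k F _ hb0, hE.1] at h2
  have h3 := (Nat.pow_le_pow_iff_right (P4Roots_q k)).1 h2
  have h4 := Nat.mod_lt N hdpos
  omega

theorem root_fixed {N : ℕ} {P : k[X]} (hP : P ∈ IrrF k N) {c : F} (hc : aeval c P = 0) :
    minpoly k c = P ∧ c ^ (Nat.card k) ^ N = c := by
  obtain ⟨h1, h2, h3⟩ := mem_irrF.1 hP
  have h4 := (minpoly.eq_of_irreducible_of_monic h2 hc h1).symm
  refine ⟨h4, ?_⟩
  have h5 := (P4Roots_E k F c).2 c (IntermediateField.mem_adjoin_simple_self k c)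
  rw [h4, h3] at h5
  exact h5

theorem ncard_roots {N : ℕ} {P : k[X]} (hP : P ∈ IrrF k N) :
    {c : F | aeval c P = 0}.Finite ∧ {c : F | aeval c P = 0}.ncard = N := by
  obtain ⟨h1, h2, h3⟩ := mem_irrF.1 hP
  have h4 := P4Roots_aux (F := F) (PerfectField.separable_of_irreducible h2)
  rw [h3] at h4
  exact h4

private theorem P4Roots_mem (c : F) : minpoly k c ∈ IrrF k (minpoly k c).natDegree :=
  mem_irrF.2 ⟨minpoly.monic (Algebra.IsIntegral.isIntegral c),
    minpoly.irreducible (Algebra.IsIntegral.isIntegral c), rfl⟩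

private theorem P4Roots_sum {q : ℕ} (hq : 1 < q) (m : ℕ) :
    ∑ d ∈ Finset.Icc 1 m, q ^ d ≤ 2 * q ^ m := by
  induction m with
  | zero => simp
  | succ m ih =>
    rw [Finset.sum_Icc_succ_top (by omega)]
    have h1 : q ^ (m + 1) = q ^ m * q := pow_succ _ _
    nlinarith [Nat.mul_le_mul_left (q ^ m) (show 2 ≤ q from hq)]

open Classical in
theorem card_small {N : ℕ} (hN : N ≠ 0) :
    ((FixF k F N hN).filter fun c => (minpoly k c).natDegree ≠ N).card
      ≤ 2 * (Nat.card k) ^ (N / 2) := by
  obtain ⟨G, hG⟩ : ∃ G : ℕ → Finset F, ∀ d, ∀ h : d ≠ 0, G d = FixF k F d h :=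
    ⟨fun d => if h : d ≠ 0 then FixF k F d h else ∅, fun d h => dif_pos h⟩
  have hsub : ((FixF k F N hN).filter fun c => (minpoly k c).natDegree ≠ N) ⊆
      (Finset.Icc 1 (N / 2)).biUnion G := by
    intro c hc
    rw [Finset.mem_filter, mem_fixF] at hc
    have h1 := natDegree_dvd hN hc.1
    have h2 := P4Roots_pos (k := k) c
    have h3 : (minpoly k c).natDegree ≤ N / 2 := by
      obtain ⟨a, ha⟩ := h1
      have h4 : 2 ≤ a := by
        rcases Nat.lt_or_ge a 2 with h | h
        · exfalso
          interval_cases a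
          · omega
          · exact hc.2 (by omega)
        · exact h
      rw [Nat.le_div_iff_mul_le two_pos]
      calc (minpoly k c).natDegree * 2 ≤ (minpoly k c).natDegree * a :=
            Nat.mul_le_mul_left _ h4
        _ = N := ha.symm
    rw [Finset.mem_biUnion]
    refine ⟨_, Finset.mem_Icc.2 ⟨h2, h3⟩, ?_⟩
    rw [hG _ h2.ne', mem_fixF]
    exact (root_fixed (P4Roots_mem c) (minpoly.aeval _ _)).2
  calc _ ≤ ((Finset.Icc 1 (N / 2)).biUnion G).card := Finset.card_le_card hsub
    _ ≤ ∑ d ∈ Finset.Icc 1 (N / 2), (G d).card := Finset.card_biUnion_le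
    _ = ∑ d ∈ Finset.Icc 1 (N / 2), Nat.card k ^ d := by
        refine Finset.sum_congr rfl fun d hd => ?_
        have hd' : d ≠ 0 := by
          have := (Finset.mem_Icc.1 hd).1
          omega
        rw [hG d hd', card_fixF]
    _ ≤ _ := P4Roots_sum (P4Roots_q k) _

open Classical in
theorem sum_minpoly {N : ℕ} (hN : N ≠ 0) (h : k[X] → ℝ) :
    ∑ c ∈ (FixF k F N hN).filter fun c => (minpoly k c).natDegree = N, h (minpoly k c)
      = N * ∑ P ∈ IrrF k N, h P := by
  have hmap : ∀ c ∈ (FixF k F N hN).filter fun c => (minpoly k c).natDegree = N,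
      minpoly k c ∈ IrrF k N := by
    intro c hc
    have h1 := P4Roots_mem (k := k) c
    rw [(Finset.mem_filter.1 hc).2] at h1
    exact h1
  rw [← Finset.sum_fiberwise_of_maps_to hmap, Finset.mul_sum]
  refine Finset.sum_congr rfl fun P hP => ?_
  have hr := ncard_roots (F := F) hP
  have h1 : (((FixF k F N hN).filter fun c => (minpoly k c).natDegree = N).filter
      fun c => minpoly k c = P) = hr.1.toFinset := by
    ext c
    rw [Finset.mem_filter, Finset.mem_filter, mem_fixF, Set.Finite.mem_toFinset]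
    constructor
    · rintro ⟨-, h2⟩
      rw [← h2]
      exact minpoly.aeval _ _
    · intro h2
      have h3 := root_fixed hP (c := c) h2
      exact ⟨⟨h3.2, by rw [h3.1]; exact (mem_irrF.1 hP).2.2⟩, h3.1⟩
  rw [Finset.sum_congr rfl (g := fun _ => h P)
    (fun c hc => by rw [(Finset.mem_filter.1 hc).2]), Finset.sum_const, h1,
    ← Set.ncard_eq_toFinset_card _ hr.1, hr.2, nsmul_eq_mul]

end

end Pool.Agent.SmB
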