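import Mathlib

/-!
Block B of SMITH, part 5: the action of the Galois group on the constants.

`k` is a finite field with `q` elements, `K` a field containing `k`, `Om/K` an extension. Every
automorphism acts on the elements `x` with `x ^ (q ^ m) = x` as a power of the Frobenius of `k`
(`pow_of_aut`; the proof is the one of `FinGen_pow` in `SmD/FinGen.lean`), so the commutator
subgroup acts trivially on the constants (`commutator_cst`).
-/

set_option autoImplicit false

namespace Pool.Agent.SmB

theorem pow_of_aut {F κ : Type*} [Field F] [Finite F] [Field κ] [Algebra F κ]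
    (s : κ ≃+* κ) (hs : ∀ a : F, s (algebraMap F κ a) = algebraMap F κ a) (m : ℕ) (hm : 0 < m) :
    ∃ n : ℕ, ∀ y : κ, y ^ (Nat.card F) ^ m = y → s y = y ^ (Nat.card F) ^ n := by
  classical
  let ft : Fintype F := Fintype.ofFinite F
  have hq : Nat.card F = Fintype.card F := Nat.card_eq_fintype_card
  rw [hq]
  have hΦ : ∀ (L : Type _) [Field L] [Algebra F L] (n : ℕ) (y : L),
      ((FiniteField.frobeniusAlgHom F L) ^ n) y = y ^ (Fintype.card F) ^ n := by
    intro L _ _ n y
    rw [AlgHom.coe_pow, FiniteField.coe_frobeniusAlgHom, pow_iterate]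
  let Φ : κ →ₐ[F] κ := (FiniteField.frobeniusAlgHom F κ) ^ m
  let E : IntermediateField F κ :=
    { carrier := {y | Φ y = y}
      mul_mem' := fun {a b} ha hb => by
        change Φ (a * b) = a * b
        rw [map_mul, show Φ a = a from ha, show Φ b = b from hb]
      add_mem' := fun {a b} ha hb => by
        change Φ (a + b) = a + b
        rw [map_add, show Φ a = a from ha, show Φ b = b from hb]
      algebraMap_mem' := fun a => Φ.commutes a
      inv_mem' := fun a ha => by
        change Φ a⁻¹ = a⁻¹
        rw [map_inv₀, show Φ a = a from ha] }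
  have hE : ∀ y, y ∈ E ↔ y ^ (Fintype.card F) ^ m = y := by
    intro y
    rw [← hΦ κ m y]
    exact Iff.rfl
  have hfin : Finite E := by
    have h1 : (Polynomial.X ^ (Fintype.card F) ^ m - Polynomial.X : Polynomial κ) ≠ 0 :=
      FiniteField.X_pow_card_sub_X_ne_zero κ (Nat.one_lt_pow hm.ne' Fintype.one_lt_card)
    have h2 : {y : κ | y ∈ E} ⊆
        {y : κ | (Polynomial.X ^ (Fintype.card F) ^ m - Polynomial.X : Polynomial κ).IsRoot y} := by
      intro y hy
      have h3 := (hE y).1 hy
      simp only [Set.mem_ofPred_eq, Polynomial.IsRoot.def, Polynomial.eval_sub,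
        Polynomial.eval_pow, Polynomial.eval_X]
      rw [h3, sub_self]
    exact ((Polynomial.finite_setOfPred_isRoot h1).subset h2).to_subtype
  let f : E →ₐ[F] E :=
    { toFun := fun y => ⟨s y, by
        rw [hE, ← map_pow, (hE _).1 y.2]⟩
      map_one' := by
        apply Subtype.ext
        exact map_one s
      map_mul' := fun a b => by
        apply Subtype.ext
        exact map_mul s _ _
      map_zero' := by
        apply Subtype.ext
        exact map_zero s
      map_add' := fun a b => by
        apply Subtype.ext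
        exact map_add s _ _
      commutes' := fun a => by
        apply Subtype.ext
        exact hs a }
  obtain ⟨n, hn⟩ := (FiniteField.bijective_frobeniusAlgHom_pow F E).2 f
  refine ⟨n, fun y hy => ?_⟩
  have h1 : ((FiniteField.frobeniusAlgHom F E) ^ (n : ℕ)) ⟨y, (hE y).2 hy⟩ =
      f ⟨y, (hE y).2 hy⟩ := by rw [← hn]
  rw [hΦ] at h1
  have h2 := congrArg Subtype.val h1
  exact h2.symm

/-- An element integral over the finite field `k` has a period. -/
theorem exists_period_of_integral {k κ : Type*} [Field k] [Finite k] [Field κ] [Algebra k κ]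
    {x : κ} (hx : IsIntegral k x) : ∃ m : ℕ, 0 < m ∧ x ^ (Nat.card k) ^ m = x := by
  have hfd : FiniteDimensional k (IntermediateField.adjoin k {x}) :=
    IntermediateField.adjoin.finiteDimensional hx
  have hfin : Finite (IntermediateField.adjoin k {x}) :=
    Module.finite_of_finite k
  have ft : Fintype (IntermediateField.adjoin k {x}) := Fintype.ofFinite _
  have h1 := FiniteField.pow_card
    (⟨x, IntermediateField.mem_adjoin_simple_self k x⟩ : IntermediateField.adjoin k {x})
  have h2 : Fintype.card (IntermediateField.adjoin k {x}) =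
      Nat.card k ^ Module.finrank k (IntermediateField.adjoin k {x}) := by
    rw [← Nat.card_eq_fintype_card]
    exact Module.natCard_eq_pow_finrank
  rw [h2] at h1
  exact ⟨_, Module.finrank_pos, congrArg Subtype.val h1⟩

/-- An element with a period is integral over the finite field `k`. -/
theorem integral_of_period {k κ : Type*} [Field k] [Finite k] [Field κ] [Algebra k κ]
    {x : κ} {m : ℕ} (hm : 0 < m) (hx : x ^ (Nat.card k) ^ m = x) : IsIntegral k x := by
  have hq : 1 < Nat.card k := Finite.one_lt_card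
  have h1 : 1 < (Nat.card k) ^ m := Nat.one_lt_pow hm.ne' hq
  refine ⟨Polynomial.X ^ (Nat.card k) ^ m - Polynomial.X, ?_, ?_⟩
  · apply Polynomial.monic_X_pow_sub
    rw [Polynomial.degree_X]
    exact_mod_cast h1
  · simp [hx]

/-- The commutator subgroup acts trivially on the constants. -/
theorem commutator_cst {k K Om : Type*} [Field k] [Finite k] [Field K] [Field Om] [Algebra k K]
    [Algebra K Om] {g : Om ≃ₐ[K] Om} (hg : g ∈ commutator (Om ≃ₐ[K] Om)) {x : Om} {m : ℕ}
    (hm : 0 < m) (hx : x ^ (Nat.card k) ^ m = x) : g x = x := by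
  let alg : Algebra k Om := ((algebraMap K Om).comp (algebraMap k K)).toAlgebra
  have key : ∀ s : Om ≃ₐ[K] Om, ∃ n : ℕ, ∀ y : Om, y ^ (Nat.card k) ^ m = y →
      s y = y ^ (Nat.card k) ^ n := by
    intro s
    exact pow_of_aut (F := k) (κ := Om) (s : Om ≃+* Om) (fun a => s.commutes _) m hm
  let T : Subgroup (Om ≃ₐ[K] Om) :=
    { carrier := {s | ∀ y : Om, y ^ (Nat.card k) ^ m = y → s y = y}
      one_mem' := fun y _ => rfl
      mul_mem' := fun {a b} ha hb y hy => by
        rw [AlgEquiv.mul_apply, hb y hy, ha y hy]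
      inv_mem' := fun {a} ha y hy => by
        have h1 := ha y hy
        calc a⁻¹ y = a⁻¹ (a y) := by rw [h1]
          _ = y := by rw [← AlgEquiv.mul_apply, inv_mul_cancel, AlgEquiv.one_apply] }
  have hT : commutator (Om ≃ₐ[K] Om) ≤ T := by
    rw [commutator_eq_closure, Subgroup.closure_le]
    rintro z ⟨s, t, rfl⟩
    intro y hy
    have hst : ∀ y : Om, y ^ (Nat.card k) ^ m = y → s (t y) = t (s y) := by
      intro y hy
      obtain ⟨i, hi⟩ := key s
      obtain ⟨j, hj⟩ := key t
      rw [hi y hy, hj y hy, map_pow, map_pow, hi y hy, hj y hy, ← pow_mul, ← pow_mul, mul_comm]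
    have hstab : ∀ (u : Om ≃ₐ[K] Om) (y : Om), y ^ (Nat.card k) ^ m = y →
        (u y) ^ (Nat.card k) ^ m = u y := by
      intro u y hy
      rw [← map_pow, hy]
    change (s * t * s⁻¹ * t⁻¹) y = y
    rw [AlgEquiv.mul_apply, AlgEquiv.mul_apply, AlgEquiv.mul_apply]
    have h1 : (t⁻¹ y) ^ (Nat.card k) ^ m = t⁻¹ y := hstab _ _ hy
    have h2 : (s⁻¹ (t⁻¹ y)) ^ (Nat.card k) ^ m = s⁻¹ (t⁻¹ y) := hstab _ _ h1
    rw [hst _ h2, ← AlgEquiv.mul_apply s s⁻¹, mul_inv_cancel, AlgEquiv.one_apply,
      ← AlgEquiv.mul_apply t t⁻¹, mul_inv_cancel, AlgEquiv.one_apply]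
  exact hT hg x hx

end Pool.Agent.SmB
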