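import Mathlib

/-!
SMITH block B, part 2a: the ring `Oi F` of rational functions without pole at infinity.
-/

namespace Pool.Agent.SmB

open Polynomial

variable (F : Type*) [Field F]

/-- rational functions of degree at most `0`. -/
def Oi : Subring (RatFunc F) where
  carrier := {x | x.intDegree ≤ 0}
  zero_mem' := by simp
  one_mem' := by simp
  add_mem' := by
    intro a b ha hb
    simp only [Set.mem_ofPred_eq] at ha hb ⊢
    by_cases hb0 : b = 0
    · simpa [hb0] using ha
    by_cases hab : a + b = 0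
    · simp [hab]
    · exact (RatFunc.intDegree_add_le hb0 hab).trans (max_le ha hb)
  mul_mem' := by
    intro a b ha hb
    simp only [Set.mem_ofPred_eq] at ha hb ⊢
    by_cases ha0 : a = 0
    · simp [ha0]
    by_cases hb0 : b = 0
    · simp [hb0]
    rw [RatFunc.intDegree_mul ha0 hb0]
    omega
  neg_mem' := by
    intro a ha
    simp only [Set.mem_ofPred_eq] at ha ⊢
    rwa [RatFunc.intDegree_neg]

variable {F}

theorem mem_Oi {x : RatFunc F} : x ∈ Oi F ↔ x.intDegree ≤ 0 := Iff.rfl

theorem intDegree_zpow (n : ℤ) : ((RatFunc.X : RatFunc F) ^ n).intDegree = n := by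
  have hX : (RatFunc.X : RatFunc F) ≠ 0 := RatFunc.X_ne_zero
  have h1 : ∀ m : ℕ, ((RatFunc.X : RatFunc F) ^ m).intDegree = m := by
    intro m
    induction m with
    | zero => simp
    | succ m ih =>
      rw [pow_succ, RatFunc.intDegree_mul (pow_ne_zero _ hX) hX, ih, RatFunc.intDegree_X]
      push_cast
      ring
  obtain ⟨m, rfl | rfl⟩ := n.eq_nat_or_neg
  · rw [zpow_natCast, h1]
  · rw [zpow_neg, zpow_natCast, RatFunc.intDegree_inv, h1]

variable (F) in
/-- the uniformiser `1 / t`. -/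
noncomputable def piI : Oi F := ⟨(RatFunc.X : RatFunc F)⁻¹, by
  rw [mem_Oi, RatFunc.intDegree_inv, RatFunc.intDegree_X]
  omega⟩

theorem piI_ne_zero : piI F ≠ 0 := by
  intro h
  have := congrArg Subtype.val h
  exact inv_ne_zero (RatFunc.X_ne_zero (K := F)) this

theorem isUnit_Oi_iff {x : Oi F} (hx : x ≠ 0) : IsUnit x ↔ (x : RatFunc F).intDegree = 0 := by
  have hx0 : (x : RatFunc F) ≠ 0 := fun h => hx (Subtype.ext h)
  constructor
  · rintro ⟨u, rfl⟩
    have h1 := (u : Oi F).2
    have h2 := ((u⁻¹ : (Oi F)ˣ) : Oi F).2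
    rw [mem_Oi] at h1 h2
    have h3 : ((u : Oi F) : RatFunc F) * (((u⁻¹ : (Oi F)ˣ) : Oi F) : RatFunc F) = 1 := by
      have := congrArg Subtype.val u.mul_inv
      exact this
    have h4 : (((u⁻¹ : (Oi F)ˣ) : Oi F) : RatFunc F) ≠ 0 := by
      intro h
      rw [h, mul_zero] at h3
      exact zero_ne_one h3
    have h5 := congrArg RatFunc.intDegree h3
    rw [RatFunc.intDegree_mul hx0 h4, RatFunc.intDegree_one] at h5
    omega
  · intro h
    refine IsUnit.of_mul_eq_one (⟨(x : RatFunc F)⁻¹, ?_⟩ : Oi F) ?_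
    · rw [mem_Oi, RatFunc.intDegree_inv, h]
      simp
    · apply Subtype.ext
      show (x : RatFunc F) * (x : RatFunc F)⁻¹ = 1
      exact mul_inv_cancel₀ hx0

theorem irreducible_piI : Irreducible (piI F) := by
  constructor
  · rw [isUnit_Oi_iff piI_ne_zero]
    show ¬ ((RatFunc.X : RatFunc F)⁻¹).intDegree = 0
    rw [RatFunc.intDegree_inv, RatFunc.intDegree_X]
    omega
  · intro a b hab
    have ha : a ≠ 0 := by
      rintro rfl
      rw [zero_mul] at hab
      exact piI_ne_zero hab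
    have hb : b ≠ 0 := by
      rintro rfl
      rw [mul_zero] at hab
      exact piI_ne_zero hab
    have ha0 : (a : RatFunc F) ≠ 0 := fun h => ha (Subtype.ext h)
    have hb0 : (b : RatFunc F) ≠ 0 := fun h => hb (Subtype.ext h)
    have h1 : ((piI F : Oi F) : RatFunc F).intDegree = ((a * b : Oi F) : RatFunc F).intDegree :=
      congrArg (fun x : Oi F => (x : RatFunc F).intDegree) hab
    have h2 : ((a * b : Oi F) : RatFunc F).intDegree = (a : RatFunc F).intDegree + (b : RatFunc F).intDegree := by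
      show ((a : RatFunc F) * (b : RatFunc F)).intDegree = _
      exact RatFunc.intDegree_mul ha0 hb0
    have h3 : ((piI F : Oi F) : RatFunc F).intDegree = -1 := by
      show ((RatFunc.X : RatFunc F)⁻¹).intDegree = -1
      rw [RatFunc.intDegree_inv, RatFunc.intDegree_X]
    have h4 := a.2
    have h5 := b.2
    rw [mem_Oi] at h4 h5
    rw [isUnit_Oi_iff ha, isUnit_Oi_iff hb]
    rw [h2, h3] at h1
    omega

theorem exists_pow_piI {x : Oi F} (hx : x ≠ 0) : ∃ n : ℕ, Associated (piI F ^ n) x := by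
  have hx0 : (x : RatFunc F) ≠ 0 := fun h => hx (Subtype.ext h)
  have hX : (RatFunc.X : RatFunc F) ≠ 0 := RatFunc.X_ne_zero
  have h1 := x.2
  rw [mem_Oi] at h1
  refine ⟨(-(x : RatFunc F).intDegree).toNat, ?_⟩
  set n := (-(x : RatFunc F).intDegree).toNat with hn
  have hn' : (n : ℤ) = -(x : RatFunc F).intDegree := by omega
  have hy : ((x : RatFunc F) * RatFunc.X ^ n).intDegree = 0 := by
    rw [RatFunc.intDegree_mul hx0 (pow_ne_zero _ hX)]
    have := intDegree_zpow (F := F) (n : ℤ)
    rw [zpow_natCast] at this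
    rw [this]
    omega
  let y : Oi F := ⟨(x : RatFunc F) * RatFunc.X ^ n, by rw [mem_Oi, hy]⟩
  have hy0 : y ≠ 0 := by
    intro h
    have h2 := congrArg Subtype.val h
    exact mul_ne_zero hx0 (pow_ne_zero _ hX) h2
  have hu : IsUnit y := (isUnit_Oi_iff hy0).2 hy
  obtain ⟨u, hu⟩ := hu
  refine ⟨u, ?_⟩
  rw [hu]
  apply Subtype.ext
  show ((RatFunc.X : RatFunc F)⁻¹) ^ n * ((x : RatFunc F) * RatFunc.X ^ n) = (x : RatFunc F)
  rw [inv_pow]
  field_simp

instance : IsDiscreteValuationRing (Oi F) :=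
  IsDiscreteValuationRing.ofHasUnitMulPowIrreducibleFactorization
    ⟨piI F, irreducible_piI, fun hx => exists_pow_piI hx⟩

instance : IsFractionRing (Oi F) (RatFunc F) := by
  refine IsFractionRing.of_field (Oi F) (RatFunc F) ?_
  intro z
  by_cases h : z.intDegree ≤ 0
  · exact ⟨⟨z, h⟩, 1, by simp; rfl⟩
  · have hz0 : z ≠ 0 := by
      rintro rfl
      simp at h
    refine ⟨1, ⟨z⁻¹, ?_⟩, ?_⟩
    · rw [mem_Oi, RatFunc.intDegree_inv]
      omega
    · show z = (1 : RatFunc F) / z⁻¹
      rw [one_div, inv_inv]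

end Pool.Agent.SmB
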