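import Pool.Agent.Lib.SmB.Defs3
import Pool.Agent.Lib.SmB.P2aO

/-!
Module `P2LLq`. `dim A / (x) ≤ n m` for `0 ≠ x ∈ LL F L m`: the dimension is the degree of the norm
of `x`, and `x / t ^ m` is integral at infinity.
-/

set_option autoImplicit false

namespace Pool.Agent.SmB

open Module Polynomial

section

variable {F L : Type*} [Field F] [Field L] [Algebra (RatFunc F) L] [Algebra F[X] L] [Algebra F L]
  [IsScalarTower F F[X] L] [IsScalarTower F[X] (RatFunc F) L]

private noncomputable def P2LLq_cst (F : Type*) [Field F] : F →+* Oi F :=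
  RingHom.codRestrict (algebraMap F (RatFunc F)) (Oi F) (fun c => by
    rw [mem_Oi, RatFunc.algebraMap_eq_C, RatFunc.intDegree_C])

private noncomputable def P2LLq_psi (F : Type*) [Field F] : F[X] →+* Oi F :=
  Polynomial.eval₂RingHom (P2LLq_cst F) (piI F)

omit [Algebra F[X] L] [IsScalarTower F F[X] L] [IsScalarTower F[X] (RatFunc F) L] [Algebra F L] in
private theorem P2LLq_alg (z : Oi F) :
    algebraMap (Oi F) L z = algebraMap (RatFunc F) L (z : RatFunc F) := rfl

private theorem P2LLq_comp :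
    (algebraMap (Oi F) L).comp (P2LLq_psi F) =
      ((Polynomial.aeval (tL F L)⁻¹ : F[X] →ₐ[F] L) : F[X] →+* L) := by
  refine Polynomial.ringHom_ext ?_ ?_
  · intro c
    have h1 : P2LLq_psi F (C c) = P2LLq_cst F c := by
      rw [P2LLq_psi, Polynomial.coe_eval₂RingHom, Polynomial.eval₂_C]
    have h2 : ((Polynomial.aeval (tL F L)⁻¹ : F[X] →ₐ[F] L) : F[X] →+* L) (C c) =
        algebraMap F L c := Polynomial.aeval_C _ c
    rw [RingHom.comp_apply, h1, h2, P2LLq_alg]
    have h3 : ((P2LLq_cst F c : Oi F) : RatFunc F) = algebraMap F[X] (RatFunc F) (C c) := rfl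
    rw [h3, ← IsScalarTower.algebraMap_apply F[X] (RatFunc F) L,
      IsScalarTower.algebraMap_apply F F[X] L]
    rfl
  · have h1 : P2LLq_psi F X = piI F := by
      rw [P2LLq_psi, Polynomial.coe_eval₂RingHom, Polynomial.eval₂_X]
    have h2 : ((Polynomial.aeval (tL F L)⁻¹ : F[X] →ₐ[F] L) : F[X] →+* L) X =
        (tL F L)⁻¹ := Polynomial.aeval_X _
    rw [RingHom.comp_apply, h1, h2, P2LLq_alg]
    have h3 : ((piI F : Oi F) : RatFunc F) = (RatFunc.X)⁻¹ := rfl
    rw [h3, map_inv₀, ← RatFunc.algebraMap_X, ← IsScalarTower.algebraMap_apply F[X] (RatFunc F) L]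

private theorem P2LLq_int {m : ℕ} {x : AA F L} (hx : x ∈ LL F L m) :
    IsIntegral (Oi F) ((x : L) * (tL F L)⁻¹ ^ m) := by
  obtain ⟨p, hp, h⟩ := hx
  refine ⟨p.map (P2LLq_psi F), hp.map _, ?_⟩
  rw [Polynomial.eval₂_map, P2LLq_comp]
  exact h

private theorem P2LLq_norm [FiniteDimensional (RatFunc F) L] {m : ℕ} {x : AA F L}
    (hx : x ∈ LL F L m) (hx0 : x ≠ 0) (P : F[X])
    (hP : algebraMap F[X] (RatFunc F) P = Algebra.norm (RatFunc F) (x : L)) :
    P.natDegree ≤ finrank (RatFunc F) L * m := by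
  have hx0' : (x : L) ≠ 0 := fun h => hx0 (Subtype.ext h)
  have hN0 : Algebra.norm (RatFunc F) (x : L) ≠ 0 := Algebra.norm_ne_zero_iff.2 hx0'
  have h2 : IsIntegral (Oi F) (Algebra.norm (RatFunc F) ((x : L) * (tL F L)⁻¹ ^ m)) :=
    Algebra.isIntegral_norm _ (P2LLq_int hx)
  obtain ⟨z, hz⟩ := IsIntegrallyClosed.isIntegral_iff.1 h2
  have h3 : Algebra.norm (RatFunc F) ((tL F L)⁻¹ ^ m) =
      ((RatFunc.X : RatFunc F) ^ (-(m : ℤ))) ^ finrank (RatFunc F) L := by
    have : (tL F L)⁻¹ ^ m = algebraMap (RatFunc F) L (RatFunc.X ^ (-(m : ℤ))) := by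
      rw [map_zpow₀, zpow_neg, zpow_natCast, inv_pow, ← RatFunc.algebraMap_X,
        ← IsScalarTower.algebraMap_apply F[X] (RatFunc F) L]
    rw [this, Algebra.norm_algebraMap]
  have h4 : (z : RatFunc F) = Algebra.norm (RatFunc F) ((x : L) * (tL F L)⁻¹ ^ m) := hz
  have h5 := z.2
  rw [mem_Oi, h4, map_mul, h3,
    RatFunc.intDegree_mul hN0 (pow_ne_zero _ (zpow_ne_zero _ RatFunc.X_ne_zero)),
    ← hP, RatFunc.intDegree_polynomial, ← zpow_natCast, ← zpow_mul, intDegree_zpow] at h5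
  have h6 : -(m : ℤ) * (finrank (RatFunc F) L : ℤ) = -((finrank (RatFunc F) L * m : ℕ) : ℤ) := by
    push_cast
    ring
  rw [h6] at h5
  have h7 : (P.natDegree : ℤ) ≤ ((finrank (RatFunc F) L * m : ℕ) : ℤ) := by linarith
  exact_mod_cast h7

end

variable {F : Type*} [Field F] [IsAlgClosed F] {L : Type*} [Field L] [Algebra (RatFunc F) L]
  [Algebra F[X] L] [Algebra F L] [IsScalarTower F F[X] L] [IsScalarTower F[X] (RatFunc F) L]
  [FiniteDimensional (RatFunc F) L] [Algebra.IsSeparable (RatFunc F) L]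

omit [IsAlgClosed F] in
theorem ll_quot {m : ℕ} {x : AA F L} (hx : x ∈ LL F L m) (h0 : x ≠ 0) :
    Module.Finite F (AA F L ⧸ Ideal.span {x}) ∧
      finrank F (AA F L ⧸ Ideal.span {x}) ≤ finrank (RatFunc F) L * m := by
  haveI : Module.IsTorsionFree F[X] L := by
    rw [Module.isTorsionFree_iff_faithfulSMul, faithfulSMul_iff_algebraMap_injective,
      IsScalarTower.algebraMap_eq F[X] (RatFunc F) L]
    exact (algebraMap (RatFunc F) L).injective.comp (IsFractionRing.injective F[X] (RatFunc F))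
  haveI : Module.Finite F[X] (AA F L) := IsIntegralClosure.finite F[X] (RatFunc F) L (AA F L)
  haveI : Module.Free F[X] (AA F L) := IsIntegralClosure.module_free F[X] (RatFunc F) L (AA F L)
  haveI : IsLocalization (Algebra.algebraMapSubmonoid (AA F L) (nonZeroDivisors F[X])) L :=
    IsIntegralClosure.isLocalization F[X] (RatFunc F) L (AA F L)
  let b := Module.Free.chooseBasis F[X] (AA F L)
  have h1 := finrank_quotient_span_eq_natDegree_norm b h0
  have h2 : Algebra.norm (RatFunc F) (x : L) =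
      algebraMap F[X] (RatFunc F) (Algebra.norm F[X] x) :=
    Algebra.norm_localization F[X] (nonZeroDivisors F[X]) x
  refine ⟨?_, ?_⟩
  · have hI : Ideal.span {x} ≠ ⊥ := by
      rw [Ne, Ideal.span_singleton_eq_bot]
      exact h0
    have := Fintype.ofFinite (Module.Free.ChooseBasisIndex F[X] (AA F L))
    exact Module.Finite.equiv (Ideal.quotientEquivDirectSum F b hI).symm
  · rw [h1]
    exact P2LLq_norm hx h0 _ h2.symm

end Pool.Agent.SmB
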