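import Pool.Agent.Lib.SmB.P2cBas

/-!
Block B of SMITH, part 2c: `dim LL m ≥ n (m+1) - n (#B + 1)`.
-/

namespace Pool.Agent.SmB.P2c

open Module Polynomial

section dim

variable {F : Type*} [Field F] {L : Type*} [Field L] [Algebra (RatFunc F) L]
  [Algebra F[X] L] [Algebra F L] [IsScalarTower F F[X] L] [IsScalarTower F[X] (RatFunc F) L]

omit [Algebra F L] [IsScalarTower F F[X] L] in
private theorem P2cDim_tL : tL F L = algebraMap (RatFunc F) L RatFunc.X := by
  rw [← RatFunc.algebraMap_X, ← IsScalarTower.algebraMap_apply]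

omit [Algebra F L] [IsScalarTower F F[X] L] in
private theorem P2cDim_pow (m : ℕ) : (tL F L)⁻¹ ^ m = algebraMap (RatFunc F) L
    (RatFunc.X ^ (-(m : ℤ))) := by
  rw [P2cDim_tL, zpow_neg, zpow_natCast, map_inv₀, map_pow, inv_pow]

omit [Algebra F L] [IsScalarTower F F[X] L] in
private theorem P2cDim_sz {m : ℕ} {x : L} : IntInf F L (x * (tL F L)⁻¹ ^ m) ↔ Sz F (m : ℤ) x := by
  unfold Sz
  rw [P2cDim_pow, mul_comm]

private theorem P2cDim_const (c : F) : algebraMap F L c = algebraMap (RatFunc F) L (RatFunc.C c) := by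
  rw [IsScalarTower.algebraMap_apply F F[X] L, IsScalarTower.algebraMap_apply F[X] (RatFunc F) L]
  congr 1

theorem intInf_of {x : L} (h : IntOv F (tL F L)⁻¹ x) : IntInf F L x := by
  have hX : (RatFunc.X : RatFunc F)⁻¹ ∈ DInf F := by
    rw [mem_DInf]
    right
    rw [RatFunc.intDegree_inv, RatFunc.intDegree_X]
    norm_num
  have hC : ∀ c : F, RatFunc.C c ∈ DInf F := by
    intro c
    rw [mem_DInf]
    right
    rw [RatFunc.intDegree_C]
  let ψ : F[X] →+* DInf F := Polynomial.eval₂RingHom
    ((RatFunc.C : F →+* RatFunc F).codRestrict (DInf F).toSubring hC) ⟨RatFunc.X⁻¹, hX⟩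
  have hcomp : (((algebraMap (RatFunc F) L).comp (DInf F).subtype).comp ψ : F[X] →+* L) =
      ((Polynomial.aeval (tL F L)⁻¹ : F[X] →ₐ[F] L) : F[X] →+* L) := by
    apply Polynomial.ringHom_ext
    · intro c
      show algebraMap (RatFunc F) L (((DInf F).subtype) (ψ (C c))) = aeval (tL F L)⁻¹ (C c)
      rw [aeval_C]
      refine Eq.trans ?_ (P2cDim_const (F := F) (L := L) c).symm
      congr 1
      show ((Polynomial.eval₂ _ _ (C c) : DInf F) : RatFunc F) = _
      rw [eval₂_C]
      rfl
    · show algebraMap (RatFunc F) L (((DInf F).subtype) (ψ X)) = aeval (tL F L)⁻¹ (X : F[X])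
      rw [aeval_X, P2cDim_tL, ← map_inv₀]
      congr 1
      show ((Polynomial.eval₂ _ _ X : DInf F) : RatFunc F) = _
      rw [eval₂_X]
  obtain ⟨p, hp, hpx⟩ := h
  refine ⟨p.map ψ, hp.map _, ?_⟩
  rw [eval₂_map, hcomp]
  exact hpx

theorem sz_of_mem_LL {m : ℕ} {x : AA F L} (h : x ∈ LL F L m) : Sz F (m : ℤ) (x : L) :=
  P2cDim_sz.1 (intInf_of (mem_LL.1 h))

/-- `∑ p i * w i` -/
noncomputable def comb {n : ℕ} (w : Fin n → L) (d : Fin n → ℕ) :
    ((i : Fin n) → Polynomial.degreeLT F (d i)) →ₗ[F] L where
  toFun p := ∑ i, algebraMap F[X] L (p i : F[X]) * w i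
  map_add' p p' := by
    rw [← Finset.sum_add_distrib]
    refine Finset.sum_congr rfl fun i _ => ?_
    rw [Pi.add_apply, Submodule.coe_add, map_add, add_mul]
  map_smul' c p := by
    rw [RingHom.id_apply, Finset.smul_sum]
    refine Finset.sum_congr rfl fun i _ => ?_
    have h1 : algebraMap F[X] L (((c • p) i : Polynomial.degreeLT F (d i)) : F[X]) =
        algebraMap F L c * algebraMap F[X] L (p i : F[X]) := by
      rw [Pi.smul_apply, Submodule.coe_smul, Polynomial.smul_eq_C_mul, map_mul]
      congr 1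
      rw [IsScalarTower.algebraMap_apply F F[X] L, Polynomial.algebraMap_eq]
    rw [h1, mul_assoc]
    exact (Algebra.smul_def c _).symm

theorem comb_apply {n : ℕ} (w : Fin n → L) (d : Fin n → ℕ)
    (p : (i : Fin n) → Polynomial.degreeLT F (d i)) :
    comb w d p = ∑ i, algebraMap F[X] L (p i : F[X]) * w i := rfl

theorem comb_smul {n : ℕ} (w : Fin n → L) (d : Fin n → ℕ)
    (p : (i : Fin n) → Polynomial.degreeLT F (d i)) :
    comb w d p = ∑ i, (algebraMap F[X] (RatFunc F) (p i : F[X])) • w i := by
  rw [comb_apply]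
  refine Finset.sum_congr rfl fun i _ => ?_
  rw [Algebra.smul_def, ← IsScalarTower.algebraMap_apply]

theorem comb_injective {n : ℕ} (w : Basis (Fin n) (RatFunc F) L) (d : Fin n → ℕ) :
    Function.Injective (comb (F := F) w d) := by
  rw [injective_iff_map_eq_zero]
  intro p hp
  rw [comb_smul] at hp
  funext i
  have h1 := Fintype.linearIndependent_iff.1 w.linearIndependent _ hp i
  rw [map_eq_zero_iff _ (IsFractionRing.injective F[X] (RatFunc F))] at h1
  exact Subtype.ext h1

theorem fin_LL [FiniteDimensional (RatFunc F) L] (m : ℕ) : Module.Finite F (LL F L m) := by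
  obtain ⟨w, y, hw, hy, hpol, hdeg⟩ := exists_adapted (F := F) (L := L)
  have hfin : FiniteDimensional F (LinearMap.range (comb (F := F) w (fun _ => m + 1))) := by
    have : FiniteDimensional F ((i : Fin (finrank (RatFunc F) L)) → Polynomial.degreeLT F (m + 1)) := by
      have : ∀ i : Fin (finrank (RatFunc F) L), FiniteDimensional F (Polynomial.degreeLT F (m + 1)) :=
        fun _ => Module.Finite.equiv (Polynomial.degreeLTEquiv F (m + 1)).symm
      infer_instance
    infer_instance
  have hmem : ∀ x : LL F L m, ((x : AA F L) : L) ∈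
      LinearMap.range (comb (F := F) w (fun _ => m + 1)) := by
    intro x
    choose p hp using hpol _ (x : AA F L).2
    have hd := hdeg _ _ (sz_of_mem_LL x.2)
    have hp' : ∀ i, p i ∈ Polynomial.degreeLT F (m + 1) := by
      intro i
      rw [Polynomial.mem_degreeLT]
      have h1 := (hd i).mono (show (m : ℤ) - y i ≤ m by omega)
      rw [hp i, dLe_polynomial] at h1
      exact lt_of_le_of_lt degree_le_natDegree (by exact_mod_cast Nat.lt_succ_of_le h1)
    refine ⟨fun i => ⟨p i, hp' i⟩, ?_⟩
    rw [comb_smul]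
    conv_rhs => rw [← w.sum_repr (((x : AA F L)) : L)]
    refine Finset.sum_congr rfl fun i _ => ?_
    rw [hp i]
  let φ : LL F L m →ₗ[F] LinearMap.range (comb (F := F) w (fun _ => m + 1)) :=
    { toFun := fun x => ⟨((x : AA F L) : L), hmem x⟩
      map_add' := fun _ _ => rfl
      map_smul' := fun c x => by
        refine Subtype.ext ?_
        rfl }
  refine Module.Finite.of_injective φ ?_
  intro a b h
  have h1 : ((a : AA F L) : L) = ((b : AA F L) : L) :=
    congrArg (fun z : LinearMap.range (comb (F := F) w (fun _ => m + 1)) => (z : L)) h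
  exact Subtype.ext (Subtype.ext h1)

end dim

section main

variable {F : Type*} [Field F] [IsAlgClosed F] {L : Type*} [Field L] [Algebra (RatFunc F) L]
  [Algebra F[X] L] [Algebra F L] [IsScalarTower F F[X] L] [IsScalarTower F[X] (RatFunc F) L]
  [FiniteDimensional (RatFunc F) L] [IsGalois (RatFunc F) L]

theorem ll_dim' (h2 : (2 : F) ≠ 0) (s : ℕ)
    (hn : finrank (RatFunc F) L = 2 ^ s) (B : Finset F) (hB : ∀ c, c ∉ B → UnramM L (X - C c))
    (m : ℕ) :
    finrank (RatFunc F) L * (m + 1) ≤
      finrank F (LL F L m) + finrank (RatFunc F) L * (B.card + 1) := by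
  classical
  obtain ⟨w, y, hw, hy, hpol, hdeg⟩ := exists_adapted (F := F) (L := L)
  have hfin := fin_LL (F := F) (L := L) m
  -- the sizes are bounded
  have hyB : ∀ i, y i ≤ B.card + 1 := by
    intro i
    let w' := (Algebra.traceForm (RatFunc F) L).dualBasis (traceForm_nondegenerate (RatFunc F) L) w
    have hw' : ∀ x : L, Algebra.trace (RatFunc F) L (w' i * x) = w.repr x i := by
      intro x
      conv_lhs => rw [← w.sum_repr x, Finset.mul_sum, map_sum]
      rw [Finset.sum_eq_single i]
      · rw [mul_smul_comm, map_smul, ← Algebra.traceForm_apply]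
        rw [LinearMap.BilinForm.apply_dualBasis_left, if_pos rfl, smul_eq_mul, mul_one]
      · intro j _ hj
        rw [mul_smul_comm, map_smul, ← Algebra.traceForm_apply]
        rw [LinearMap.BilinForm.apply_dualBasis_left, if_neg hj, smul_zero]
      · intro h
        exact absurd (Finset.mem_univ _) h
    obtain ⟨z, hz⟩ := dual_fin h2 s hn B hB (w' i) (fun a => by
      rw [hw']
      exact hpol _ a.2 i)
    have hinf := dual_inf h2 s hn (algebraMap (RatFunc F) L (RatFunc.X ^ (y i : ℤ)) * w' i)
      (fun b hb => by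
        rw [mul_assoc, ← Algebra.smul_def, map_smul, hw', smul_eq_mul]
        have h0 : Sz F 0 b := by
          unfold Sz
          rw [neg_zero, zpow_zero, map_one, one_mul]
          exact hb
        have h1 := hdeg b 0 h0 i
        unfold DLe at h1
        rw [zero_sub, neg_neg] at h1
        exact h1)
    have hsz : Sz F (1 - (y i : ℤ)) (w' i) := by
      unfold Sz
      have h1 : algebraMap (RatFunc F) L (RatFunc.X ^ (-(1 - (y i : ℤ)))) * w' i =
          (tL F L)⁻¹ * (algebraMap (RatFunc F) L (RatFunc.X ^ (y i : ℤ)) * w' i) := by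
        rw [P2cDim_tL, ← map_inv₀, ← mul_assoc, ← map_mul]
        congr 2
        rw [neg_sub, sub_eq_add_neg, zpow_add₀ RatFunc.X_ne_zero, zpow_neg, zpow_one, mul_comm]
      rw [h1]
      exact hinf
    set gB : F[X] := ∏ c ∈ B, (X - C c) with hgB
    have hgBm : gB.Monic := monic_prod_of_monic _ _ fun c _ => monic_X_sub_C c
    have hgdeg : gB.natDegree = B.card := by
      rw [hgB, natDegree_prod_of_monic _ _ fun c _ => monic_X_sub_C c]
      simp
    have hsz2 : Sz F ((B.card : ℤ) + (1 - (y i : ℤ))) (z : L) := by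
      rw [hz, IsScalarTower.algebraMap_apply F[X] (RatFunc F) L, ← Algebra.smul_def]
      refine hsz.smul ?_
      rw [dLe_polynomial, hgdeg]
    have hz0 : (z : L) ≠ 0 := by
      rw [hz]
      refine mul_ne_zero ?_ (w'.ne_zero i)
      rw [IsScalarTower.algebraMap_apply F[X] (RatFunc F) L, Ne, map_eq_zero,
        map_eq_zero_iff _ (IsFractionRing.injective F[X] (RatFunc F))]
      exact hgBm.ne_zero
    have h3 := sz_nonneg z.2 hz0 hsz2
    omega
  -- the lower bound
  have hlow : ∑ i, (m + 1 - y i) ≤ finrank F (LL F L m) := by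
    have hmem : ∀ p : ((i : Fin (finrank (RatFunc F) L)) → Polynomial.degreeLT F (m + 1 - y i)),
        ∃ x : LL F L m, ((x : AA F L) : L) = comb (F := F) w (fun i => m + 1 - y i) p := by
      intro p
      have hA : comb (F := F) w (fun i => m + 1 - y i) p ∈ AA F L := by
        rw [comb_apply]
        exact sum_mem fun i _ => mul_mem (Subalgebra.algebraMap_mem _ _) (hw i)
      have hS : Sz F (m : ℤ) (comb (F := F) w (fun i => m + 1 - y i) p) := by
        rw [comb_smul]
        refine Sz.sum _ fun i _ => ?_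
        by_cases hi : y i ≤ m
        · have h1 : DLe ((m - y i : ℕ) : ℤ) (algebraMap F[X] (RatFunc F) (p i : F[X])) := by
            rw [dLe_polynomial]
            have h2 := Polynomial.mem_degreeLT.1 (p i).2
            by_cases h3 : (p i : F[X]) = 0
            · rw [h3, natDegree_zero]
              exact Nat.zero_le _
            · have h4 := (natDegree_lt_iff_degree_lt h3).2 h2
              omega
          have h5 := (hy i).smul h1
          have h6 : ((m - y i : ℕ) : ℤ) + y i = m := by omega
          rwa [h6] at h5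
        · have h2 := Polynomial.mem_degreeLT.1 (p i).2
          have h3 : m + 1 - y i = 0 := by omega
          have h4 : (p i : F[X]) = 0 := by
            rw [← Polynomial.degree_eq_bot]
            have h5 : (p i : F[X]).degree < ((0 : ℕ) : WithBot ℕ) :=
              lt_of_lt_of_le h2 (by exact_mod_cast h3.le)
            exact Nat.WithBot.lt_zero_iff.1 h5
          rw [h4, map_zero, zero_smul]
          exact Sz.zero _
      refine ⟨⟨⟨_, hA⟩, ?_⟩, rfl⟩
      rw [mem_LL]
      exact intOv_of ⟨_, hA⟩ m (P2cDim_sz.2 hS)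
    choose Ψ hΨ using hmem
    let Ψl : ((i : Fin (finrank (RatFunc F) L)) → Polynomial.degreeLT F (m + 1 - y i)) →ₗ[F]
        LL F L m :=
      { toFun := Ψ
        map_add' := fun p p' => by
          refine Subtype.ext (Subtype.ext ?_)
          show ((Ψ (p + p') : AA F L) : L) = ((Ψ p : AA F L) : L) + ((Ψ p' : AA F L) : L)
          rw [hΨ, hΨ, hΨ, map_add]
        map_smul' := fun c p => by
          refine Subtype.ext (Subtype.ext ?_)
          show ((Ψ (c • p) : AA F L) : L) = c • ((Ψ p : AA F L) : L)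
          rw [hΨ, hΨ, map_smul] }
    have hinj : Function.Injective Ψl := by
      intro p p' h
      have h1 : ((Ψ p : AA F L) : L) = ((Ψ p' : AA F L) : L) := by
        have h2 : Ψ p = Ψ p' := h
        rw [h2]
      rw [hΨ, hΨ] at h1
      exact comb_injective w _ h1
    have h1 := LinearMap.finrank_le_finrank_of_injective hinj
    have hf : ∀ d : ℕ, FiniteDimensional F (Polynomial.degreeLT F d) :=
      fun d => Module.Finite.equiv (Polynomial.degreeLTEquiv F d).symm
    rw [Module.finrank_pi_fintype] at h1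
    refine le_trans (le_of_eq ?_) h1
    refine Finset.sum_congr rfl fun i _ => ?_
    rw [(Polynomial.degreeLTEquiv F (m + 1 - y i)).finrank_eq, Module.finrank_fin_fun]
  have hsum : finrank (RatFunc F) L * (m + 1) ≤ ∑ i, (m + 1 - y i) + ∑ i, y i := by
    rw [← Finset.sum_add_distrib]
    have h1 : finrank (RatFunc F) L * (m + 1) =
        ∑ _i : Fin (finrank (RatFunc F) L), (m + 1) := by
      rw [Finset.sum_const, Finset.card_univ, Fintype.card_fin, smul_eq_mul]
    rw [h1]
    exact Finset.sum_le_sum fun i _ => by omega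
  have hsum2 : ∑ i, y i ≤ finrank (RatFunc F) L * (B.card + 1) := by
    have h1 : finrank (RatFunc F) L * (B.card + 1) =
        ∑ _i : Fin (finrank (RatFunc F) L), (B.card + 1) := by
      rw [Finset.sum_const, Finset.card_univ, Fintype.card_fin, smul_eq_mul]
    rw [h1]
    exact Finset.sum_le_sum fun i _ => hyB i
  omega

end main

end Pool.Agent.SmB.P2c

namespace Pool.Agent.SmB

open Module Polynomial

variable {F : Type*} [Field F] [IsAlgClosed F] {L : Type*} [Field L] [Algebra (RatFunc F) L]
  [Algebra F[X] L] [Algebra F L] [IsScalarTower F F[X] L] [IsScalarTower F[X] (RatFunc F) L]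
  [FiniteDimensional (RatFunc F) L] [IsGalois (RatFunc F) L]

theorem ll_dim (h2 : (2 : F) ≠ 0) (s : ℕ)
    (hn : finrank (RatFunc F) L = 2 ^ s) (B : Finset F) (hB : ∀ c, c ∉ B → UnramM L (X - C c))
    (m : ℕ) :
    finrank (RatFunc F) L * (m + 1) ≤
      finrank F (LL F L m) + (finrank (RatFunc F) L) ^ 2 * (B.card + 1) := by
  refine (P2c.ll_dim' h2 s hn B hB m).trans ?_
  have h1 : 1 ≤ finrank (RatFunc F) L := finrank_pos
  have h3 : finrank (RatFunc F) L ≤ finrank (RatFunc F) L ^ 2 := by nlinarith
  exact Nat.add_le_add_left (Nat.mul_le_mul_right _ h3) _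

end Pool.Agent.SmB
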