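import Pool.Agent.Lib.SmB.P2LLa
import Pool.Agent.Lib.SmB.P2LLq
import Pool.Agent.Lib.SmB.P2cDim

/-!
The eight statements `ll_one`, `ll_mul`, `ll_quot`, `ll_t`, `ll_t_ne`, `ll_stable`, `aa_stable`,
`ll_dim` of the interface between P2a, P2c and `P2Final` (proved in the imported files).
-/
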