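import Pool.Agent.Lib.SmB.Zeros

/-!
Module `Triv` (50 lines). The trivial bound `n Q`.

PROOF. For `φ ∈ Pt Ω Θ Q`, `c = φ F.t` satisfies `c ^ Q = c` (as `Θ F.t = F.t`), so `c` is one of
the at most `Q` roots of the non-zero polynomial `X ^ Q - X` (`1 < Q`), and
`φ (F.t - algebraMap c) = 0`. By `zeros_le`, `F.t_mem`, `F.t_ne` and `F.quot` (with `m = 1`) there
are at most `n` such `φ` for every `c`. Union over the finite set of roots
(`Set.Finite.biUnion`, `Finset.card_biUnion_le` or `Set.ncard` of a finite union).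
-/

namespace Pool.Agent.SmB

open Module

private theorem Triv_one {Ω A : Type*} [Field Ω] [CommRing A] [Algebra Ω A] {n δ : ℕ}
    (F : Filt Ω A n δ) (c : Ω) :
    {φ : A →ₐ[Ω] Ω | φ (F.t - algebraMap Ω A c) = 0}.Finite ∧
      {φ : A →ₐ[Ω] Ω | φ (F.t - algebraMap Ω A c) = 0}.ncard ≤ n := by
  obtain ⟨h1, h2⟩ := F.quot (F.t_mem c) (F.t_ne c)
  have h3 := zeros_le (Ω := Ω) (F.t - algebraMap Ω A c)
  refine ⟨h3.1, h3.2.trans ?_⟩
  rwa [mul_one] at h2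

theorem triv_bound {Ω A : Type*} [Field Ω] [CommRing A] [Algebra Ω A] {n δ : ℕ}
    (F : Filt Ω A n δ) (Θ : A → A) (hΘ : Θ F.t = F.t) (Q : ℕ) (hQ : 1 < Q) :
    (Pt Ω Θ Q).Finite ∧ (Pt Ω Θ Q).ncard ≤ n * Q := by
  classical
  obtain ⟨R, hRc, hR⟩ : ∃ R : Finset Ω, R.card ≤ Q ∧ ∀ c : Ω, c ^ Q = c → c ∈ R := by
    refine ⟨(Polynomial.X ^ Q - Polynomial.X : Polynomial Ω).roots.toFinset, ?_, ?_⟩
    · refine (Multiset.toFinset_card_le _).trans ((Polynomial.card_roots' _).trans ?_)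
      rw [FiniteField.X_pow_card_sub_X_natDegree_eq Ω hQ]
    · intro c hc
      rw [Multiset.mem_toFinset, Polynomial.mem_roots (FiniteField.X_pow_card_sub_X_ne_zero Ω hQ),
        Polynomial.IsRoot.def]
      simp [hc]
  have hsub : Pt Ω Θ Q ⊆ ⋃ c ∈ R, {φ : A →ₐ[Ω] Ω | φ (F.t - algebraMap Ω A c) = 0} := by
    intro φ hφ
    have h1 : φ F.t ^ Q = φ F.t := by
      rw [← hφ F.t, hΘ]
    refine Set.mem_biUnion (hR _ h1) ?_
    rw [Set.mem_ofPred_eq, map_sub, AlgHom.commutes, Algebra.algebraMap_self, RingHom.id_apply,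
      sub_self]
  have hfin : (⋃ c ∈ R, {φ : A →ₐ[Ω] Ω | φ (F.t - algebraMap Ω A c) = 0}).Finite :=
    R.finite_toSet.biUnion fun c _ => (Triv_one F c).1
  refine ⟨hfin.subset hsub, ?_⟩
  calc (Pt Ω Θ Q).ncard
      ≤ (⋃ c ∈ R, {φ : A →ₐ[Ω] Ω | φ (F.t - algebraMap Ω A c) = 0}).ncard :=
        Set.ncard_le_ncard hsub hfin
    _ ≤ ∑ c ∈ R, {φ : A →ₐ[Ω] Ω | φ (F.t - algebraMap Ω A c) = 0}.ncard :=
        Finset.set_ncard_biUnion_le _ _
    _ ≤ ∑ c ∈ R, n := Finset.sum_le_sum fun c _ => (Triv_one F c).2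
    _ = R.card * n := by rw [Finset.sum_const, smul_eq_mul]
    _ ≤ Q * n := Nat.mul_le_mul_right _ hRc
    _ = n * Q := mul_comm _ _

end Pool.Agent.SmB
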