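import Pool.Agent.Lib.SmB.Core
import Pool.Agent.Lib.SmB.Triv

/-!
Module `Step` (100 lines). Stepanov's bound: `#Pt ≤ Q + 4 n (δ + 1) p ^ ν`, `Q = p ^ (μ + ν)`,
`μ ≤ ν`.

PROOF. Put `P = p ^ ν ≥ 2`, `M = p ^ μ ≤ P`.
Case A: `P ≤ 2 δ + 1`. By `triv_bound` `#Pt ≤ n M P`, and `n M P ≤ n P P ≤ n (2 δ + 1) P`.
Case B: `2 δ + 2 ≤ P`. Take `u = (P - 1) / n` and `l = (M + 4 δ) / n` (natural division). Then
`n u ≤ P - 1`, `P ≤ n (u + 1)`, `n l ≤ M + 4 δ`, `M + 4 δ + 1 ≤ n (l + 1)`. By `F.dim`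
`du := finrank (F.L u) ≥ P - δ` and `X := finrank (F.L l) ≥ n (l + 1) - δ ≥ M + 3 δ + 1`.
The condition `h2` of `step_core`: `n (M u + l) + 1 ≤ M (P - 1) + n l + 1` and
`n l + 1 ≤ n (l+1) ≤ X + δ`. (For `n = 0` the statement of `F.dim`... note `1 ≤ n` is assumed.) So
it is enough that `M (P - 1) + X + δ < X (P - δ)`, i.e. `M (P - 1) + δ < X (P - δ - 1)`. Now
`X (P - δ - 1) ≥ (M + 3 δ + 1)(P - δ - 1) = M (P - 1) - δ M + (3 δ + 1)(P - δ - 1)` and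
`(3 δ + 1)(P - δ - 1) ≥ (3 δ + 1) P / 2 > δ P + δ ≥ δ M + δ` because `P ≥ 2 δ + 2`, `P ≥ 2`
(`3 δ P + P - 2 δ P - 2 δ = δ P + P - 2 δ > 0`). `step_core` gives
`#Pt ≤ n (u + P l) ≤ P - 1 + P (M + 4 δ) ≤ M P + (4 δ + 1) P ≤ M P + 4 n (δ + 1) P`.
(Replace `X` by the exact `finrank`; the inequality `n l + 1 ≤ X + δ` uses `F.dim l` and `1 ≤ n`.)
`M P = p ^ (μ + ν)` (`pow_add`).
-/

namespace Pool.Agent.SmB

open Module

theorem stepanov {Ω A : Type*} [Field Ω] [IsAlgClosed Ω] [CommRing A] [IsDomain A] [Algebra Ω A]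
    (w : RVal Ω A) (p μ ν : ℕ) [Fact p.Prime] [CharP Ω p] {n δ : ℕ} (hn : 1 ≤ n)
    (F : Filt Ω A n δ) (Θ : A → A) (hΘ : ∀ (m : ℕ) (x : A), x ∈ F.L m → Θ x ∈ F.L m)
    (ht : Θ F.t = F.t) (hμ : μ ≤ ν) (hν : 1 ≤ ν) :
    (Pt Ω Θ (p ^ (μ + ν))).Finite ∧
      (Pt Ω Θ (p ^ (μ + ν))).ncard ≤ p ^ (μ + ν) + 4 * n * (δ + 1) * p ^ ν := by
  have hp : 1 < p := (Fact.out : p.Prime).one_lt
  have hMP : p ^ μ ≤ p ^ ν := Nat.pow_le_pow_right hp.le hμ
  have hP2 : 1 < p ^ ν := Nat.one_lt_pow (by omega) hp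
  have hQ : p ^ (μ + ν) = p ^ μ * p ^ ν := pow_add _ _ _
  have hQ1 : 1 < p ^ (μ + ν) := Nat.one_lt_pow (by omega) hp
  by_cases hc : p ^ ν ≤ 2 * δ + 1
  · obtain ⟨h1, h2⟩ := triv_bound F Θ ht (p ^ (μ + ν)) hQ1
    refine ⟨h1, h2.trans ?_⟩
    rw [hQ]
    generalize p ^ ν = P at *
    generalize p ^ μ = M at *
    have h3 : n * (M * P) ≤ n * ((2 * δ + 1) * P) :=
      Nat.mul_le_mul_left _ (Nat.mul_le_mul_right _ (hMP.trans hc))
    have h4 : n * ((2 * δ + 1) * P) ≤ 4 * n * (δ + 1) * P := by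
      have h5 : 4 * n * (δ + 1) * P = n * ((2 * δ + 1) * P) + n * ((2 * δ + 3) * P) := by ring
      omega
    omega
  · have hu1 : n * ((p ^ ν - 1) / n) ≤ p ^ ν - 1 := Nat.mul_div_le _ _
    have hu2 : p ^ ν - 1 < n * ((p ^ ν - 1) / n + 1) := Nat.lt_mul_div_succ _ (by omega)
    have hl1 : n * ((p ^ μ + 4 * δ) / n) ≤ p ^ μ + 4 * δ := Nat.mul_div_le _ _
    have hl2 : p ^ μ + 4 * δ < n * ((p ^ μ + 4 * δ) / n + 1) := Nat.lt_mul_div_succ _ (by omega)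
    have hX := F.dim ((p ^ μ + 4 * δ) / n)
    have hY := F.dim ((p ^ ν - 1) / n)
    obtain ⟨h1, h2⟩ := step_core w p μ ν F Θ hΘ ((p ^ ν - 1) / n) ((p ^ μ + 4 * δ) / n)
      (by omega) (by
        generalize finrank Ω (F.L ((p ^ μ + 4 * δ) / n)) = X at *
        generalize finrank Ω (F.L ((p ^ ν - 1) / n)) = Y at *
        generalize (p ^ ν - 1) / n = u at *
        generalize (p ^ μ + 4 * δ) / n = l at *
        generalize p ^ ν = P at *
        generalize p ^ μ = M at *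
        obtain ⟨j, rfl⟩ : ∃ j, P = δ + (δ + 1 + j) + 1 := ⟨P - (2 * δ + 2), by omega⟩
        have a1 : M + 3 * δ + 1 ≤ X := by omega
        have a2 : δ + 1 + j + 1 ≤ Y := by omega
        have a3 : n * l + 1 ≤ X + δ := by
          have : n * (l + 1) = n * l + n := by ring
          omega
        have a4 : n * (M * u) ≤ M * (δ + (δ + 1 + j)) := by
          have b1 : n * u ≤ δ + (δ + 1 + j) := by omega
          calc n * (M * u) = M * (n * u) := by ring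
            _ ≤ _ := Nat.mul_le_mul_left _ b1
        have a5 : n * (M * u + l) + 1 ≤ M * (δ + (δ + 1 + j)) + (X + δ) := by
          have b2 : n * (M * u + l) = n * (M * u) + n * l := by ring
          omega
        have a6 : X * (δ + 1 + j + 1) ≤ X * Y := Nat.mul_le_mul_left _ a2
        have a7 : (M + 3 * δ + 1) * (δ + 1 + j) ≤ X * (δ + 1 + j) := Nat.mul_le_mul_right _ a1
        have a8 : M * δ ≤ (δ + (δ + 1 + j) + 1) * δ := Nat.mul_le_mul_right _ hMP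
        have a9 : M * (δ + (δ + 1 + j)) + δ < (M + 3 * δ + 1) * (δ + 1 + j) := by
          nlinarith
        have a10 : X * (δ + 1 + j + 1) = X * (δ + 1 + j) + X := by ring
        omega)
    refine ⟨h1, h2.trans ?_⟩
    rw [hQ]
    generalize (p ^ ν - 1) / n = u at *
    generalize (p ^ μ + 4 * δ) / n = l at *
    generalize p ^ ν = P at *
    generalize p ^ μ = M at *
    have c1 : n * (u + P * l) = n * u + P * (n * l) := by ring
    have c2 : P * (n * l) ≤ P * (M + 4 * δ) := Nat.mul_le_mul_left _ hl1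
    have c3 : 4 * 1 * (δ + 1) * P ≤ 4 * n * (δ + 1) * P :=
      Nat.mul_le_mul_right _ (Nat.mul_le_mul_right _ (Nat.mul_le_mul_left _ hn))
    have c4 : P * (M + 4 * δ) = M * P + 4 * δ * P := by ring
    have c5 : 4 * 1 * (δ + 1) * P = 4 * δ * P + 4 * P := by ring
    omega

end Pool.Agent.SmB
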