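import Pool.Agent.Lib.SmB.P2bFib
import Pool.Agent.Lib.SmB.Step
import Pool.Agent.Lib.SmB.P2LL

/-!
Module `P2Final`. The two-sided bound for the number of points of Frobenius type.
-/

namespace Pool.Agent.SmB

open Module Polynomial

variable {F : Type*} [Field F] [IsAlgClosed F] {L : Type*} [Field L] [Algebra (RatFunc F) L]
  [Algebra F[X] L] [Algebra F L] [IsScalarTower F F[X] L] [IsScalarTower F[X] (RatFunc F) L]
  [FiniteDimensional (RatFunc F) L]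

omit [IsAlgClosed F] [Algebra F L] [IsScalarTower F F[X] L] [FiniteDimensional (RatFunc F) L] in
/-- The composition of a lift of Frobenius with an element of the Galois group. -/
theorem P2Final_trans {Q : ℕ} {Θ : L ≃+* L} (hΘ : FrobLift F Q Θ) (g : L ≃ₐ[RatFunc F] L) :
    FrobLift F Q (Θ.trans g.toRingEquiv) := by
  have hg : ∀ f : F[X], g (algebraMap F[X] L f) = algebraMap F[X] L f := by
    intro f
    rw [IsScalarTower.algebraMap_apply F[X] (RatFunc F) L]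
    exact g.commutes _
  constructor
  · change g (Θ (algebraMap F[X] L X)) = _
    rw [hΘ.map_X, hg]
  · intro c
    change g (Θ (algebraMap F[X] L (C c))) = _
    rw [hΘ.map_C, hg]

/-- The filtration of `AA F L` by the spaces `LL F L m`. -/
noncomputable def P2Final_filt [IsGalois (RatFunc F) L] (h2 : (2 : F) ≠ 0) (s : ℕ)
    (hn : finrank (RatFunc F) L = 2 ^ s) (B : Finset F)
    (hB : ∀ c, c ∉ B → UnramM L (X - C c)) :
    Filt F (AA F L) (finrank (RatFunc F) L) ((finrank (RatFunc F) L) ^ 2 * (B.card + 1)) where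
  L := LL F L
  one := ll_one
  mul := fun hx hy => ll_mul hx hy
  quot := fun hx h0 => ll_quot hx h0
  dim := ll_dim h2 s hn B hB
  t := tA F L
  t_mem := ll_t
  t_ne := ll_t_ne

/-- Stepanov's bound for points of Frobenius type. -/
theorem P2Final_upper [IsGalois (RatFunc F) L] (p : ℕ) [Fact p.Prime] [CharP F p]
    (h2 : (2 : F) ≠ 0) (s : ℕ) (hn : finrank (RatFunc F) L = 2 ^ s) (B : Finset F)
    (hB : ∀ c, c ∉ B → UnramM L (X - C c)) (μ ν : ℕ) (hμ : μ ≤ ν) (hν : 1 ≤ ν) {Θ : L ≃+* L}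
    (hΘ : FrobLift F (p ^ (μ + ν)) Θ) :
    (PtL F Θ (p ^ (μ + ν))).Finite ∧
      (PtL F Θ (p ^ (μ + ν))).ncard ≤
        p ^ (μ + ν) + 8 * (finrank (RatFunc F) L) ^ 3 * (B.card + 1) * p ^ ν := by
  classical
  obtain ⟨w⟩ := exists_rval (F := F) (L := L)
  have hpos : 1 ≤ finrank (RatFunc F) L := finrank_pos
  choose θ hθ using fun x : AA F L => aa_stable hΘ x
  have hPt : PtL F Θ (p ^ (μ + ν)) = Pt F θ (p ^ (μ + ν)) := by
    ext φ
    constructor
    · intro h x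
      exact h x (θ x) (hθ x)
    · intro h x y hy
      have h1 : y = θ x := Subtype.ext (hy.trans (hθ x).symm)
      rw [h1]
      exact h x
  have htt : θ (P2Final_filt (L := L) h2 s hn B hB).t = (P2Final_filt (L := L) h2 s hn B hB).t := by
    apply Subtype.ext
    rw [hθ]
    exact hΘ.map_X
  have key := stepanov w p μ ν hpos (P2Final_filt (L := L) h2 s hn B hB) θ
    (fun m x hx => ll_stable hΘ hx (hθ x)) htt hμ hν
  rw [hPt]
  refine ⟨key.1, key.2.trans ?_⟩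
  clear key htt
  generalize finrank (RatFunc F) L = n at *
  have h3 : 4 * n * (n ^ 2 * (B.card + 1) + 1) ≤ 8 * n ^ 3 * (B.card + 1) := by
    have h4 : n ≤ n ^ 3 * (B.card + 1) := by
      calc n = n ^ 1 * 1 := by ring
        _ ≤ n ^ 3 * (B.card + 1) :=
          Nat.mul_le_mul (Nat.pow_le_pow_right hpos (by norm_num)) (by omega)
    have h5 : 4 * n * (n ^ 2 * (B.card + 1) + 1) = 4 * (n ^ 3 * (B.card + 1)) + 4 * n := by ring
    have h6 : 8 * n ^ 3 * (B.card + 1) = 8 * (n ^ 3 * (B.card + 1)) := by ring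
    omega
  exact Nat.add_le_add_left (Nat.mul_le_mul_right _ h3) _

theorem P2Final_roots (p e : ℕ) [Fact p.Prime] [CharP F p] (he : 1 ≤ e) :
    ∃ C : Finset F, C.card = p ^ e ∧ ∀ c, c ∈ C ↔ c ^ p ^ e = c := by
  classical
  have hQ : 1 < p ^ e := Nat.one_lt_pow (by omega) (Fact.out : p.Prime).one_lt
  have hne := FiniteField.X_pow_card_sub_X_ne_zero F hQ
  have hsep : (X ^ p ^ e - X : F[X]).Separable :=
    galois_poly_separable p (p ^ e) (dvd_pow_self p (by omega))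
  refine ⟨(X ^ p ^ e - X : F[X]).roots.toFinset, ?_, ?_⟩
  · rw [Multiset.toFinset_card_of_nodup (Polynomial.nodup_roots hsep)]
    have h1 := (IsAlgClosed.splits (X ^ p ^ e - X : F[X])).natDegree_eq_card_roots
    rw [← h1, FiniteField.X_pow_card_sub_X_natDegree_eq F hQ]
  · intro c
    rw [Multiset.mem_toFinset, Polynomial.mem_roots hne, Polynomial.IsRoot.def]
    simp [sub_eq_zero]

/-- The exact identity summed over the base. -/
theorem P2Final_total [IsGalois (RatFunc F) L] (p : ℕ) [Fact p.Prime] [CharP F p]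
    (h2 : (2 : F) ≠ 0) (s : ℕ) (hn : finrank (RatFunc F) L = 2 ^ s) (B : Finset F)
    (hB : ∀ c, c ∉ B → UnramM L (X - C c)) (μ ν : ℕ) (hμ : μ ≤ ν) (hν : 1 ≤ ν) {Θ : L ≃+* L}
    (hΘ : FrobLift F (p ^ (μ + ν)) Θ) :
    ∑ g : L ≃ₐ[RatFunc F] L, (PtL F (fun x => g (Θ x)) (p ^ (μ + ν))).ncard =
      finrank (RatFunc F) L * p ^ (μ + ν) := by
  classical
  obtain ⟨C, hC, hmem⟩ := P2Final_roots (F := F) p (μ + ν) (by omega)
  have hfin : ∀ g : L ≃ₐ[RatFunc F] L,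
      (PtL F (fun x => g (Θ x)) (p ^ (μ + ν))).Finite := fun g =>
    (P2Final_upper p h2 s hn B hB μ ν hμ hν (P2Final_trans hΘ g)).1
  have hsplit : ∀ g : L ≃ₐ[RatFunc F] L, (PtL F (fun x => g (Θ x)) (p ^ (μ + ν))).ncard =
      ∑ c ∈ C, {φ : AA F L →ₐ[F] F |
        φ ∈ PtL F (fun x => g (Θ x)) (p ^ (μ + ν)) ∧ φ (tA F L) = c}.ncard := by
    intro g
    have h1 : ∀ φ ∈ (hfin g).toFinset, φ (tA F L) ∈ C := by
      intro φ hφ
      have h2 := (hfin g).mem_toFinset.1 hφ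
      rw [hmem]
      refine (h2 (tA F L) (tA F L) ?_).symm
      exact (P2Final_trans hΘ g).map_X.symm
    rw [Set.ncard_eq_toFinset_card _ (hfin g), Finset.card_eq_sum_card_fiberwise h1]
    refine Finset.sum_congr rfl fun c _ => ?_
    rw [← Set.ncard_coe_finset]
    congr 1
    ext φ
    simp
  simp_rw [hsplit]
  rw [Finset.sum_comm, Finset.sum_congr rfl fun c hc => pt_sum hΘ c ((hmem c).1 hc),
    Finset.sum_const, hC, smul_eq_mul, mul_comm]

/-- The two-sided bound. -/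
theorem two_sided [IsGalois (RatFunc F) L] (p : ℕ) [Fact p.Prime] [CharP F p] (h2 : (2 : F) ≠ 0)
    (s : ℕ) (hn : finrank (RatFunc F) L = 2 ^ s) (B : Finset F)
    (hB : ∀ c, c ∉ B → UnramM L (X - C c)) (μ ν : ℕ) (hμ : μ ≤ ν) (hν : 1 ≤ ν) {Θ : L ≃+* L}
    (hΘ : FrobLift F (p ^ (μ + ν)) Θ) :
    |((PtL F Θ (p ^ (μ + ν))).ncard : ℝ) - (p : ℝ) ^ (μ + ν)| ≤
      8 * (2 ^ s : ℝ) ^ 4 * (B.card + 1) * (p : ℝ) ^ ν := by
  classical
  have hsum := P2Final_total p h2 s hn B hB μ ν hμ hν hΘ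
  have hup : ∀ g : L ≃ₐ[RatFunc F] L, (PtL F (fun x => g (Θ x)) (p ^ (μ + ν))).ncard ≤
      p ^ (μ + ν) + 8 * (finrank (RatFunc F) L) ^ 3 * (B.card + 1) * p ^ ν := fun g =>
    (P2Final_upper p h2 s hn B hB μ ν hμ hν (P2Final_trans hΘ g)).2
  have hcard : (Finset.univ : Finset (L ≃ₐ[RatFunc F] L)).card = finrank (RatFunc F) L := by
    rw [Finset.card_univ, ← Nat.card_eq_fintype_card]
    exact IsGalois.card_aut_eq_finrank (RatFunc F) L
  have h1 : PtL F Θ (p ^ (μ + ν)) =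
      PtL F (fun x => (1 : L ≃ₐ[RatFunc F] L) (Θ x)) (p ^ (μ + ν)) := rfl
  rw [← Finset.add_sum_erase _ _ (Finset.mem_univ (1 : L ≃ₐ[RatFunc F] L)), ← h1] at hsum
  have h3 : ∑ g ∈ Finset.univ.erase (1 : L ≃ₐ[RatFunc F] L),
      (PtL F (fun x => g (Θ x)) (p ^ (μ + ν))).ncard ≤
      (finrank (RatFunc F) L - 1) *
        (p ^ (μ + ν) + 8 * (finrank (RatFunc F) L) ^ 3 * (B.card + 1) * p ^ ν) := by
    refine (Finset.sum_le_sum fun g _ => hup g).trans ?_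
    rw [Finset.sum_const, smul_eq_mul, Finset.card_erase_of_mem (Finset.mem_univ _), hcard]
  have h4 : (PtL F Θ (p ^ (μ + ν))).ncard ≤
      p ^ (μ + ν) + 8 * (finrank (RatFunc F) L) ^ 3 * (B.card + 1) * p ^ ν := by
    rw [h1]
    exact hup 1
  rw [hn] at hsum h3 h4
  have hge : 1 ≤ 2 ^ s := Nat.one_le_two_pow
  generalize hN : (PtL F Θ (p ^ (μ + ν))).ncard = N at *
  have hr1 : (N : ℝ) ≤ (p : ℝ) ^ (μ + ν) + 8 * (2 ^ s : ℝ) ^ 3 * (B.card + 1) * (p : ℝ) ^ ν := by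
    exact_mod_cast h4
  have h3' : ((∑ g ∈ Finset.univ.erase (1 : L ≃ₐ[RatFunc F] L),
      (PtL F (fun x => g (Θ x)) (p ^ (μ + ν))).ncard : ℕ) : ℝ) ≤
      ((2 ^ s : ℝ) - 1) *
        ((p : ℝ) ^ (μ + ν) + 8 * (2 ^ s : ℝ) ^ 3 * (B.card + 1) * (p : ℝ) ^ ν) := by
    have h5 : (((2 ^ s - 1 : ℕ)) : ℝ) = (2 ^ s : ℝ) - 1 := by
      rw [Nat.cast_sub hge]
      push_cast
      ring
    rw [← h5]
    exact_mod_cast h3
  have hs' : (N : ℝ) + ((∑ g ∈ Finset.univ.erase (1 : L ≃ₐ[RatFunc F] L),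
      (PtL F (fun x => g (Θ x)) (p ^ (μ + ν))).ncard : ℕ) : ℝ) =
      (2 ^ s : ℝ) * (p : ℝ) ^ (μ + ν) := by
    exact_mod_cast hsum
  have hE : 0 ≤ 8 * (2 ^ s : ℝ) ^ 3 * (B.card + 1) * (p : ℝ) ^ ν := by positivity
  have hn1 : (1 : ℝ) ≤ 2 ^ s := one_le_pow₀ (by norm_num)
  have hEq : 8 * (2 ^ s : ℝ) ^ 4 * (B.card + 1) * (p : ℝ) ^ ν =
      (2 ^ s : ℝ) * (8 * (2 ^ s : ℝ) ^ 3 * (B.card + 1) * (p : ℝ) ^ ν) := by ring
  rw [hEq, abs_le]
  constructor
  · nlinarith [hs', h3', hE, hn1]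
  · nlinarith [hr1, hE, hn1]

end Pool.Agent.SmB
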