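import Pool.Agent.Lib.SmB.P3Defs

/-!
SMITH, block B, part 3: the coefficientwise Frobenius of `F(t)`.
-/

set_option autoImplicit false

namespace Pool.Agent.SmB

open Polynomial

/-- For `k` finite and `F` an algebraically closed extension, `c ↦ c ^ q ^ N` on `F`. -/
theorem p3_frobF (k F : Type*) [Field k] [Finite k] [Field F] [Algebra k F] [IsAlgClosed F]
    (N : ℕ) : ∃ φ : F ≃+* F, ∀ c, φ c = c ^ Nat.card k ^ N := by
  classical
  haveI := Fintype.ofFinite k
  obtain ⟨p, hchar, n, hp, hcard⟩ := FiniteField.card' k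
  haveI : Fact p.Prime := ⟨hp⟩
  haveI : CharP F p := charP_of_injective_algebraMap (algebraMap k F).injective p
  haveI : ExpChar F p := ExpChar.prime hp
  haveI : PerfectRing F p := PerfectField.toPerfectRing p
  refine ⟨iterateFrobeniusEquiv F p (n * N), fun c => ?_⟩
  rw [iterateFrobeniusEquiv_def, Nat.card_eq_fintype_card, hcard, ← pow_mul]

/-- The coefficientwise Frobenius of `F(t)`. -/
theorem p3_frob (k F : Type*) [Field k] [Finite k] [Field F] [Algebra k F] [IsAlgClosed F]
    (N : ℕ) : ∃ Φ : RatFunc F ≃+* RatFunc F,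
      (∀ c : F, Φ (algebraMap F[X] (RatFunc F) (C c)) =
        algebraMap F[X] (RatFunc F) (C (c ^ Nat.card k ^ N))) ∧
      Φ (algebraMap F[X] (RatFunc F) X) = algebraMap F[X] (RatFunc F) X ∧
      ∀ z : RatFunc k, Φ (ratMap k F z) = ratMap k F z := by
  obtain ⟨φ, hφ⟩ := p3_frobF k F N
  let Φ : RatFunc F ≃+* RatFunc F := IsFractionRing.ringEquivOfRingEquiv (Polynomial.mapEquiv φ)
  have hΦ : ∀ f : F[X], Φ (algebraMap F[X] (RatFunc F) f) =
      algebraMap F[X] (RatFunc F) (f.map (φ : F →+* F)) := by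
    intro f
    exact IsFractionRing.ringEquivOfRingEquiv_algebraMap _ f
  refine ⟨Φ, fun c => ?_, ?_, fun z => ?_⟩
  · rw [hΦ, Polynomial.map_C]
    congr 2
    exact hφ c
  · rw [hΦ, Polynomial.map_X]
  · have h1 : ∀ h : k[X], Φ (ratMap k F (algebraMap k[X] (RatFunc k) h)) =
        ratMap k F (algebraMap k[X] (RatFunc k) h) := by
      intro h
      rw [ratMap_alg, hΦ, Polynomial.map_map]
      congr 2
      ext a
      change φ (algebraMap k F a) = algebraMap k F a
      rw [hφ, ← map_pow]
      congr 1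
      haveI := Fintype.ofFinite k
      rw [Nat.card_eq_fintype_card, FiniteField.pow_card_pow]
    obtain ⟨a, b, hb, rfl⟩ := IsFractionRing.div_surjective k[X] z
    rw [map_div₀, map_div₀, h1, h1]

end Pool.Agent.SmB
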