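import Pool.Agent.Lib.SmB.P3Cmp

/-!
SMITH, block B, part 3: extension of an automorphism of `E` to the compositum `E · j(M)`.
-/

set_option autoImplicit false

namespace Pool.Agent.SmB

open Polynomial

theorem p3_theta {K E M Ω : Type*} [Field K] [Field E] [Field M] [Algebra K M] [Field Ω]
    [Algebra E Ω] [IsAlgClosed Ω] [Algebra.IsAlgebraic E Ω] [Normal K M] (ι : K →+* E)
    (j : M →+* Ω) (hj : ∀ a, j (algebraMap K M a) = algebraMap E Ω (ι a)) (Φ : E ≃+* E)
    (hΦ : ∀ a, Φ (ι a) = ι a) (L : IntermediateField E Ω)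
    (hL : L = IntermediateField.adjoin E (Set.range j)) :
    ∃ (Θ : L ≃+* L) (σ : M ≃ₐ[K] M),
      (∀ y : E, Θ (algebraMap E L y) = algebraMap E L (Φ y)) ∧
        ∀ (x : L) (m : M), (x : Ω) = j m → (Θ x : Ω) = j (σ m) := by
  haveI : IsAlgClosure E Ω := ⟨inferInstance, inferInstance⟩
  let T : Ω ≃+* Ω := IsAlgClosure.equivOfEquiv Ω Ω Φ
  have hT : ∀ y : E, T (algebraMap E Ω y) = algebraMap E Ω (Φ y) :=
    fun y => IsAlgClosure.equivOfEquiv_algebraMap Ω Ω Φ y
  have hT' : ∀ y : E, T.symm (algebraMap E Ω y) = algebraMap E Ω (Φ.symm y) :=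
    fun y => IsAlgClosure.equivOfEquiv_symm_algebraMap Ω Ω Φ y
  obtain ⟨σ, hσ⟩ := p3_normal (K := K) j ((T : Ω →+* Ω).comp j) (by
    intro a
    change T (j (algebraMap K M a)) = _
    rw [hj, hT, hΦ])
  have hσ' : ∀ x, T (j x) = j (σ x) := hσ
  have hσ2 : ∀ x, T.symm (j x) = j (σ.symm x) := by
    intro x
    rw [RingEquiv.symm_apply_eq, hσ', AlgEquiv.apply_symm_apply]
  have hjL : ∀ m, j m ∈ L := by
    intro m
    rw [hL]
    exact IntermediateField.subset_adjoin _ _ ⟨m, rfl⟩
  have h1 : ∀ x : L, T x ∈ L := by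
    rintro ⟨x, hx⟩
    have hx' : x ∈ IntermediateField.adjoin E (Set.range j) := hL ▸ hx
    change T x ∈ L
    clear hx
    induction hx' using IntermediateField.adjoin_induction with
    | mem x h =>
      obtain ⟨m, rfl⟩ := h
      rw [hσ']; exact hjL _
    | algebraMap y => rw [hT]; exact IntermediateField.algebraMap_mem _ _
    | add x y _ _ hx hy => rw [map_add]; exact add_mem hx hy
    | inv x _ hx => rw [map_inv₀]; exact inv_mem hx
    | mul x y _ _ hx hy => rw [map_mul]; exact mul_mem hx hy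
  have h2 : ∀ x : L, T.symm x ∈ L := by
    rintro ⟨x, hx⟩
    have hx' : x ∈ IntermediateField.adjoin E (Set.range j) := hL ▸ hx
    change T.symm x ∈ L
    clear hx
    induction hx' using IntermediateField.adjoin_induction with
    | mem x h =>
      obtain ⟨m, rfl⟩ := h
      rw [hσ2]; exact hjL _
    | algebraMap y => rw [hT']; exact IntermediateField.algebraMap_mem _ _
    | add x y _ _ hx hy => rw [map_add]; exact add_mem hx hy
    | inv x _ hx => rw [map_inv₀]; exact inv_mem hx
    | mul x y _ _ hx hy => rw [map_mul]; exact mul_mem hx hy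
  let Θ : L ≃+* L :=
    { toFun := fun x => ⟨T x, h1 x⟩
      invFun := fun x => ⟨T.symm x, h2 x⟩
      left_inv := fun x => Subtype.ext (T.symm_apply_apply x)
      right_inv := fun x => Subtype.ext (T.apply_symm_apply x)
      map_mul' := fun x y => Subtype.ext (map_mul T (x : Ω) (y : Ω))
      map_add' := fun x y => Subtype.ext (map_add T (x : Ω) (y : Ω)) }
  refine ⟨Θ, σ, ?_, ?_⟩
  · intro y
    apply Subtype.ext
    exact hT y
  · intro x m hx
    change T (x : Ω) = j (σ m)
    rw [hx, hσ']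

end Pool.Agent.SmB
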