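import Pool.Agent.Lib.SmB.P3Defs

/-!
SMITH, block B, part 3: integral elements and inertia groups under `j : M → L`.
-/

set_option autoImplicit false

namespace Pool.Agent.SmB

open Polynomial

section

variable {k F M L : Type*} [Field k] [Field F] [Algebra k F] [Field M] [Algebra k[X] M] [Field L]
  [Algebra F[X] L]

theorem p3_int (j : M →+* L)
    (hj : ∀ h : k[X], j (algebraMap k[X] M h) = algebraMap F[X] L (h.map (algebraMap k F)))
    (x : M) (hx : IsIntegral k[X] x) : IsIntegral F[X] (j x) := by
  obtain ⟨p, hp, h⟩ := hx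
  refine ⟨p.map (Polynomial.mapRingHom (algebraMap k F)), hp.map _, ?_⟩
  have h1 : (algebraMap F[X] L).comp (Polynomial.mapRingHom (algebraMap k F)) =
      j.comp (algebraMap k[X] M) := by
    refine RingHom.ext fun a => ?_
    exact (hj a).symm
  rw [Polynomial.eval₂_map, h1, ← Polynomial.hom_eval₂, h, map_zero]

/-- The elements of `k[X]` vanishing at the root `c` of the irreducible polynomial `P`. -/
theorem p3_root {P : k[X]} {c : F} (hP : Irreducible P) (hc : aeval c P = 0) (h : k[X]) :
    aeval c h = 0 ↔ P ∣ h := by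
  constructor
  · intro h0
    by_contra hn
    obtain ⟨u, v, huv⟩ := (hP.coprime_iff_not_dvd).2 hn
    have h1 := congrArg (aeval c) huv
    rw [map_add, map_mul, map_mul, hc, h0, mul_zero, mul_zero, add_zero, map_one] at h1
    exact zero_ne_one h1
  · rintro ⟨u, rfl⟩
    rw [map_mul, hc, zero_mul]

theorem p3_unram [Algebra (RatFunc k) M] [Algebra (RatFunc F) L] (j : M →+* L)
    (hj : ∀ h : k[X], j (algebraMap k[X] M h) = algebraMap F[X] L (h.map (algebraMap k F)))
    (res : (L ≃ₐ[RatFunc F] L) → (M ≃ₐ[RatFunc k] M)) (hres : ∀ g x, g (j x) = j (res g x))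
    (hinj : ∀ g, res g = 1 → g = 1) {P : k[X]} {c : F} (hP : Irreducible P) (hu : UnramM M P)
    (hc : aeval c P = 0) : UnramM L (X - C c) := by
  intro I hI hIc g hg
  let f : AA k M →+* AA F L :=
    RingHom.codRestrict (j.comp (algebraMap (AA k M) M)) (AA F L)
      (fun x => p3_int j hj x x.2)
  have hf : ∀ x : AA k M, (f x : L) = j x := fun x => rfl
  have hfa : ∀ h : k[X], f (algebraMap k[X] (AA k M) h) =
      algebraMap F[X] (AA F L) (h.map (algebraMap k F)) := by
    intro h
    apply Subtype.ext
    rw [hf]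
    exact hj h
  apply hinj
  refine hu (I.comap f) (Ideal.comap_isPrime f I) ?_ (res g) ?_
  · ext h
    rw [Ideal.mem_comap, Ideal.mem_comap, hfa, ← Ideal.mem_comap, hIc,
      Ideal.mem_span_singleton, Ideal.mem_span_singleton, Polynomial.dvd_iff_isRoot,
      Polynomial.IsRoot.def, Polynomial.eval_map_algebraMap, p3_root hP hc]
  · intro x y hxy
    rw [Ideal.mem_comap, map_sub]
    apply hg
    rw [hf, hf, hres, hxy]

end

end Pool.Agent.SmB
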