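import Pool.Agent.Lib.SmB.Defs3

/-!
Block B of SMITH, part 4: monic irreducible polynomials of degree `N` over a finite field, and
the compatibility of automorphisms with the constants.
-/

namespace Pool.Agent.SmB

open Module Polynomial

/-- The set of monic irreducible polynomials of degree `N`. -/
def Irr (k : Type*) [Field k] (N : ℕ) : Set k[X] :=
  {P | P.Monic ∧ Irreducible P ∧ P.natDegree = N}

theorem irr_finite (k : Type*) [Field k] [Finite k] (N : ℕ) : (Irr k N).Finite := by
  have h : (Set.range fun g : Fin (N + 1) → k => ∑ i : Fin (N + 1), monomial (i : ℕ) (g i)).Finite :=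
    Set.finite_range _
  refine h.subset ?_
  rintro P ⟨-, -, h3⟩
  refine ⟨fun i => P.coeff i, ?_⟩
  have h4 := P.as_sum_range' (N + 1) (by omega)
  rw [h4]
  simp only [finset_sum_coeff, coeff_monomial]
  rw [Finset.sum_fin_eq_sum_range]
  refine Finset.sum_congr rfl fun i hi => ?_
  have hi' : i < N + 1 := Finset.mem_range.mp hi
  rw [dif_pos hi']
  simp [hi']

/-- The finite set of monic irreducible polynomials of degree `N`. -/
noncomputable def IrrF (k : Type*) [Field k] [Finite k] (N : ℕ) : Finset k[X] :=
  (irr_finite k N).toFinset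

theorem mem_irrF {k : Type*} [Field k] [Finite k] {N : ℕ} {P : k[X]} :
    P ∈ IrrF k N ↔ P.Monic ∧ Irreducible P ∧ P.natDegree = N := by
  simp [IrrF, Irr]

/-- The automorphisms of `M/k(t)` acting on the constants (the elements integral over `k`) as the
`N`-th power of the Frobenius of `k`. -/
def CompN (k : Type*) {M : Type*} [Field k] [Field M] [Algebra k M] [Algebra (RatFunc k) M]
    (N : ℕ) (σ : M ≃ₐ[RatFunc k] M) : Prop :=
  ∀ x : M, IsIntegral k x → σ x = x ^ (Nat.card k) ^ N

/-- The finite set of the irreducible polynomials of degree `N` unramified in `M`. -/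
noncomputable def GoodF (k M : Type*) [Field k] [Finite k] [Field M] [Algebra k[X] M]
    [Algebra (RatFunc k) M] (N : ℕ) : Finset k[X] :=
  by classical exact (IrrF k N).filter fun P => UnramM M P

theorem mem_goodF {k M : Type*} [Field k] [Finite k] [Field M] [Algebra k[X] M]
    [Algebra (RatFunc k) M] {N : ℕ} {P : k[X]} :
    P ∈ GoodF k M N ↔ P ∈ IrrF k N ∧ UnramM M P := by
  simp [GoodF]

end Pool.Agent.SmB
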