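import Pool.Agent.Lib.SmB.P4Num
import Pool.Agent.Lib.SmB.P2Final
import Pool.Agent.Lib.SmB.P3Model

/-!
Block B of SMITH, `B1_fin`: Chebotarev with square root error term over `F_q(t)`, for a finite
Galois extension `M / k(t)` of degree `2 ^ s`, `k` finite of odd characteristic, and class functions
whose sum over the automorphisms compatible with the `N`-th power of Frobenius on the constants
is zero. Proof: the geometric model (`geo_model`, part 3), the two-sided Stepanov-Bombieri bound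
(`two_sided`, part 2) and the counting argument `bound_model` (part 4).
-/

namespace Pool.Agent.SmB

open Module Polynomial

universe u v

section arith

variable {k : Type u} [Field k] [Finite k] {M : Type v} [Field M] [Algebra k[X] M]
  [Algebra (RatFunc k) M] [IsScalarTower k[X] (RatFunc k) M] [FiniteDimensional (RatFunc k) M]
  [IsGalois (RatFunc k) M] [Algebra k M] [IsScalarTower k k[X] M]

private theorem b1fin_num {p e N : ℕ} (hp : p.Prime) (he : 1 ≤ e) :
    (p : ℝ) ^ ((e * N + 1) / 2) ≤ √(((p ^ e : ℕ) : ℝ) ^ (N + 1)) := by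
  apply Real.le_sqrt_of_sq_le
  have h1 : 1 ≤ p := hp.one_lt.le
  have h2 : (e * N + 1) / 2 * 2 ≤ e * (N + 1) := by
    have h3 : (e * N + 1) / 2 * 2 ≤ e * N + 1 := Nat.div_mul_le_self _ _
    have h4 : e * (N + 1) = e * N + e := by ring
    omega
  have h5 : p ^ ((e * N + 1) / 2 * 2) ≤ p ^ (e * (N + 1)) := Nat.pow_le_pow_right h1 h2
  have h6 : (p : ℝ) ^ ((e * N + 1) / 2 * 2) ≤ (p : ℝ) ^ (e * (N + 1)) := by exact_mod_cast h5
  rw [← pow_mul]
  refine h6.trans (le_of_eq ?_)
  push_cast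
  rw [← pow_mul]

open Classical in
/-- B1 at finite level. -/
theorem B1_fin (h2 : (2 : k) ≠ 0) {s : ℕ} (hn : finrank (RatFunc k) M = 2 ^ s)
    (Bad : Finset k[X]) (hBad : ∀ P : k[X], P.Monic → Irreducible P → P ∉ Bad → UnramM M P)
    {N : ℕ} (hN : N ≠ 0) {f : (M ≃ₐ[RatFunc k] M) → ℝ} (hf : ∀ g τ, f (g * τ * g⁻¹) = f τ)
    (hf1 : ∀ τ, |f τ| ≤ 1)
    (hf0 : ∑ τ ∈ Finset.univ.filter (fun τ : M ≃ₐ[RatFunc k] M => CompN k N τ), f τ = 0)
    {fr : k[X] → (M ≃ₐ[RatFunc k] M)} (hfr : ∀ P ∈ GoodF k M N, FrobM P (fr P)) :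
    |∑ P ∈ GoodF k M N, f (fr P)| ≤
      11 * (2 ^ s : ℝ) ^ 4 * ((∑ P ∈ Bad, P.natDegree : ℕ) + 1) *
        √((Nat.card k : ℝ) ^ (N + 1)) := by
  by_cases hσ : ∃ σ : M ≃ₐ[RatFunc k] M, CompN k N σ
  · obtain ⟨σ, hσ⟩ := hσ
    obtain ⟨F, _, _, _, _, L, _, _, _, _, _, _, _, _, j, Θ, res, hj, hΘ, hΘσ, hres, hinj, hcomp,
      ⟨s', hs', hn'⟩, hur⟩ := geo_model N σ hσ s hn
    obtain ⟨p, hp⟩ := CharP.exists k
    have := Fintype.ofFinite k
    obtain ⟨⟨e, he⟩, hprime, hcard⟩ := FiniteField.card k p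
    have : Fact p.Prime := ⟨hprime⟩
    have : CharP F p := charP_of_injective_algebraMap (algebraMap k F).injective p
    have hq : Nat.card k = p ^ e := by
      rw [Nat.card_eq_fintype_card, hcard]
      rfl
    have hqN : (Nat.card k) ^ N = p ^ ((e * N) / 2 + (e * N + 1) / 2) := by
      rw [hq, ← pow_mul]
      congr 1
      omega
    have heN : 1 ≤ e * N := Nat.mul_pos he (Nat.pos_of_ne_zero hN)
    have h2F : (2 : F) ≠ 0 := by
      intro h0
      apply h2
      apply (algebraMap k F).injective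
      rw [map_ofNat, map_zero]
      exact h0
    refine bound_model hN hj hΘ hΘσ hres (fun c hc => ?_) hur (s := s) ?_ hf hf1 ?_ hfr Bad hBad
    · exact pt_sum hΘ c hc
    · intro B hB Θ' hΘ'
      rw [hqN] at hΘ'
      have h3 := two_sided (L := L) p h2F s' hn' B hB ((e * N) / 2) ((e * N + 1) / 2) (by omega)
        (by omega) hΘ'
      rw [← hqN] at h3
      have h4 : ((Nat.card k : ℝ)) ^ N = (p : ℝ) ^ ((e * N) / 2 + (e * N + 1) / 2) := by
        exact_mod_cast hqN
      rw [h4]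
      refine h3.trans ?_
      have h5 := b1fin_num (N := N) hprime he
      rw [← hq] at h5
      have h6 : (2 ^ s' : ℝ) ^ 4 ≤ (2 ^ s : ℝ) ^ 4 := by
        apply pow_le_pow_left₀ (by positivity)
        exact pow_le_pow_right₀ (by norm_num) hs'
      have h7 : (0 : ℝ) ≤ (B.card : ℝ) + 1 := add_nonneg (Nat.cast_nonneg _) zero_le_one
      have h8 : (0 : ℝ) ≤ (2 ^ s : ℝ) ^ 4 := pow_nonneg (pow_nonneg zero_le_two _) _
      exact mul_le_mul (mul_le_mul_of_nonneg_right
        (mul_le_mul_of_nonneg_left h6 (by norm_num)) h7) h5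
        (pow_nonneg (Nat.cast_nonneg _) _) (mul_nonneg (mul_nonneg (by norm_num) h8) h7)
    · rw [← hf0]
      refine Finset.sum_bij (fun g _ => res g * σ) ?_ ?_ ?_ ?_
      · intro g _
        rw [Finset.mem_filter]
        exact ⟨Finset.mem_univ _, (hcomp _).2 ⟨g, rfl⟩⟩
      · intro g _ g' _ h
        exact hinj (mul_right_cancel h)
      · intro τ hτ
        rw [Finset.mem_filter] at hτ
        obtain ⟨g, hg⟩ := (hcomp τ).1 hτ.2
        exact ⟨g, Finset.mem_univ _, hg.symm⟩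
      · intro g _
        rfl
  · have h0 : GoodF k M N = ∅ := by
      rw [Finset.eq_empty_iff_forall_notMem]
      intro P hP
      have h3 := hfr P hP
      rw [mem_goodF, mem_irrF] at hP
      exact hσ ⟨fr P, frob_comp hP.1.2.2 h3⟩
    rw [h0, Finset.sum_empty, abs_zero]
    positivity

end arith

end Pool.Agent.SmB
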