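import Pool.Agent.Lib.SmB.P5Fin
import Pool.Agent.Lib.SmB.P5Cst
import Pool.Agent.Lib.SmB.P4B1
import Pool.Agent.Lib.SmD.Gen
import Pool.Agent.Lib.SmD.Const
import Pool.Agent.Lib.Sm.I.Mean

/-!
Block B of SMITH, part 5: the Chebotarev theorem in the form `ChebOdd` of block I, for the chosen
Frobenius elements `ph` and tame inertia elements `sg` at the places of `k(t)`.
-/

set_option autoImplicit false

namespace Pool.Agent.SmB

open Pool.Agent.Lib.SmD Pool.Agent.SmD Pool.Agent.BSDFF Polynomial Module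

variable {k : Type} [Field k] [Finite k] {Om : Type} [Field Om] [Algebra (RatFunc k) Om]

private theorem P5Odd_pow {R : Type*} [Monoid R] {x : R} {q n : ℕ} (h : x ^ q ^ n = x) (j : ℕ) :
    x ^ q ^ (n * j) = x := by
  induction j with
  | zero => simp
  | succ j ih => rw [Nat.mul_succ, pow_add, pow_mul, ih, h]

private theorem P5Odd_sqrt {q : ℕ} (hq : 1 ≤ q) {d : ℕ} (hd : 4 ∣ d) :
    √((q : ℝ) ^ (d + 1)) ≤ q * (q : ℝ) ^ (d / 2) := by
  have hq' : (1 : ℝ) ≤ q := by exact_mod_cast hq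
  rw [Real.sqrt_le_left (by positivity)]
  obtain ⟨e, rfl⟩ := hd
  have h1 : 4 * e / 2 = 2 * e := by omega
  rw [h1, mul_pow, ← pow_mul, ← pow_add]
  exact pow_le_pow_right₀ hq' (by omega)

/-- The final form. -/
theorem chebOdd [IsGalois (RatFunc k) Om] [IsSepClosed Om] (h2 : (2 : k) ≠ 0)
    (sg' ph' : k[X] → Om ≃ₐ[RatFunc k] Om)
    (hsg : ∀ (P : k[X]) (h : Irreducible P), P.Monic → sg' P = sg Om (placeOf P h))
    (hph : ∀ (P : k[X]) (h : Irreducible P), P.Monic → ph' P = ph Om (placeOf P h)) :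
    Pool.Agent.Sm.ChebOdd (NN (RatFunc k) Om) sg' ph' (Nat.card k) 4 (11 * Nat.card k) := by
  classical
  intro N hNn hN0 h4 f hf1 hfc hfb hg d r hd B hB hr E hE
  obtain ⟨N0, hN0, hN0N⟩ := hN0
  obtain ⟨g, hg, hgf⟩ := hg
  have hq1 : 1 ≤ Nat.card k := Nat.card_pos
  rcases Nat.eq_zero_or_pos d with hd0 | hd0
  · have hE0 : E = ∅ := by
      rw [Finset.eq_empty_iff_forall_notMem]
      intro P hP
      obtain ⟨-, p2, p3, -⟩ := (hE P).1 hP
      have := p2.natDegree_pos
      omega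
    rw [hE0, Finset.sum_empty, abs_zero]
    positivity
  -- the field
  have hNN : N ∈ NN (RatFunc k) Om := by
    refine ⟨hNn, Subgroup.isOpen_mono hN0N hN0.2.1, ?_⟩
    obtain ⟨r0, hr0⟩ := hN0.2.2
    have h1 : N.index ∣ 2 ^ r0 := by
      rw [← hr0]
      exact Subgroup.index_dvd_of_le hN0N
    obtain ⟨m, -, hm⟩ := (Nat.dvd_prime_pow Nat.prime_two).mp h1
    exact ⟨m, hm⟩
  obtain ⟨L, hfd, hgal, ⟨s, hs⟩, hLN⟩ := exists_field_of_mem_NN hNN
  have hidx : N.index = 2 ^ s := by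
    rw [← hLN, index_fixingSubgroup, hs]
  let alg1 : Algebra k[X] L :=
    ((algebraMap (RatFunc k) L).comp (algebraMap k[X] (RatFunc k))).toAlgebra
  have tow1 : IsScalarTower k[X] (RatFunc k) L := IsScalarTower.of_algebraMap_eq fun _ => rfl
  let alg2 : Algebra k L := ((algebraMap k[X] L).comp C).toAlgebra
  have tow2 : IsScalarTower k k[X] L := IsScalarTower.of_algebraMap_eq fun _ => rfl
  -- the restriction map
  let res : (Om ≃ₐ[RatFunc k] Om) →* (L ≃ₐ[RatFunc k] L) := AlgEquiv.restrictNormalHom L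
  have hres : ∀ (σ : Om ≃ₐ[RatFunc k] Om) (x : L), ((res σ x : L) : Om) = σ (x : Om) :=
    fun σ x => AlgEquiv.restrictNormal_commutes σ L x
  have hker : ∀ σ : Om ≃ₐ[RatFunc k] Om, res σ = 1 ↔ σ ∈ N := by
    intro σ
    rw [← hLN, ← IntermediateField.restrictNormalHom_ker L, MonoidHom.mem_ker]
  have hsurj : Function.Surjective res := AlgEquiv.restrictNormalHom_surjective Om
  choose lift hlift using hsurj
  let F : (L ≃ₐ[RatFunc k] L) → ℝ := fun τ => f (lift τ)
  have hF : ∀ σ, F (res σ) = f σ := by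
    intro σ
    have h1 : σ⁻¹ * lift (res σ) ∈ N := by
      rw [← hker, map_mul, map_inv, hlift, inv_mul_cancel]
    have h3 := hf1 σ _ h1
    rw [mul_inv_cancel_left] at h3
    exact h3
  have hFc : ∀ g τ, F (g * τ * g⁻¹) = F τ := by
    intro g τ
    have h1 : g * τ * g⁻¹ = res (lift g * lift τ * (lift g)⁻¹) := by
      rw [map_mul, map_mul, map_inv, hlift, hlift]
    rw [h1, hF, hfc]
  have hFb : ∀ τ, |F τ| ≤ 1 := fun τ => hfb _
  -- the constants
  obtain ⟨p, hp⟩ := CharP.exists k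
  have hft := Fintype.ofFinite k
  obtain ⟨⟨e, he⟩, hprime, hcard⟩ := FiniteField.card k p
  have hpf : Fact p.Prime := ⟨hprime⟩
  have hq : Nat.card k = p ^ e := by
    rw [Nat.card_eq_fintype_card, hcard]
    rfl
  have hchar : CharP Om p :=
    charP_of_injective_ringHom
      ((algebraMap (RatFunc k) Om).comp (algebraMap k (RatFunc k))).injective p
  have hper : ∀ x : L, IsIntegral k x → ∃ m : ℕ, 0 < m ∧ x ^ (Nat.card k) ^ m = x :=
    fun x hx => exists_period_of_integral hx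
  have hconst : ∀ x : L, IsIntegral k x → x ^ (Nat.card k) ^ d = x := by
    intro x hx
    obtain ⟨m, hm, hxm⟩ := hper x hx
    have hφ := ph_frob (Om := Om) (placeOf (X : k[X]) irreducible_X)
    have hcst : IsCst p (x : Om) := by
      refine ⟨e * m, Nat.mul_pos he hm, ?_⟩
      rw [pow_mul, ← hq]
      exact_mod_cast congrArg (Subtype.val) hxm
    have h1 : ∀ y : Om, IsCst p y → ph Om (placeOf (X : k[X]) irreducible_X) y =
        y ^ Nat.card k := by
      intro y hy
      rw [hφ.cst hy, resCard_placeOf, natDegree_X, pow_one]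
    have h3 : ∀ j : ℕ, (ph Om (placeOf (X : k[X]) irreducible_X) ^ j) (x : Om) =
        (x : Om) ^ (Nat.card k) ^ j := by
      intro j
      induction j with
      | zero => simp
      | succ j ih =>
        rw [pow_succ', AlgEquiv.mul_apply, ih, map_pow, h1 _ hcst, ← pow_mul, pow_succ' _ j]
    have h5 : (ph Om (placeOf (X : k[X]) irreducible_X) ^ 4) (x : Om) = x := by
      have h6 := (hker _).2 (h4 (ph Om (placeOf (X : k[X]) irreducible_X)))
      rw [← hres, h6]
      rfl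
    have h7 : x ^ (Nat.card k) ^ 4 = x := by
      apply Subtype.ext
      rw [h3] at h5
      exact_mod_cast h5
    obtain ⟨j, rfl⟩ := hd
    exact P5Odd_pow h7 j
  have hcomp : ∀ τ : L ≃ₐ[RatFunc k] L, CompN k d τ ↔ ∀ x : L, IsIntegral k x → τ x = x := by
    intro τ
    refine forall_congr' fun x => forall_congr' fun hx => ?_
    rw [hconst x hx]
  have hgc : ∀ x : L, IsIntegral k x → res g x = x := by
    intro x hx
    obtain ⟨m, hm, hxm⟩ := hper x hx
    apply Subtype.ext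
    rw [hres]
    exact commutator_cst (k := k) hg hm (by exact_mod_cast congrArg (Subtype.val) hxm)
  have hgc' : ∀ x : L, IsIntegral k x → (res g)⁻¹ x = x := by
    intro x hx
    have h1 := hgc x hx
    calc (res g)⁻¹ x = (res g)⁻¹ (res g x) := by rw [h1]
      _ = x := by rw [← AlgEquiv.mul_apply, inv_mul_cancel, AlgEquiv.one_apply]
  have hsum : ∑ τ ∈ Finset.univ.filter (fun τ : L ≃ₐ[RatFunc k] L => CompN k d τ), F τ = 0 := by
    have h1 : ∑ τ ∈ Finset.univ.filter (fun τ : L ≃ₐ[RatFunc k] L => CompN k d τ), F τ =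
        ∑ τ ∈ Finset.univ.filter (fun τ : L ≃ₐ[RatFunc k] L => CompN k d τ), - F τ := by
      refine (Finset.sum_equiv (Equiv.mulRight (res g)) ?_ ?_).symm
      · intro τ
        rw [Finset.mem_filter, Finset.mem_filter]
        refine and_congr (by simp) ?_
        rw [hcomp, hcomp]
        change (∀ x : L, IsIntegral k x → τ x = x) ↔
          ∀ x : L, IsIntegral k x → (τ * res g) x = x
        constructor
        · intro h x hx
          rw [AlgEquiv.mul_apply, hgc x hx, h x hx]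
        · intro h x hx
          have h3 := h x hx
          rwa [AlgEquiv.mul_apply, hgc x hx] at h3
      · intro τ _
        have h3 : τ * res g = res (lift τ * g) := by rw [map_mul, hlift]
        change - F τ = F (τ * res g)
        rw [h3, hF, hgf]
    rw [Finset.sum_neg_distrib] at h1
    linarith
  -- inertia
  have hin : ∀ (P : k[X]) (h : Irreducible P), P.Monic → (UnramM L P ↔ sg' P ∈ N) := by
    intro P h hm
    obtain ⟨π, hπ, hL⟩ := exists_locHyp (Om := Om) h2 (placeOf P h)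
    have hIs := isSg_sg (Om := Om) h2 (placeOf P h) hπ
    rw [hsg P h hm]
    constructor
    · intro hU
      rw [← hker]
      exact fixed_of_unramM L h hU hIs.1 (fun x => hres _ x)
    · intro hN
      have h1 : iner (RatFunc k) (ab Om (placeOf P h)) ≤ N :=
        iner_le_of_sg_mem hL hIs N hNN.2.1 (fun σ _ => ⟨2, h4 σ⟩) hN
      refine unramM_of_iner L h fun σ hσ x => ?_
      rw [← hres, (hker σ).2 (h1 hσ)]
      rfl
  have hBad : ∀ P : k[X], P.Monic → Irreducible P → P ∉ B → UnramM L P := by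
    intro P hm h hPB
    rw [hin P h hm]
    by_contra hcon
    exact hPB (hB P hm h hcon)
  have hfr : ∀ P ∈ GoodF k L d, FrobM P (res (ph' P)) := by
    intro P hP
    rw [mem_goodF, mem_irrF] at hP
    obtain ⟨⟨hm, h, -⟩, -⟩ := hP
    rw [hph P h hm]
    exact frobM_of_isFrob L h (ph_frob _) (fun x => hres _ x)
  have hEG : E = GoodF k L d := by
    ext P
    rw [hE, mem_goodF, mem_irrF]
    constructor
    · rintro ⟨p1, p2, p3, p4⟩
      exact ⟨⟨p1, p2, p3⟩, (hin P p2 p1).2 p4⟩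
    · rintro ⟨⟨p1, p2, p3⟩, p4⟩
      exact ⟨p1, p2, p3, (hin P p2 p1).1 p4⟩
  have key := B1_fin (k := k) (M := L) h2 hs B hBad hd0.ne' hFc hFb (by convert hsum) hfr
  have h6 : ∑ P ∈ E, f (ph' P) = ∑ P ∈ GoodF k L d, F (res (ph' P)) := by
    rw [hEG]
    exact Finset.sum_congr rfl fun P _ => (hF _).symm
  rw [h6]
  refine key.trans ?_
  have h7 := P5Odd_sqrt hq1 hd
  have h8 : ((∑ P ∈ B, P.natDegree : ℕ) : ℝ) + 1 ≤ ((r : ℝ) + 1) ^ 4 := by
    have h9 : ((∑ P ∈ B, P.natDegree : ℕ) : ℝ) ≤ r := by exact_mod_cast hr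
    have h10 : (1 : ℝ) ≤ (r : ℝ) + 1 := by
      have : (0 : ℝ) ≤ r := Nat.cast_nonneg r
      linarith
    have h11 : (r : ℝ) + 1 ≤ ((r : ℝ) + 1) ^ 4 := le_self_pow₀ h10 (by norm_num)
    linarith
  have h12 : (N.index : ℝ) = 2 ^ s := by
    rw [hidx]
    push_cast
    rfl
  calc 11 * (2 ^ s : ℝ) ^ 4 * ((∑ P ∈ B, P.natDegree : ℕ) + 1) * √((Nat.card k : ℝ) ^ (d + 1))
      ≤ 11 * (2 ^ s : ℝ) ^ 4 * ((r : ℝ) + 1) ^ 4 * (Nat.card k * (Nat.card k : ℝ) ^ (d / 2)) := by
        gcongr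
    _ = ((11 * Nat.card k : ℕ) : ℝ) * ((N.index : ℝ) * (r + 1)) ^ 4 *
        (Nat.card k : ℝ) ^ (d / 2) := by
        rw [h12]
        push_cast
        ring

end Pool.Agent.SmB
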