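import Pool.Agent.Lib.SmB.Defs

/-!
Module `SemiKer` (60 lines). Existence of the auxiliary function: a Frobenius semilinear map has a
non-trivial kernel by counting dimensions.

PROOF. Put `q = p ^ μ`, let `e : Basis (Fin d) Ω V`, `d = finrank Ω V` (`finBasis`). The
`r * d` elements `(e j) ^ q * y i` of `T` (indexed by `Fin r × Fin d`) are linearly dependent since
`finrank T < r * d` (`LinearIndependent.fintype_card_le_finrank`): there is
`g : Fin r × Fin d → Ω`, `g ≠ 0`, with `∑ g (i,j) • (e j ^ q * y i) = 0`. `Ω` is algebraically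
closed, so `g (i,j) = c (i,j) ^ q` (`IsAlgClosed.exists_pow_nat_eq`). Put
`a i = ∑ j, c (i,j) • e j ∈ V`. In characteristic `p` (`charP_of_injective_algebraMap`,
`sum_pow_char_pow`, `smul_pow`) `a i ^ q = ∑ j, c (i,j) ^ q • e j ^ q`, so
`∑ i, a i ^ q * y i = 0`. `a ≠ 0` because some `c (i,j) ≠ 0` and `e` is a basis.
-/

namespace Pool.Agent.SmB

open Module

theorem semiker {Ω A : Type*} [Field Ω] [IsAlgClosed Ω] [CommRing A] [IsDomain A] [Algebra Ω A]
    (p μ : ℕ) [Fact p.Prime] [CharP Ω p] (V T : Submodule Ω A) [Module.Finite Ω V]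
    [Module.Finite Ω T] {r : ℕ} (y : Fin r → A) (hy : ∀ x ∈ V, ∀ i, x ^ p ^ μ * y i ∈ T)
    (hr : finrank Ω T < r * finrank Ω V) :
    ∃ a : Fin r → A, (∀ i, a i ∈ V) ∧ a ≠ 0 ∧ ∑ i, a i ^ p ^ μ * y i = 0 := by
  classical
  have : CharP A p := charP_of_injective_algebraMap (FaithfulSMul.algebraMap_injective Ω A) p
  have hq : 0 < p ^ μ := pow_pos (Fact.out : p.Prime).pos μ
  let e := Module.finBasis Ω V
  let w : Fin r × Fin (finrank Ω V) → T := fun ij =>
    ⟨((e ij.2 : V) : A) ^ p ^ μ * y ij.1, hy _ (e ij.2).2 ij.1⟩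
  have hdep : ¬ LinearIndependent Ω w := by
    intro h
    have := h.fintype_card_le_finrank
    rw [Fintype.card_prod, Fintype.card_fin, Fintype.card_fin] at this
    omega
  obtain ⟨g, hg, ij0, hij0⟩ := Fintype.not_linearIndependent_iff.1 hdep
  choose c hc using fun ij => IsAlgClosed.exists_pow_nat_eq (g ij) hq
  refine ⟨fun i => ∑ j, c (i, j) • ((e j : V) : A), fun i => ?_, ?_, ?_⟩
  · exact Submodule.sum_mem _ fun j _ => Submodule.smul_mem _ _ (e j).2
  · intro h
    have h1 : ∑ j, c (ij0.1, j) • e j = (0 : V) := by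
      apply Subtype.ext
      have h2 := congrFun h ij0.1
      simpa using h2
    have h3 := Fintype.linearIndependent_iff.1 e.linearIndependent _ h1 ij0.2
    apply hij0
    rw [← hc ij0, show ij0 = (ij0.1, ij0.2) from rfl, h3, zero_pow hq.ne']
  · have hg' : ∑ ij, g ij • (((e ij.2 : V) : A) ^ p ^ μ * y ij.1) = 0 := by
      have := congrArg (Subtype.val : T → A) hg
      simpa [w] using this
    rw [Fintype.sum_prod_type] at hg'
    rw [← hg']
    refine Finset.sum_congr rfl fun i _ => ?_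
    rw [sum_pow_char_pow, Finset.sum_mul]
    refine Finset.sum_congr rfl fun j _ => ?_
    rw [smul_pow, hc, smul_mul_assoc]

end Pool.Agent.SmB
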