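import Pool.Agent.Lib.SmB.OrdBasis

/-!
Module `ValDim` (100 lines). Two consequences of the definition of `RVal`.

PROOF of `v_le_finrank`. Let `w.v π = 1` (`w.unif`), `m : ℕ` with `(m : ℕ∞) ≤ w.v x`
(it suffices to bound every such `m`, e.g. `m = (w.v x).toNat`, finite by `w.top_iff`). The
classes of `π ^ i`, `i < m`, in `A ⧸ span {x}` are linearly independent: if
`∑ i < m, c i • π ^ i ∈ span {x}` then its value is `≥ w.v x ≥ m` (or it is `0`); but the values
of the terms with `c i ≠ 0` are `i` (a non-zero constant has value `0`: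
`0 = v 1 = v c + v c⁻¹`), pairwise different, so the value of the sum is the least such `i < m`,
contradiction unless all `c i = 0`. Hence `m ≤ finrank` (`LinearIndependent.fintype_card_le_finrank`).

PROOF of `finrank_le`. Every linearly independent family of size `k` in `V` spans a `k`-dimensional
subspace, which has by `exists_ordBasis` a basis with `k` different values in `{0, ..., N}`
(pigeonhole in `ℕ∞`), so `k ≤ N + 1`; this gives finiteness
(`Module.finite_of_finrank_pos`-type lemmas or `rank_lt_aleph0`/`Module.finite_of_rank...`: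
an infinite dimensional space contains independent families of any size) and the bound.
-/

namespace Pool.Agent.SmB

open Module

private lemma ValDim_const {Ω A : Type*} [Field Ω] [CommRing A] [IsDomain A] [Algebra Ω A]
    (w : RVal Ω A) (c : Ω) (hc : c ≠ 0) : w.v (algebraMap Ω A c) = 0 := by
  have h : w.v (algebraMap Ω A c) + w.v (algebraMap Ω A c⁻¹) = 0 := by
    rw [← w.v.map_mul, ← map_mul, mul_inv_cancel₀ hc, map_one, w.v.map_one]
  exact (add_eq_zero.mp h).1

private lemma ValDim_smul {Ω A : Type*} [Field Ω] [CommRing A] [IsDomain A] [Algebra Ω A]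
    (w : RVal Ω A) (c : Ω) (hc : c ≠ 0) (y : A) : w.v (c • y) = w.v y := by
  rw [Algebra.smul_def, w.v.map_mul, ValDim_const w c hc, zero_add]

theorem v_le_finrank {Ω A : Type*} [Field Ω] [CommRing A] [IsDomain A] [Algebra Ω A]
    (w : RVal Ω A) (x : A) (hx : x ≠ 0) [Module.Finite Ω (A ⧸ Ideal.span {x})] :
    w.v x ≤ ((finrank Ω (A ⧸ Ideal.span {x}) : ℕ) : ℕ∞) := by
  classical
  by_contra hcon
  rw [not_le] at hcon
  obtain ⟨π, hπ⟩ := w.unif
  set n := finrank Ω (A ⧸ Ideal.span {x}) with hn
  have hm : ((n + 1 : ℕ) : ℕ∞) ≤ w.v x := by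
    push_cast
    exact Order.add_one_le_of_lt hcon
  have hpow : ∀ i : ℕ, w.v (π ^ i) = (i : ℕ∞) := by
    intro i
    rw [w.v.map_pow, hπ]
    simp
  have hLI : LinearIndependent Ω
      (fun i : Fin (n + 1) => Ideal.Quotient.mk (Ideal.span {x}) (π ^ (i : ℕ))) := by
    rw [Fintype.linearIndependent_iff]
    intro g hg
    have hmem : (∑ i : Fin (n + 1), g i • π ^ (i : ℕ)) ∈ Ideal.span {x} := by
      rw [← Ideal.Quotient.eq_zero_iff_mem, ← hg, map_sum]
      refine Finset.sum_congr rfl fun i _ => ?_
      rfl
    obtain ⟨a, ha⟩ := Ideal.mem_span_singleton.mp hmem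
    have hval : ((n + 1 : ℕ) : ℕ∞) ≤ w.v (∑ i : Fin (n + 1), g i • π ^ (i : ℕ)) := by
      rw [ha, w.v.map_mul]
      exact hm.trans le_self_add
    have key : ∀ k : ℕ, ∀ i : Fin (n + 1), (i : ℕ) = k → g i = 0 := by
      intro k
      induction k using Nat.strong_induction_on with
      | _ k ih =>
        intro i hik
        by_contra hgi
        have h1 : ((k + 1 : ℕ) : ℕ∞) ≤ w.v (g i • π ^ (i : ℕ)) := by
          have h2 : g i • π ^ (i : ℕ) = (∑ j : Fin (n + 1), g j • π ^ (j : ℕ)) -
              ∑ j ∈ Finset.univ.erase i, g j • π ^ (j : ℕ) := by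
            rw [← Finset.add_sum_erase Finset.univ _ (Finset.mem_univ i)]
            ring
          rw [h2]
          refine w.v.map_le_sub ?_ ?_
          · refine le_trans ?_ hval
            have : k + 1 ≤ n + 1 := by
              have := i.2
              omega
            exact_mod_cast this
          · refine w.v.map_le_sum fun j hj => ?_
            have hji : j ≠ i := Finset.ne_of_mem_erase hj
            by_cases hgj : g j = 0
            · rw [hgj, zero_smul, w.v.map_zero]
              exact le_top
            · rw [ValDim_smul w _ hgj, hpow]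
              have hjk : ¬ (j : ℕ) < k := fun hlt => hgj (ih (j : ℕ) hlt j rfl)
              have hjk' : (j : ℕ) ≠ k := fun he => hji (Fin.ext (he.trans hik.symm))
              have : k + 1 ≤ (j : ℕ) := by omega
              exact_mod_cast this
        rw [ValDim_smul w _ hgi, hpow, hik] at h1
        have h3 : k + 1 ≤ k := by exact_mod_cast h1
        omega
    exact fun i => key (i : ℕ) i rfl
  have hcard := hLI.fintype_card_le_finrank
  rw [Fintype.card_fin] at hcard
  omega

private lemma ValDim_fin {Ω A : Type*} [Field Ω] [CommRing A] [IsDomain A] [Algebra Ω A]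
    (w : RVal Ω A) (V : Submodule Ω A) (N : ℕ) (h : ∀ x ∈ V, x ≠ 0 → w.v x ≤ (N : ℕ∞))
    (W : Submodule Ω A) (hW : W ≤ V) [Module.Finite Ω W] : finrank Ω W ≤ N + 1 := by
  obtain ⟨b, hb, hLI, -, hinj⟩ := exists_ordBasis w (finrank Ω W) W rfl
  have hle : ∀ i, w.v (b i) ≤ (N : ℕ∞) := fun i => h _ (hW (hb i)) (hLI.ne_zero i)
  have hne : ∀ i, w.v (b i) ≠ ⊤ := fun i => ne_top_of_le_ne_top (ENat.coe_ne_top N) (hle i)
  have hf : ∀ i, (w.v (b i)).toNat < N + 1 := by
    intro i
    have h1 := hle i
    rw [← ENat.coe_toNat (hne i)] at h1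
    have h2 : (w.v (b i)).toNat ≤ N := by exact_mod_cast h1
    omega
  have hinj2 : Function.Injective (fun i => (⟨(w.v (b i)).toNat, hf i⟩ : Fin (N + 1))) := by
    intro i j hij
    apply hinj
    have h1 : (w.v (b i)).toNat = (w.v (b j)).toNat := congrArg Fin.val hij
    show w.v (b i) = w.v (b j)
    rw [← ENat.coe_toNat (hne i), ← ENat.coe_toNat (hne j), h1]
  have := Fintype.card_le_of_injective _ hinj2
  simpa using this

theorem finrank_le {Ω A : Type*} [Field Ω] [CommRing A] [IsDomain A] [Algebra Ω A]
    (w : RVal Ω A) (V : Submodule Ω A) (N : ℕ) (h : ∀ x ∈ V, x ≠ 0 → w.v x ≤ (N : ℕ∞)) :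
    Module.Finite Ω V ∧ finrank Ω V ≤ N + 1 := by
  classical
  have hrank : Module.rank Ω V ≤ ((N + 1 : ℕ) : Cardinal) := by
    refine rank_le ?_
    intro s hs
    have hs' : LinearIndependent Ω (fun i : s => ((i : V) : A)) :=
      hs.map' V.subtype (Submodule.ker_subtype V)
    have hfr : finrank Ω (Submodule.span Ω (Set.range fun i : s => ((i : V) : A))) = s.card := by
      rw [finrank_span_eq_card hs']
      simp
    have hle : Submodule.span Ω (Set.range fun i : s => ((i : V) : A)) ≤ V := by
      rw [Submodule.span_le]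
      rintro _ ⟨i, rfl⟩
      exact (i : V).2
    have hfin : Module.Finite Ω (Submodule.span Ω (Set.range fun i : s => ((i : V) : A))) :=
      Module.Finite.span_of_finite Ω (Set.finite_range _)
    have := ValDim_fin w V N h _ hle
    omega
  have hfin : Module.Finite Ω V :=
    Module.rank_lt_aleph0_iff.mp (hrank.trans_lt (Cardinal.natCast_lt_aleph0))
  refine ⟨hfin, ?_⟩
  exact finrank_le_of_rank_le hrank

end Pool.Agent.SmB
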