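import Pool.Agent.Lib.SmB.Defs

/-!
Module `Zeros` (40 lines). A non-zero element has at most `dim A/(x)` zeros.

PROOF. `{φ : A →ₐ[Ω] Ω // φ x = 0}` embeds into `(A ⧸ span {x}) →ₐ[Ω] Ω` (`Ideal.Quotient.liftₐ`,
injective because the quotient map is surjective), which is finite of cardinality
`≤ finrank Ω (A ⧸ span {x})` (`linearIndependent_toLinearMap`: algebra homs into the field `Ω` are
linearly independent; or `card_algHom_le_finrank`, `Module.Free` is automatic over a field, and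
`Nat.card_le_card_of_injective`). The finiteness of the set: it is injected into a finite type
(instance around `card_algHom_le_finrank` in Mathlib/LinearAlgebra/FreeModule/Finite/Matrix.lean).
-/

namespace Pool.Agent.SmB

open Module

theorem zeros_le {Ω A : Type*} [Field Ω] [CommRing A] [Algebra Ω A] (x : A)
    [Module.Finite Ω (A ⧸ Ideal.span {x})] :
    {φ : A →ₐ[Ω] Ω | φ x = 0}.Finite ∧
      {φ : A →ₐ[Ω] Ω | φ x = 0}.ncard ≤ finrank Ω (A ⧸ Ideal.span {x}) := by
  classical
  let f : {φ : A →ₐ[Ω] Ω // φ x = 0} → ((A ⧸ Ideal.span {x}) →ₐ[Ω] Ω) := fun φ =>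
    Ideal.Quotient.liftₐ (Ideal.span {x}) φ.1 (by
      intro a ha
      obtain ⟨b, rfl⟩ := Ideal.mem_span_singleton'.1 ha
      rw [map_mul, φ.2, mul_zero])
  have hf : Function.Injective f := by
    intro φ ψ h
    apply Subtype.ext
    ext a
    have h1 := DFunLike.congr_fun h (Ideal.Quotient.mk _ a)
    exact h1
  have hfin : Finite ((A ⧸ Ideal.span {x}) →ₐ[Ω] Ω) := Finite.algHom Ω (A ⧸ Ideal.span {x}) Ω
  have hfin2 : Finite {φ : A →ₐ[Ω] Ω // φ x = 0} := Finite.of_injective f hf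
  refine ⟨Set.finite_coe_iff.1 hfin2, ?_⟩
  have h2 : {φ : A →ₐ[Ω] Ω | φ x = 0}.ncard = Nat.card {φ : A →ₐ[Ω] Ω // φ x = 0} := rfl
  rw [h2]
  exact (Nat.card_le_card_of_injective f hf).trans
    (card_algHom_le_finrank Ω (A ⧸ Ideal.span {x}) Ω)

end Pool.Agent.SmB
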