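import Pool.Agent.Lib.SmB.NonVan
import Pool.Agent.Lib.SmB.ValDim
import Pool.Agent.Lib.SmB.SemiKer
import Pool.Agent.Lib.SmB.Zeros

/-!
Module `Core` (120 lines). Stepanov's bound with parameters `u, l`.

PROOF. (1) `x ∈ F.L m → x ^ k ∈ F.L (k * m)` by induction on `k` (`F.one`, `F.mul`; use
`pow_succ` and `ring_nf` on the index).
(2) For `x ∈ F.L m`, `x ≠ 0`: `w.v x ≤ n * m` by `v_le_finrank` and `F.quot`. So by `finrank_le`
every `F.L m` is finite dimensional with `finrank ≤ n * m + 1`.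
(3) Let `s : Fin r → A`, `r = finrank (F.L l)`, be a basis of `F.L l` (coerced to `A`: linearly
independent, members of `F.L l`), `y i = Θ (s i) ∈ F.L l`. Apply `semiker` with `V = F.L u`,
`T = F.L (p ^ μ * u + l)`: `x ∈ F.L u` gives `x ^ p ^ μ * y i ∈ F.L (p ^ μ * u + l)` and
`finrank T ≤ n * (p ^ μ * u + l) + 1 < r * finrank (F.L u)`. We get `a` with `a i ∈ F.L u`,
`a ≠ 0`, `∑ a i ^ p ^ μ * y i = 0`.
(4) `g = ∑ i, a i * s i ^ p ^ ν` is in `F.L (u + p ^ ν * l)` and is not `0` by `nonvan` with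
`W = F.L u` (values `≤ n * u < p ^ ν`).
(5) For `φ ∈ Pt Ω Θ (p ^ (μ + ν))`: in characteristic `p`
`(φ g) ^ p ^ μ = ∑ φ (a i) ^ p ^ μ * φ (s i) ^ (p ^ ν * p ^ μ) = ∑ φ (a i) ^ p ^ μ * φ (Θ (s i))
= φ (∑ a i ^ p ^ μ * y i) = 0`, so `φ g = 0`. Hence `Pt ⊆ {φ | φ g = 0}`; conclude by `zeros_le`
and `F.quot` (`Set.ncard_le_ncard`).
-/

namespace Pool.Agent.SmB

open Module

private theorem Core_pow {Ω A : Type*} [Field Ω] [CommRing A] [Algebra Ω A] {n δ : ℕ}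
    (F : Filt Ω A n δ) {m : ℕ} {x : A} (hx : x ∈ F.L m) (k : ℕ) : x ^ k ∈ F.L (k * m) := by
  induction k with
  | zero => simpa using F.one
  | succ k ih =>
    rw [pow_succ, Nat.succ_mul]
    exact F.mul ih hx

private theorem Core_v {Ω A : Type*} [Field Ω] [CommRing A] [IsDomain A] [Algebra Ω A] {n δ : ℕ}
    (w : RVal Ω A) (F : Filt Ω A n δ) {m : ℕ} {x : A} (hx : x ∈ F.L m) (h0 : x ≠ 0) :
    w.v x ≤ ((n * m : ℕ) : ℕ∞) := by
  obtain ⟨h1, h2⟩ := F.quot hx h0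
  exact (v_le_finrank w x h0).trans (by exact_mod_cast h2)

theorem step_core {Ω A : Type*} [Field Ω] [IsAlgClosed Ω] [CommRing A] [IsDomain A] [Algebra Ω A]
    (w : RVal Ω A) (p μ ν : ℕ) [Fact p.Prime] [CharP Ω p] {n δ : ℕ} (F : Filt Ω A n δ)
    (Θ : A → A) (hΘ : ∀ (m : ℕ) (x : A), x ∈ F.L m → Θ x ∈ F.L m) (u l : ℕ)
    (h1 : n * u < p ^ ν)
    (h2 : n * (p ^ μ * u + l) + 1 < finrank Ω (F.L l) * finrank Ω (F.L u)) :
    (Pt Ω Θ (p ^ (μ + ν))).Finite ∧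
      (Pt Ω Θ (p ^ (μ + ν))).ncard ≤ n * (u + p ^ ν * l) := by
  have hfin : ∀ m, Module.Finite Ω (F.L m) ∧ finrank Ω (F.L m) ≤ n * m + 1 := fun m =>
    finrank_le w (F.L m) (n * m) (fun x hx h0 => Core_v w F hx h0)
  have i1 := (hfin l).1
  have i2 := (hfin u).1
  have i3 := (hfin (p ^ μ * u + l)).1
  let b := finBasis Ω (F.L l)
  let s : Fin (finrank Ω (F.L l)) → A := fun i => (b i : A)
  have hs : LinearIndependent Ω s :=
    b.linearIndependent.map' (F.L l).subtype (Submodule.ker_subtype _)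
  have hsm : ∀ i, s i ∈ F.L l := fun i => (b i).2
  obtain ⟨a, haV, ha0, ha⟩ := semiker p μ (F.L u) (F.L (p ^ μ * u + l)) (fun i => Θ (s i))
    (fun x hx i => F.mul (Core_pow F hx _) (hΘ l _ (hsm i))) (lt_of_le_of_lt (hfin _).2 h2)
  have hg := nonvan w p ν (F.L u)
    (fun x hx h0 => (Core_v w F hx h0).trans_lt (by exact_mod_cast h1)) s hs a haV ha0
  have hgm : ∑ i, a i * s i ^ p ^ ν ∈ F.L (u + p ^ ν * l) :=
    Submodule.sum_mem _ (fun i _ => F.mul (haV i) (Core_pow F (hsm i) _))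
  obtain ⟨hq1, hq2⟩ := F.quot hgm hg
  have hsub : Pt Ω Θ (p ^ (μ + ν)) ⊆
      {φ : A →ₐ[Ω] Ω | φ (∑ i, a i * s i ^ p ^ ν) = 0} := by
    intro φ hφ
    have h3 : (φ (∑ i, a i * s i ^ p ^ ν)) ^ p ^ μ = 0 := by
      rw [map_sum, sum_pow_char_pow p μ]
      have h4 : ∀ i ∈ (Finset.univ : Finset (Fin (finrank Ω (F.L l)))),
          (φ (a i * s i ^ p ^ ν)) ^ p ^ μ = φ (a i ^ p ^ μ * Θ (s i)) := by
        intro i _
        have h5 : φ (Θ (s i)) = φ (s i) ^ p ^ (μ + ν) := hφ (s i)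
        rw [map_mul, map_mul, map_pow, map_pow, h5, mul_pow, ← pow_mul, ← pow_add,
          Nat.add_comm ν μ]
      rw [Finset.sum_congr rfl h4, ← map_sum, ha, map_zero]
    have hpos : p ^ μ ≠ 0 := pow_ne_zero _ (Fact.out : p.Prime).ne_zero
    exact (pow_eq_zero_iff hpos).1 h3
  obtain ⟨z1, z2⟩ := zeros_le (Ω := Ω) (∑ i, a i * s i ^ p ^ ν)
  exact ⟨z1.subset hsub, (Set.ncard_le_ncard hsub z1).trans (z2.trans hq2)⟩

end Pool.Agent.SmB
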