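import Mathlib

/-!
Block B of the project SMITH (MP_48b749_nt): the Riemann hypothesis for covers of the line
(Bombieri-Stepanov) and Chebotarev with square root error over `F_q(t)`.
Definitions of part 1 (abstract Stepanov method).
-/

namespace Pool.Agent.SmB

open Module

/-- A discrete valuation on `A`, with values in `ℕ∞`, trivial on the field `Ω`, with residue
field `Ω` and with an element of valuation one. -/
structure RVal (Ω A : Type*) [Field Ω] [CommRing A] [Algebra Ω A] where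
  v : AddValuation A ℕ∞
  top_iff : ∀ x, v x = ⊤ ↔ x = 0
  res : ∀ x y : A, y ≠ 0 → v x = v y → ∃ c : Ω, v x < v (x - c • y)
  unif : ∃ π : A, v π = 1

/-- A filtration `L 0 ⊆ L 1 ⊆ ...` of an `Ω`-algebra `A` by `Ω`-subspaces, behaving like the
spaces `{x : the poles of x are at most m * (fibre at infinity)}` of a cover of degree `n`
of the line: a non-zero `x` in `L m` has at most `n m` zeros and `dim L m ≥ n (m+1) - δ`. -/
structure Filt (Ω A : Type*) [Field Ω] [CommRing A] [Algebra Ω A] (n δ : ℕ) where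
  L : ℕ → Submodule Ω A
  one : 1 ∈ L 0
  mul : ∀ {a b : ℕ} {x y : A}, x ∈ L a → y ∈ L b → x * y ∈ L (a + b)
  quot : ∀ {m : ℕ} {x : A}, x ∈ L m → x ≠ 0 →
    Module.Finite Ω (A ⧸ Ideal.span {x}) ∧ finrank Ω (A ⧸ Ideal.span {x}) ≤ n * m
  dim : ∀ m : ℕ, n * (m + 1) ≤ finrank Ω (L m) + δ
  t : A
  t_mem : ∀ c : Ω, t - algebraMap Ω A c ∈ L 1
  t_ne : ∀ c : Ω, t - algebraMap Ω A c ≠ 0

/-- The points `φ : A → Ω` of `A` with `φ ∘ Θ = φ ^ Q` (points of Frobenius type `Θ`). -/
def Pt (Ω : Type*) {A : Type*} [Field Ω] [CommRing A] [Algebra Ω A] (Θ : A → A) (Q : ℕ) :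
    Set (A →ₐ[Ω] Ω) :=
  {φ | ∀ x, φ (Θ x) = φ x ^ Q}

end Pool.Agent.SmB
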