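import Pool.Agent.Lib.SmB.Defs

/-!
Block B of SMITH: definitions of parts 2-4.
`F` an algebraically closed field, `L` a finite separable extension of `F(t) = RatFunc F`,
`AA F L` the integral closure of `F[t]` in `L`.
-/

namespace Pool.Agent.SmB

open Module Polynomial

/-- The integral closure of `F[t]` in `L`. -/
noncomputable abbrev AA (F L : Type*) [Field F] [Field L] [Algebra F[X] L] : Subalgebra F[X] L :=
  integralClosure F[X] L

/-- `Θ` is a ring automorphism of `L` with `Θ t = t` and `Θ c = c ^ Q` for the constants `c ∈ F`. -/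
structure FrobLift (F : Type*) {L : Type*} [Field F] [Field L] [Algebra F[X] L] (Q : ℕ)
    (Θ : L ≃+* L) : Prop where
  map_X : Θ (algebraMap F[X] L X) = algebraMap F[X] L X
  map_C : ∀ c : F, Θ (algebraMap F[X] L (C c)) = algebraMap F[X] L (C (c ^ Q))

/-- The points `φ : AA F L → F` of Frobenius type `Θ`: `φ (Θ x) = φ x ^ Q`. -/
def PtL (F : Type*) {L : Type*} [Field F] [Field L] [Algebra F[X] L] [Algebra F L]
    [IsScalarTower F F[X] L] (Θ : L → L) (Q : ℕ) : Set (AA F L →ₐ[F] F) :=
  {φ | ∀ x y : AA F L, (y : L) = Θ x → φ y = φ x ^ Q}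

/-- The coordinate `t` as an element of `AA F L`. -/
noncomputable def tA (F L : Type*) [Field F] [Field L] [Algebra F[X] L] : AA F L :=
  algebraMap F[X] (AA F L) X

/-- `x ∈ L` is integral over the ring `F[y]` generated by `F` and `y` (used with `y = 1/t`). -/
def IntOv (F : Type*) {L : Type*} [Field F] [Field L] [Algebra F L] (y x : L) : Prop :=
  ((Polynomial.aeval y : F[X] →ₐ[F] L) : F[X] →+* L).IsIntegralElem x

/-- Finite level: `M/k(t)` with the ring of integers `AA k M`; `σ` is a Frobenius of the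
irreducible polynomial `P` at some prime of `AA k M` above `P`. -/
def FrobM {k M : Type*} [Field k] [Field M] [Algebra k[X] M] (P : k[X]) (σ : M → M) : Prop :=
  ∃ I : Ideal (AA k M), I.IsPrime ∧ I.comap (algebraMap k[X] (AA k M)) = Ideal.span {P} ∧
    ∀ x y : AA k M, (y : M) = σ x → y - x ^ (Nat.card k) ^ P.natDegree ∈ I

/-- `P` is unramified in the Galois extension `M/k(t)`: all inertia groups above `P` are
trivial. -/
def UnramM {k : Type*} (M : Type*) [Field k] [Field M] [Algebra k[X] M] [Algebra (RatFunc k) M]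
    (P : k[X]) : Prop :=
  ∀ I : Ideal (AA k M), I.IsPrime → I.comap (algebraMap k[X] (AA k M)) = Ideal.span {P} →
    ∀ σ : M ≃ₐ[RatFunc k] M, (∀ x y : AA k M, (y : M) = σ x → y - x ∈ I) → σ = 1

end Pool.Agent.SmB
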