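import Pool.Agent.Lib.SmB.Defs2

/-!
Block B of SMITH: the spaces `LL F L m = {x ∈ AA F L : x / t^m is integral over F[1/t]}`.
-/

namespace Pool.Agent.SmB

open Module Polynomial

theorem IntOv.add {F L : Type*} [Field F] [Field L] [Algebra F L] {y a b : L}
    (ha : IntOv F y a) (hb : IntOv F y b) : IntOv F y (a + b) :=
  RingHom.IsIntegralElem.add _ ha hb

theorem IntOv.mul {F L : Type*} [Field F] [Field L] [Algebra F L] {y a b : L}
    (ha : IntOv F y a) (hb : IntOv F y b) : IntOv F y (a * b) :=
  RingHom.IsIntegralElem.mul _ ha hb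

theorem IntOv.const {F L : Type*} [Field F] [Field L] [Algebra F L] (y : L) (c : F) :
    IntOv F y (algebraMap F L c) := by
  have h := RingHom.isIntegralElem_map ((Polynomial.aeval y : F[X] →ₐ[F] L) : F[X] →+* L)
    (x := C c)
  simpa [IntOv] using h

theorem IntOv.self {F L : Type*} [Field F] [Field L] [Algebra F L] (y : L) : IntOv F y y := by
  have h := RingHom.isIntegralElem_map ((Polynomial.aeval y : F[X] →ₐ[F] L) : F[X] →+* L)
    (x := X)
  simpa [IntOv] using h

theorem IntOv.zero {F L : Type*} [Field F] [Field L] [Algebra F L] (y : L) :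
    IntOv F y 0 := by
  simpa using IntOv.const (F := F) y 0

theorem IntOv.pow {F L : Type*} [Field F] [Field L] [Algebra F L] {y a : L}
    (ha : IntOv F y a) (n : ℕ) : IntOv F y (a ^ n) := by
  induction n with
  | zero => simpa using IntOv.const (F := F) y 1
  | succ n ih => rw [pow_succ]; exact ih.mul ha

/-- The coordinate `t` in `L`. -/
noncomputable abbrev tL (F L : Type*) [Field F] [Field L] [Algebra F[X] L] : L :=
  algebraMap F[X] L X

/-- The Riemann-Roch spaces of the multiples of the fibre at infinity. -/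
noncomputable def LL (F L : Type*) [Field F] [Field L] [Algebra F[X] L] [Algebra F L]
    [IsScalarTower F F[X] L] (m : ℕ) : Submodule F (AA F L) where
  carrier := {x | IntOv F (tL F L)⁻¹ ((x : L) * (tL F L)⁻¹ ^ m)}
  zero_mem' := by
    simp only [Set.mem_setOf_eq, ZeroMemClass.coe_zero, zero_mul]
    exact IntOv.zero _
  add_mem' := by
    intro a b ha hb
    simp only [Set.mem_setOf_eq] at ha hb ⊢
    have h := ha.add hb
    rwa [← add_mul] at h
  smul_mem' := by
    intro c x hx
    simp only [Set.mem_setOf_eq] at hx ⊢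
    have h := (IntOv.const (F := F) (tL F L)⁻¹ c).mul hx
    have h2 : ((c • x : AA F L) : L) = algebraMap F L c * (x : L) := by
      rw [← Algebra.smul_def]; rfl
    rw [h2, mul_assoc]
    exact h

theorem mem_LL {F L : Type*} [Field F] [Field L] [Algebra F[X] L] [Algebra F L]
    [IsScalarTower F F[X] L] {m : ℕ} {x : AA F L} :
    x ∈ LL F L m ↔ IntOv F (tL F L)⁻¹ ((x : L) * (tL F L)⁻¹ ^ m) := Iff.rfl

end Pool.Agent.SmB
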