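import Pool.Agent.Lib.SmB.OrdBasis

/-!
Module `NonVan` (120 lines). Non-vanishing of the auxiliary function of Stepanov's method.

PROOF. Put `q = p ^ ν`. Apply `exists_ordBasis` to `V = span (range s)` (`finrank = r` because
`s` is linearly independent, `finrank_span_eq_card`): `b : Fin r → A` with the same span and
pairwise different values. Write `s j = ∑ i, C j i • b i` and `b i = ∑ j, D i j • s j`
(`Submodule.mem_span_range_iff_exists_fun`); then `C * D = 1` by linear independence of `s`
(so `D * C = 1` too, `Matrix.mul_eq_one_comm`). `A` has characteristic `p`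
(`charP_of_injective_algebraMap`), so `(∑ i, C j i • b i) ^ q = ∑ i, (C j i) ^ q • (b i) ^ q`
(`sum_pow_char_pow`, `smul_pow`). Hence
`∑ j, a j * s j ^ q = ∑ i, a' i * b i ^ q` with `a' i = ∑ j, (C j i) ^ q • a j ∈ W`.
`a' ≠ 0`: otherwise `a k = ∑ j, (∑ i, (D i k)^q * (C j i) ^ q) • a j`... more precisely
`∑ i, (D i k) ^ q • a' i = ∑ j, (∑ i, C j i * D i k) ^ q • a j = a k` (Frobenius is additive and
`C * D = 1`), so all `a k` vanish, contradiction.
For `i` with `a' i ≠ 0`: `w.v (a' i * b i ^ q) = w.v (a' i) + q * w.v (b i)` is finite with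
`w.v (a' i) < q`; these numbers are different for different `i` (divide by `q`). So the non-zero
terms of the sum have pairwise different finite values and the value of the sum is the least one
(take the index with the least value and `AddValuation.map_add_eq_of_lt_left`,
`AddValuation.map_lt_sum`), in particular it is not `⊤` and the sum is not `0`.
-/

namespace Pool.Agent.SmB

open Module

private theorem NonVan_sum {Ω A : Type*} [Field Ω] [CommRing A] [IsDomain A] [Algebra Ω A]
    (w : RVal Ω A) {ι : Type*} (s : Finset ι) (f : ι → A)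
    (hinj : ∀ i ∈ s, ∀ j ∈ s, f i ≠ 0 → f j ≠ 0 → w.v (f i) = w.v (f j) → i = j)
    (hne : ∃ i ∈ s, f i ≠ 0) : ∑ i ∈ s, f i ≠ 0 := by
  classical
  obtain ⟨i0, hi0, hf0⟩ := hne
  obtain ⟨i, hi, hmin⟩ := Finset.exists_min_image (s.filter fun i => f i ≠ 0)
    (fun i => w.v (f i)) ⟨i0, Finset.mem_filter.2 ⟨hi0, hf0⟩⟩
  obtain ⟨his, hif⟩ := Finset.mem_filter.1 hi
  have htop : w.v (f i) ≠ ⊤ := fun h => hif ((w.top_iff _).mp h)
  have hlt : w.v (f i) < w.v (∑ j ∈ s.erase i, f j) := by
    refine AddValuation.map_lt_sum w.v htop ?_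
    intro j hj
    by_cases hfj : f j = 0
    · rw [hfj, AddValuation.map_zero]
      exact lt_top_iff_ne_top.mpr htop
    · refine lt_of_le_of_ne (hmin j (Finset.mem_filter.2 ⟨Finset.mem_of_mem_erase hj, hfj⟩)) ?_
      intro h
      exact Finset.ne_of_mem_erase hj
        (hinj i his j (Finset.mem_of_mem_erase hj) hif hfj h).symm
  rw [← Finset.add_sum_erase s f his]
  intro h0
  have h1 : ∑ j ∈ s.erase i, f j = -f i := by
    rw [eq_neg_iff_add_eq_zero, add_comm]
    exact h0
  rw [h1, AddValuation.map_neg] at hlt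
  exact lt_irrefl _ hlt

theorem nonvan {Ω A : Type*} [Field Ω] [CommRing A] [IsDomain A] [Algebra Ω A]
    (w : RVal Ω A) (p ν : ℕ) [Fact p.Prime] [CharP Ω p] (W : Submodule Ω A)
    (hW : ∀ x ∈ W, x ≠ 0 → w.v x < ((p ^ ν : ℕ) : ℕ∞)) {r : ℕ} (s : Fin r → A)
    (hs : LinearIndependent Ω s) (a : Fin r → A) (ha : ∀ i, a i ∈ W) (h0 : a ≠ 0) :
    ∑ i, a i * s i ^ p ^ ν ≠ 0 := by
  classical
  have : CharP A p := charP_of_injective_algebraMap (algebraMap Ω A).injective p
  have hfin : Module.Finite Ω (Submodule.span Ω (Set.range s)) :=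
    FiniteDimensional.span_of_finite Ω (Set.finite_range s)
  have hr : finrank Ω (Submodule.span Ω (Set.range s)) = r := by
    rw [finrank_span_eq_card hs, Fintype.card_fin]
  obtain ⟨b, hb1, hb2, hb3, hb4⟩ := exists_ordBasis w r _ hr
  have hsb : ∀ j, ∃ c : Fin r → Ω, ∑ i, c i • b i = s j := by
    intro j
    have h : s j ∈ Submodule.span Ω (Set.range b) := by
      rw [hb3]
      exact Submodule.subset_span ⟨j, rfl⟩
    exact Submodule.mem_span_range_iff_exists_fun Ω |>.mp h
  have hbs : ∀ i, ∃ d : Fin r → Ω, ∑ j, d j • s j = b i := by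
    intro i
    exact Submodule.mem_span_range_iff_exists_fun Ω |>.mp (hb1 i)
  choose C hC using hsb
  choose D hD using hbs
  have hCD : ∀ j k, ∑ i, C j i * D i k = if k = j then 1 else 0 := by
    intro j k
    have h1 : ∑ k, (∑ i, C j i * D i k) • s k = ∑ k, (if k = j then (1 : Ω) else 0) • s k := by
      have h2 : ∑ k, (if k = j then (1 : Ω) else 0) • s k = s j := by
        simp
      rw [h2, ← hC j]
      simp_rw [Finset.sum_smul]
      rw [Finset.sum_comm]
      refine Finset.sum_congr rfl fun i _ => ?_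
      rw [← hD i, Finset.smul_sum]
      refine Finset.sum_congr rfl fun k _ => ?_
      rw [smul_smul]
    have h3 := Fintype.linearIndependent_iff.mp hs
      (fun k => (∑ i, C j i * D i k) - (if k = j then (1 : Ω) else 0)) (by
        simp_rw [sub_smul]
        rw [Finset.sum_sub_distrib, h1, sub_self]) k
    exact sub_eq_zero.mp h3
  set q : ℕ := p ^ ν with hq
  have hqpos : 0 < q := pow_pos (Fact.out (p := p.Prime)).pos ν
  set a' : Fin r → A := fun i => ∑ j, (C j i) ^ q • a j with ha'
  have ha'W : ∀ i, a' i ∈ W := fun i =>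
    Submodule.sum_mem _ fun j _ => Submodule.smul_mem _ _ (ha j)
  have hsum : ∑ j, a j * s j ^ q = ∑ i, a' i * b i ^ q := by
    have h1 : ∀ j, s j ^ q = ∑ i, (C j i) ^ q • (b i) ^ q := by
      intro j
      rw [← hC j, hq, sum_pow_char_pow]
      refine Finset.sum_congr rfl fun i _ => ?_
      rw [smul_pow]
    simp_rw [h1, Finset.mul_sum, ha', Finset.sum_mul]
    rw [Finset.sum_comm]
    refine Finset.sum_congr rfl fun i _ => ?_
    refine Finset.sum_congr rfl fun j _ => ?_
    rw [mul_smul_comm, smul_mul_assoc]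
  have ha'0 : ∃ i, a' i ≠ 0 := by
    by_contra hcon
    push Not at hcon
    apply h0
    funext k
    have h1 : ∑ i, (D i k) ^ q • a' i = a k := by
      simp_rw [ha', Finset.smul_sum, smul_smul]
      rw [Finset.sum_comm]
      have h2 : ∀ j, ∑ i, ((D i k) ^ q * (C j i) ^ q) • a j = if k = j then a j else 0 := by
        intro j
        rw [← Finset.sum_smul]
        have h3 : ∑ i, (D i k) ^ q * (C j i) ^ q = (∑ i, C j i * D i k) ^ q := by
          rw [hq, sum_pow_char_pow]
          refine Finset.sum_congr rfl fun i _ => ?_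
          rw [mul_pow, mul_comm]
        rw [h3, hCD]
        split_ifs
        · rw [one_pow, one_smul]
        · rw [zero_pow hqpos.ne', zero_smul]
      simp_rw [h2]
      simp
    rw [← h1]
    simp [hcon]
  rw [hsum]
  refine NonVan_sum w _ _ ?_ ?_
  · intro i _ j _ hi hj hij
    have hi1 : a' i ≠ 0 := left_ne_zero_of_mul hi
    have hj1 : a' j ≠ 0 := left_ne_zero_of_mul hj
    have hi2 : b i ≠ 0 := hb2.ne_zero i
    have hj2 : b j ≠ 0 := hb2.ne_zero j
    have hai := hW _ (ha'W i) hi1
    have haj := hW _ (ha'W j) hj1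
    have hbi : w.v (b i) ≠ ⊤ := fun h => hi2 ((w.top_iff _).mp h)
    have hbj : w.v (b j) ≠ ⊤ := fun h => hj2 ((w.top_iff _).mp h)
    rw [AddValuation.map_mul, AddValuation.map_mul, AddValuation.map_pow,
      AddValuation.map_pow] at hij
    obtain ⟨x, hx⟩ := ENat.ne_top_iff_exists.1 (ne_top_of_lt hai)
    obtain ⟨y, hy⟩ := ENat.ne_top_iff_exists.1 (ne_top_of_lt haj)
    obtain ⟨z, hz⟩ := ENat.ne_top_iff_exists.1 hbi
    obtain ⟨u, hu⟩ := ENat.ne_top_iff_exists.1 hbj
    rw [← hx] at hai hij
    rw [← hy] at haj hij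
    rw [← hz, ← hu] at hij
    have hai' : x < q := by exact_mod_cast hai
    have haj' : y < q := by exact_mod_cast haj
    rw [nsmul_eq_mul, nsmul_eq_mul] at hij
    have hij' : x + q * z = y + q * u := by exact_mod_cast hij
    have hzu : z = u := by
      have h1 : (x + q * z) / q = z := by
        rw [Nat.add_mul_div_left _ _ hqpos, Nat.div_eq_of_lt hai', zero_add]
      have h2 : (y + q * u) / q = u := by
        rw [Nat.add_mul_div_left _ _ hqpos, Nat.div_eq_of_lt haj', zero_add]
      rw [← h1, hij', h2]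
    apply hb4
    show w.v (b i) = w.v (b j)
    rw [← hz, ← hu, hzu]
  · obtain ⟨i, hi⟩ := ha'0
    exact ⟨i, Finset.mem_univ _, mul_ne_zero hi (pow_ne_zero _ (hb2.ne_zero i))⟩

end Pool.Agent.SmB
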