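import Pool.Agent.Lib.SmB.Defs

/-!
Module `OrdBasis` (60 lines). A finite dimensional space has a basis with pairwise different
valuations.

PROOF. Induction on `r = finrank Ω V` (generalise `V`). If `r = 0` take the empty family.
If `r > 0` let `x` be a non-zero element of `V` with `w.v x` minimal (the values of non-zero
elements are finite by `w.top_iff`, so `WellFounded.min` / `Nat.find` applies). Let
`V' = {y ∈ V : w.v x < w.v y}`; it is a subspace (`w.v (c • y) ≥ w.v y` since
`c • y = algebraMap c * y` and all values are `≥ 0`; `w.v (y + z) ≥ min`). `V' ⊓ span {x} = ⊥`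
and `V' ⊔ span {x} = V`: for `y ∈ V` either `y = 0`, or `w.v y > w.v x`, or `w.v y = w.v x` and
then `w.res y x` gives `c` with `w.v (y - c • x) > w.v x`. Hence `finrank V' = r - 1`. Apply
the induction hypothesis to `V'` and put `b = Fin.cons x b'` (`linearIndependent_finCons` or
`linearIndependent_fin_cons`); the values of `b'` are `> w.v x`.
-/

namespace Pool.Agent.SmB

open Module

private theorem OrdBasis_smul {Ω A : Type*} [Field Ω] [CommRing A] [IsDomain A] [Algebra Ω A]
    (w : RVal Ω A) (c : Ω) (y : A) : w.v y ≤ w.v (c • y) := by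
  rw [Algebra.smul_def, AddValuation.map_mul]
  exact le_add_self

theorem exists_ordBasis {Ω A : Type*} [Field Ω] [CommRing A] [IsDomain A] [Algebra Ω A]
    (w : RVal Ω A) (r : ℕ) (V : Submodule Ω A) [Module.Finite Ω V] (hr : finrank Ω V = r) :
    ∃ b : Fin r → A, (∀ i, b i ∈ V) ∧ LinearIndependent Ω b ∧
      Submodule.span Ω (Set.range b) = V ∧ Function.Injective (fun i => w.v (b i)) := by
  induction r generalizing V with
  | zero =>
    have hV : V = ⊥ := Submodule.finrank_eq_zero.mp hr
    refine ⟨Fin.elim0, fun i => i.elim0, linearIndependent_empty_type, ?_, fun i => i.elim0⟩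
    rw [hV, Submodule.span_eq_bot]
    rintro _ ⟨i, _⟩
    exact i.elim0
  | succ r ih =>
    have hV : V ≠ ⊥ := by
      intro h
      rw [h, finrank_bot] at hr
      omega
    obtain ⟨x0, hx0, hx0'⟩ := Submodule.exists_mem_ne_zero_of_ne_bot hV
    obtain ⟨m, ⟨x, ⟨hxV, hx⟩, hxm⟩, hmin⟩ := (wellFounded_lt (α := ℕ∞)).has_min
      (w.v '' {x | x ∈ V ∧ x ≠ 0}) ⟨w.v x0, x0, ⟨hx0, hx0'⟩, rfl⟩
    have hmin' : ∀ y ∈ V, y ≠ 0 → w.v x ≤ w.v y := by
      intro y hy hy0
      rw [hxm]
      exact not_lt.mp (hmin _ ⟨y, ⟨hy, hy0⟩, rfl⟩)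
    have hxt : w.v x ≠ ⊤ := fun h => hx ((w.top_iff x).mp h)
    let V' : Submodule Ω A :=
      { carrier := {y | y ∈ V ∧ w.v x < w.v y}
        zero_mem' := ⟨V.zero_mem, by
          rw [AddValuation.map_zero]
          exact lt_top_iff_ne_top.mpr hxt⟩
        add_mem' := fun {y z} hy hz => ⟨V.add_mem hy.1 hz.1,
          lt_of_lt_of_le (lt_min hy.2 hz.2) (AddValuation.map_add w.v y z)⟩
        smul_mem' := fun c y hy => ⟨V.smul_mem c hy.1, lt_of_lt_of_le hy.2 (OrdBasis_smul w c y)⟩ }
    have hV'le : V' ≤ V := fun y hy => hy.1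
    have hV'mem : ∀ y, y ∈ V' ↔ y ∈ V ∧ w.v x < w.v y := fun y => Iff.rfl
    have hfin : Module.Finite Ω V' := Submodule.finiteDimensional_of_le hV'le
    have hinf : V' ⊓ Submodule.span Ω {x} = ⊥ := by
      rw [eq_bot_iff]
      rintro y ⟨hy1, hy2⟩
      obtain ⟨c, rfl⟩ := Submodule.mem_span_singleton.mp hy2
      by_cases hc : c = 0
      · rw [hc, zero_smul]
        exact Submodule.zero_mem _
      · exfalso
        have h1 : w.v x < w.v (c • x) := ((hV'mem _).mp hy1).2
        have h2 := OrdBasis_smul w c⁻¹ (c • x)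
        rw [smul_smul, inv_mul_cancel₀ hc, one_smul] at h2
        exact absurd h1 (not_lt.mpr h2)
    have hsup : V' ⊔ Submodule.span Ω {x} = V := by
      apply le_antisymm
      · exact sup_le hV'le ((Submodule.span_singleton_le_iff_mem _ _).mpr hxV)
      · intro y hy
        by_cases hy0 : y = 0
        · rw [hy0]
          exact Submodule.zero_mem _
        rcases lt_or_eq_of_le (hmin' y hy hy0) with h | h
        · exact Submodule.mem_sup_left ((hV'mem _).mpr ⟨hy, h⟩)
        · obtain ⟨c, hc⟩ := w.res y x hx h.symm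
          rw [← h] at hc
          have h1 : y - c • x ∈ V' := (hV'mem _).mpr ⟨V.sub_mem hy (V.smul_mem c hxV), hc⟩
          have h2 : y = (y - c • x) + c • x := by abel
          rw [h2]
          exact Submodule.add_mem_sup h1 (Submodule.smul_mem _ _ (Submodule.mem_span_singleton_self x))
    have hrank : finrank Ω V' = r := by
      have h := Submodule.finrank_sup_add_finrank_inf_eq V' (Submodule.span Ω {x})
      rw [hsup, hinf, finrank_bot, finrank_span_singleton hx, hr] at h
      omega
    obtain ⟨b', hb1, hb2, hb3, hb4⟩ := ih V' hrank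
    have hxn : x ∉ Submodule.span Ω (Set.range b') := by
      rw [hb3, hV'mem]
      rintro ⟨_, h⟩
      exact lt_irrefl _ h
    refine ⟨Fin.cons x b', ?_, ?_, ?_, ?_⟩
    · intro i
      refine Fin.cases ?_ (fun k => ?_) i
      · exact hxV
      · exact hV'le (hb1 k)
    · exact linearIndependent_finCons.mpr ⟨hb2, hxn⟩
    · rw [Fin.range_cons, Submodule.span_insert, hb3, sup_comm, hsup]
    · intro i j
      refine Fin.cases ?_ (fun k => ?_) i
      · refine Fin.cases ?_ (fun l => ?_) j
        · intro _
          rfl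
        · intro h
          exfalso
          have h1 := ((hV'mem _).mp (hb1 l)).2
          have h2 : w.v x = w.v (b' l) := h
          exact absurd h1 (by rw [h2]; exact lt_irrefl _)
      · refine Fin.cases ?_ (fun l => ?_) j
        · intro h
          exfalso
          have h1 := ((hV'mem _).mp (hb1 k)).2
          have h2 : w.v (b' k) = w.v x := h
          exact absurd h1 (by rw [h2]; exact lt_irrefl _)
        · intro h
          have h1 : w.v (b' k) = w.v (b' l) := h
          rw [hb4 h1]

end Pool.Agent.SmB
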