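import Pool.Agent.Lib.SmB.P2bFib

/-!
Module `P2LLa`. The easy properties of the spaces `LL F L m`.
-/

namespace Pool.Agent.SmB

open Module Polynomial

variable {F : Type*} [Field F] [IsAlgClosed F] {L : Type*} [Field L] [Algebra (RatFunc F) L]
  [Algebra F[X] L] [Algebra F L] [IsScalarTower F F[X] L] [IsScalarTower F[X] (RatFunc F) L]
  [FiniteDimensional (RatFunc F) L] [Algebra.IsSeparable (RatFunc F) L]

omit [IsAlgClosed F] [Algebra (RatFunc F) L] [IsScalarTower F[X] (RatFunc F) L]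
  [FiniteDimensional (RatFunc F) L] [Algebra.IsSeparable (RatFunc F) L] in
theorem ll_one : (1 : AA F L) ∈ LL F L 0 := by
  rw [mem_LL, pow_zero, mul_one]
  have h := IntOv.const (F := F) (tL F L)⁻¹ 1
  rw [map_one] at h
  exact h

omit [IsAlgClosed F] [Algebra (RatFunc F) L] [IsScalarTower F[X] (RatFunc F) L]
  [FiniteDimensional (RatFunc F) L] [Algebra.IsSeparable (RatFunc F) L] in
theorem ll_mul {a b : ℕ} {x y : AA F L} (hx : x ∈ LL F L a) (hy : y ∈ LL F L b) :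
    x * y ∈ LL F L (a + b) := by
  rw [mem_LL] at hx hy ⊢
  have h := hx.mul hy
  have h2 : ((x * y : AA F L) : L) * (tL F L)⁻¹ ^ (a + b) =
      (x : L) * (tL F L)⁻¹ ^ a * ((y : L) * (tL F L)⁻¹ ^ b) := by
    rw [pow_add]
    change ((x : L) * (y : L)) * _ = _
    ring
  rw [h2]
  exact h

omit [IsAlgClosed F] [Algebra F L] [IsScalarTower F F[X] L]
  [FiniteDimensional (RatFunc F) L] [Algebra.IsSeparable (RatFunc F) L] in
theorem tL_ne_zero' : tL F L ≠ 0 := by
  intro h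
  have h1 : algebraMap F[X] L X = algebraMap F[X] L 0 := by
    rw [map_zero]
    exact h
  exact Polynomial.X_ne_zero (P2b_algMap_inj F L h1)

private theorem P2LLa_algC {F L : Type*} [Field F] [Field L]
    [Algebra F[X] L] [Algebra F L] [IsScalarTower F F[X] L] (c : F) :
    algebraMap F[X] L (C c) = algebraMap F L c := by
  rw [IsScalarTower.algebraMap_apply F F[X] L]
  rfl

omit [IsAlgClosed F] [FiniteDimensional (RatFunc F) L] [Algebra.IsSeparable (RatFunc F) L] in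
theorem ll_t (c : F) : tA F L - algebraMap F (AA F L) c ∈ LL F L 1 := by
  rw [mem_LL, pow_one]
  have h0 := tL_ne_zero' (F := F) (L := L)
  have h1 : ((tA F L - algebraMap F (AA F L) c : AA F L) : L) * (tL F L)⁻¹ =
      algebraMap F L 1 + algebraMap F L (-c) * (tL F L)⁻¹ := by
    change (tL F L - algebraMap F L c) * (tL F L)⁻¹ = _
    rw [sub_mul, mul_inv_cancel₀ h0, map_one, map_neg]
    ring
  rw [h1]
  exact (IntOv.const _ 1).add ((IntOv.const _ (-c)).mul (IntOv.self _))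

omit [IsAlgClosed F] [FiniteDimensional (RatFunc F) L] [Algebra.IsSeparable (RatFunc F) L] in
theorem ll_t_ne (c : F) : tA F L - algebraMap F (AA F L) c ≠ 0 := by
  intro h
  have h1 : algebraMap F[X] L (X - C c) = algebraMap F[X] L 0 := by
    rw [map_zero, map_sub, P2LLa_algC]
    exact congrArg (fun z : AA F L => (z : L)) h
  exact Polynomial.X_sub_C_ne_zero c (P2b_algMap_inj F L h1)

omit [Algebra (RatFunc F) L] [IsScalarTower F[X] (RatFunc F) L]
  [FiniteDimensional (RatFunc F) L] [Algebra.IsSeparable (RatFunc F) L] in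
theorem ll_stable {Q : ℕ} {Θ : L ≃+* L} (hΘ : FrobLift F Q Θ) {m : ℕ} {x y : AA F L}
    (hx : x ∈ LL F L m) (hy : (y : L) = Θ x) : y ∈ LL F L m := by
  obtain ⟨τ, hτ⟩ := hΘ.exists_equiv
  rw [mem_LL] at hx ⊢
  have hcL : ∀ c : F, Θ (algebraMap F L c) = algebraMap F L (c ^ Q) := by
    intro c
    rw [← P2LLa_algC, hΘ.map_C, P2LLa_algC]
  have ht : Θ (tL F L)⁻¹ = (tL F L)⁻¹ := by
    rw [map_inv₀, hΘ.map_X]
  have h1 : (y : L) * (tL F L)⁻¹ ^ m = Θ ((x : L) * (tL F L)⁻¹ ^ m) := by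
    rw [map_mul, map_pow, ht, hy]
  rw [h1]
  obtain ⟨f, hf, hfx⟩ := hx
  refine ⟨f.map (Polynomial.mapRingHom (τ : F →+* F)), hf.map _, ?_⟩
  have hcomp : ((Polynomial.aeval (tL F L)⁻¹ : F[X] →ₐ[F] L) : F[X] →+* L).comp
      (Polynomial.mapRingHom (τ : F →+* F)) =
      (Θ : L →+* L).comp ((Polynomial.aeval (tL F L)⁻¹ : F[X] →ₐ[F] L) : F[X] →+* L) := by
    refine Polynomial.ringHom_ext ?_ ?_
    · intro c
      simp only [RingHom.comp_apply, Polynomial.coe_mapRingHom, Polynomial.map_C]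
      change Polynomial.aeval (tL F L)⁻¹ (C (τ c)) = Θ (Polynomial.aeval (tL F L)⁻¹ (C c))
      rw [Polynomial.aeval_C, Polynomial.aeval_C, hτ, hcL]
    · simp only [RingHom.comp_apply, Polynomial.coe_mapRingHom, Polynomial.map_X]
      change Polynomial.aeval (tL F L)⁻¹ X = Θ (Polynomial.aeval (tL F L)⁻¹ X)
      rw [Polynomial.aeval_X, ht]
  rw [Polynomial.eval₂_map, hcomp]
  have h2 := Polynomial.hom_eval₂ f ((Polynomial.aeval (tL F L)⁻¹ : F[X] →ₐ[F] L) : F[X] →+* L)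
    (Θ : L →+* L) ((x : L) * (tL F L)⁻¹ ^ m)
  rw [hfx, map_zero] at h2
  exact h2.symm

omit [Algebra (RatFunc F) L] [IsScalarTower F[X] (RatFunc F) L]
  [FiniteDimensional (RatFunc F) L] [Algebra.IsSeparable (RatFunc F) L] in
theorem aa_stable {Q : ℕ} {Θ : L ≃+* L} (hΘ : FrobLift F Q Θ) (x : AA F L) :
    ∃ y : AA F L, (y : L) = Θ x := by
  obtain ⟨τ, hτ⟩ := hΘ.exists_equiv
  refine ⟨⟨Θ x, P2b_integral (Θ : L →+* L) (τ : F →+* F) hΘ.map_X ?_ x.2⟩, rfl⟩
  intro c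
  change Θ (algebraMap F L c) = algebraMap F L (τ c)
  rw [← P2LLa_algC, hΘ.map_C, P2LLa_algC, hτ]

end Pool.Agent.SmB
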