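import Mathlib

/-!
SMITH block B, part 2a: discriminants of tame Galois covers, inside the integral closure.
`B` is a Dedekind domain over `D`, `G` a finite group acting on `B`, `τ : B → D` the trace.
-/

namespace Pool.Agent.SmB

open Finset

section tame

variable {D B G : Type*} [CommRing D] [CommRing B] [IsDedekindDomain B]
  [Algebra D B] [Group G] [Fintype G] (ρ : G →* (B ≃ₐ[D] B)) (τ : B →ₗ[D] D)

private theorem P2aTame_exists_mem_notMem {P Q : Ideal B} (hP : P.IsPrime) (hQ : Q.IsPrime)
    (hP0 : P ≠ ⊥) (hne : P ≠ Q) : ∃ c ∈ P, c ∉ Q := by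
  by_contra h
  push Not at h
  have hle : P ≤ Q := h
  have := hP.isMaximal hP0
  exact hne (this.eq_of_le hQ.ne_top hle)

omit [IsDedekindDomain B] [Fintype G] in
/-- The stabiliser of an ideal of `B` in `G`. -/
private def P2aTame_stab (P : Ideal B) : Subgroup G where
  carrier := {g | ∀ x, ρ g x ∈ P ↔ x ∈ P}
  one_mem' := fun x => by simp
  mul_mem' := by
    intro a b ha hb x
    rw [map_mul, AlgEquiv.mul_apply]
    exact (ha _).trans (hb x)
  inv_mem' := by
    intro a ha x
    have h := ha (ρ a⁻¹ x)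
    have h2 : ρ a (ρ a⁻¹ x) = x := by
      rw [← AlgEquiv.mul_apply, ← map_mul]
      simp
    rw [h2] at h
    exact h.symm

/-- Multiplying a denominator away until the result is prime to `P`. -/
private theorem P2aTame_quot {b₁ a : B} (ha : a ≠ 0) (P : Ideal B) (hP : P.IsPrime)
    (hI : ∀ b, a ∣ b * b₁ → b ∈ P) : ∃ b z, b * b₁ = a * z ∧ z ∉ P := by
  classical
  -- the ideal of denominators
  let I : Ideal B :=
    { carrier := {b | a ∣ b * b₁}
      zero_mem' := by simp
      add_mem' := by
        intro x y hx hy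
        show a ∣ (x + y) * b₁
        rw [add_mul]
        exact dvd_add hx hy
      smul_mem' := by
        intro c x hx
        show a ∣ (c * x) * b₁
        rw [mul_assoc]
        exact Dvd.dvd.mul_left hx c }
  have hIP : I ≤ P := fun b hb => hI b hb
  have haI : a ∈ I := by
    show a ∣ a * b₁
    exact dvd_mul_right _ _
  have hI0 : I ≠ ⊥ := by
    intro h
    rw [h] at haI
    exact ha (by simpa using haI)
  obtain ⟨J, hJ⟩ := Ideal.dvd_iff_le.2 hIP
  by_contra hcon
  push Not at hcon
  -- `J ≤ I`
  have hJI : J ≤ I := by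
    intro j hj
    -- `z = j b₁ / a` satisfies `z P ⊆ P`
    have hmem : ∀ p ∈ P, ∃ q ∈ P, p * (j * b₁) = a * q := by
      intro p hp
      have hpj : p * j ∈ I := by
        rw [hJ]
        exact Ideal.mul_mem_mul hp hj
      obtain ⟨z, hz⟩ : a ∣ (p * j) * b₁ := hpj
      exact ⟨z, hcon _ _ hz, by rw [← hz]; ring⟩
    let F := FractionRing B
    let z : F := algebraMap B F (j * b₁) / algebraMap B F a
    have haF : algebraMap B F a ≠ 0 := by
      simpa using ha
    have hP0 : P ≠ ⊥ := by
      intro h
      rw [h] at hIP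
      exact hI0 (le_bot_iff.1 hIP)
    have hint : IsIntegral B z := by
      refine isIntegral_of_smul_mem_submodule (M := F)
        (Submodule.map (Algebra.linearMap B F) P) ?_ ?_ z ?_
      · intro h
        apply hP0
        rw [eq_bot_iff]
        intro p hp
        have : algebraMap B F p ∈ (⊥ : Submodule B F) := by
          rw [← h]
          exact Submodule.mem_map_of_mem hp
        have h2 : algebraMap B F p = 0 := by simpa using this
        have h3 : p = 0 := by simpa using h2
        rw [h3]
        exact Submodule.zero_mem _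
      · exact (IsNoetherian.noetherian P).map _
      · rintro _ ⟨p, hp, rfl⟩
        obtain ⟨q, hq, hpq⟩ := hmem p hp
        refine ⟨q, hq, ?_⟩
        show algebraMap B F q = z * algebraMap B F p
        have h1 : algebraMap B F p * algebraMap B F (j * b₁) = algebraMap B F a * algebraMap B F q := by
          rw [← map_mul, hpq, map_mul]
        have h2 : z * algebraMap B F p = (algebraMap B F p * algebraMap B F (j * b₁)) / algebraMap B F a := by
          simp only [z]
          ring
        rw [h2, h1, mul_div_cancel_left₀ _ haF]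
    obtain ⟨z', hz'⟩ := IsIntegrallyClosed.isIntegral_iff.1 hint
    show a ∣ j * b₁
    refine ⟨z', ?_⟩
    have h3 : algebraMap B F (j * b₁) = algebraMap B F (a * z') := by
      rw [map_mul (algebraMap B F) a z', hz']
      simp only [z]
      rw [mul_div_cancel₀ _ haF]
    exact IsFractionRing.injective B F h3
  -- so `J = P J`, impossible
  have hJ2 : P * J = J := le_antisymm Ideal.mul_le_right (hJI.trans hJ.le)
  have hJ0 : J ≠ 0 := by
    rintro rfl
    exact hI0 (by rw [hJ]; simp)
  have : P = 1 := by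
    have h := mul_right_cancel₀ hJ0 (hJ2.trans (one_mul J).symm)
    exact h
  exact hP.ne_top (by rw [this, Ideal.one_eq_top])

/-- Tameness: an element of `B / π ^ k` whose traces are divisible by `π` is integral. -/
theorem tame_dual (htr : ∀ b, algebraMap D B (τ b) = ∑ g, ρ g b) (hcard : IsUnit ((Fintype.card G : ℕ) : B))
    {π : D} (hπ : algebraMap D B π ≠ 0)
    (hres : ∀ P : Ideal B, P.IsPrime → algebraMap D B π ∈ P → ∀ x, ∃ d : D, x - algebraMap D B d ∈ P)
    (b₁ : B) (k : ℕ) (hb : ∀ b, π ^ (k + 1) ∣ τ (b₁ * b)) : algebraMap D B π ^ k ∣ b₁ := by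
  classical
  set ϖ := algebraMap D B π with hϖ
  by_contra hnd
  -- the ideal of denominators is proper
  let I : Ideal B :=
    { carrier := {b | ϖ ^ k ∣ b * b₁}
      zero_mem' := by simp
      add_mem' := by
        intro x y hx hy
        show ϖ ^ k ∣ (x + y) * b₁
        rw [add_mul]
        exact dvd_add hx hy
      smul_mem' := by
        intro c x hx
        show ϖ ^ k ∣ (c * x) * b₁
        rw [mul_assoc]
        exact Dvd.dvd.mul_left hx c }
  have hI : I ≠ ⊤ := by
    intro h
    have h1 : (1 : B) ∈ I := by rw [h]; trivial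
    have h2 : ϖ ^ k ∣ 1 * b₁ := h1
    rw [one_mul] at h2
    exact hnd h2
  obtain ⟨P, hPmax, hIP⟩ := Ideal.exists_le_maximal I hI
  have hP : P.IsPrime := hPmax.isPrime
  have hϖP : ϖ ∈ P := by
    apply hP.mem_of_pow_mem k
    apply hIP
    show ϖ ^ k ∣ ϖ ^ k * b₁
    exact dvd_mul_right _ _
  have hP0 : P ≠ ⊥ := by
    rintro rfl
    exact hπ (by simpa using hϖP)
  obtain ⟨b, z, hbz, hz⟩ := P2aTame_quot (b₁ := b₁) (a := ϖ ^ k) (pow_ne_zero _ hπ) P hP
    fun b hb => hIP hb
  -- the conjugates of `P`
  let Pg : G → Ideal B := fun g => P.comap (ρ g : B →+* B)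
  have hPgmem : ∀ g x, x ∈ Pg g ↔ ρ g x ∈ P := fun g x => Iff.rfl
  have hPg : ∀ g, (Pg g).IsPrime := fun g => Ideal.IsPrime.comap _
  have hPg0 : ∀ g, Pg g ≠ ⊥ := by
    intro g h
    have h1 : ϖ ∈ Pg g := by
      rw [hPgmem, hϖ, AlgEquiv.commutes]
      exact hϖP
    rw [h] at h1
    exact hπ (by simpa using h1)
  -- an element of all conjugates different from `P`, not in `P`
  have hc : ∀ g, ∃ c, c ∉ P ∧ (Pg g ≠ P → c ∈ Pg g) := by
    intro g
    by_cases h : Pg g = P
    · exact ⟨1, fun h1 => hP.ne_top ((Ideal.eq_top_iff_one P).2 h1), fun h2 => absurd h h2⟩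
    · obtain ⟨c, hc1, hc2⟩ := P2aTame_exists_mem_notMem (hPg g) hP (hPg0 g) h
      exact ⟨c, hc2, fun _ => hc1⟩
  choose c hcP hcg using hc
  let z' := (∏ g, c g) * z
  have hz'P : z' ∉ P := by
    intro h
    rcases hP.mem_or_mem h with h | h
    · obtain ⟨g, -, hg⟩ := (Ideal.IsPrime.prod_mem_iff (hp := hP)).1 h
      exact hcP g hg
    · exact hz h
  have hz'g : ∀ g, Pg g ≠ P → ρ g z' ∈ P := by
    intro g hg
    rw [← hPgmem]
    refine Ideal.mul_mem_right _ _ ?_
    rw [← Finset.prod_erase_mul _ _ (Finset.mem_univ g)]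
    exact Ideal.mul_mem_left _ _ (hcg g hg)
  -- the trace of `z'` is divisible by `π`
  have htrP : ∑ g, ρ g z' ∈ P := by
    obtain ⟨d, hd⟩ := hb ((∏ g, c g) * b)
    have h1 : ϖ ^ k * ∑ g, ρ g z' = ϖ ^ k * (ϖ * algebraMap D B d) := by
      have h2 : b₁ * ((∏ g, c g) * b) = ϖ ^ k * z' := by
        simp only [z']
        calc b₁ * ((∏ g, c g) * b) = (∏ g, c g) * (b * b₁) := by ring
          _ = ϖ ^ k * ((∏ g, c g) * z) := by rw [hbz]; ring
      have h3 : algebraMap D B (τ (b₁ * ((∏ g, c g) * b))) = ϖ ^ k * ∑ g, ρ g z' := by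
        rw [htr, h2, Finset.mul_sum]
        refine Finset.sum_congr rfl fun g _ => ?_
        rw [map_mul, map_pow, hϖ, AlgEquiv.commutes]
      rw [← h3, hd, map_mul, map_pow, ← hϖ]
      ring
    rw [mul_left_cancel₀ (pow_ne_zero _ hπ) h1]
    exact Ideal.mul_mem_right _ _ hϖP
  -- the elements of the stabiliser act trivially modulo `P`
  obtain ⟨d, hd⟩ := hres P hP hϖP z'
  have hstab : ∀ g, Pg g = P → ρ g z' - z' ∈ P := by
    intro g hg
    have h1 : ρ g (z' - algebraMap D B d) ∈ P := by
      rw [← hPgmem, hg]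
      exact hd
    rw [map_sub, AlgEquiv.commutes] at h1
    have h2 := P.sub_mem h1 hd
    have h3 : ρ g z' - algebraMap D B d - (z' - algebraMap D B d) = ρ g z' - z' := by ring
    rwa [h3] at h2
  have hsum : ((Finset.univ.filter fun g => Pg g = P).card : B) * z' ∈ P := by
    have h1 : ∑ g, ρ g z' - ((Finset.univ.filter fun g => Pg g = P).card : B) * z' ∈ P := by
      have h2 : ((Finset.univ.filter fun g => Pg g = P).card : B) * z' =
          ∑ g, if Pg g = P then z' else 0 := by
        rw [← Finset.sum_filter, Finset.sum_const, nsmul_eq_mul]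
      rw [h2, ← Finset.sum_sub_distrib]
      refine Ideal.sum_mem _ fun g _ => ?_
      by_cases h : Pg g = P
      · rw [if_pos h]
        exact hstab g h
      · rw [if_neg h, sub_zero]
        exact hz'g g h
    have h3 := P.sub_mem htrP h1
    rwa [sub_sub_cancel] at h3
  -- the order of the stabiliser is a unit
  have hdvd : (Finset.univ.filter fun g => Pg g = P).card ∣ Fintype.card G := by
    have h1 : (Finset.univ.filter fun g => Pg g = P).card = Nat.card (P2aTame_stab ρ P) := by
      rw [Nat.card_eq_fintype_card, Fintype.card_subtype]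
      congr 1
      ext g
      simp only [Finset.mem_filter, Finset.mem_univ, true_and]
      constructor
      · intro h x
        rw [← hPgmem, h]
      · intro h
        ext x
        rw [hPgmem]
        exact h x
    rw [h1, ← Nat.card_eq_fintype_card]
    exact Subgroup.card_subgroup_dvd_card _
  obtain ⟨m, hm⟩ := hdvd
  have hu : IsUnit ((Finset.univ.filter fun g => Pg g = P).card : B) := by
    rw [hm, Nat.cast_mul] at hcard
    exact isUnit_of_mul_isUnit_left hcard
  rcases hP.mem_or_mem hsum with h | h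
  · exact hP.ne_top (Ideal.eq_top_of_isUnit_mem _ h hu)
  · exact hz'P h

/-- The discriminant of a basis with respect to the trace form `τ`. -/
noncomputable def disc {ι : Type*} [Fintype ι] [DecidableEq ι] (w : Module.Basis ι D B) : D :=
  (Matrix.of fun i j => τ (w i * w j)).det

/-- The discriminant at a tamely ramified place: `π ^ k ∣ disc` implies `k ≤ n`. -/
theorem disc_tame [IsDomain D] [IsNoetherianRing D] (htr : ∀ b, algebraMap D B (τ b) = ∑ g, ρ g b)
    (hcard : IsUnit ((Fintype.card G : ℕ) : B)) {π : D} (hπp : Prime π) (hπ : algebraMap D B π ≠ 0)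
    (hres : ∀ P : Ideal B, P.IsPrime → algebraMap D B π ∈ P → ∀ x, ∃ d : D, x - algebraMap D B d ∈ P)
    {ι : Type*} [Fintype ι] [DecidableEq ι] (w : Module.Basis ι D B) (h0 : disc τ w ≠ 0) (k : ℕ)
    (hk : π ^ k ∣ disc τ w) : k ≤ Fintype.card ι := by
  classical
  obtain ⟨s, hs, hπs⟩ := (FiniteMultiplicity.of_prime_left hπp h0).exists_eq_pow_mul_and_not_dvd
  set v := multiplicity π (disc τ w) with hv
  have hkv : k ≤ v := (FiniteMultiplicity.of_prime_left hπp h0).le_multiplicity_of_pow_dvd hk
  refine hkv.trans ?_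
  replace hk : π ^ v ∣ disc τ w := ⟨s, hs⟩
  clear_value v
  clear hkv
  rename' k => k₀, v => k
  rcases Nat.eq_zero_or_pos k with rfl | hkpos
  · exact Nat.zero_le _
  set T : Matrix ι ι D := Matrix.of fun i j => τ (w i * w j) with hT
  have hdet : disc τ w = T.det := rfl
  -- entries of the adjugate are divisible by `π ^ (k - 1)`
  have hadj : ∀ i j, π ^ (k - 1) ∣ T.adjugate i j := by
    intro i
    set b₁ : B := π • ∑ j, T.adjugate i j • w j with hb₁
    have h1 : ∀ b, π ^ (k + 1) ∣ τ (b₁ * b) := by
      intro b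
      have h2 : τ (b₁ * b) = π * (T.det * w.repr b i) := by
        have h3 : b = ∑ l, w.repr b l • w l := (w.sum_repr b).symm
        conv_lhs => rw [h3]
        rw [hb₁, smul_mul_assoc, map_smul, smul_eq_mul, Finset.sum_mul, map_sum]
        congr 1
        have h4 : ∀ j, τ ((T.adjugate i j • w j) * ∑ l, w.repr b l • w l) =
            ∑ l, T.adjugate i j * T j l * w.repr b l := by
          intro j
          rw [Finset.mul_sum, map_sum]
          refine Finset.sum_congr rfl fun l _ => ?_
          rw [smul_mul_smul_comm, map_smul, smul_eq_mul, hT]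
          simp only [Matrix.of_apply]
          ring
        rw [Finset.sum_congr rfl fun j _ => h4 j, Finset.sum_comm]
        have h5 : ∀ l, ∑ j, T.adjugate i j * T j l * w.repr b l = (T.adjugate * T) i l * w.repr b l := by
          intro l
          rw [Matrix.mul_apply, Finset.sum_mul]
        rw [Finset.sum_congr rfl fun l _ => h5 l, Matrix.adjugate_mul]
        simp [Matrix.smul_apply, Matrix.one_apply]
      rw [h2, pow_succ']
      exact mul_dvd_mul_left _ (Dvd.dvd.mul_right (hdet ▸ hk) _)
    obtain ⟨c, hc⟩ := tame_dual ρ τ htr hcard hπ hres b₁ k h1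
    intro j
    have h6 : w.repr b₁ j = π * T.adjugate i j := by
      rw [hb₁, map_smul, Finsupp.smul_apply, smul_eq_mul, map_sum, Finsupp.finsetSum_apply]
      congr 1
      simp only [map_smul, Module.Basis.repr_self, Finsupp.smul_apply, smul_eq_mul]
      rw [Finset.sum_eq_single j]
      · simp
      · intro l _ hl
        simp [hl]
      · intro h
        exact absurd (Finset.mem_univ j) h
    have h7 : w.repr b₁ j = π ^ k * w.repr c j := by
      rw [hc, ← map_pow, ← Algebra.smul_def, map_smul, Finsupp.smul_apply, smul_eq_mul]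
    have h8 : π * T.adjugate i j = π * (π ^ (k - 1) * w.repr c j) := by
      rw [← h6, h7, ← mul_assoc, ← pow_succ', Nat.sub_add_cancel hkpos]
    exact ⟨_, mul_left_cancel₀ hπp.ne_zero h8⟩
  choose N hN using hadj
  have hadj' : T.adjugate = π ^ (k - 1) • Matrix.of N := by
    ext i j
    rw [Matrix.smul_apply, Matrix.of_apply, smul_eq_mul]
    exact hN i j
  -- take the exact power of `π`
  have h9 : T.det * T.adjugate.det = T.det ^ Fintype.card ι := by
    rw [← Matrix.det_mul, Matrix.mul_adjugate, Matrix.det_smul, Matrix.det_one, mul_one]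
  rw [hadj', Matrix.det_smul, ← hdet, hs, mul_pow] at h9
  set n := Fintype.card ι with hn
  have h10 : π ^ (k + (k - 1) * n) ∣ π ^ (k * n) * s ^ n := by
    refine ⟨s * (Matrix.of N).det, ?_⟩
    rw [pow_mul, ← h9, pow_add, ← pow_mul]
    ring
  have h11 : k + (k - 1) * n ≤ k * n := by
    by_contra hlt
    push Not at hlt
    have h12 : π ^ (k * n + 1) ∣ π ^ (k * n) * s ^ n := (pow_dvd_pow _ hlt).trans h10
    rw [pow_succ] at h12
    have h13 := (mul_dvd_mul_iff_left (pow_ne_zero _ hπp.ne_zero)).1 h12
    exact hπs (hπp.dvd_of_dvd_pow h13)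
  obtain ⟨m, rfl⟩ : ∃ m, k = m + 1 := ⟨k - 1, by omega⟩
  rw [Nat.add_sub_cancel, Nat.succ_mul] at h11
  omega

/-- The discriminant at an unramified place. -/
theorem disc_unram (htr : ∀ b, algebraMap D B (τ b) = ∑ g, ρ g b)
    {π : D} (hπ : algebraMap D B π ≠ 0) (P : Ideal B) (hP : P.IsPrime) (hπP : algebraMap D B π ∈ P)
    (hstab : ∀ g, (∀ x, ρ g x ∈ P ↔ x ∈ P) → g = 1)
    {ι : Type*} [Fintype ι] [DecidableEq ι] (w : Module.Basis ι D B) (hι : Fintype.card ι = Fintype.card G) :
    ¬ π ∣ disc τ w := by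
  classical
  -- conjugates
  let Pg : G → Ideal B := fun g => P.comap (ρ g : B →+* B)
  have hPgmem : ∀ g x, x ∈ Pg g ↔ ρ g x ∈ P := fun g x => Iff.rfl
  have hPg : ∀ g, (Pg g).IsPrime := fun g => Ideal.IsPrime.comap _
  have hPg0 : ∀ g, Pg g ≠ ⊥ := by
    intro g h
    have h1 : algebraMap D B π ∈ Pg g := by
      rw [hPgmem, AlgEquiv.commutes]
      exact hπP
    rw [h] at h1
    exact hπ (by simpa using h1)
  have hinj : ∀ g h, Pg g = Pg h → g = h := by
    intro g h hgh
    have h1 : h * g⁻¹ = 1 := by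
      apply hstab
      intro x
      have h2 : ρ (h * g⁻¹) x = ρ h (ρ g⁻¹ x) := by
        rw [map_mul, AlgEquiv.mul_apply]
      have h3 : ρ g (ρ g⁻¹ x) = x := by
        rw [← AlgEquiv.mul_apply, ← map_mul]
        simp
      rw [h2, ← hPgmem, ← hgh, hPgmem, h3]
    exact (mul_inv_eq_one.1 h1).symm
  -- separating elements
  have hc : ∀ g h : G, ∃ c, c ∉ Pg g ∧ (h ≠ g → c ∈ Pg h) := by
    intro g h
    by_cases hgh : h = g
    · exact ⟨1, fun h1 => (hPg g).ne_top ((Ideal.eq_top_iff_one _).2 h1), fun h2 => absurd hgh h2⟩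
    · obtain ⟨c, hc1, hc2⟩ := P2aTame_exists_mem_notMem (hPg h) (hPg g) (hPg0 h)
        (fun h3 => hgh (hinj _ _ h3))
      exact ⟨c, hc2, fun _ => hc1⟩
  choose c hc1 hc2 using hc
  let x : G → B := fun g => ∏ h, c g h
  have hx1 : ∀ g, x g ∉ Pg g := by
    intro g h
    obtain ⟨h', -, hh⟩ := (Ideal.IsPrime.prod_mem_iff (hp := hPg g)).1 h
    exact hc1 g h' hh
  have hx2 : ∀ g h, h ≠ g → x g ∈ Pg h := by
    intro g h hgh
    simp only [x]
    rw [← Finset.prod_erase_mul _ _ (Finset.mem_univ h)]
    exact Ideal.mul_mem_left _ _ (hc2 g h hgh)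
  -- traces modulo `P`
  let e : G ≃ ι := (Fintype.equivOfCardEq hι.symm)
  let X : Matrix G G D := Matrix.of fun g h => τ (x g * x h)
  let C : Matrix G ι D := Matrix.of fun g i => w.repr (x g) i
  have hX : X.det = (Matrix.of fun g h => C g (e h)).det ^ 2 * disc τ w := by
    have h1 : X = (Matrix.of fun g h => C g (e h)) *
        ((Matrix.of fun i j => τ (w i * w j)).submatrix e e) * (Matrix.of fun g h => C g (e h)).transpose := by
      ext g h
      simp only [X, C, Matrix.of_apply, Matrix.mul_apply, Matrix.submatrix_apply, Matrix.transpose_apply]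
      conv_lhs => rw [← w.sum_repr (x g), ← w.sum_repr (x h)]
      rw [Finset.sum_mul, map_sum, ← e.sum_comp]
      simp_rw [Finset.mul_sum, map_sum]
      rw [Finset.sum_comm]
      rw [← e.sum_comp]
      refine Finset.sum_congr rfl fun l _ => ?_
      rw [Finset.sum_mul]
      refine Finset.sum_congr rfl fun m _ => ?_
      rw [smul_mul_smul_comm, map_smul, smul_eq_mul]
      ring
    rw [h1, Matrix.det_mul, Matrix.det_mul, Matrix.det_submatrix_equiv_self, Matrix.det_transpose]
    have h2 : disc τ w = (Matrix.of fun i j => τ (w i * w j)).det := rfl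
    rw [h2]
    ring
  have hdetP : algebraMap D B X.det ∉ P := by
    have h1 : algebraMap D B X.det = (X.map (algebraMap D B)).det := by
      rw [RingHom.map_det]
      rfl
    have h2 : ∀ g h, algebraMap D B (X g h) - (if g = h then (ρ g (x g)) ^ 2 else 0) ∈ P := by
      intro g h
      simp only [X, Matrix.of_apply]
      rw [htr]
      by_cases hgh : g = h
      · subst hgh
        rw [if_pos rfl, ← Finset.add_sum_erase _ _ (Finset.mem_univ g), map_mul, ← sq, add_sub_cancel_left]
        refine Ideal.sum_mem _ fun k hk => ?_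
        rw [map_mul]
        refine Ideal.mul_mem_left _ _ ?_
        rw [← hPgmem]
        exact hx2 g k (Finset.ne_of_mem_erase hk)
      · rw [if_neg hgh, sub_zero]
        refine Ideal.sum_mem _ fun k _ => ?_
        rw [map_mul]
        by_cases hkg : k = g
        · refine Ideal.mul_mem_left _ _ ?_
          rw [← hPgmem]
          exact hx2 h k (by rw [hkg]; exact hgh)
        · refine Ideal.mul_mem_right _ _ ?_
          rw [← hPgmem]
          exact hx2 g k hkg
    intro h3
    rw [h1] at h3
    -- modulo `P` the matrix is diagonal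
    have h4 : Ideal.Quotient.mk P (X.map (algebraMap D B)).det = ∏ g, Ideal.Quotient.mk P ((ρ g (x g)) ^ 2) := by
      rw [RingHom.map_det]
      have h5 : (Ideal.Quotient.mk P).mapMatrix (X.map (algebraMap D B)) =
          Matrix.diagonal fun g => Ideal.Quotient.mk P ((ρ g (x g)) ^ 2) := by
        ext g h
        rw [RingHom.mapMatrix_apply, Matrix.map_apply, Matrix.map_apply]
        have h6 := h2 g h
        rw [← Ideal.Quotient.eq] at h6
        rw [h6]
        by_cases hgh : g = h
        · subst hgh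
          rw [if_pos rfl, Matrix.diagonal_apply_eq]
        · rw [if_neg hgh, Matrix.diagonal_apply_ne _ hgh, map_zero]
      rw [h5, Matrix.det_diagonal]
    rw [(Ideal.Quotient.eq_zero_iff_mem).2 h3] at h4
    have h7 := (Finset.prod_eq_zero_iff.1 h4.symm)
    obtain ⟨g, -, hg⟩ := h7
    rw [Ideal.Quotient.eq_zero_iff_mem] at hg
    have h8 := hP.mem_of_pow_mem 2 hg
    exact hx1 g ((hPgmem g _).2 h8)
  rintro ⟨d, hd⟩
  apply hdetP
  rw [hX, hd, map_mul, map_mul]
  exact Ideal.mul_mem_left _ _ (Ideal.mul_mem_right _ _ hπP)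

end tame

end Pool.Agent.SmB
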