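import Pool.Agent.Lib.SmB.Defs

/-!
Module `P2bCount`. Abstract counting: a finite group `G` acts (on the right) on a set `S` of points
over a base `B`, simply transitively up to stabilisers on every fibre; `tw : S → S` preserves the
fibres over `C`. Then the numbers of solutions of `act φ g = tw φ` add up to `#G * #C`.
-/

namespace Pool.Agent.SmB

theorem P2b_count {G S B : Type*} [Group G] [Fintype G] (act : S → G → S)
    (h1 : ∀ φ, act φ 1 = φ) (hm : ∀ φ g h, act (act φ g) h = act φ (g * h))
    (π : S → B) (hπ : ∀ φ g, π (act φ g) = π φ)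
    (htr : ∀ φ φ', π φ = π φ' → ∃ g, act φ g = φ')
    (tw : S → S) (C : Finset B) (hC : ∀ φ, π (tw φ) = π φ ↔ π φ ∈ C)
    (hne : ∀ c ∈ C, ∃ φ, π φ = c) :
    (∀ g, {φ | act φ g = tw φ}.Finite) ∧
      ∑ g, {φ | act φ g = tw φ}.ncard = Fintype.card G * C.card := by
  classical
  choose b hb using hne
  let T : Finset S := (C.attach ×ˢ (Finset.univ : Finset G)).image
    (fun x => act (b x.1.1 x.1.2) x.2)
  have hT : ∀ φ, φ ∈ T ↔ π φ ∈ C := by
    intro φ
    constructor
    · intro h
      obtain ⟨x, -, rfl⟩ := Finset.mem_image.1 h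
      rw [hπ, hb]
      exact x.1.2
    · intro h
      obtain ⟨g, hg⟩ := htr (b _ h) φ (hb _ h)
      exact Finset.mem_image.2 ⟨(⟨_, h⟩, g), Finset.mem_product.2
        ⟨Finset.mem_attach _ _, Finset.mem_univ _⟩, hg⟩
  have hset : ∀ g, {φ | act φ g = tw φ} = ((T.filter fun φ => act φ g = tw φ : Finset S) :
      Set S) := by
    intro g
    ext φ
    simp only [Finset.coe_filter, Set.mem_ofPred_eq]
    constructor
    · intro h
      refine ⟨(hT φ).2 ((hC φ).1 ?_), h⟩
      rw [← h, hπ]
    · exact fun h => h.2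
  refine ⟨fun g => ?_, ?_⟩
  · rw [hset g]
    exact Finset.finite_toSet _
  have h2 : ∀ g, {φ | act φ g = tw φ}.ncard = (T.filter fun φ => act φ g = tw φ).card := by
    intro g
    rw [hset g, Set.ncard_coe_finset]
  simp_rw [h2, Finset.card_filter]
  rw [Finset.sum_comm]
  simp_rw [← Finset.card_filter]
  have hmaps : ∀ φ ∈ T, π φ ∈ C := fun φ h => (hT φ).1 h
  rw [← Finset.sum_fiberwise_of_maps_to hmaps]
  have hfib : ∀ c ∈ C, ∑ φ ∈ T with π φ = c, (Finset.univ.filter fun g => act φ g = tw φ).card
      = Fintype.card G := by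
    intro c hc
    have h3 : ∀ φ ∈ T.filter (fun φ => π φ = c),
        (Finset.univ.filter fun g => act φ g = tw φ).card =
        (Finset.univ.filter fun k => act (b c hc) k = φ).card := by
      intro φ hφ
      obtain ⟨hφT, hφc⟩ := Finset.mem_filter.1 hφ
      obtain ⟨h, hh⟩ := htr (b c hc) φ (by rw [hb, hφc])
      obtain ⟨h', hh'⟩ := htr φ (tw φ) ((hC φ).2 ((hT φ).1 hφT)).symm
      refine Finset.card_bij' (fun g _ => h * g * h'⁻¹) (fun k _ => h⁻¹ * k * h') ?_ ?_ ?_ ?_
      · intro g hg
        simp only [Finset.mem_filter, Finset.mem_univ, true_and] at hg ⊢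
        rw [← hm, ← hm, hh, hg, ← hh', hm, mul_inv_cancel, h1]
      · intro k hk
        simp only [Finset.mem_filter, Finset.mem_univ, true_and] at hk ⊢
        nth_rewrite 1 [← hh]
        rw [hm, ← mul_assoc, ← mul_assoc, mul_inv_cancel, one_mul, ← hm, hk, hh']
      · intro g _
        group
      · intro k _
        group
    rw [Finset.sum_congr rfl h3]
    have h4 := Finset.card_eq_sum_card_fiberwise (s := (Finset.univ : Finset G))
      (t := T.filter (fun φ => π φ = c)) (f := fun k => act (b c hc) k) (by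
        intro k _
        rw [Finset.mem_coe, Finset.mem_filter]
        refine ⟨(hT _).2 ?_, ?_⟩
        · rw [hπ, hb]
          exact hc
        · rw [hπ, hb])
    rw [← Finset.card_univ, h4]
  rw [Finset.sum_congr rfl hfib, Finset.sum_const, smul_eq_mul, mul_comm]

end Pool.Agent.SmB
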