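import Pool.Agent.Lib.SmB.P2bIdent
import Pool.Agent.Lib.SmB.Defs3

/-!
Module `P2bFib`. Existence of `RVal` and the exact identity over one point `c` of the line:
if `c ^ Q = c` then the numbers of points `φ` over `c` of Frobenius type `g ∘ Θ`, `g ∈ Gal(L/F(t))`,
add up to the degree.
-/

namespace Pool.Agent.SmB

open Module Polynomial

variable {F : Type*} [Field F] [IsAlgClosed F] {L : Type*} [Field L] [Algebra (RatFunc F) L]
  [Algebra F[X] L] [Algebra F L] [IsScalarTower F F[X] L] [IsScalarTower F[X] (RatFunc F) L]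
  [FiniteDimensional (RatFunc F) L]

theorem exists_rval [Algebra.IsSeparable (RatFunc F) L] : Nonempty (RVal F (AA F L)) :=
  P2b_exists_rval F L

private theorem P2bFib_algC {F L : Type*} [Field F] [Field L]
    [Algebra F[X] L] [Algebra F L] [IsScalarTower F F[X] L] (c : F) :
    algebraMap F[X] L (C c) = algebraMap F L c := by
  rw [IsScalarTower.algebraMap_apply F F[X] L]
  rfl

omit [Algebra (RatFunc F) L] [IsScalarTower F[X] (RatFunc F) L]
  [FiniteDimensional (RatFunc F) L] in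
/-- The exponent `Q` of a lift of Frobenius gives an automorphism of `F`. -/
theorem FrobLift.exists_equiv {Q : ℕ} {Θ : L ≃+* L} (hΘ : FrobLift F Q Θ) :
    ∃ τ : F ≃+* F, ∀ c, τ c = c ^ Q := by
  have hinj : Function.Injective (algebraMap F L) := (algebraMap F L).injective
  have hc : ∀ c : F, Θ (algebraMap F L c) = algebraMap F L (c ^ Q) := by
    intro c
    rw [← P2bFib_algC, hΘ.map_C, P2bFib_algC]
  have hQ : Q ≠ 0 := by
    rintro rfl
    have h := hc 0
    rw [map_zero, map_zero, pow_zero, map_one] at h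
    exact zero_ne_one h
  let τ0 : F →+* F :=
    { toFun := fun c => c ^ Q
      map_one' := one_pow Q
      map_mul' := fun a b => mul_pow a b Q
      map_zero' := zero_pow hQ
      map_add' := by
        intro a b
        apply hinj
        rw [← hc, map_add, map_add, hc, hc, map_add] }
  have hbij : Function.Bijective τ0 := by
    refine ⟨τ0.injective, fun c => ?_⟩
    obtain ⟨d, hd⟩ := IsAlgClosed.exists_pow_nat_eq c (Nat.pos_of_ne_zero hQ)
    exact ⟨d, hd⟩
  exact ⟨RingEquiv.ofBijective τ0 hbij, fun c => rfl⟩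

/-- The exact identity over one point of the line. -/
theorem pt_sum_aux [IsGalois (RatFunc F) L] {Q : ℕ} {Θ : L ≃+* L} (hΘ : FrobLift F Q Θ) (c : F)
    (hc : c ^ Q = c) :
    (∀ g : L ≃ₐ[RatFunc F] L,
      {φ : AA F L →ₐ[F] F | φ ∈ PtL F (fun x => g (Θ x)) Q ∧ φ (tA F L) = c}.Finite) ∧
    ∑ g : L ≃ₐ[RatFunc F] L,
      {φ : AA F L →ₐ[F] F | φ ∈ PtL F (fun x => g (Θ x)) Q ∧ φ (tA F L) = c}.ncard
      = finrank (RatFunc F) L := by
  classical
  obtain ⟨τ, hτ⟩ := hΘ.exists_equiv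
  have hcL : ∀ c : F, Θ (algebraMap F L c) = algebraMap F L (c ^ Q) := by
    intro c
    rw [← P2bFib_algC, hΘ.map_C, P2bFib_algC]
  have hX := hΘ.map_X
  have hXs : (Θ.symm : L →+* L) (algebraMap F[X] L X) = algebraMap F[X] L X := by
    apply Θ.injective
    rw [hX]
    exact Θ.apply_symm_apply _
  have hcs : ∀ c : F, (Θ.symm : L →+* L) (algebraMap F L c) =
      algebraMap F L ((τ.symm : F →+* F) c) := by
    intro c
    apply Θ.injective
    rw [hcL, ← hτ]
    have h1 : τ ((τ.symm : F →+* F) c) = c := τ.apply_symm_apply c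
    rw [h1]
    exact Θ.apply_symm_apply _
  let θi : AA F L →+* AA F L := (Θ.symm : L →+* L).restrict (AA F L) (AA F L)
    (fun x hx => P2b_integral (Θ.symm : L →+* L) (τ.symm : F →+* F) hXs hcs hx)
  have hθi : ∀ x : AA F L, ((θi x : AA F L) : L) = Θ.symm x := fun x => rfl
  have hcp : ∀ c : F, (Θ : L →+* L) (algebraMap F L c) =
      algebraMap F L ((τ : F →+* F) c) := by
    intro c
    change Θ (algebraMap F L c) = algebraMap F L (τ c)
    rw [hcL, hτ]
  have hXp : (Θ : L →+* L) (algebraMap F[X] L X) = algebraMap F[X] L X := hX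
  let θ : AA F L →+* AA F L := (Θ : L →+* L).restrict (AA F L) (AA F L)
    (fun x hx => P2b_integral (Θ : L →+* L) (τ : F →+* F) hXp hcp hx)
  have hθ : ∀ x : AA F L, ((θ x : AA F L) : L) = Θ x := fun x => rfl
  have hθθi : ∀ x, θ (θi x) = x := by
    intro x
    apply Subtype.ext
    rw [hθ, hθi]
    exact Θ.apply_symm_apply _
  let tw : (AA F L →ₐ[F] F) → (AA F L →ₐ[F] F) := fun φ =>
    { toRingHom := (τ : F →+* F).comp ((φ : AA F L →+* F).comp θi)
      commutes' := by
        intro c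
        change τ (φ (θi (algebraMap F (AA F L) c))) = c
        have h1 : θi (algebraMap F (AA F L) c) = algebraMap F (AA F L) (τ.symm c) := by
          apply Subtype.ext
          rw [hθi]
          exact hcs c
        rw [h1, φ.commutes]
        exact τ.apply_symm_apply c }
  have htw : ∀ φ x, tw φ x = (φ (θi x)) ^ Q := fun φ x => hτ _
  have htwX : ∀ φ : AA F L →ₐ[F] F, φ (tA F L) = c → tw φ (tA F L) = c := by
    intro φ h
    have h1 : θi (tA F L) = tA F L := by
      apply Subtype.ext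
      rw [hθi]
      exact hXs
    rw [htw, h1, h, hc]
  have hrhoX : ∀ (φ : AA F L →ₐ[F] F) (g : L ≃ₐ[RatFunc F] L),
      (φ.comp (P2bIdent_rho g)) (tA F L) = φ (tA F L) := by
    intro φ g
    rw [AlgHom.comp_apply]
    exact congrArg φ (P2bIdent_rho_X g)
  have hPt : ∀ (g : L ≃ₐ[RatFunc F] L) (φ : AA F L →ₐ[F] F),
      φ ∈ PtL F (fun x => g (Θ x)) Q ↔ φ.comp (P2bIdent_rho g) = tw φ := by
    intro g φ
    constructor
    · intro h
      ext y
      rw [AlgHom.comp_apply, htw]
      refine h (θi y) (P2bIdent_rho g y) ?_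
      rw [P2bIdent_rho_coe]
      change g y = g (Θ (θi y))
      rw [← hθ, hθθi]
    · intro h x y hy
      have h1 := DFunLike.congr_fun h (θ x)
      rw [AlgHom.comp_apply, htw] at h1
      have h2 : P2bIdent_rho g (θ x) = y := by
        apply Subtype.ext
        rw [P2bIdent_rho_coe, hθ, hy]
      have h3 : θi (θ x) = x := by
        apply Subtype.ext
        rw [hθi, hθ]
        exact Θ.symm_apply_apply _
      rw [h2, h3] at h1
      exact h1
  obtain ⟨φ0, hφ0⟩ := P2b_exists_point F L c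
  have hcount := P2b_count (G := L ≃ₐ[RatFunc F] L) (S := {φ : AA F L →ₐ[F] F // φ (tA F L) = c})
    (B := Unit)
    (fun φ g => ⟨φ.1.comp (P2bIdent_rho g), by rw [hrhoX]; exact φ.2⟩)
    (by
      intro φ
      apply Subtype.ext
      ext x
      change φ.1 (P2bIdent_rho 1 x) = φ.1 x
      rw [P2bIdent_rho_one])
    (by
      intro φ g h
      apply Subtype.ext
      ext x
      change φ.1 (P2bIdent_rho g (P2bIdent_rho h x)) = φ.1 (P2bIdent_rho (g * h) x)
      rw [P2bIdent_rho_mul])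
    (fun _ => ())
    (fun _ _ => rfl)
    (by
      intro φ ψ _
      obtain ⟨g, hg⟩ := P2bIdent_trans φ.1 ψ.1 (φ.2.trans ψ.2.symm)
      exact ⟨g, Subtype.ext hg⟩)
    (fun φ => ⟨tw φ.1, htwX φ.1 φ.2⟩) Finset.univ
    (fun φ => by simp)
    (fun _ _ => ⟨⟨φ0, hφ0⟩, rfl⟩)
  have himg : ∀ g : L ≃ₐ[RatFunc F] L,
      {φ : AA F L →ₐ[F] F | φ ∈ PtL F (fun x => g (Θ x)) Q ∧ φ (tA F L) = c} =
      Subtype.val '' {φ : {φ : AA F L →ₐ[F] F // φ (tA F L) = c} |
        (⟨φ.1.comp (P2bIdent_rho g), by rw [hrhoX]; exact φ.2⟩ :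
          {φ : AA F L →ₐ[F] F // φ (tA F L) = c}) = ⟨tw φ.1, htwX φ.1 φ.2⟩} := by
    intro g
    ext φ
    simp only [Set.mem_ofPred_eq, Set.mem_image]
    constructor
    · rintro ⟨h1, h2⟩
      exact ⟨⟨φ, h2⟩, Subtype.ext ((hPt g φ).1 h1), rfl⟩
    · rintro ⟨ψ, h1, rfl⟩
      exact ⟨(hPt g ψ.1).2 (congrArg Subtype.val h1), ψ.2⟩
  have hcard : Fintype.card (L ≃ₐ[RatFunc F] L) = finrank (RatFunc F) L := by
    rw [← Nat.card_eq_fintype_card]
    exact IsGalois.card_aut_eq_finrank (RatFunc F) L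
  refine ⟨fun g => ?_, ?_⟩
  · rw [himg g]
    exact (hcount.1 g).image _
  · have h2 := hcount.2
    rw [hcard, Finset.card_univ, Fintype.card_unit, mul_one] at h2
    rw [← h2]
    refine Finset.sum_congr rfl fun g _ => ?_
    rw [himg g, Set.ncard_image_of_injective _ Subtype.val_injective]

theorem pt_sum [IsGalois (RatFunc F) L] {Q : ℕ} {Θ : L ≃+* L} (hΘ : FrobLift F Q Θ) (c : F)
    (hc : c ^ Q = c) :
    ∑ g : L ≃ₐ[RatFunc F] L,
      {φ : AA F L →ₐ[F] F | φ ∈ PtL F (fun x => g (Θ x)) Q ∧ φ (tA F L) = c}.ncard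
      = finrank (RatFunc F) L :=
  (pt_sum_aux hΘ c hc).2

end Pool.Agent.SmB
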