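import Pool.Agent.Lib.SmB.P2bPts

/-!
Module `P2bIdent`. The exact identity `∑ g, #Pt(g ∘ Θ) = n Q`, `Q = p ^ e`.
-/

namespace Pool.Agent.SmB

open Module Polynomial

section

variable {F L : Type*} [Field F] [Field L] [Algebra (RatFunc F) L]
  [Algebra F[X] L] [IsScalarTower F[X] (RatFunc F) L] [Algebra F L] [IsScalarTower F F[X] L]
  [FiniteDimensional (RatFunc F) L]

/-- The action of the Galois group on the integral closure, as maps of `F`-algebras. -/
noncomputable def P2bIdent_rho (g : L ≃ₐ[RatFunc F] L) :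
    integralClosure F[X] L →ₐ[F] integralClosure F[X] L :=
  ((galRestrict F[X] (RatFunc F) L (integralClosure F[X] L) g).restrictScalars F :
    integralClosure F[X] L →ₐ[F] integralClosure F[X] L)

theorem P2bIdent_rho_coe (g : L ≃ₐ[RatFunc F] L) (x : integralClosure F[X] L) :
    ((P2bIdent_rho g x : integralClosure F[X] L) : L) = g x :=
  algebraMap_galRestrict_apply F[X] g x

theorem P2bIdent_rho_one (x : integralClosure F[X] L) :
    P2bIdent_rho (1 : L ≃ₐ[RatFunc F] L) x = x := by
  apply Subtype.ext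
  rw [P2bIdent_rho_coe]
  rfl

theorem P2bIdent_rho_mul (g h : L ≃ₐ[RatFunc F] L) (x : integralClosure F[X] L) :
    P2bIdent_rho (g * h) x = P2bIdent_rho g (P2bIdent_rho h x) := by
  apply Subtype.ext
  rw [P2bIdent_rho_coe, P2bIdent_rho_coe, P2bIdent_rho_coe]
  rfl

theorem P2bIdent_rho_X (g : L ≃ₐ[RatFunc F] L) :
    P2bIdent_rho g (algebraMap F[X] (integralClosure F[X] L) X) =
      algebraMap F[X] (integralClosure F[X] L) X :=
  (galRestrict F[X] (RatFunc F) L (integralClosure F[X] L) g).commutes X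

/-- Transitivity of the Galois group on the points over a point of the base. -/
theorem P2bIdent_trans [IsGalois (RatFunc F) L] (φ ψ : integralClosure F[X] L →ₐ[F] F)
    (h : φ (algebraMap F[X] (integralClosure F[X] L) X) =
      ψ (algebraMap F[X] (integralClosure F[X] L) X)) :
    ∃ g : L ≃ₐ[RatFunc F] L, φ.comp (P2bIdent_rho g) = ψ := by
  classical
  let A := integralClosure F[X] L
  let e := galRestrict F[X] (RatFunc F) L A
  have hfrac : IsFractionRing A L :=
    integralClosure.isFractionRing_of_finite_extension (RatFunc F) L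
  have hinv : Algebra.IsInvariant F[X] A (A ≃ₐ[F[X]] A) :=
    Algebra.isInvariant_of_isGalois' F[X] (RatFunc F) L A
  have hfin : Finite (A ≃ₐ[F[X]] A) := Finite.of_equiv _ e.toEquiv
  have hP : (RingHom.ker (φ : A →+* F)).IsPrime := RingHom.ker_isPrime _
  have hQ : (RingHom.ker (ψ : A →+* F)).IsPrime := RingHom.ker_isPrime _
  obtain ⟨s, hs⟩ := Algebra.IsInvariant.exists_smul_of_under_eq F[X] A (A ≃ₐ[F[X]] A)
    (RingHom.ker (φ : A →+* F)) (RingHom.ker (ψ : A →+* F)) (by
      ext f
      rw [Ideal.under_def, Ideal.under_def, Ideal.mem_comap, Ideal.mem_comap, RingHom.mem_ker,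
        RingHom.mem_ker]
      change φ (algebraMap F[X] A f) = 0 ↔ ψ (algebraMap F[X] A f) = 0
      rw [P2b_point_base φ f, P2b_point_base ψ f, h])
  refine ⟨e.symm s⁻¹, ?_⟩
  ext x
  have h1 : x - algebraMap F A (ψ x) ∈ RingHom.ker (ψ : A →+* F) := by
    rw [RingHom.mem_ker]
    change ψ (x - algebraMap F A (ψ x)) = 0
    rw [map_sub, ψ.commutes]
    simp
  rw [hs, Ideal.mem_pointwise_smul_iff_inv_smul_mem, RingHom.mem_ker] at h1
  have h2 : ∀ y : A, P2bIdent_rho (e.symm s⁻¹) y = s⁻¹ • y := by
    intro y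
    change (e (e.symm s⁻¹)) y = s⁻¹ • y
    rw [MulEquiv.apply_symm_apply]
    rfl
  have h3 : φ (P2bIdent_rho (e.symm s⁻¹) (x - algebraMap F A (ψ x))) = 0 := by
    rw [h2]
    exact h1
  rw [map_sub, map_sub, (P2bIdent_rho (e.symm s⁻¹)).commutes, φ.commutes] at h3
  rw [AlgHom.comp_apply]
  exact sub_eq_zero.1 h3

end

section

variable {F L : Type*} [Field F] [IsAlgClosed F] [Field L] [Algebra (RatFunc F) L]
  [Algebra F[X] L] [IsScalarTower F[X] (RatFunc F) L] [Algebra F L] [IsScalarTower F F[X] L]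
  [FiniteDimensional (RatFunc F) L]

private theorem P2bIdent_card (p e : ℕ) [Fact p.Prime] [CharP F p] (he : 1 ≤ e) :
    ∃ C : Finset F, C.card = p ^ e ∧ ∀ c, c ∈ C ↔ c ^ p ^ e = c := by
  classical
  have hQ : 1 < p ^ e := Nat.one_lt_pow (by omega) (Fact.out : p.Prime).one_lt
  have hne := FiniteField.X_pow_card_sub_X_ne_zero F hQ
  have hsep : (X ^ p ^ e - X : F[X]).Separable :=
    galois_poly_separable p (p ^ e) (dvd_pow_self p (by omega))
  refine ⟨(X ^ p ^ e - X : F[X]).roots.toFinset, ?_, ?_⟩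
  · rw [Multiset.toFinset_card_of_nodup (Polynomial.nodup_roots hsep)]
    have h1 := (IsAlgClosed.splits (X ^ p ^ e - X : F[X])).natDegree_eq_card_roots
    rw [← h1, FiniteField.X_pow_card_sub_X_natDegree_eq F hQ]
  · intro c
    rw [Multiset.mem_toFinset, Polynomial.mem_roots hne, Polynomial.IsRoot.def]
    simp [sub_eq_zero]

/-- The exact identity: `∑ g, #Pt(g ∘ Θ) = n Q`. -/
theorem P2b_identity [IsGalois (RatFunc F) L] (p e : ℕ) [Fact p.Prime] [CharP F p] (he : 1 ≤ e)
    (Θ : L ≃+* L) (hX : Θ (algebraMap F[X] L X) = algebraMap F[X] L X)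
    (hc : ∀ c : F, Θ (algebraMap F L c) = algebraMap F L (c ^ p ^ e)) :
    (∀ g : L ≃ₐ[RatFunc F] L, (Pt F (resA F (fun x => g (Θ x))) (p ^ e)).Finite) ∧
      ∑ g : L ≃ₐ[RatFunc F] L, (Pt F (resA F (fun x => g (Θ x))) (p ^ e)).ncard =
        finrank (RatFunc F) L * p ^ e := by
  classical
  let A := integralClosure F[X] L
  obtain ⟨C, hCcard, hCmem⟩ := P2bIdent_card (F := F) p e he
  have hperf : PerfectRing F p := inferInstance
  let τ : F ≃+* F := iterateFrobeniusEquiv F p e
  have hτ : ∀ c : F, τ c = c ^ p ^ e := fun c => iterateFrobeniusEquiv_apply F p e c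
  have hXs : (Θ.symm : L →+* L) (algebraMap F[X] L X) = algebraMap F[X] L X := by
    apply Θ.injective
    rw [hX]
    exact Θ.apply_symm_apply _
  have hcs : ∀ c : F, (Θ.symm : L →+* L) (algebraMap F L c) =
      algebraMap F L ((τ.symm : F →+* F) c) := by
    intro c
    apply Θ.injective
    rw [hc, ← hτ]
    have h1 : τ ((τ.symm : F →+* F) c) = c := τ.apply_symm_apply c
    rw [h1]
    exact Θ.apply_symm_apply _
  let θi : A →+* A := (Θ.symm : L →+* L).restrict A A
    (fun x hx => P2b_integral (Θ.symm : L →+* L) (τ.symm : F →+* F) hXs hcs hx)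
  have hθi : ∀ x : A, ((θi x : A) : L) = Θ.symm x := fun x => rfl
  have hcp : ∀ c : F, (Θ : L →+* L) (algebraMap F L c) =
      algebraMap F L ((τ : F →+* F) c) := by
    intro c
    change Θ (algebraMap F L c) = algebraMap F L (τ c)
    rw [hc, hτ]
  have hXp : (Θ : L →+* L) (algebraMap F[X] L X) = algebraMap F[X] L X := hX
  have hg : ∀ (g : L ≃ₐ[RatFunc F] L) (x : A),
      ((resA F (fun x => g (Θ x)) x : A) : L) = g (Θ x) := by
    intro g x
    have hgX : g (algebraMap F[X] L X) = algebraMap F[X] L X := by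
      rw [IsScalarTower.algebraMap_apply F[X] (RatFunc F) L]
      exact g.commutes _
    have hgc : ∀ c : F, g (algebraMap F L c) = algebraMap F L c := by
      intro c
      rw [IsScalarTower.algebraMap_apply F F[X] L,
        IsScalarTower.algebraMap_apply F[X] (RatFunc F) L]
      exact g.commutes _
    exact resA_coe (g.toRingEquiv.toRingHom.comp Θ.toRingHom) (τ : F →+* F)
      (by
        change g (Θ (algebraMap F[X] L X)) = _
        rw [hX, hgX])
      (by
        intro c
        change g (Θ (algebraMap F L c)) = algebraMap F L (τ c)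
        rw [hc, hgc, hτ]) x
  let θ : A →+* A := (Θ : L →+* L).restrict A A
    (fun x hx => P2b_integral (Θ : L →+* L) (τ : F →+* F) hXp hcp hx)
  have hθ : ∀ x : A, ((θ x : A) : L) = Θ x := fun x => rfl
  have hθθi : ∀ x, θ (θi x) = x := by
    intro x
    apply Subtype.ext
    rw [hθ, hθi]
    exact Θ.apply_symm_apply _
  have hθiθ : ∀ x, θi (θ x) = x := by
    intro x
    apply Subtype.ext
    rw [hθi, hθ]
    exact Θ.symm_apply_apply _
  have hres : ∀ (g : L ≃ₐ[RatFunc F] L) (x : A),
      resA F (fun x => g (Θ x)) x = P2bIdent_rho g (θ x) := by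
    intro g x
    apply Subtype.ext
    rw [hg, P2bIdent_rho_coe, hθ]
  let tw : (A →ₐ[F] F) → (A →ₐ[F] F) := fun φ =>
    { toRingHom := (iterateFrobenius F p e).comp ((φ : A →+* F).comp θi)
      commutes' := by
        intro c
        change (φ (θi (algebraMap F A c))) ^ p ^ e = c
        have h1 : θi (algebraMap F A c) = algebraMap F A (τ.symm c) := by
          apply Subtype.ext
          rw [hθi]
          exact hcs c
        rw [h1, φ.commutes, ← hτ]
        exact τ.apply_symm_apply c }
  have htw : ∀ φ x, tw φ x = (φ (θi x)) ^ p ^ e := fun φ x => rfl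
  have hPt : ∀ g : L ≃ₐ[RatFunc F] L, Pt F (resA F (fun x => g (Θ x))) (p ^ e) =
      {φ : A →ₐ[F] F | φ.comp (P2bIdent_rho g) = tw φ} := by
    intro g
    ext φ
    rw [Set.mem_ofPred_eq]
    constructor
    · intro h
      ext y
      rw [AlgHom.comp_apply, htw]
      have h1 := h (θi y)
      rw [hres, hθθi] at h1
      exact h1
    · intro h x
      rw [hres]
      have h1 := DFunLike.congr_fun h (θ x)
      rw [AlgHom.comp_apply, htw, hθiθ] at h1
      exact h1
  have hcount := P2b_count (G := L ≃ₐ[RatFunc F] L) (S := A →ₐ[F] F) (B := F)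
    (fun φ g => φ.comp (P2bIdent_rho g))
    (by
      intro φ
      ext x
      rw [AlgHom.comp_apply, P2bIdent_rho_one])
    (by
      intro φ g h
      ext x
      rw [AlgHom.comp_apply, AlgHom.comp_apply, AlgHom.comp_apply, P2bIdent_rho_mul])
    (fun φ => φ (algebraMap F[X] A X))
    (by
      intro φ g
      change φ (P2bIdent_rho g _) = _
      rw [P2bIdent_rho_X])
    (fun φ ψ h => P2bIdent_trans φ ψ h)
    tw C
    (by
      intro φ
      rw [hCmem]
      have h1 : θi (algebraMap F[X] A X) = algebraMap F[X] A X := by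
        apply Subtype.ext
        rw [hθi]
        exact hXs
      rw [htw, h1])
    (fun c _ => P2b_exists_point F L c)
  have hcard : Fintype.card (L ≃ₐ[RatFunc F] L) = finrank (RatFunc F) L := by
    rw [← Nat.card_eq_fintype_card]
    exact IsGalois.card_aut_eq_finrank (RatFunc F) L
  rw [hCcard, hcard] at hcount
  refine ⟨fun g => ?_, ?_⟩
  · rw [hPt]
    exact hcount.1 g
  · simp_rw [hPt]
    exact hcount.2

end

end Pool.Agent.SmB
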