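import Pool.Agent.Lib.SmB.P2bRVal
import Pool.Agent.Lib.SmB.P2bCount

/-!
Module `P2bPts`. Points of a Galois cover of the line over an algebraically closed field `F` of
characteristic `p`: existence of `RVal`, existence of points, transitivity of the Galois group,
and the exact identity `∑ g, #Pt(g ∘ Θ) = n Q`, `Q = p ^ e`.
-/

namespace Pool.Agent.SmB

open Module Polynomial

/-- The map induced on the integral closure of `F[X]` in `L` by a map `Ψ : L → L`
(junk value `0` where `Ψ x` is not integral). -/
noncomputable def resA (F : Type*) {L : Type*} [Field F] [Field L] [Algebra F[X] L]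
    (Ψ : L → L) : integralClosure F[X] L → integralClosure F[X] L := by
  classical exact fun x => if h : Ψ x ∈ integralClosure F[X] L then ⟨Ψ x, h⟩ else 0

section

variable {F L : Type*} [Field F] [Field L] [Algebra F[X] L] [Algebra F L] [IsScalarTower F F[X] L]

/-- A ring endomorphism of `L` fixing `X` and semilinear over `F` preserves integral elements. -/
theorem P2b_integral (Ψ : L →+* L) (τ : F →+* F)
    (hX : Ψ (algebraMap F[X] L X) = algebraMap F[X] L X)
    (hc : ∀ c : F, Ψ (algebraMap F L c) = algebraMap F L (τ c)) {x : L}
    (hx : IsIntegral F[X] x) : IsIntegral F[X] (Ψ x) := by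
  refine hx.map_of_comp_eq (Polynomial.mapRingHom τ) Ψ ?_
  refine Polynomial.ringHom_ext ?_ ?_
  · intro c
    have h1 : ∀ d : F, algebraMap F[X] L (C d) = algebraMap F L d := fun d => by
      rw [IsScalarTower.algebraMap_apply F F[X] L]
      rfl
    simp only [RingHom.comp_apply, Polynomial.coe_mapRingHom, Polynomial.map_C]
    rw [h1, h1, hc]
  · simp only [RingHom.comp_apply, Polynomial.coe_mapRingHom, Polynomial.map_X]
    exact hX.symm

theorem resA_coe (Ψ : L →+* L) (τ : F →+* F)
    (hX : Ψ (algebraMap F[X] L X) = algebraMap F[X] L X)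
    (hc : ∀ c : F, Ψ (algebraMap F L c) = algebraMap F L (τ c))
    (x : integralClosure F[X] L) : ((resA F Ψ x : integralClosure F[X] L) : L) = Ψ x := by
  have h : Ψ x ∈ integralClosure F[X] L := P2b_integral Ψ τ hX hc x.2
  unfold resA
  rw [dif_pos h]

/-- A point is determined on the base by the image of `X`. -/
theorem P2b_point_base (φ : integralClosure F[X] L →ₐ[F] F) (f : F[X]) :
    φ (algebraMap F[X] (integralClosure F[X] L) f) =
      f.eval (φ (algebraMap F[X] (integralClosure F[X] L) X)) := by
  have h : (φ : integralClosure F[X] L →+* F).comp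
      (algebraMap F[X] (integralClosure F[X] L)) =
      Polynomial.evalRingHom (φ (algebraMap F[X] (integralClosure F[X] L) X)) := by
    refine Polynomial.ringHom_ext ?_ ?_
    · intro c
      have h1 : algebraMap F[X] (integralClosure F[X] L) (C c) =
          algebraMap F (integralClosure F[X] L) c := by
        rw [IsScalarTower.algebraMap_apply F F[X] (integralClosure F[X] L)]
        rfl
      simp only [RingHom.comp_apply, Polynomial.coe_evalRingHom, Polynomial.eval_C]
      rw [h1]
      exact φ.commutes c
    · simp
  exact congrArg (fun g : F[X] →+* F => g f) h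

end

section

variable (F L : Type*) [Field F] [IsAlgClosed F] [Field L] [Algebra (RatFunc F) L]
  [Algebra F[X] L] [IsScalarTower F[X] (RatFunc F) L] [Algebra F L] [IsScalarTower F F[X] L]

omit [IsAlgClosed F] [Algebra F L] [IsScalarTower F F[X] L] in
theorem P2b_algMap_inj : Function.Injective (algebraMap F[X] L) := by
  rw [IsScalarTower.algebraMap_eq F[X] (RatFunc F) L]
  exact (algebraMap (RatFunc F) L).injective.comp (IsFractionRing.injective F[X] (RatFunc F))

/-- Over every `c : F` there is a point. -/
theorem P2b_exists_point (c : F) :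
    ∃ φ : integralClosure F[X] L →ₐ[F] F,
      φ (algebraMap F[X] (integralClosure F[X] L) X) = c := by
  classical
  let A := integralClosure F[X] L
  have hint : Algebra.IsIntegral F[X] A := integralClosure.AlgebraIsIntegral
  have hinj : Function.Injective (algebraMap F[X] A) := by
    intro a b hab
    apply P2b_algMap_inj F L
    exact congrArg (fun z : A => (z : L)) hab
  have hfaith : FaithfulSMul F[X] A := (faithfulSMul_iff_algebraMap_injective _ _).2 hinj
  let P : Ideal F[X] := Ideal.span {X - C c}
  have hP : P.IsMaximal := by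
    change (Ideal.span {X - C c} : Ideal F[X]).IsMaximal
    rw [← Polynomial.ker_evalRingHom c]
    exact RingHom.ker_isMaximal_of_surjective _ (fun x => ⟨C x, by simp⟩)
  obtain ⟨M, hM, hMP⟩ := Ideal.exists_ideal_over_maximal_of_isIntegral (S := A) P (by
    rw [(RingHom.injective_iff_ker_eq_bot _).1 hinj]
    exact bot_le)
  have hfield : Algebra.IsIntegral F (A ⧸ M) := by
    refine ⟨fun z => ?_⟩
    obtain ⟨x, rfl⟩ := Ideal.Quotient.mk_surjective z
    have hx : IsIntegral F[X] x := hint.isIntegral x
    obtain ⟨f, hf, hfx⟩ := hx
    refine ⟨f.map (Polynomial.evalRingHom c), hf.map _, ?_⟩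
    have hcomp : (algebraMap F (A ⧸ M)).comp (Polynomial.evalRingHom c) =
        (Ideal.Quotient.mk M).comp (algebraMap F[X] A) := by
      refine Polynomial.ringHom_ext ?_ ?_
      · intro d
        simp only [RingHom.comp_apply, Polynomial.coe_evalRingHom, Polynomial.eval_C]
        have h1 : algebraMap F[X] A (C d) = algebraMap F A d := by
          rw [IsScalarTower.algebraMap_apply F F[X] A]
          rfl
        rw [h1]
        rfl
      · simp only [RingHom.comp_apply, Polynomial.coe_evalRingHom, Polynomial.eval_X]
        have h2 : algebraMap F[X] A (X - C c) ∈ M := by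
          have h3 : (X - C c : F[X]) ∈ Ideal.comap (algebraMap F[X] A) M := by
            rw [hMP]
            exact Ideal.mem_span_singleton_self _
          exact h3
        have h4 : algebraMap F[X] A (C c) = algebraMap F A c := by
          rw [IsScalarTower.algebraMap_apply F F[X] A]
          rfl
        rw [map_sub, h4] at h2
        have h5 := (Ideal.Quotient.mk_eq_mk_iff_sub_mem _ _).2 h2
        rw [h5]
        rfl
    rw [Polynomial.eval₂_map, hcomp, ← Polynomial.hom_eval₂, hfx, map_zero]
  have hMmax : M.IsMaximal := hM
  let _ : Field (A ⧸ M) := Ideal.Quotient.field M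
  have hbij : Function.Bijective (algebraMap F (A ⧸ M)) :=
    IsAlgClosed.algebraMap_bijective_of_isIntegral
  let e : F ≃ₐ[F] (A ⧸ M) := AlgEquiv.ofBijective (Algebra.ofId F (A ⧸ M)) hbij
  refine ⟨(e.symm : (A ⧸ M) →ₐ[F] F).comp (Ideal.Quotient.mkₐ F M), ?_⟩
  apply e.injective
  simp only [AlgHom.comp_apply, AlgEquiv.coe_toAlgHom]
  rw [AlgEquiv.apply_symm_apply]
  have h2 : algebraMap F[X] A (X - C c) ∈ M := by
    have h3 : (X - C c : F[X]) ∈ Ideal.comap (algebraMap F[X] A) M := by
      rw [hMP]
      exact Ideal.mem_span_singleton_self _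
    exact h3
  have h4 : algebraMap F[X] A (C c) = algebraMap F A c := by
    rw [IsScalarTower.algebraMap_apply F F[X] A]
    rfl
  rw [map_sub, h4] at h2
  exact (Ideal.Quotient.mk_eq_mk_iff_sub_mem _ _).2 h2

variable [FiniteDimensional (RatFunc F) L]

/-- `RVal` exists for the integral closure of `F[X]` in a finite separable extension. -/
theorem P2b_exists_rval [Algebra.IsSeparable (RatFunc F) L] :
    Nonempty (RVal F (integralClosure F[X] L)) := by
  classical
  have hDed : IsDedekindDomain (integralClosure F[X] L) :=
    integralClosure.isDedekindDomain F[X] (RatFunc F) L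
  obtain ⟨φ, hφ⟩ := P2b_exists_point F L 0
  have hsurj : Function.Surjective (φ : integralClosure F[X] L →+* F) := fun d =>
    ⟨algebraMap F _ d, φ.commutes d⟩
  have hmax : (RingHom.ker (φ : integralClosure F[X] L →+* F)).IsMaximal :=
    RingHom.ker_isMaximal_of_surjective _ hsurj
  refine exists_rval_of_maximal (F := F) (RingHom.ker (φ : integralClosure F[X] L →+* F)) ?_ ?_
  · intro hbot
    have h1 : algebraMap F[X] (integralClosure F[X] L) X ∈
        RingHom.ker (φ : integralClosure F[X] L →+* F) := hφ
    rw [hbot, Ideal.mem_bot] at h1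
    have h2 := congrArg (fun z : integralClosure F[X] L => (z : L)) h1
    have h3 : algebraMap F[X] L X = algebraMap F[X] L 0 := by
      rw [map_zero]
      exact h2
    exact Polynomial.X_ne_zero (P2b_algMap_inj F L h3)
  · intro x
    refine ⟨φ x, ?_⟩
    rw [RingHom.mem_ker]
    change φ (x - algebraMap F _ (φ x)) = 0
    rw [map_sub, φ.commutes]
    simp

end

end Pool.Agent.SmB
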