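import Pool.Agent.Lib.SmB.Defs

/-!
Module `P2bRVal`. A Dedekind domain `A` over `F` with a non-zero maximal ideal `M` such that
`A = F + M` has a valuation in the sense of `RVal`.
-/

namespace Pool.Agent.SmB

open Module

private theorem P2bRVal_mem {F A : Type*} [Field F] [CommRing A] [IsDomain A]
    [Algebra F A] (M : Ideal A) [hM : M.IsMaximal] (R : Type*) [CommRing R] [IsDomain R]
    [Algebra A R] [IsLocalization.AtPrime R M] [IsDiscreteValuationRing R]
    (hres : ∀ x : A, ∃ c : F, x - algebraMap F A c ∈ M) (z : R) :
    ∃ c : F, z - algebraMap A R (algebraMap F A c) ∈ IsLocalRing.maximalIdeal R := by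
  obtain ⟨a, s, rfl⟩ := IsLocalization.exists_mk'_eq M.primeCompl z
  obtain ⟨c, hc⟩ := hres a
  obtain ⟨d, hd⟩ := hres s
  have hsM : (s : A) ∉ M := s.2
  have hd0 : d ≠ 0 := by
    rintro rfl
    apply hsM
    simpa using hd
  refine ⟨c / d, ?_⟩
  have hsu : IsUnit (algebraMap A R s) := IsLocalization.map_units R s
  have key : algebraMap A R s * (IsLocalization.mk' R a s -
      algebraMap A R (algebraMap F A (c / d))) ∈ IsLocalRing.maximalIdeal R := by
    rw [mul_sub, IsLocalization.mk'_spec', ← map_mul, ← map_sub,
      IsLocalization.AtPrime.to_map_mem_maximal_iff R M]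
    have h1 : a - (s : A) * algebraMap F A (c / d) =
        (a - algebraMap F A c) - ((s : A) - algebraMap F A d) * algebraMap F A (c / d) := by
      have h2 : algebraMap F A c = algebraMap F A d * algebraMap F A (c / d) := by
        rw [← map_mul, mul_div_cancel₀ c hd0]
      rw [h2]
      ring
    rw [h1]
    exact M.sub_mem hc (M.mul_mem_right _ hd)
  rcases (IsLocalRing.maximalIdeal.isMaximal R).isPrime.mem_or_mem key with h | h
  · exact absurd hsu ((IsLocalRing.mem_maximalIdeal _).1 h)
  · exact h

theorem exists_rval_of_maximal {F A : Type*} [Field F] [CommRing A]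
    [IsDedekindDomain A] [Algebra F A] (M : Ideal A) [hM : M.IsMaximal] (hM0 : M ≠ ⊥)
    (hres : ∀ x : A, ∃ c : F, x - algebraMap F A c ∈ M) : Nonempty (RVal F A) := by
  classical
  have hprime : M.IsPrime := hM.isPrime
  have hdvr : IsDiscreteValuationRing (Localization.AtPrime M) :=
    IsLocalization.AtPrime.isDiscreteValuationRing_of_dedekind_domain A hM0
      (Localization.AtPrime M)
  set R := Localization.AtPrime M with hR
  have hinj : Function.Injective (algebraMap A R) :=
    IsLocalization.injective R M.primeCompl_le_nonZeroDivisors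
  refine ⟨{ v := (IsDiscreteValuationRing.addVal R).comap (algebraMap A R)
            top_iff := ?_
            res := ?_
            unif := ?_ }⟩
  · intro x
    change IsDiscreteValuationRing.addVal R (algebraMap A R x) = ⊤ ↔ x = 0
    rw [IsDiscreteValuationRing.addVal_eq_top_iff]
    exact map_eq_zero_iff _ hinj
  · intro x y hy hxy
    change IsDiscreteValuationRing.addVal R (algebraMap A R x) =
      IsDiscreteValuationRing.addVal R (algebraMap A R y) at hxy
    change ∃ c : F, IsDiscreteValuationRing.addVal R (algebraMap A R x) <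
      IsDiscreteValuationRing.addVal R (algebraMap A R (x - c • y))
    have hdvd : algebraMap A R y ∣ algebraMap A R x := by
      rw [← IsDiscreteValuationRing.addVal_le_iff_dvd, hxy]
    obtain ⟨z, hz⟩ := hdvd
    obtain ⟨c, hc⟩ := P2bRVal_mem M R hres z
    refine ⟨c, ?_⟩
    have h1 : algebraMap A R (x - c • y) =
        algebraMap A R y * (z - algebraMap A R (algebraMap F A c)) := by
      rw [map_sub, Algebra.smul_def, map_mul, hz]
      ring
    rw [hxy, h1, IsDiscreteValuationRing.addVal_mul]
    have hy' : IsDiscreteValuationRing.addVal R (algebraMap A R y) ≠ ⊤ := by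
      rw [Ne, IsDiscreteValuationRing.addVal_eq_top_iff, map_eq_zero_iff _ hinj]
      exact hy
    have hpos : IsDiscreteValuationRing.addVal R (z - algebraMap A R (algebraMap F A c)) ≠ 0 := by
      rw [Ne, IsDiscreteValuationRing.addVal_eq_zero_iff]
      exact (IsLocalRing.mem_maximalIdeal _).1 hc
    exact lt_of_lt_of_le (ENat.lt_add_one_iff hy' |>.2 le_rfl)
      (add_le_add le_rfl (Order.one_le_iff_ne_zero.2 hpos))
  · obtain ⟨ϖ, hϖ⟩ := IsDiscreteValuationRing.exists_irreducible R
    obtain ⟨a, s, rfl⟩ := IsLocalization.exists_mk'_eq M.primeCompl ϖ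
    refine ⟨a, ?_⟩
    change IsDiscreteValuationRing.addVal R (algebraMap A R a) = 1
    rw [← IsLocalization.mk'_spec' R a s, IsDiscreteValuationRing.addVal_mul,
      IsDiscreteValuationRing.addVal_uniformizer hϖ,
      IsDiscreteValuationRing.addVal_eq_zero_iff.2 (IsLocalization.map_units R s), zero_add]

end Pool.Agent.SmB
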