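import Pool.Agent.Lib.SmB.P2cMin

/-!
Block B of SMITH, part 2c: an adapted basis.
-/

namespace Pool.Agent.SmB.P2c

open Module Polynomial

section basis

variable {F : Type*} [Field F] {L : Type*} [Field L] [Algebra (RatFunc F) L]
  [Algebra F[X] L] [IsScalarTower F[X] (RatFunc F) L] [FiniteDimensional (RatFunc F) L]

/-- A basis of `L` by integral elements such that the coordinate `k` of an integral element `x` of size
`z < y k` vanishes. -/
theorem exists_min_basis : ∃ (w : Basis (Fin (finrank (RatFunc F) L)) (RatFunc F) L)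
    (y : Fin (finrank (RatFunc F) L) → ℕ), (∀ i, w i ∈ AA F L) ∧ (∀ i, Sz F (y i) (w i)) ∧
    ∀ x ∈ AA F L, ∀ k, w.repr x k ≠ 0 → ∀ z : ℤ, Sz F z x → (y k : ℤ) ≤ z := by
  classical
  set n := finrank (RatFunc F) L with hn
  have hne : ∃ m : ℕ, ∃ (w : Basis (Fin n) (RatFunc F) L) (y : Fin n → ℕ),
      (∀ i, w i ∈ AA F L) ∧ (∀ i, Sz F (y i) (w i)) ∧ ∑ i, y i = m := by
    obtain ⟨s, b, hb⟩ := FiniteDimensional.exists_is_basis_integral F[X] (RatFunc F) L
    have hcard : Fintype.card s = n := (finrank_eq_card_basis b).symm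
    let e : s ≃ Fin n := Fintype.equivFinOfCardEq hcard
    have hsz : ∀ i, ∃ y : ℕ, Sz F y ((b.reindex e) i) := fun i => exists_sz _
    choose y hy using hsz
    refine ⟨_, b.reindex e, y, ?_, hy, rfl⟩
    intro i
    rw [Basis.reindex_apply]
    exact hb _
  obtain ⟨w, y, hw, hy, hsum⟩ := Nat.find_spec hne
  refine ⟨w, y, hw, hy, ?_⟩
  intro x hx k hk z hz
  by_contra hlt
  push Not at hlt
  have hx0 : x ≠ 0 := by
    intro h
    rw [h, map_zero] at hk
    exact hk rfl
  have hz0 := sz_nonneg hx hx0 hz
  have hli : LinearIndependent (RatFunc F) (Function.update w k x) := by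
    refine LinearIndependent.update w.linearIndependent k x ?_
    refine ⟨1, one_mem _, w.repr x, mem_nonZeroDivisors_of_ne_zero hk, ?_⟩
    rw [one_smul, Basis.linearCombination_repr]
  have hnpos : Nonempty (Fin n) := ⟨k⟩
  let w' := basisOfLinearIndependentOfCardEqFinrank hli (by rw [Fintype.card_fin])
  have hw' : ∀ i, w' i = Function.update w k x i := fun i => by
    rw [coe_basisOfLinearIndependentOfCardEqFinrank]
  have hlt' : ∑ i, Function.update y k z.toNat i < ∑ i, y i := by
    refine Finset.sum_lt_sum ?_ ⟨k, Finset.mem_univ _, ?_⟩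
    · intro i _
      by_cases hi : i = k
      · subst hi
        rw [Function.update_self]
        omega
      · rw [Function.update_of_ne hi]
    · rw [Function.update_self]
      omega
  have hmin := Nat.find_min hne (m := ∑ i, Function.update y k z.toNat i) (by rw [← hsum]; exact hlt')
  apply hmin
  refine ⟨w', Function.update y k z.toNat, ?_, ?_, rfl⟩
  · intro i
    rw [hw']
    by_cases hi : i = k
    · subst hi
      rw [Function.update_self]
      exact hx
    · rw [Function.update_of_ne hi]
      exact hw i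
  · intro i
    rw [hw']
    by_cases hi : i = k
    · subst hi
      rw [Function.update_self, Function.update_self, Int.toNat_of_nonneg hz0]
      exact hz
    · rw [Function.update_of_ne hi, Function.update_of_ne hi]
      exact hy i

private theorem P2cBas_smul_mem {w : L} (hw : w ∈ AA F L) (p : F[X]) :
    (algebraMap F[X] (RatFunc F) p) • w ∈ AA F L := by
  rw [Algebra.smul_def, ← IsScalarTower.algebraMap_apply]
  exact mul_mem (Subalgebra.algebraMap_mem _ p) hw

/-- `w` is adapted: it is a basis of the integral closure of `F[t]`, and `t ^ (-y i) w i` is a basis of the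
integral closure of the valuation ring at infinity. -/
theorem exists_adapted : ∃ (w : Basis (Fin (finrank (RatFunc F) L)) (RatFunc F) L)
    (y : Fin (finrank (RatFunc F) L) → ℕ), (∀ i, w i ∈ AA F L) ∧ (∀ i, Sz F (y i) (w i)) ∧
    (∀ x ∈ AA F L, ∀ i, ∃ p : F[X], w.repr x i = algebraMap F[X] (RatFunc F) p) ∧
    ∀ (x : L) (z : ℤ), Sz F z x → ∀ i, DLe (z - y i) (w.repr x i) := by
  classical
  obtain ⟨w, y, hw, hy, hmin⟩ := exists_min_basis (F := F) (L := L)
  refine ⟨w, y, hw, hy, ?_, ?_⟩
  · intro x hx
    choose p hp using fun i => exists_polyPart (w.repr x i)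
    -- the difference
    set r : Fin (finrank (RatFunc F) L) → RatFunc F :=
      fun i => w.repr x i - algebraMap F[X] (RatFunc F) (p i) with hr
    have hx' : x - ∑ i, (algebraMap F[X] (RatFunc F) (p i)) • w i = ∑ i, r i • w i := by
      conv_lhs => rw [← w.sum_repr x]
      rw [← Finset.sum_sub_distrib]
      refine Finset.sum_congr rfl fun i _ => ?_
      rw [hr, sub_smul]
    have hmem : ∑ i, r i • w i ∈ AA F L := by
      rw [← hx']
      refine sub_mem hx (sum_mem fun i _ => P2cBas_smul_mem (hw i) _)
    have hall : ∀ i, r i = 0 := by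
      by_contra hcon
      push Not at hcon
      obtain ⟨i₀, hi₀⟩ := hcon
      obtain ⟨k, hk, hkmax⟩ := Finset.exists_max_image
        (Finset.univ.filter fun i => r i ≠ 0) y ⟨i₀, by simpa using hi₀⟩
      rw [Finset.mem_filter] at hk
      have hcoord : w.repr (∑ i, r i • w i) k = r k := by
        rw [w.repr_sum_self]
      have hsz : Sz F ((y k : ℤ) - 1) (∑ i, r i • w i) := by
        refine Sz.sum _ fun i _ => ?_
        by_cases hi : r i = 0
        · rw [hi, zero_smul]
          exact Sz.zero _
        · have h1 := hkmax i (by simpa using hi)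
          have h2 := (hy i).smul (hp i)
          refine h2.mono ?_
          have : (y i : ℤ) ≤ y k := by exact_mod_cast h1
          omega
      have h3 := hmin _ hmem k (by rw [hcoord]; exact hk.2) _ hsz
      omega
    intro i
    exact ⟨p i, sub_eq_zero.1 (hall i)⟩
  · intro x z hz
    by_contra hcon
    push Not at hcon
    -- every coordinate has some degree
    have hdeg : ∀ c : RatFunc F, ∃ e : ℕ, DLe (e : ℤ) c := by
      intro c
      obtain ⟨p, hp⟩ := exists_polyPart c
      refine ⟨p.natDegree, ?_⟩
      have h1 := (hp.mono (show (-1 : ℤ) ≤ (p.natDegree : ℤ) by omega)).add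
        (dLe_polynomial.2 (le_refl p.natDegree))
      rwa [sub_add_cancel] at h1
    choose e he using fun i => hdeg (w.repr x i)
    -- the least `s` which works for all
    have hex : ∃ s : ℕ, ∀ i, DLe (z + s - y i) (w.repr x i) := by
      refine ⟨∑ i, (e i + y i) + z.natAbs, fun i => (he i).mono ?_⟩
      have h1 : e i + y i ≤ ∑ i, (e i + y i) :=
        Finset.single_le_sum (f := fun i => e i + y i) (fun _ _ => Nat.zero_le _)
          (Finset.mem_univ i)
      have h2 : (e i : ℤ) + y i ≤ ((∑ i, (e i + y i) : ℕ) : ℤ) := by exact_mod_cast h1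
      omega
    have hs := Nat.find_spec hex
    set s := Nat.find hex with hsdef
    have hs0 : s ≠ 0 := by
      intro h0
      obtain ⟨i, hi⟩ := hcon
      apply hi
      have := hs i
      rw [h0] at this
      simpa using this
    have hs1 := Nat.find_min hex (m := s - 1) (by omega)
    choose γ hγ using fun i => exists_lead (hs i)
    have hγne : ∃ i, γ i ≠ 0 := by
      by_contra hcon2
      push Not at hcon2
      apply hs1
      intro i
      have h1 := hγ i
      rw [hcon2 i, map_zero, zero_mul, sub_zero] at h1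
      refine h1.mono ?_
      omega
    obtain ⟨i₀, hi₀⟩ := hγne
    obtain ⟨k, hk, hkmax⟩ := Finset.exists_max_image
      (Finset.univ.filter fun i => γ i ≠ 0) y ⟨i₀, by simpa using hi₀⟩
    rw [Finset.mem_filter] at hk
    -- the leading part
    obtain ⟨u, hu⟩ : ∃ u : L,
      u = ∑ i, (RatFunc.C (γ i) * RatFunc.X ^ (z + s - (y i : ℤ))) • w i := ⟨_, rfl⟩
    have hxu : x - u =
        ∑ i, (w.repr x i - RatFunc.C (γ i) * RatFunc.X ^ (z + s - (y i : ℤ))) • w i := by
      conv_lhs => rw [← w.sum_repr x]
      rw [hu, ← Finset.sum_sub_distrib]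
      exact Finset.sum_congr rfl fun i _ => (sub_smul _ _ _).symm
    have hu1 : Sz F (z + s - 1) u := by
      have h1 : u = x - (x - u) := by abel
      rw [h1]
      refine (hz.mono (by omega)).sub ?_
      rw [hxu]
      refine Sz.sum _ fun i _ => ?_
      have h2 := (hy i).smul (hγ i)
      have h3 : z + s - (y i : ℤ) - 1 + y i = z + s - 1 := by ring
      rwa [h3] at h2
    have hu2 := hu1.smul (DLe.zpow (F := F) ((y k : ℤ) - (z + s)))
    have h4 : (y k : ℤ) - (z + s) + (z + s - 1) = y k - 1 := by ring
    rw [h4] at hu2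
    have hu3 : (RatFunc.X : RatFunc F) ^ ((y k : ℤ) - (z + s)) • u =
        ∑ i, (RatFunc.C (γ i) * RatFunc.X ^ ((y k : ℤ) - y i)) • w i := by
      rw [hu, Finset.smul_sum]
      refine Finset.sum_congr rfl fun i _ => ?_
      rw [smul_smul]
      congr 1
      have h5 : (RatFunc.X : RatFunc F) ^ ((y k : ℤ) - y i) =
          RatFunc.X ^ ((y k : ℤ) - (z + s)) * RatFunc.X ^ (z + s - (y i : ℤ)) := by
        rw [← zpow_add₀ RatFunc.X_ne_zero]
        congr 1
        ring
      rw [h5]
      ring
    rw [hu3] at hu2
    have hmem : ∑ i, (RatFunc.C (γ i) * (RatFunc.X : RatFunc F) ^ ((y k : ℤ) - y i)) • w i ∈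
        AA F L := by
      refine sum_mem fun i _ => ?_
      by_cases hi : γ i = 0
      · rw [hi, map_zero, zero_mul, zero_smul]
        exact zero_mem _
      · have h1 := hkmax i (by simpa using hi)
        have h2 : (RatFunc.C (γ i) * (RatFunc.X : RatFunc F) ^ ((y k : ℤ) - y i)) =
            algebraMap F[X] (RatFunc F) (C (γ i) * X ^ (y k - y i)) := by
          rw [map_mul, map_pow, RatFunc.algebraMap_C, RatFunc.algebraMap_X, ← zpow_natCast]
          congr 2
          omega
        rw [h2]
        exact P2cBas_smul_mem (hw i) _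
    have hcoord : w.repr (∑ i, (RatFunc.C (γ i) * (RatFunc.X : RatFunc F) ^ ((y k : ℤ) - y i)) • w i)
        k = RatFunc.C (γ k) := by
      rw [w.repr_sum_self, sub_self, zpow_zero, mul_one]
    have h6 := hmin _ hmem k (by
      rw [hcoord, Ne, map_eq_zero]
      exact hk.2) _ hu2
    omega

end basis

end Pool.Agent.SmB.P2c
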