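import Pool.Agent.Lib.SmB.Defs3

/-!
Block B of SMITH, part 2c: integrality over the valuation ring at infinity.
-/

namespace Pool.Agent.SmB

open Module Polynomial

open Classical in
/-- The valuation ring of `F(t)` at infinity. -/
noncomputable abbrev DInf (F : Type*) [Field F] : ValuationSubring (RatFunc F) :=
  (RatFunc.inftyValuation F).valuationSubring

theorem mem_DInf {F : Type*} [Field F] (x : RatFunc F) :
    x ∈ DInf F ↔ x = 0 ∨ x.intDegree ≤ 0 := by
  classical
  change x ∈ (RatFunc.inftyValuation F).valuationSubring ↔ _
  rw [Valuation.mem_valuationSubring_iff]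
  rcases eq_or_ne x 0 with rfl | hx
  · simp
  · rw [RatFunc.inftyValuation_apply, RatFunc.inftyValuation_of_nonzero F hx, ← WithZero.exp_zero,
      WithZero.exp_le_exp]
    simp [hx]

/-- `b` is integral over the valuation ring at infinity. -/
def IntInf (F L : Type*) [Field F] [Field L] [Algebra (RatFunc F) L] (b : L) : Prop :=
  ((algebraMap (RatFunc F) L).comp (DInf F).subtype).IsIntegralElem b

end Pool.Agent.SmB
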