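import Pool.Agent.Lib.SmB.P2cDefs
import Pool.Agent.Lib.SmB.P2aTame

/-!
Block B of SMITH, part 2c: the trace dual of the integral closures of `F[t]` and of the valuation ring
at infinity in a tame Galois extension `L`.
-/

namespace Pool.Agent.SmB

open Module Polynomial

/-! ### General part: `D` a PID with fraction field `K`, `B` its integral closure in `L` -/

section general

variable (D K : Type*) {L : Type*} [CommRing D] [IsDomain D] [IsPrincipalIdealRing D] [Field K]
  [Algebra D K] [IsFractionRing D K] [Field L] [Algebra K L] [Algebra D L] [IsScalarTower D K L]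
  [FiniteDimensional K L] [IsGalois K L]

private theorem P2cDual_setup : ∃ (ρ : Gal(L/K) →* (integralClosure D L ≃ₐ[D] integralClosure D L))
    (τ : integralClosure D L →ₗ[D] D),
    (∀ b, algebraMap D (integralClosure D L) (τ b) = ∑ g, ρ g b) ∧
    (∀ g b, ((ρ g b : integralClosure D L) : L) = g (b : L)) ∧
    (∀ b : integralClosure D L, algebraMap D K (τ b) = Algebra.trace K L (b : L)) := by
  have hB : IsDedekindDomain (integralClosure D L) := integralClosure.isDedekindDomain D K L
  have hfin : Module.Finite D (integralClosure D L) :=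
    IsIntegralClosure.finite D K L (integralClosure D L)
  have hinj : Function.Injective (algebraMap D L) := by
    rw [IsScalarTower.algebraMap_eq D K L]
    exact (algebraMap K L).injective.comp (IsFractionRing.injective D K)
  have htf : IsTorsionFree D L := by
    have : FaithfulSMul D L := (faithfulSMul_iff_algebraMap_injective D L).2 hinj
    infer_instance
  refine ⟨(galRestrict D K L (integralClosure D L)).toMonoidHom,
    Algebra.intTrace D (integralClosure D L), ?_, ?_, ?_⟩
  · intro b
    apply Subtype.val_injective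
    have h1 : ((algebraMap D (integralClosure D L) (Algebra.intTrace D (integralClosure D L) b) :
        integralClosure D L) : L) = algebraMap K L (Algebra.trace K L (b : L)) := by
      have h2 := Algebra.algebraMap_intTrace (A := D) (K := K) (L := L) (B := integralClosure D L) b
      have h3 : (algebraMap (integralClosure D L) L) b = (b : L) := rfl
      rw [h3] at h2
      rw [← h2, ← IsScalarTower.algebraMap_apply]
      rfl
    rw [h1, trace_eq_sum_automorphisms]
    rw [AddSubmonoidClass.coe_finsetSum]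
    refine Finset.sum_congr rfl fun g _ => ?_
    exact (algebraMap_galRestrict_apply D g b).symm
  · intro g b
    exact algebraMap_galRestrict_apply D g b
  · intro b
    exact Algebra.algebraMap_intTrace (A := D) (K := K) (L := L) (B := integralClosure D L) b

/-- Tame places: if the traces of `b₁ b` are divisible by `π ^ 2` then `π ∣ b₁`. -/
private theorem P2cDual_tame (hcard : IsUnit ((finrank K L : ℕ) : D)) {π : D} (hπ : π ≠ 0)
    (hres : ∀ P : Ideal (integralClosure D L), P.IsPrime →
      algebraMap D (integralClosure D L) π ∈ P → ∀ x, ∃ d : D,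
        x - algebraMap D (integralClosure D L) d ∈ P)
    (b₁ : integralClosure D L)
    (hb : ∀ b : integralClosure D L, ∃ d : D,
      Algebra.trace K L ((b₁ : L) * (b : L)) = algebraMap D K (π ^ 2 * d)) :
    algebraMap D (integralClosure D L) π ∣ b₁ := by
  have hB : IsDedekindDomain (integralClosure D L) := integralClosure.isDedekindDomain D K L
  obtain ⟨ρ, τ, htr, -, hτ⟩ := P2cDual_setup D K (L := L)
  have hinj : Function.Injective (algebraMap D (integralClosure D L)) := by
    have h1 : Function.Injective (algebraMap D L) := by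
      rw [IsScalarTower.algebraMap_eq D K L]
      exact (algebraMap K L).injective.comp (IsFractionRing.injective D K)
    intro x y hxy
    exact h1 (congrArg Subtype.val hxy)
  have hc : IsUnit ((Fintype.card Gal(L/K) : ℕ) : integralClosure D L) := by
    rw [← Nat.card_eq_fintype_card, IsGalois.card_aut_eq_finrank]
    have h1 := hcard.map (algebraMap D (integralClosure D L))
    rwa [map_natCast] at h1
  have h := tame_dual ρ τ htr hc (π := π) (fun h => hπ (hinj (by rw [h, map_zero]))) hres b₁ 1
    (by
      intro b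
      obtain ⟨d, hd⟩ := hb b
      refine ⟨d, ?_⟩
      apply IsFractionRing.injective D K
      rw [hτ]
      exact hd)
  rwa [pow_one] at h

/-- Unramified places: if the traces of `b₁ b` are divisible by `π` then `π ∣ b₁`. -/
private theorem P2cDual_unr {π : D} (hπ : Prime π) (P : Ideal (integralClosure D L))
    (hP : P.IsPrime) (hπP : algebraMap D (integralClosure D L) π ∈ P)
    (hstab : ∀ g : Gal(L/K), (∀ x y : integralClosure D L, (y : L) = g x → (y ∈ P ↔ x ∈ P)) → g = 1)
    (b₁ : integralClosure D L)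
    (hb : ∀ b : integralClosure D L, ∃ d : D,
      Algebra.trace K L ((b₁ : L) * (b : L)) = algebraMap D K (π * d)) :
    algebraMap D (integralClosure D L) π ∣ b₁ := by
  classical
  have hB : IsDedekindDomain (integralClosure D L) := integralClosure.isDedekindDomain D K L
  obtain ⟨ρ, τ, htr, hρ, hτ⟩ := P2cDual_setup D K (L := L)
  have hinjL : Function.Injective (algebraMap D L) := by
    rw [IsScalarTower.algebraMap_eq D K L]
    exact (algebraMap K L).injective.comp (IsFractionRing.injective D K)
  have hinj : Function.Injective (algebraMap D (integralClosure D L)) := by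
    intro x y hxy
    exact hinjL (congrArg Subtype.val hxy)
  have htf : IsTorsionFree D L := by
    have : FaithfulSMul D L := (faithfulSMul_iff_algebraMap_injective D L).2 hinjL
    infer_instance
  have hfin : Module.Finite D (integralClosure D L) :=
    IsIntegralClosure.finite D K L (integralClosure D L)
  have hfree : Module.Free D (integralClosure D L) :=
    IsIntegralClosure.module_free D K L (integralClosure D L)
  let w := Module.finBasis D (integralClosure D L)
  have hrank : finrank D (integralClosure D L) = finrank K L :=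
    IsIntegralClosure.rank D K L (integralClosure D L)
  have hι : Fintype.card (Fin (finrank D (integralClosure D L))) = Fintype.card Gal(L/K) := by
    rw [Fintype.card_fin, hrank, ← Nat.card_eq_fintype_card, IsGalois.card_aut_eq_finrank]
  have hdisc := disc_unram ρ τ htr (π := π) (fun h => hπ.ne_zero (hinj (by rw [h, map_zero]))) P hP
    hπP (by
      intro g hg
      apply hstab
      intro x y hxy
      have h1 : y = ρ g x := Subtype.ext (by rw [hxy, hρ])
      rw [h1]
      exact hg x) w hι
  -- the traces against the basis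
  have hdvd : ∀ b, π ∣ τ (b₁ * b) := by
    intro b
    obtain ⟨d, hd⟩ := hb b
    refine ⟨d, ?_⟩
    apply IsFractionRing.injective D K
    rw [hτ]
    exact hd
  set T : Matrix _ _ D := Matrix.of fun i j => τ (w i * w j) with hT
  have hdet : disc τ w = T.det := rfl
  have h1 : ∀ j, π ∣ (T.mulVec (fun i => w.repr b₁ i)) j := by
    intro j
    have h2 : (T.mulVec (fun i => w.repr b₁ i)) j = τ (b₁ * w j) := by
      conv_rhs => rw [← w.sum_repr b₁]
      rw [Finset.sum_mul, map_sum]
      simp only [Matrix.mulVec, dotProduct, hT, Matrix.of_apply]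
      refine Finset.sum_congr rfl fun i _ => ?_
      rw [smul_mul_assoc, map_smul, smul_eq_mul, mul_comm (w i), mul_comm]
    rw [h2]
    exact hdvd _
  have h3 : ∀ i, π ∣ w.repr b₁ i := by
    intro i
    have h4 : (T.adjugate.mulVec (T.mulVec fun i => w.repr b₁ i)) i = T.det * w.repr b₁ i := by
      rw [Matrix.mulVec_mulVec, Matrix.adjugate_mul, Matrix.smul_mulVec, Matrix.one_mulVec]
      rfl
    have h5 : π ∣ T.det * w.repr b₁ i := by
      rw [← h4]
      simp only [Matrix.mulVec, dotProduct]
      refine Finset.dvd_sum fun j _ => ?_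
      exact Dvd.dvd.mul_left (h1 j) _
    rcases hπ.dvd_or_dvd h5 with h6 | h6
    · exact absurd (hdet ▸ h6) hdisc
    · exact h6
  choose β hβ using h3
  refine ⟨∑ i, β i • w i, ?_⟩
  conv_lhs => rw [← w.sum_repr b₁]
  rw [Finset.mul_sum]
  refine Finset.sum_congr rfl fun i _ => ?_
  rw [hβ, ← smul_smul, Algebra.smul_def]

end general

/-! ### The finite places -/

variable {F : Type*} [Field F] [IsAlgClosed F] {L : Type*} [Field L] [Algebra (RatFunc F) L]
  [Algebra F[X] L] [Algebra F L] [IsScalarTower F F[X] L] [IsScalarTower F[X] (RatFunc F) L]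
  [FiniteDimensional (RatFunc F) L] [IsGalois (RatFunc F) L]

/-- A root of a monic polynomial over a ring, modulo a prime ideal, is congruent to a constant. -/
private theorem P2cDual_const {D B : Type*} [CommRing D] [CommRing B] [Algebra D B]
    (f : F →+* B) (P : Ideal B) (hP : P.IsPrime)
    (hD : ∀ d : D, ∃ a : F, algebraMap D B d - f a ∈ P) (x : B) (hx : IsIntegral D x) :
    ∃ a : F, x - f a ∈ P := by
  obtain ⟨p, hp, hpx⟩ := hx
  choose r hr using hD
  -- reduce the polynomial
  let fP : F →+* B ⧸ P := (Ideal.Quotient.mk P).comp f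
  have hr' : ∀ d, Ideal.Quotient.mk P (algebraMap D B d) = fP (r d) := fun d =>
    Ideal.Quotient.eq.2 (hr d)
  have hfP : Function.Injective fP := by
    have : Nontrivial (B ⧸ P) := Ideal.Quotient.nontrivial_iff.2 hP.ne_top
    exact fP.injective
  let q : F[X] := ∑ i ∈ Finset.range p.natDegree, C (r (p.coeff i)) * X ^ i + X ^ p.natDegree
  have hq1 : (∑ i ∈ Finset.range p.natDegree, C (r (p.coeff i)) * X ^ i : F[X]).degree <
      (p.natDegree : WithBot ℕ) := by
    refine (degree_sum_le _ _).trans_lt ?_
    rw [Finset.sup_lt_iff (WithBot.bot_lt_coe _)]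
    intro i hi
    refine (degree_C_mul_X_pow_le _ _).trans_lt ?_
    exact_mod_cast Finset.mem_range.1 hi
  have hq0 : q ≠ 0 := by
    have h1 : q.Monic := by
      rw [show q = X ^ p.natDegree +
        ∑ i ∈ Finset.range p.natDegree, C (r (p.coeff i)) * X ^ i from add_comm _ _]
      exact monic_X_pow_add hq1
    exact h1.ne_zero
  have hqx : eval₂ fP (Ideal.Quotient.mk P x) q = 0 := by
    have h1 : Ideal.Quotient.mk P (eval₂ (algebraMap D B) x p) = 0 := by rw [hpx, map_zero]
    rw [eval₂_eq_sum_range, map_sum, Finset.sum_range_succ] at h1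
    have h2 : p.coeff p.natDegree = 1 := hp
    rw [h2, map_one, one_mul, map_pow] at h1
    rw [eval₂_add, eval₂_finsetSum, eval₂_X_pow, ← h1]
    congr 1
    refine Finset.sum_congr rfl fun i _ => ?_
    rw [eval₂_mul, eval₂_C, eval₂_X_pow, map_mul, map_pow, hr']
  have hsp := (IsAlgClosed.splits q).eq_prod_roots
  rw [hsp, eval₂_mul, eval₂_C, eval₂_multiset_prod, mul_eq_zero] at hqx
  rcases hqx with h | h
  · exfalso
    rw [map_eq_zero_iff _ hfP, leadingCoeff_eq_zero] at h
    exact hq0 h
  · have : IsDomain (B ⧸ P) := Ideal.Quotient.isDomain P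
    rw [Multiset.prod_eq_zero_iff, Multiset.map_map, Multiset.mem_map] at h
    obtain ⟨a, _, ha⟩ := h
    refine ⟨a, ?_⟩
    rw [← Ideal.Quotient.eq]
    have h3 : eval₂ fP (Ideal.Quotient.mk P x) (X - C a) = 0 := ha
    rw [eval₂_sub, eval₂_X, eval₂_C, sub_eq_zero] at h3
    exact h3

omit [Algebra (RatFunc F) L] [Algebra F L] [IsScalarTower F F[X] L]
  [IsScalarTower F[X] (RatFunc F) L] [FiniteDimensional (RatFunc F) L]
  [IsGalois (RatFunc F) L] in
private theorem P2cDual_resfin (c : F) (P : Ideal (AA F L)) (hP : P.IsPrime)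
    (hc : algebraMap F[X] (AA F L) (X - C c) ∈ P) (x : AA F L) :
    ∃ a : F, x - algebraMap F[X] (AA F L) (C a) ∈ P := by
  refine P2cDual_const (D := F[X]) ((algebraMap F[X] (AA F L)).comp C) P hP ?_ x ?_
  · intro d
    refine ⟨d.eval c, ?_⟩
    have h1 : (X - C c) ∣ d - C (d.eval c) := X_sub_C_dvd_sub_C_eval
    obtain ⟨e, he⟩ := h1
    have h2 : algebraMap F[X] (AA F L) d - ((algebraMap F[X] (AA F L)).comp C) (d.eval c) =
        algebraMap F[X] (AA F L) (X - C c) * algebraMap F[X] (AA F L) e := by
      rw [← map_mul, ← he, map_sub]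
      rfl
    rw [h2]
    exact P.mul_mem_right _ hc
  · have h := x.2
    exact (isIntegral_algebraMap_iff (A := AA F L) (B := L) Subtype.val_injective).1 h

omit [IsAlgClosed F] [Algebra F[X] L] [Algebra F L] [IsScalarTower F F[X] L]
  [IsScalarTower F[X] (RatFunc F) L] [FiniteDimensional (RatFunc F) L]
  [IsGalois (RatFunc F) L] in
private theorem P2cDual_unit (h2 : (2 : F) ≠ 0) (s : ℕ) (hn : finrank (RatFunc F) L = 2 ^ s)
    {D : Type*} [CommRing D] (f : F →+* D) : IsUnit ((finrank (RatFunc F) L : ℕ) : D) := by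
  rw [hn, Nat.cast_pow]
  apply IsUnit.pow
  have h := (IsUnit.mk0 _ h2).map f
  rwa [map_ofNat] at h

theorem dual_fin (h2 : (2 : F) ≠ 0) (s : ℕ) (hn : finrank (RatFunc F) L = 2 ^ s) (B : Finset F)
    (hB : ∀ c, c ∉ B → UnramM L (X - C c)) (x : L)
    (hx : ∀ a : AA F L, ∃ p : F[X],
      Algebra.trace (RatFunc F) L (x * (a : L)) = algebraMap F[X] (RatFunc F) p) :
    ∃ y : AA F L, (y : L) = algebraMap F[X] L (∏ c ∈ B, (X - C c)) * x := by
  classical
  have hinjL : Function.Injective (algebraMap F[X] L) := by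
    rw [IsScalarTower.algebraMap_eq F[X] (RatFunc F) L]
    exact (algebraMap (RatFunc F) L).injective.comp (IsFractionRing.injective F[X] (RatFunc F))
  have hinj : Function.Injective (algebraMap F[X] (AA F L)) := by
    intro a b hab
    exact hinjL (congrArg Subtype.val hab)
  -- a denominator of minimal degree
  have hex : ∃ N : ℕ, ∃ d : F[X], d ≠ 0 ∧ d.natDegree = N ∧
      ∃ b : AA F L, (b : L) = algebraMap F[X] L d * x := by
    have halg : IsAlgebraic F[X] x := by
      have h1 : IsAlgebraic (RatFunc F) x := Algebra.IsAlgebraic.isAlgebraic x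
      exact (IsFractionRing.isAlgebraic_iff F[X] (RatFunc F) L).2 h1
    obtain ⟨d, hd, hi⟩ := halg.exists_integral_multiple
    exact ⟨_, d, hd, rfl, ⟨d • x, hi⟩, Algebra.smul_def d x⟩
  obtain ⟨d, hd0, hdN, b₁, hb₁⟩ := Nat.find_spec hex
  have hmin : ∀ c : F, ∀ e : F[X], d = (X - C c) * e →
      ¬ algebraMap F[X] (AA F L) (X - C c) ∣ b₁ := by
    rintro c e he ⟨b', hb'⟩
    have he0 : e ≠ 0 := by rintro rfl; exact hd0 (by rw [he, mul_zero])
    have hlt : e.natDegree < Nat.find hex := by
      rw [← hdN, he, natDegree_mul (X_sub_C_ne_zero c) he0, natDegree_X_sub_C]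
      omega
    apply Nat.find_min hex hlt
    refine ⟨e, he0, rfl, b', ?_⟩
    have h1 : algebraMap F[X] L (X - C c) ≠ 0 := by
      intro h
      exact X_sub_C_ne_zero c (hinjL (by rw [h, map_zero]))
    apply mul_left_cancel₀ h1
    rw [← mul_assoc, ← map_mul, ← he, ← hb₁, hb']
    rfl
  -- the traces of `b₁ b`
  have htr : ∀ b : AA F L, ∃ p : F[X],
      Algebra.trace (RatFunc F) L ((b₁ : L) * (b : L)) = algebraMap F[X] (RatFunc F) (d * p) := by
    intro b
    obtain ⟨p, hp⟩ := hx b
    refine ⟨p, ?_⟩
    rw [hb₁, mul_assoc, ← Algebra.smul_def, ← IsScalarTower.algebraMap_smul (RatFunc F) d, map_smul,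
      hp, map_mul, smul_eq_mul]
  -- outside `B`
  have hout : ∀ c, c ∉ B → ¬ (X - C c) ∣ d := by
    rintro c hc ⟨e, he⟩
    apply hmin c e he
    -- a prime above
    have hprime : Prime (X - C c : F[X]) := prime_X_sub_C c
    have hpr : (Ideal.span {(X - C c : F[X])}).IsPrime :=
      (Ideal.span_singleton_prime hprime.ne_zero).2 hprime
    obtain ⟨P, hP, hPc⟩ := Ideal.exists_ideal_over_prime_of_isIntegral_of_isDomain
      (S := AA F L) (Ideal.span {(X - C c : F[X])}) (by
        rw [(RingHom.injective_iff_ker_eq_bot _).1 hinj]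
        exact bot_le)
    have hcP : algebraMap F[X] (AA F L) (X - C c) ∈ P := by
      have h1 : (X - C c : F[X]) ∈ P.comap (algebraMap F[X] (AA F L)) := by
        rw [hPc]
        exact Ideal.mem_span_singleton_self _
      exact h1
    refine P2cDual_unr F[X] (RatFunc F) hprime P hP hcP ?_ b₁ ?_
    · intro g hg
      apply hB c hc P hP hPc g
      intro x y hxy
      obtain ⟨a, ha⟩ := P2cDual_resfin c P hP hcP x
      have h1 : y - algebraMap F[X] (AA F L) (C a) ∈ P := by
        rw [hg (x - algebraMap F[X] (AA F L) (C a)) _ ?_]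
        · exact ha
        · change (y : L) - algebraMap F[X] L (C a) = g ((x : L) - algebraMap F[X] L (C a))
          rw [map_sub, hxy, IsScalarTower.algebraMap_apply F[X] (RatFunc F) L, g.commutes]
      have h3 := P.sub_mem h1 ha
      have h4 : y - algebraMap F[X] (AA F L) (C a) - (x - algebraMap F[X] (AA F L) (C a)) = y - x := by
        ring
      rwa [h4] at h3
    · intro b
      obtain ⟨p, hp⟩ := htr b
      exact ⟨e * p, by rw [hp, he, mul_assoc]⟩
  -- in `B`
  have hin : ∀ c, ¬ (X - C c) ^ 2 ∣ d := by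
    rintro c ⟨e, he⟩
    apply hmin c ((X - C c) * e) (by rw [he]; ring)
    refine P2cDual_tame F[X] (RatFunc F) (P2cDual_unit h2 s hn C) (X_sub_C_ne_zero c) ?_ b₁ ?_
    · intro P hP hcP x
      obtain ⟨a, ha⟩ := P2cDual_resfin c P hP hcP x
      exact ⟨C a, ha⟩
    · intro b
      obtain ⟨p, hp⟩ := htr b
      exact ⟨e * p, by rw [hp, he, mul_assoc]⟩
  -- `d` divides the product
  have hdvd : d ∣ ∏ c ∈ B, (X - C c) := by
    have hsp := (IsAlgClosed.splits d).eq_prod_roots
    have hlc : IsUnit (C d.leadingCoeff) :=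
      (IsUnit.mk0 _ (leadingCoeff_ne_zero.2 hd0)).map C
    rw [hsp, hlc.mul_left_dvd]
    have hnd : d.roots.Nodup := by
      rw [Multiset.nodup_iff_count_le_one]
      intro c
      rw [count_roots]
      by_contra hcon
      push Not at hcon
      exact hin c ((pow_dvd_pow _ hcon).trans (pow_rootMultiplicity_dvd d c))
    have hle : d.roots ≤ B.val := by
      rw [Multiset.le_iff_subset hnd]
      intro c hc
      by_contra h
      exact hout c h (dvd_iff_isRoot.2 (isRoot_of_mem_roots hc))
    exact Multiset.prod_dvd_prod_of_le (Multiset.map_le_map hle)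
  obtain ⟨e, he⟩ := hdvd
  refine ⟨algebraMap F[X] (AA F L) e * b₁, ?_⟩
  rw [he, map_mul]
  change algebraMap F[X] L e * (b₁ : L) = _
  rw [hb₁]
  ring

/-! ### The place at infinity -/

omit [IsAlgClosed F] in
private theorem P2cDual_uInf : ((RatFunc.X : RatFunc F)⁻¹) ∈ DInf F := by
  rw [mem_DInf, RatFunc.intDegree_inv, RatFunc.intDegree_X]
  right; omega

omit [IsAlgClosed F] in
private theorem P2cDual_CInf (a : F) : (RatFunc.C a : RatFunc F) ∈ DInf F := by
  rw [mem_DInf, RatFunc.intDegree_C]
  right; exact le_rfl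

omit [IsAlgClosed F] in
/-- An element of `DInf` is congruent to a constant modulo `1 / t`. -/
private theorem P2cDual_resInf (d : DInf F) : ∃ (a : F) (e : DInf F),
    (d : RatFunc F) = RatFunc.C a + (RatFunc.X)⁻¹ * (e : RatFunc F) := by
  have key : ∀ y : RatFunc F, (y = 0 ∨ y.intDegree < 0) → RatFunc.X * y ∈ DInf F := by
    intro y hy
    rw [mem_DInf]
    by_cases h0 : y = 0
    · left; rw [h0, mul_zero]
    · right
      rw [RatFunc.intDegree_mul RatFunc.X_ne_zero h0, RatFunc.intDegree_X]
      have := hy.resolve_left h0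
      omega
  obtain ⟨x, hx⟩ := d
  rw [mem_DInf] at hx
  obtain ⟨a, ha⟩ : ∃ a : F, x - RatFunc.C a = 0 ∨ (x - RatFunc.C a).intDegree < 0 := by
    rcases hx with rfl | hx
    · exact ⟨0, by simp⟩
    by_cases hx0 : x = 0
    · exact ⟨0, by simp [hx0]⟩
    -- the quotient of the coefficients
    have hden : x.denom ≠ 0 := RatFunc.denom_ne_zero x
    set N := x.denom.natDegree with hN
    have hdeg : x.num.natDegree ≤ N := by
      rw [RatFunc.intDegree] at hx
      omega
    refine ⟨x.num.coeff N / x.denom.leadingCoeff, ?_⟩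
    set a := x.num.coeff N / x.denom.leadingCoeff with ha
    have h1 : x - RatFunc.C a = algebraMap F[X] (RatFunc F) (x.num - C a * x.denom) /
        algebraMap F[X] (RatFunc F) x.denom := by
      have h2 : algebraMap F[X] (RatFunc F) x.denom ≠ 0 := by
        rw [Ne, map_eq_zero_iff _ (IsFractionRing.injective F[X] (RatFunc F))]
        exact hden
      rw [map_sub, map_mul, sub_div, mul_div_assoc, div_self h2, mul_one, RatFunc.num_div_denom]
      rfl
    by_cases h3 : x.num - C a * x.denom = 0
    · left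
      rw [h1, h3, map_zero, zero_div]
    · right
      have h4 : (x.num - C a * x.denom).natDegree < N := by
        have h5 : (x.num - C a * x.denom).coeff N = 0 := by
          rw [coeff_sub, coeff_C_mul]
          have : x.denom.coeff N = x.denom.leadingCoeff := rfl
          rw [this, ha, div_mul_cancel₀ _ (leadingCoeff_ne_zero.2 hden), sub_self]
        have h6 : (x.num - C a * x.denom).natDegree ≤ N := by
          refine (natDegree_sub_le _ _).trans (max_le hdeg ?_)
          exact natDegree_C_mul_le _ _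
        refine lt_of_le_of_ne h6 fun h7 => ?_
        rw [← h7] at h5
        exact h3 (leadingCoeff_eq_zero.1 h5)
      have h8 : algebraMap F[X] (RatFunc F) (x.num - C a * x.denom) ≠ 0 := by
        rw [Ne, map_eq_zero_iff _ (IsFractionRing.injective F[X] (RatFunc F))]
        exact h3
      have h9 : algebraMap F[X] (RatFunc F) x.denom ≠ 0 := by
        rw [Ne, map_eq_zero_iff _ (IsFractionRing.injective F[X] (RatFunc F))]
        exact hden
      rw [h1, div_eq_mul_inv, RatFunc.intDegree_mul h8 (inv_ne_zero h9), RatFunc.intDegree_inv,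
        RatFunc.intDegree_polynomial, RatFunc.intDegree_polynomial]
      omega
  refine ⟨a, ⟨RatFunc.X * (x - RatFunc.C a), key _ ha⟩, ?_⟩
  change x = RatFunc.C a + (RatFunc.X)⁻¹ * (RatFunc.X * (x - RatFunc.C a))
  rw [inv_mul_cancel_left₀ RatFunc.X_ne_zero]
  ring

omit [IsAlgClosed F] [IsGalois (RatFunc F) L] [Algebra F L] [IsScalarTower F F[X] L]
  [FiniteDimensional (RatFunc F) L] in
private theorem P2cDual_tL : algebraMap (RatFunc F) L (RatFunc.X)⁻¹ = (tL F L)⁻¹ := by
  rw [map_inv₀]
  congr 1
  rw [← RatFunc.algebraMap_X, ← IsScalarTower.algebraMap_apply]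

theorem dual_inf (h2 : (2 : F) ≠ 0) (s : ℕ) (hn : finrank (RatFunc F) L = 2 ^ s) (x : L)
    (hx : ∀ b : L, IntInf F L b → Algebra.trace (RatFunc F) L (x * b) ∈ DInf F) :
    IntInf F L ((tL F L)⁻¹ * x) := by
  classical
  have hint : ∀ b : L, IntInf F L b ↔ IsIntegral (DInf F) b := fun b => Iff.rfl
  have hinjL : Function.Injective (algebraMap (DInf F) L) := by
    rw [IsScalarTower.algebraMap_eq (DInf F) (RatFunc F) L]
    exact (algebraMap (RatFunc F) L).injective.comp (IsFractionRing.injective (DInf F) (RatFunc F))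
  set u : DInf F := ⟨(RatFunc.X : RatFunc F)⁻¹, P2cDual_uInf⟩ with hu
  have hu0 : u ≠ 0 := by
    intro h
    exact inv_ne_zero (RatFunc.X_ne_zero (K := F)) (congrArg Subtype.val h)
  have huL : algebraMap (DInf F) L u = (tL F L)⁻¹ := by
    rw [← P2cDual_tL (F := F) (L := L)]
    rfl
  have huL0 : (tL F L)⁻¹ ≠ 0 := by
    rw [← huL]
    intro h
    exact hu0 (hinjL (by rw [h, map_zero]))
  -- a minimal exponent
  have hex : ∃ k : ℕ, IsIntegral (DInf F) ((tL F L)⁻¹ ^ k * x) := by
    have halg : IsAlgebraic (DInf F) x := by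
      have h1 : IsAlgebraic (RatFunc F) x := Algebra.IsAlgebraic.isAlgebraic x
      exact (IsFractionRing.isAlgebraic_iff (DInf F) (RatFunc F) L).2 h1
    obtain ⟨d, hd, hi⟩ := halg.exists_integral_multiple
    have hd0 : (d : RatFunc F) ≠ 0 := fun h => hd (Subtype.ext h)
    set k := (-(d : RatFunc F).intDegree).toNat with hk
    have hdk : -(d : RatFunc F).intDegree = k := by
      have h3 := d.2
      rw [mem_DInf] at h3
      have := h3.resolve_left hd0
      omega
    have hX : (RatFunc.X : RatFunc F)⁻¹ ≠ 0 := inv_ne_zero RatFunc.X_ne_zero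
    have hXk : ∀ m : ℕ, ((RatFunc.X : RatFunc F)⁻¹ ^ m).intDegree = -m := by
      intro m
      induction m with
      | zero => simp
      | succ m ih =>
        rw [pow_succ, RatFunc.intDegree_mul (pow_ne_zero _ hX) hX, ih, RatFunc.intDegree_inv,
          RatFunc.intDegree_X]
        push_cast
        ring
    have hmem : (RatFunc.X : RatFunc F)⁻¹ ^ k * (d : RatFunc F)⁻¹ ∈ DInf F := by
      rw [mem_DInf]
      right
      rw [RatFunc.intDegree_mul (pow_ne_zero _ hX) (inv_ne_zero hd0), RatFunc.intDegree_inv, hXk]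
      omega
    refine ⟨k, ?_⟩
    have h4 : (tL F L)⁻¹ ^ k * x =
        algebraMap (DInf F) L ⟨_, hmem⟩ * (d • x) := by
      rw [Algebra.smul_def, ← mul_assoc, ← map_mul]
      congr 1
      rw [← huL, ← map_pow]
      congr 1
      apply Subtype.ext
      change (RatFunc.X : RatFunc F)⁻¹ ^ k = (RatFunc.X : RatFunc F)⁻¹ ^ k * (d : RatFunc F)⁻¹ * (d : RatFunc F)
      rw [inv_mul_cancel_right₀ hd0]
    rw [h4]
    exact (isIntegral_algebraMap).mul hi
  have hk := Nat.find_spec hex
  set k := Nat.find hex with hkdef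
  rw [hint]
  by_cases hk1 : k ≤ 1
  · have h3 : (tL F L)⁻¹ * x = algebraMap (DInf F) L (u ^ (1 - k)) * ((tL F L)⁻¹ ^ k * x) := by
      rw [map_pow, huL, ← mul_assoc, ← pow_add, Nat.sub_add_cancel hk1, pow_one]
    rw [h3]
    exact isIntegral_algebraMap.mul hk
  · exfalso
    push Not at hk1
    let b₁ : integralClosure (DInf F) L := ⟨(tL F L)⁻¹ ^ k * x, hk⟩
    have hdvd : algebraMap (DInf F) (integralClosure (DInf F) L) u ∣ b₁ := by
      refine P2cDual_tame (DInf F) (RatFunc F) (P2cDual_unit h2 s hn
        (RatFunc.C.codRestrict (DInf F).toSubring P2cDual_CInf)) hu0 ?_ b₁ ?_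
      · intro P hP huP y
        obtain ⟨a, ha⟩ := P2cDual_const (F := F) (D := DInf F)
          ((algebraMap (DInf F) (integralClosure (DInf F) L)).comp
            (RatFunc.C.codRestrict (DInf F).toSubring P2cDual_CInf)) P hP (by
            intro d
            obtain ⟨a, e, h⟩ := P2cDual_resInf d
            refine ⟨a, ?_⟩
            have h5 : algebraMap (DInf F) (integralClosure (DInf F) L) d -
                ((algebraMap (DInf F) (integralClosure (DInf F) L)).comp
                  (RatFunc.C.codRestrict (DInf F).toSubring P2cDual_CInf)) a =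
                algebraMap (DInf F) (integralClosure (DInf F) L) u *
                  algebraMap (DInf F) (integralClosure (DInf F) L) e := by
              rw [← map_mul, RingHom.comp_apply, ← map_sub]
              congr 1
              apply Subtype.ext
              change (d : RatFunc F) - RatFunc.C a = (RatFunc.X)⁻¹ * (e : RatFunc F)
              rw [h]
              ring
            rw [h5]
            exact P.mul_mem_right _ huP) y (by
            exact (isIntegral_algebraMap_iff (A := integralClosure (DInf F) L) (B := L)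
              Subtype.val_injective).1 y.2)
        exact ⟨_, ha⟩
      · intro b
        have h5 := hx (b : L) b.2
        refine ⟨u ^ (k - 2) * ⟨_, h5⟩, ?_⟩
        have h6 : (b₁ : L) * (b : L) = algebraMap (RatFunc F) L ((RatFunc.X : RatFunc F)⁻¹ ^ k) *
            (x * (b : L)) := by
          rw [map_pow, P2cDual_tL]
          change (tL F L)⁻¹ ^ k * x * (b : L) = _
          ring
        rw [h6, ← Algebra.smul_def, map_smul, smul_eq_mul, ← mul_assoc, ← pow_add,
          show 2 + (k - 2) = k by omega]
        rfl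
    obtain ⟨b', hb'⟩ := hdvd
    have hlt : k - 1 < Nat.find hex := by omega
    apply Nat.find_min hex hlt
    have h7 : (tL F L)⁻¹ ^ (k - 1) * x = (b' : L) := by
      apply mul_left_cancel₀ huL0
      rw [← mul_assoc, ← pow_succ', Nat.sub_add_cancel (by omega)]
      have h8 := congrArg Subtype.val hb'
      change (tL F L)⁻¹ ^ k * x = algebraMap (DInf F) L u * (b' : L) at h8
      rw [huL] at h8
      exact h8
    rw [h7]
    exact b'.2

omit [IsAlgClosed F] in
/-- A polynomial in `1 / t`. -/
private theorem P2cDual_inv (p : F[X]) (N : ℕ)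
    (h : algebraMap F[X] (RatFunc F) p * (RatFunc.X : RatFunc F)⁻¹ ^ N ∈ DInf F) :
    ∃ r : F[X], aeval ((RatFunc.X : RatFunc F)⁻¹) r =
      algebraMap F[X] (RatFunc F) p * (RatFunc.X : RatFunc F)⁻¹ ^ N := by
  have hX : (RatFunc.X : RatFunc F) ≠ 0 := RatFunc.X_ne_zero
  by_cases hp : p = 0
  · exact ⟨0, by rw [hp, map_zero, map_zero, zero_mul]⟩
  have hp' : algebraMap F[X] (RatFunc F) p ≠ 0 := by
    rw [Ne, map_eq_zero_iff _ (IsFractionRing.injective F[X] (RatFunc F))]
    exact hp
  have hXk : ∀ m : ℕ, ((RatFunc.X : RatFunc F)⁻¹ ^ m).intDegree = -m := by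
    intro m
    induction m with
    | zero => simp
    | succ m ih =>
      rw [pow_succ, RatFunc.intDegree_mul (pow_ne_zero _ (inv_ne_zero hX)) (inv_ne_zero hX), ih,
        RatFunc.intDegree_inv, RatFunc.intDegree_X]
      push_cast
      ring
  have hdeg : p.natDegree ≤ N := by
    rw [mem_DInf] at h
    have h1 := h.resolve_left (mul_ne_zero hp' (pow_ne_zero _ (inv_ne_zero hX)))
    rw [RatFunc.intDegree_mul hp' (pow_ne_zero _ (inv_ne_zero hX)), RatFunc.intDegree_polynomial,
      hXk] at h1
    omega
  refine ⟨∑ i ∈ Finset.range (N + 1), C (p.coeff i) * X ^ (N - i), ?_⟩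
  have hsum : p = ∑ i ∈ Finset.range (N + 1), C (p.coeff i) * X ^ i :=
    p.as_sum_range_C_mul_X_pow' (Nat.lt_succ_of_le hdeg)
  conv_rhs => rw [hsum]
  rw [map_sum, map_sum, Finset.sum_mul]
  refine Finset.sum_congr rfl fun i hi => ?_
  have hi' : i ≤ N := Nat.lt_succ_iff.1 (Finset.mem_range.1 hi)
  rw [map_mul, map_mul, map_pow, map_pow, aeval_X, aeval_C, RatFunc.algebraMap_X]
  have h3 : (algebraMap F (RatFunc F)) (p.coeff i) = algebraMap F[X] (RatFunc F) (C (p.coeff i)) :=
    rfl
  rw [h3, mul_assoc]
  congr 1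
  have h4 : (RatFunc.X : RatFunc F)⁻¹ ^ N = (RatFunc.X : RatFunc F)⁻¹ ^ i *
      (RatFunc.X : RatFunc F)⁻¹ ^ (N - i) := by
    rw [← pow_add]
    congr 1
    omega
  rw [h4, ← mul_assoc, ← mul_pow, mul_inv_cancel₀ hX, one_pow, one_mul]

omit [IsAlgClosed F] [IsGalois (RatFunc F) L] in
theorem intOv_of (x : AA F L) (j : ℕ) (h : IntInf F L ((x : L) * (tL F L)⁻¹ ^ j)) :
    IntOv F (tL F L)⁻¹ ((x : L) * (tL F L)⁻¹ ^ j) := by
  classical
  have hX : (RatFunc.X : RatFunc F) ≠ 0 := RatFunc.X_ne_zero
  set z : L := (x : L) * (tL F L)⁻¹ ^ j with hz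
  have hzi : IsIntegral (DInf F) z := h
  have hxi : IsIntegral F[X] (x : L) := x.2
  have e1 := minpoly.isIntegrallyClosed_eq_field_fractions' (RatFunc F) hzi
  have e2 := minpoly.isIntegrallyClosed_eq_field_fractions' (RatFunc F) hxi
  have hzK : IsIntegral (RatFunc F) z := Algebra.IsIntegral.isIntegral z
  have hxK : IsIntegral (RatFunc F) (x : L) := Algebra.IsIntegral.isIntegral (x : L)
  have hut : algebraMap (RatFunc F) L ((RatFunc.X : RatFunc F)⁻¹ ^ j) = (tL F L)⁻¹ ^ j := by
    rw [map_pow, P2cDual_tL]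
  have ht0 : (tL F L)⁻¹ ^ j ≠ 0 := by
    rw [← hut]
    exact (_root_.map_ne_zero _).2 (pow_ne_zero _ (inv_ne_zero hX))
  -- the minimal polynomial of `z`
  have hQ : (minpoly (RatFunc F) (x : L)).scaleRoots ((RatFunc.X : RatFunc F)⁻¹ ^ j) =
      minpoly (RatFunc F) z := by
    apply eq_of_monic_of_dvd_of_natDegree_le (minpoly.monic hzK)
    · rw [monic_scaleRoots_iff]
      exact minpoly.monic hxK
    · apply minpoly.dvd
      have h1 := scaleRoots_aeval_eq_zero (r := (RatFunc.X : RatFunc F)⁻¹ ^ j)
        (minpoly.aeval (RatFunc F) (x : L))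
      rwa [hut, mul_comm, ← hz] at h1
    · rw [natDegree_scaleRoots]
      have h1 := scaleRoots_aeval_eq_zero (r := (RatFunc.X : RatFunc F) ^ j)
        (minpoly.aeval (RatFunc F) z)
      have h3 : algebraMap (RatFunc F) L ((RatFunc.X : RatFunc F) ^ j) * z = (x : L) := by
        rw [hz, mul_comm, mul_assoc, ← hut, ← map_mul, ← mul_pow, inv_mul_cancel₀ hX, one_pow,
          map_one, mul_one]
      rw [h3] at h1
      have h4 := natDegree_le_of_dvd (minpoly.dvd (RatFunc F) (x : L) h1)
        (scaleRoots_ne_zero (minpoly.ne_zero hzK) _)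
      rwa [natDegree_scaleRoots] at h4
  -- its coefficients are polynomials in `1 / t`
  have hlift : minpoly (RatFunc F) z ∈
      lifts ((aeval ((RatFunc.X : RatFunc F)⁻¹) : F[X] →ₐ[F] RatFunc F) : F[X] →+* RatFunc F) := by
    rw [lifts_iff_coeff_lifts]
    intro i
    have h5 : (minpoly (RatFunc F) z).coeff i ∈ DInf F := by
      rw [e1, coeff_map]
      exact ((minpoly (DInf F) z).coeff i).2
    have h6 : (minpoly (RatFunc F) z).coeff i =
        algebraMap F[X] (RatFunc F) ((minpoly F[X] (x : L)).coeff i) *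
          (RatFunc.X : RatFunc F)⁻¹ ^ (j * ((minpoly (RatFunc F) (x : L)).natDegree - i)) := by
      rw [← hQ, coeff_scaleRoots, ← pow_mul]
      congr 1
      rw [e2, coeff_map]
    rw [h6] at h5 ⊢
    obtain ⟨r, hr⟩ := P2cDual_inv _ _ h5
    exact ⟨r, hr⟩
  obtain ⟨q, hq, -, hqm⟩ := lifts_and_natDegree_eq_and_monic hlift (minpoly.monic hzK)
  refine ⟨q, hqm, ?_⟩
  have h7 : ((aeval (tL F L)⁻¹ : F[X] →ₐ[F] L) : F[X] →+* L) =
      (algebraMap (RatFunc F) L).comp
        ((aeval ((RatFunc.X : RatFunc F)⁻¹) : F[X] →ₐ[F] RatFunc F) : F[X] →+* RatFunc F) := by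
    apply ringHom_ext
    · intro a
      change aeval (tL F L)⁻¹ (C a) = algebraMap (RatFunc F) L (aeval ((RatFunc.X : RatFunc F)⁻¹) (C a))
      rw [aeval_C, aeval_C, IsScalarTower.algebraMap_apply F F[X] L,
        IsScalarTower.algebraMap_apply F[X] (RatFunc F) L]
      rfl
    · change aeval (tL F L)⁻¹ X = algebraMap (RatFunc F) L (aeval ((RatFunc.X : RatFunc F)⁻¹) X)
      rw [aeval_X, aeval_X, P2cDual_tL]
  rw [h7, ← eval₂_map, hq]
  exact minpoly.aeval (RatFunc F) z

end Pool.Agent.SmB
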