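import Pool.Agent.Lib.SmB.P2cDual

/-!
Block B of SMITH, part 2c: an adapted basis (successive minima), and `dim LL m ≥ n (m+1) - n (#B + 1)`.
-/

namespace Pool.Agent.SmB.P2c

open Module Polynomial

section deg

variable {F : Type*} [Field F]

/-- `c` has degree at most `e`. -/
def DLe (e : ℤ) (c : RatFunc F) : Prop := (RatFunc.X : RatFunc F) ^ (-e) * c ∈ DInf F

private theorem P2cLat_X_inv_mem : (RatFunc.X : RatFunc F)⁻¹ ∈ DInf F := by
  rw [mem_DInf]
  right
  rw [RatFunc.intDegree_inv, RatFunc.intDegree_X]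
  norm_num

private theorem P2cLat_zpow_mem {e : ℤ} (he : e ≤ 0) : (RatFunc.X : RatFunc F) ^ e ∈ DInf F := by
  obtain ⟨n, hn⟩ := Int.le.dest he
  have : e = -(n : ℤ) := by omega
  rw [this, zpow_neg, zpow_natCast, ← inv_pow]
  exact pow_mem P2cLat_X_inv_mem n

theorem DLe.zero (e : ℤ) : DLe e (0 : RatFunc F) := by
  unfold DLe
  rw [mul_zero]
  exact zero_mem _

theorem DLe.add {e : ℤ} {a b : RatFunc F} (ha : DLe e a) (hb : DLe e b) : DLe e (a + b) := by
  unfold DLe at ha hb ⊢
  rw [mul_add]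
  exact add_mem ha hb

theorem DLe.neg {e : ℤ} {a : RatFunc F} (ha : DLe e a) : DLe e (-a) := by
  unfold DLe at ha ⊢
  rw [mul_neg]
  exact neg_mem ha

theorem DLe.sum {ι : Type*} (s : Finset ι) {e : ℤ} {f : ι → RatFunc F} (h : ∀ i ∈ s, DLe e (f i)) :
    DLe e (∑ i ∈ s, f i) := by
  classical
  induction s using Finset.induction_on with
  | empty => rw [Finset.sum_empty]; exact DLe.zero e
  | insert i s hi ih =>
    rw [Finset.sum_insert hi]
    exact (h i (Finset.mem_insert_self i s)).add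
      (ih fun j hj => h j (Finset.mem_insert_of_mem hj))

theorem DLe.mono {e e' : ℤ} (h : e ≤ e') {a : RatFunc F} (ha : DLe e a) : DLe e' a := by
  unfold DLe at ha ⊢
  have h1 : (RatFunc.X : RatFunc F) ^ (-e') * a = RatFunc.X ^ (e - e') * (RatFunc.X ^ (-e) * a) := by
    rw [← mul_assoc, ← zpow_add₀ RatFunc.X_ne_zero]
    congr 2
    ring
  rw [h1]
  exact mul_mem (P2cLat_zpow_mem (by omega)) ha

theorem DLe.mul {e e' : ℤ} {a b : RatFunc F} (ha : DLe e a) (hb : DLe e' b) :
    DLe (e + e') (a * b) := by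
  unfold DLe at ha hb ⊢
  have h1 : (RatFunc.X : RatFunc F) ^ (-(e + e')) * (a * b) =
      (RatFunc.X ^ (-e) * a) * (RatFunc.X ^ (-e') * b) := by
    rw [neg_add, zpow_add₀ RatFunc.X_ne_zero]
    ring
  rw [h1]
  exact mul_mem ha hb

theorem DLe.zpow (e : ℤ) : DLe e ((RatFunc.X : RatFunc F) ^ e) := by
  unfold DLe
  rw [← zpow_add₀ RatFunc.X_ne_zero, neg_add_cancel, zpow_zero]
  exact one_mem _

theorem DLe.const (c : F) : DLe 0 (RatFunc.C c : RatFunc F) := by
  unfold DLe
  rw [neg_zero, zpow_zero, one_mul, mem_DInf]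
  right
  rw [RatFunc.intDegree_C]

theorem dLe_polynomial {p : F[X]} {e : ℕ} :
    DLe (e : ℤ) (algebraMap F[X] (RatFunc F) p) ↔ p.natDegree ≤ e := by
  by_cases hp : p = 0
  · rw [hp, map_zero, natDegree_zero]
    exact ⟨fun _ => Nat.zero_le _, fun _ => DLe.zero _⟩
  have hp' : algebraMap F[X] (RatFunc F) p ≠ 0 := by
    rw [Ne, map_eq_zero_iff _ (IsFractionRing.injective F[X] (RatFunc F))]
    exact hp
  unfold DLe
  rw [zpow_neg, zpow_natCast, mem_DInf]
  have hX : ((RatFunc.X : RatFunc F) ^ e)⁻¹ ≠ 0 := inv_ne_zero (pow_ne_zero _ RatFunc.X_ne_zero)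
  have hdeg : (((RatFunc.X : RatFunc F) ^ e)⁻¹ * algebraMap F[X] (RatFunc F) p).intDegree =
      (p.natDegree : ℤ) - e := by
    rw [RatFunc.intDegree_mul hX hp', RatFunc.intDegree_inv, RatFunc.intDegree_polynomial]
    have h1 : (RatFunc.X : RatFunc F) ^ e = algebraMap F[X] (RatFunc F) (X ^ e) := by
      rw [map_pow, RatFunc.algebraMap_X]
    rw [h1, RatFunc.intDegree_polynomial, natDegree_X_pow]
    ring
  rw [hdeg]
  constructor
  · rintro (h | h)
    · exact absurd h (mul_ne_zero hX hp')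
    · omega
  · intro h
    right
    omega

theorem not_dLe_polynomial {p : F[X]} (hp : p ≠ 0) {e : ℤ} (he : e < 0) :
    ¬ DLe e (algebraMap F[X] (RatFunc F) p) := by
  intro h
  have h0 : DLe ((0 : ℕ) : ℤ) (algebraMap F[X] (RatFunc F) p) := h.mono (by simpa using he.le)
  rw [dLe_polynomial] at h0
  have h1 : p = C (p.coeff 0) := eq_C_of_natDegree_le_zero h0
  have h2 : p.coeff 0 ≠ 0 := fun h3 => hp (by rw [h1, h3, C_0])
  have h4 := h.mono (show e ≤ -1 by omega)
  unfold DLe at h4
  rw [neg_neg, zpow_one, mem_DInf, ← RatFunc.algebraMap_X, ← map_mul] at h4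
  rcases h4 with h4 | h4
  · rw [map_eq_zero_iff _ (IsFractionRing.injective F[X] (RatFunc F))] at h4
    exact mul_ne_zero X_ne_zero hp h4
  · rw [RatFunc.intDegree_polynomial, natDegree_mul X_ne_zero hp, natDegree_X] at h4
    omega

/-- The leading coefficient. -/
theorem exists_lead {e : ℤ} {c : RatFunc F} (h : DLe e c) :
    ∃ γ : F, DLe (e - 1) (c - RatFunc.C γ * RatFunc.X ^ e) := by
  have key : ∀ d : RatFunc F, d ∈ DInf F → ∃ γ : F, (RatFunc.X : RatFunc F) * (d - RatFunc.C γ) ∈
      DInf F := by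
    intro d hd
    rw [mem_DInf] at hd
    rcases hd with rfl | hd
    · exact ⟨0, by rw [map_zero, sub_zero, mul_zero]; exact zero_mem _⟩
    by_cases hd0 : d = 0
    · exact ⟨0, by rw [hd0, map_zero, sub_zero, mul_zero]; exact zero_mem _⟩
    have hnum : d.num ≠ 0 := RatFunc.num_ne_zero hd0
    have hden : d.denom ≠ 0 := d.denom_ne_zero
    have hdle : d.num.natDegree ≤ d.denom.natDegree := by
      have h1 : d.intDegree = d.num.natDegree - d.denom.natDegree := rfl
      omega
    set γ : F := d.num.coeff d.denom.natDegree / d.denom.leadingCoeff with hγ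
    refine ⟨γ, ?_⟩
    have hlc : d.denom.leadingCoeff ≠ 0 := leadingCoeff_ne_zero.2 hden
    have hden' : algebraMap F[X] (RatFunc F) d.denom ≠ 0 := by
      rw [Ne, map_eq_zero_iff _ (IsFractionRing.injective F[X] (RatFunc F))]
      exact hden
    have h2 : (RatFunc.X : RatFunc F) * (d - RatFunc.C γ) =
        algebraMap F[X] (RatFunc F) (X * (d.num - C γ * d.denom)) /
          algebraMap F[X] (RatFunc F) d.denom := by
      rw [map_mul, map_sub, map_mul, RatFunc.algebraMap_X, RatFunc.algebraMap_C]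
      conv_lhs => rw [← RatFunc.num_div_denom d]
      field_simp
    rw [h2, mem_DInf]
    by_cases h0 : X * (d.num - C γ * d.denom) = 0
    · left
      rw [h0, map_zero, zero_div]
    right
    have h0' : algebraMap F[X] (RatFunc F) (X * (d.num - C γ * d.denom)) ≠ 0 := by
      rw [Ne, map_eq_zero_iff _ (IsFractionRing.injective F[X] (RatFunc F))]
      exact h0
    rw [RatFunc.intDegree_div h0' hden', RatFunc.intDegree_polynomial, RatFunc.intDegree_polynomial]
    have h3 : (X * (d.num - C γ * d.denom)).natDegree ≤ d.denom.natDegree := by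
      have h4 : (d.num - C γ * d.denom).degree < (d.denom.natDegree : WithBot ℕ) := by
        rw [degree_lt_iff_coeff_zero]
        intro j hj
        rw [coeff_sub, coeff_C_mul]
        rcases Nat.eq_or_lt_of_le hj with h5 | h5
        · rw [← h5, hγ]
          have h6 : d.denom.coeff d.denom.natDegree = d.denom.leadingCoeff := rfl
          rw [h6, div_mul_cancel₀ _ hlc, sub_self]
        · rw [coeff_eq_zero_of_natDegree_lt (lt_of_le_of_lt hdle h5),
            coeff_eq_zero_of_natDegree_lt h5, mul_zero, sub_zero]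
      by_cases h7 : d.num - C γ * d.denom = 0
      · rw [h7, mul_zero, natDegree_zero]
        exact Nat.zero_le _
      · have h8 := (natDegree_lt_iff_degree_lt h7).2 h4
        rw [natDegree_mul X_ne_zero h7, natDegree_X]
        omega
    omega
  obtain ⟨γ, hγ⟩ := key _ h
  refine ⟨γ, ?_⟩
  unfold DLe
  have h1 : (RatFunc.X : RatFunc F) ^ (-(e - 1)) * (c - RatFunc.C γ * RatFunc.X ^ e) =
      RatFunc.X * (RatFunc.X ^ (-e) * c - RatFunc.C γ) := by
    have h2 : (RatFunc.X : RatFunc F) ^ (-(e - 1)) = RatFunc.X * RatFunc.X ^ (-e) := by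
      rw [neg_sub, sub_eq_add_neg, zpow_add₀ RatFunc.X_ne_zero, zpow_one]
    have h3 : (RatFunc.X : RatFunc F) ^ (-e) * RatFunc.X ^ e = 1 := by
      rw [← zpow_add₀ RatFunc.X_ne_zero, neg_add_cancel, zpow_zero]
    rw [h2]
    linear_combination (-(RatFunc.X : RatFunc F) * RatFunc.C γ) * h3
  rw [h1]
  exact hγ

/-- The polynomial part. -/
theorem exists_polyPart (c : RatFunc F) : ∃ p : F[X], DLe (-1) (c - algebraMap F[X] (RatFunc F) p) := by
  have hden : c.denom ≠ 0 := c.denom_ne_zero
  have hmon : c.denom.Monic := RatFunc.monic_denom c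
  have hden' : algebraMap F[X] (RatFunc F) c.denom ≠ 0 := by
    rw [Ne, map_eq_zero_iff _ (IsFractionRing.injective F[X] (RatFunc F))]
    exact hden
  refine ⟨c.num /ₘ c.denom, ?_⟩
  have h1 : c - algebraMap F[X] (RatFunc F) (c.num /ₘ c.denom) =
      algebraMap F[X] (RatFunc F) (c.num %ₘ c.denom) / algebraMap F[X] (RatFunc F) c.denom := by
    have h3 := RatFunc.num_div_denom c
    rw [div_eq_iff hden'] at h3
    rw [eq_div_iff hden', sub_mul, ← h3, ← map_mul, ← map_sub]
    congr 1
    have h2 := modByMonic_add_div c.num c.denom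
    linear_combination (-1 : F[X]) * h2
  rw [h1]
  by_cases h0 : c.num %ₘ c.denom = 0
  · rw [h0, map_zero, zero_div]
    exact DLe.zero _
  have h0' : algebraMap F[X] (RatFunc F) (c.num %ₘ c.denom) ≠ 0 := by
    rw [Ne, map_eq_zero_iff _ (IsFractionRing.injective F[X] (RatFunc F))]
    exact h0
  unfold DLe
  rw [neg_neg, zpow_one, mem_DInf]
  right
  rw [RatFunc.intDegree_mul RatFunc.X_ne_zero (div_ne_zero h0' hden'), RatFunc.intDegree_X,
    RatFunc.intDegree_div h0' hden', RatFunc.intDegree_polynomial, RatFunc.intDegree_polynomial]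
  have h3 : (c.num %ₘ c.denom).natDegree < c.denom.natDegree := by
    apply natDegree_modByMonic_lt _ hmon
    intro h4
    rw [h4, modByMonic_one] at h0
    exact h0 rfl
  omega

end deg

end Pool.Agent.SmB.P2c
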