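import Pool.Agent.Lib.SmB.P2cLat

/-!
Block B of SMITH, part 2c: sizes at infinity and an adapted basis (successive minima).
-/

namespace Pool.Agent.SmB.P2c

open Module Polynomial

section size

variable {F : Type*} [Field F] {L : Type*} [Field L] [Algebra (RatFunc F) L]

theorem _root_.Pool.Agent.SmB.IntInf.add {a b : L} (ha : IntInf F L a) (hb : IntInf F L b) : IntInf F L (a + b) :=
  RingHom.IsIntegralElem.add _ ha hb

theorem _root_.Pool.Agent.SmB.IntInf.mul {a b : L} (ha : IntInf F L a) (hb : IntInf F L b) : IntInf F L (a * b) :=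
  RingHom.IsIntegralElem.mul _ ha hb

theorem _root_.Pool.Agent.SmB.IntInf.of_mem {d : RatFunc F} (hd : d ∈ DInf F) : IntInf F L (algebraMap (RatFunc F) L d) := by
  have h := RingHom.isIntegralElem_map ((algebraMap (RatFunc F) L).comp (DInf F).subtype)
    (x := ⟨d, hd⟩)
  exact h

theorem _root_.Pool.Agent.SmB.IntInf.zero : IntInf F L 0 := by
  have h := IntInf.of_mem (F := F) (L := L) (zero_mem (DInf F))
  rwa [map_zero] at h

/-- `x / t ^ y` is integral at infinity. -/
def Sz (F : Type*) [Field F] {L : Type*} [Field L] [Algebra (RatFunc F) L] (y : ℤ) (x : L) : Prop :=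
  IntInf F L (algebraMap (RatFunc F) L (RatFunc.X ^ (-y)) * x)

theorem Sz.zero (y : ℤ) : Sz F y (0 : L) := by
  unfold Sz
  rw [mul_zero]
  exact IntInf.zero

theorem Sz.add {y : ℤ} {a b : L} (ha : Sz F y a) (hb : Sz F y b) : Sz F y (a + b) := by
  unfold Sz at ha hb ⊢
  rw [mul_add]
  exact ha.add hb

theorem Sz.smul {e y : ℤ} {c : RatFunc F} {x : L} (hc : DLe e c) (hx : Sz F y x) :
    Sz F (e + y) (c • x) := by
  unfold Sz at hx ⊢
  have h1 : algebraMap (RatFunc F) L (RatFunc.X ^ (-(e + y))) * (c • x) =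
      algebraMap (RatFunc F) L (RatFunc.X ^ (-e) * c) *
        (algebraMap (RatFunc F) L (RatFunc.X ^ (-y)) * x) := by
    rw [Algebra.smul_def, neg_add, zpow_add₀ RatFunc.X_ne_zero, map_mul, map_mul]
    ring
  rw [h1]
  exact (IntInf.of_mem hc).mul hx

theorem Sz.mono {y y' : ℤ} (h : y ≤ y') {x : L} (hx : Sz F y x) : Sz F y' x := by
  have h1 : DLe (y' - y) (1 : RatFunc F) := by
    have h2 := DLe.const (F := F) 1
    rw [map_one] at h2
    exact h2.mono (by omega)
  have h3 := hx.smul h1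
  rwa [one_smul, sub_add_cancel] at h3

theorem Sz.sub {y : ℤ} {a b : L} (ha : Sz F y a) (hb : Sz F y b) : Sz F y (a - b) := by
  have h1 : DLe 0 (-1 : RatFunc F) := by
    have h2 := DLe.const (F := F) 1
    rw [map_one] at h2
    exact h2.neg
  have h3 := hb.smul h1
  rw [zero_add, neg_smul, one_smul] at h3
  rw [sub_eq_add_neg]
  exact ha.add h3

theorem Sz.sum {ι : Type*} (s : Finset ι) {y : ℤ} {f : ι → L} (h : ∀ i ∈ s, Sz F y (f i)) :
    Sz F y (∑ i ∈ s, f i) := by
  classical
  induction s using Finset.induction_on with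
  | empty => rw [Finset.sum_empty]; exact Sz.zero y
  | insert i s hi ih =>
    rw [Finset.sum_insert hi]
    exact (h i (Finset.mem_insert_self i s)).add
      (ih fun j hj => h j (Finset.mem_insert_of_mem hj))

theorem exists_sz [FiniteDimensional (RatFunc F) L] (x : L) : ∃ y : ℕ, Sz F y x := by
  let _ : Algebra (DInf F) L := ((algebraMap (RatFunc F) L).comp (DInf F).subtype).toAlgebra
  have : IsScalarTower (DInf F) (RatFunc F) L := IsScalarTower.of_algebraMap_eq (fun _ => rfl)
  have h1 : IsAlgebraic (RatFunc F) x := Algebra.IsAlgebraic.isAlgebraic x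
  have h2 : IsAlgebraic (DInf F) x := (IsFractionRing.isAlgebraic_iff (DInf F) (RatFunc F) L).2 h1
  obtain ⟨d, hd, hint⟩ := h2.exists_integral_multiple
  have hd' : (d : RatFunc F) ≠ 0 := fun h => hd (Subtype.ext h)
  have h3 : IntInf F L (algebraMap (RatFunc F) L d * x) := by
    have h4 := hint
    rw [Algebra.smul_def] at h4
    exact h4
  have h5 := ((mem_DInf _).1 d.2).resolve_left hd'
  obtain ⟨n, hn⟩ := Int.le.dest h5
  refine ⟨n, ?_⟩
  unfold Sz
  have h6 : (d : RatFunc F)⁻¹ * RatFunc.X ^ (-(n : ℤ)) ∈ DInf F := by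
    rw [mem_DInf]
    right
    rw [RatFunc.intDegree_mul (inv_ne_zero hd') (zpow_ne_zero _ RatFunc.X_ne_zero),
      RatFunc.intDegree_inv, zpow_neg, zpow_natCast, RatFunc.intDegree_inv]
    have h1 : (RatFunc.X : RatFunc F) ^ n = algebraMap F[X] (RatFunc F) (X ^ n) := by
      rw [map_pow, RatFunc.algebraMap_X]
    rw [h1, RatFunc.intDegree_polynomial, natDegree_X_pow]
    omega
  have h7 : algebraMap (RatFunc F) L (RatFunc.X ^ (-(n : ℤ))) * x =
      algebraMap (RatFunc F) L ((d : RatFunc F)⁻¹ * RatFunc.X ^ (-(n : ℤ))) *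
        (algebraMap (RatFunc F) L d * x) := by
    rw [← mul_assoc, ← map_mul]
    congr 2
    field_simp
  rw [h7]
  exact (IntInf.of_mem h6).mul h3

theorem sz_nonneg [FiniteDimensional (RatFunc F) L] [Algebra F[X] L]
    [IsScalarTower F[X] (RatFunc F) L] {x : L} (hx : x ∈ AA F L) (h0 : x ≠ 0)
    {y : ℤ} (h : Sz F y x) : 0 ≤ y := by
  let _ : Algebra (DInf F) L := ((algebraMap (RatFunc F) L).comp (DInf F).subtype).toAlgebra
  have : IsScalarTower (DInf F) (RatFunc F) L := IsScalarTower.of_algebraMap_eq (fun _ => rfl)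
  by_contra hy
  push Not at hy
  have h1 : IsIntegral F[X] x := hx
  have h2 : IsIntegral F[X] (Algebra.norm (RatFunc F) x) := Algebra.isIntegral_norm _ h1
  obtain ⟨p, hp⟩ := IsIntegrallyClosed.isIntegral_iff.1 h2
  have hN : Algebra.norm (RatFunc F) x ≠ 0 := by
    rw [Ne, Algebra.norm_eq_zero_iff]
    exact h0
  have hp0 : p ≠ 0 := by
    intro h3
    rw [h3, map_zero] at hp
    exact hN hp.symm
  have h3 : IsIntegral (DInf F) (algebraMap (RatFunc F) L (RatFunc.X ^ (-y)) * x) := h
  have h4 : IsIntegral (DInf F) (Algebra.norm (RatFunc F)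
      (algebraMap (RatFunc F) L (RatFunc.X ^ (-y)) * x)) := Algebra.isIntegral_norm _ h3
  obtain ⟨d, hd⟩ := IsIntegrallyClosed.isIntegral_iff.1 h4
  rw [map_mul, Algebra.norm_algebraMap, ← hp] at hd
  have hn : 1 ≤ finrank (RatFunc F) L := finrank_pos
  have h5 : DLe (y * finrank (RatFunc F) L) (algebraMap F[X] (RatFunc F) p) := by
    unfold DLe
    have h6 : (RatFunc.X : RatFunc F) ^ (-(y * (finrank (RatFunc F) L : ℤ))) =
        (RatFunc.X ^ (-y)) ^ (finrank (RatFunc F) L) := by
      rw [← zpow_natCast, ← zpow_mul, neg_mul]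
    rw [h6, ← hd]
    exact d.2
  refine not_dLe_polynomial hp0 ?_ h5
  have : (1 : ℤ) ≤ (finrank (RatFunc F) L : ℤ) := by exact_mod_cast hn
  nlinarith

end size

end Pool.Agent.SmB.P2c
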