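import Pool.Agent.Lib.SmB.P3Defs

/-!
SMITH, block B, part 3: Galois theory of a compositum (general fields).
`ι : K → E`, `M/K` finite Galois, `j : M → Ω` compatible with `ι`, `L = E · j(M)`.
-/

set_option autoImplicit false

namespace Pool.Agent.SmB

open Polynomial

section

variable {K E M : Type*} [Field K] [Field E] [Field M] [Algebra K M]

/-- The compositum is finite and Galois. -/
theorem p3_cmp {Ω : Type*} [Field Ω] [Algebra E Ω] [IsAlgClosed Ω] [FiniteDimensional K M]
    [IsGalois K M] (ι : K →+* E) (j : M →+* Ω)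
    (hj : ∀ a, j (algebraMap K M a) = algebraMap E Ω (ι a)) :
    FiniteDimensional E (IntermediateField.adjoin E (Set.range j)) ∧
      IsGalois E (IntermediateField.adjoin E (Set.range j)) := by
  classical
  obtain ⟨p, hp, hsp⟩ := IsGalois.is_separable_splitting_field K M
  have hp0 : p ≠ 0 := hp.ne_zero
  have hmap : (p.map ι).map (algebraMap E Ω) = (p.map (algebraMap K M)).map j := by
    rw [Polynomial.map_map, Polynomial.map_map]
    congr 1
    ext a
    exact (hj a).symm
  have hroots : ((p.map ι).map (algebraMap E Ω)).roots = (p.map (algebraMap K M)).roots.map j := by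
    rw [hmap]
    exact Polynomial.Splits.roots_map hsp.splits j
  have h1 : ∀ r ∈ (p.map ι).rootSet Ω, r ∈ Set.range j := by
    intro r hr
    rw [Polynomial.rootSet, Finset.mem_coe, Multiset.mem_toFinset, Polynomial.aroots, hroots,
      Multiset.mem_map] at hr
    obtain ⟨a, -, ha⟩ := hr
    exact ⟨a, ha⟩
  have h2 : ∀ a ∈ p.rootSet M, j a ∈ (p.map ι).rootSet Ω := by
    intro a ha
    rw [Polynomial.rootSet, Finset.mem_coe, Multiset.mem_toFinset, Polynomial.aroots] at ha ⊢
    rw [hroots]
    exact Multiset.mem_map_of_mem j ha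
  have key : IntermediateField.adjoin E ((p.map ι).rootSet Ω) =
      IntermediateField.adjoin E (Set.range j) := by
    apply le_antisymm
    · exact IntermediateField.adjoin.mono _ _ _ h1
    · rw [IntermediateField.adjoin_le_iff]
      rintro _ ⟨x, rfl⟩
      have hx : x ∈ Algebra.adjoin K (p.rootSet M) := by
        rw [hsp.adjoin_rootSet]; exact Algebra.mem_top
      induction hx using Algebra.adjoin_induction with
      | mem a ha => exact IntermediateField.subset_adjoin _ _ (h2 a ha)
      | algebraMap r =>
        rw [hj]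
        exact IntermediateField.algebraMap_mem _ _
      | add x y _ _ hx hy =>
        rw [map_add]; exact add_mem hx hy
      | mul x y _ _ hx hy =>
        rw [map_mul]; exact mul_mem hx hy
  have hs : ((p.map ι).map (algebraMap E Ω)).Splits := IsAlgClosed.splits _
  haveI := IntermediateField.adjoin_rootSet_isSplittingField hs
  rw [← key]
  exact ⟨Polynomial.IsSplittingField.finiteDimensional _ (p.map ι),
    IsGalois.of_separable_splitting_field (p := p.map ι) hp.map⟩

/-- Two embeddings of a normal extension differ by an automorphism. -/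
theorem p3_normal {Ω : Type*} [Field Ω] [Normal K M] (j f : M →+* Ω)
    (h : ∀ a, f (algebraMap K M a) = j (algebraMap K M a)) :
    ∃ σ : M ≃ₐ[K] M, ∀ x, f x = j (σ x) := by
  letI : Algebra M Ω := j.toAlgebra
  letI : Algebra K Ω := (j.comp (algebraMap K M)).toAlgebra
  haveI : IsScalarTower K M Ω := IsScalarTower.of_algebraMap_eq fun _ => rfl
  let f' : M →ₐ[K] Ω := { f with commutes' := h }
  refine ⟨f'.restrictNormal' M, fun x => ?_⟩
  exact (f'.restrictNormal_commutes M x).symm

/-- The restriction homomorphism. -/
theorem p3_res {L : Type*} [Field L] [Algebra E L] [Normal K M] (ι : K →+* E) (j : M →+* L)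
    (hj : ∀ a, j (algebraMap K M a) = algebraMap E L (ι a)) :
    ∃ res : (L ≃ₐ[E] L) →* (M ≃ₐ[K] M), ∀ g x, g (j x) = j (res g x) := by
  have h : ∀ g : L ≃ₐ[E] L, ∃ σ : M ≃ₐ[K] M, ∀ x, g (j x) = j (σ x) := by
    intro g
    refine p3_normal (K := K) j (((g : L ≃ₐ[E] L) : L →+* L).comp j) ?_
    intro a
    change g (j (algebraMap K M a)) = _
    rw [hj, AlgEquiv.commutes]
  choose res hres using h
  refine ⟨{ toFun := res, map_one' := ?_, map_mul' := ?_ }, hres⟩
  · ext x
    apply j.injective
    rw [← hres]
    rfl
  · intro g h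
    ext x
    apply j.injective
    rw [← hres, AlgEquiv.mul_apply, AlgEquiv.mul_apply, hres, hres]

/-- The restriction is onto the automorphisms which are trivial on `M ∩ E`. -/
theorem p3_range {L : Type*} [Field L] [Algebra E L] [FiniteDimensional K M] [IsGalois K M]
    [FiniteDimensional E L] [IsGalois E L] (j : M →+* L)
    (res : (L ≃ₐ[E] L) →* (M ≃ₐ[K] M)) (hres : ∀ g x, g (j x) = j (res g x)) (τ : M ≃ₐ[K] M)
    (hτ : ∀ x y, j x = algebraMap E L y → τ x = x) : ∃ g, res g = τ := by
  have h1 : τ ∈ IntermediateField.fixingSubgroup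
      (IntermediateField.fixedField (MonoidHom.range res)) := by
    rw [IntermediateField.mem_fixingSubgroup_iff]
    intro x hx
    have h2 : j x ∈ (⊥ : IntermediateField E L) := by
      rw [IsGalois.mem_bot_iff_fixed]
      intro g
      rw [hres]
      exact congrArg j (hx ⟨res g, g, rfl⟩)
    obtain ⟨y, hy⟩ := IntermediateField.mem_bot.1 h2
    exact hτ x y hy.symm
  rw [IntermediateField.fixingSubgroup_fixedField] at h1
  exact h1

end

end Pool.Agent.SmB
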