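import Pool.Agent.Lib.SmB.P3Defs

/-!
SMITH, block B, part 3: coefficientwise endomorphisms of `F(t)`.

PROOF of `coef_fixed`. Let `y = a / b` with `a = y.num`, `b = y.denom` (coprime, `b` monic) and let `Φ` be a ring
endomorphism of `RatFunc F` with `Φ (C c) = C (φ c)`, `Φ X = X`; then `Φ y = a^φ / b^φ`
(`RatFunc.num_div_denom`, `map_div₀`; `Φ (algebraMap p) = algebraMap (p.map φ)` by `Polynomial.induction_on`),
`a^φ, b^φ` are coprime (`IsCoprime.map`) and `b^φ` is monic.
If `Φ y = y` then `a * b^φ = a^φ * b` in `F[X]`, so `b ∣ b^φ` and `b^φ ∣ b` (coprimality), both monic, hence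
`b^φ = b` (`Polynomial.eq_of_monic_of_associated`) and `a^φ = a`. Compare coefficients.
-/

set_option autoImplicit false

namespace Pool.Agent.SmB

open Polynomial

theorem coef_fixed {F : Type*} [Field F] (φ : F →+* F) (Φ : RatFunc F →+* RatFunc F)
    (hC : ∀ c : F, Φ (algebraMap F[X] (RatFunc F) (C c)) = algebraMap F[X] (RatFunc F) (C (φ c)))
    (hX : Φ (algebraMap F[X] (RatFunc F) X) = algebraMap F[X] (RatFunc F) X) (y : RatFunc F)
    (hy : Φ y = y) (i : ℕ) :
    φ (y.num.coeff i) = y.num.coeff i ∧ φ (y.denom.coeff i) = y.denom.coeff i := by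
  have hΦ : ∀ p : F[X], Φ (algebraMap F[X] (RatFunc F) p) =
      algebraMap F[X] (RatFunc F) (p.map φ) := by
    intro p
    have h : Φ.comp (algebraMap F[X] (RatFunc F)) =
        (algebraMap F[X] (RatFunc F)).comp (mapRingHom φ) := by
      apply Polynomial.ringHom_ext
      · intro c
        rw [RingHom.comp_apply, RingHom.comp_apply, hC, coe_mapRingHom, map_C]
      · rw [RingHom.comp_apply, RingHom.comp_apply, hX, coe_mapRingHom, map_X]
    exact DFunLike.congr_fun h p
  have hinj := RatFunc.algebraMap_injective F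
  have hb0 : y.denom ≠ 0 := y.denom_ne_zero
  have hbφ : (y.denom.map φ).Monic := y.monic_denom.map φ
  have h1 : algebraMap F[X] (RatFunc F) (y.num.map φ) / algebraMap F[X] (RatFunc F)
      (y.denom.map φ) = algebraMap F[X] (RatFunc F) y.num / algebraMap F[X] (RatFunc F) y.denom := by
    rw [← hΦ, ← hΦ, ← map_div₀, RatFunc.num_div_denom, hy]
  have h2 : y.num.map φ * y.denom = y.num * y.denom.map φ := by
    rw [div_eq_div_iff] at h1
    · rw [← map_mul, ← map_mul] at h1
      exact hinj h1
    · intro h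
      exact hbφ.ne_zero (hinj (h.trans (map_zero _).symm))
    · intro h
      exact hb0 (hinj (h.trans (map_zero _).symm))
  have hcop : IsCoprime y.num y.denom := y.isCoprime_num_denom
  have hcopφ : IsCoprime (y.num.map φ) (y.denom.map φ) := hcop.map (mapRingHom φ)
  have h3 : y.denom ∣ y.denom.map φ := by
    apply hcop.symm.dvd_of_dvd_mul_left
    rw [← h2]
    exact dvd_mul_left _ _
  have h4 : y.denom.map φ ∣ y.denom := by
    apply hcopφ.symm.dvd_of_dvd_mul_left
    rw [h2]
    exact dvd_mul_left _ _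
  have h5 : y.denom.map φ = y.denom :=
    eq_of_monic_of_associated hbφ y.monic_denom (associated_of_dvd_dvd h4 h3)
  have h6 : y.num.map φ = y.num := by
    rw [h5] at h2
    exact mul_right_cancel₀ hb0 h2
  constructor
  · rw [← coeff_map, h6]
  · rw [← coeff_map, h5]

end Pool.Agent.SmB
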