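import Pool.Agent.Lib.SmB.Defs2

/-!
SMITH, block B, part 3: the inclusion `k(t) → F(t)`.
-/

set_option autoImplicit false

namespace Pool.Agent.SmB

open Polynomial

theorem polyMap_injective (k F : Type*) [Field k] [Field F] [Algebra k F] :
    Function.Injective (Polynomial.mapRingHom (algebraMap k F)) := by
  intro a b h
  exact Polynomial.map_injective _ (algebraMap k F).injective h

/-- The inclusion `k(t) → F(t)`. -/
noncomputable def ratMap (k F : Type*) [Field k] [Field F] [Algebra k F] :
    RatFunc k →+* RatFunc F :=
  IsFractionRing.map (polyMap_injective k F)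

theorem ratMap_alg {k F : Type*} [Field k] [Field F] [Algebra k F] (h : k[X]) :
    ratMap k F (algebraMap k[X] (RatFunc k) h) =
      algebraMap F[X] (RatFunc F) (h.map (algebraMap k F)) := by
  rw [ratMap, IsFractionRing.map, IsLocalization.map_eq]
  rfl

end Pool.Agent.SmB
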