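import Pool.Agent.Lib.SmB.P3Defs

/-!
SMITH, block B, part 3: `F(t) / k(t)` is Galois for `k` finite and `F` an algebraic closure of `k`.

PROOF. `RatFunc F` is generated over `RatFunc k` by the elements `C c`, `c : F`
(every element is a quotient of two polynomials in `X` with coefficients in `F`, and `X` comes from `RatFunc k`, see
`ratMap_alg`). `C c` is integral over `RatFunc k`: it is a root of `minpoly k c` mapped to `RatFunc k`, which is
separable (`k` is finite, hence perfect: `PerfectField.separable_of_irreducible`) and splits in `RatFunc F`, because it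
splits in `F` (`IsAlgClosed.splits`). Hence `minpoly (RatFunc k) (C c)` divides a separable polynomial which splits:
separable: `IntermediateField.isSeparable_adjoin_iff_isSeparable`,
normal: `IntermediateField.splits_of_mem_adjoin` (or `normal_iff`).
-/

set_option autoImplicit false

namespace Pool.Agent.SmB

open Polynomial

private theorem P3Gal_main {k F K L : Type*} [Field k] [Finite k] [Field F] [Algebra k F]
    [IsAlgClosed F] [Algebra.IsAlgebraic k F] [Field K] [Field L] [Algebra K L]
    (j : k →+* K) (i : F →+* L) (hc : ∀ a : k, algebraMap K L (j a) = i (algebraMap k F a))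
    (htop : IntermediateField.adjoin K (Set.range i) = ⊤) : IsGalois K L := by
  have hcomp : (algebraMap K L).comp j = i.comp (algebraMap k F) := RingHom.ext hc
  have key : ∀ c : F, ∃ q : K[X], q.Monic ∧ q.Separable ∧ aeval (i c) q = 0 ∧
      (q.map (algebraMap K L)).Splits := by
    intro c
    have hint : IsIntegral k c := Algebra.IsIntegral.isIntegral c
    refine ⟨(minpoly k c).map j, (minpoly.monic hint).map j,
      (PerfectField.separable_of_irreducible (minpoly.irreducible hint)).map, ?_, ?_⟩
    · rw [aeval_def, eval₂_map, hcomp, ← hom_eval₂]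
      have h : eval₂ (algebraMap k F) c (minpoly k c) = 0 := minpoly.aeval k c
      rw [h, map_zero]
    · rw [Polynomial.map_map, hcomp, ← Polynomial.map_map]
      exact (IsAlgClosed.splits _).map i
  have hI : ∀ x ∈ Set.range i, IsIntegral K x := by
    rintro _ ⟨c, rfl⟩
    obtain ⟨q, hm, -, h0, -⟩ := key c
    exact ⟨q, hm, h0⟩
  have hsep : ∀ x ∈ Set.range i, IsSeparable K x := by
    rintro _ ⟨c, rfl⟩
    obtain ⟨q, hm, hs, h0, -⟩ := key c
    exact hs.of_dvd (minpoly.dvd K _ h0)
  have hspl : ∀ x ∈ Set.range i, IsIntegral K x ∧ ((minpoly K x).map (algebraMap K L)).Splits := by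
    intro x hx
    refine ⟨hI x hx, ?_⟩
    obtain ⟨c, rfl⟩ := hx
    obtain ⟨q, hm, hs, h0, hq⟩ := key c
    exact hq.of_dvd (Polynomial.map_ne_zero hm.ne_zero) (Polynomial.map_dvd _ (minpoly.dvd K _ h0))
  have h1 : Algebra.IsSeparable K (IntermediateField.adjoin K (Set.range i)) :=
    (IntermediateField.isSeparable_adjoin_iff_isSeparable K L).2 hsep
  rw [htop] at h1
  have h2 : Algebra.IsSeparable K L :=
    (AlgEquiv.Algebra.isSeparable_iff IntermediateField.topEquiv).1 h1
  have h3 : Normal K L := by
    rw [normal_iff]
    intro x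
    refine ⟨Algebra.IsSeparable.isIntegral K x, ?_⟩
    apply IntermediateField.splits_of_mem_adjoin (L := L) (splits := hspl)
    rw [htop]
    exact IntermediateField.mem_top
  exact IsGalois.mk

theorem rat_isGalois (k F : Type*) [Field k] [Finite k] [Field F] [Algebra k F] [IsAlgClosed F]
    [Algebra.IsAlgebraic k F] :
    @IsGalois (RatFunc k) _ (RatFunc F) _ (ratMap k F).toAlgebra := by
  let _ : Algebra (RatFunc k) (RatFunc F) := (ratMap k F).toAlgebra
  have hmap : ∀ x : RatFunc k, algebraMap (RatFunc k) (RatFunc F) x = ratMap k F x := fun _ => rfl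
  apply P3Gal_main ((algebraMap k[X] (RatFunc k)).comp C) ((algebraMap F[X] (RatFunc F)).comp C)
  · intro a
    rw [hmap, RingHom.comp_apply, ratMap_alg, map_C, RingHom.comp_apply]
  · rw [eq_top_iff]
    intro x _
    have hX : algebraMap F[X] (RatFunc F) X ∈ IntermediateField.adjoin (RatFunc k)
        (Set.range ((algebraMap F[X] (RatFunc F)).comp C)) := by
      have h : algebraMap F[X] (RatFunc F) X =
          algebraMap (RatFunc k) (RatFunc F) (algebraMap k[X] (RatFunc k) X) := by
        rw [hmap, ratMap_alg, map_X]
      rw [h]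
      exact IntermediateField.algebraMap_mem _ _
    have hpoly : ∀ f : F[X], algebraMap F[X] (RatFunc F) f ∈ IntermediateField.adjoin (RatFunc k)
        (Set.range ((algebraMap F[X] (RatFunc F)).comp C)) := by
      intro f
      induction f using Polynomial.induction_on' with
      | add p q hp hq => rw [map_add]; exact add_mem hp hq
      | monomial n a =>
        rw [← C_mul_X_pow_eq_monomial, map_mul, map_pow]
        exact mul_mem (IntermediateField.subset_adjoin _ _ ⟨a, rfl⟩) (pow_mem hX n)
    obtain ⟨p, q, -, rfl⟩ := IsFractionRing.div_surjective (A := F[X]) x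
    exact div_mem (hpoly p) (hpoly q)

end Pool.Agent.SmB
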