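import Pool.Agent.Lib.SmB.P3Coef
import Pool.Agent.Lib.SmB.P3Gal

/-!
SMITH, block B, part 3: the intersection of `M` and `F(t)` consists of rational functions whose
coefficients are constants of `M`.

PROOF. `letI : Algebra (RatFunc k) (RatFunc F) := (ratMap k F).toAlgebra`, Galois by `rat_isGalois`.
Let `c` be a coefficient of `y.num` or `y.denom`.
CLAIM: `C c ∈ (RatFunc k)⟮y⟯`. By the (infinite) Galois correspondence
(`InfiniteGalois.fixedField_fixingSubgroup`) it suffices that every `s : RatFunc F ≃ₐ[RatFunc k] RatFunc F` with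
`s y = y` fixes `C c`. `s` is `k`-linear and `F / k` is normal, so there is `φ : F →+* F` with `s (C a) = C (φ a)` for all
`a : F` (`AlgEquiv.restrictNormal`, or directly: `s (C a)` is a root of `minpoly k a`, which splits in `F`, and
`a ↦ φ a` is a ring homomorphism by injectivity of `C`), and `s X = X`. By `coef_fixed`, `φ c = c`.
So `C c = g (y)` with `g : (RatFunc k)[X]` (`IntermediateField.mem_adjoin_simple_iff` or
`IntermediateField.adjoin_simple_toSubalgebra_of_integral`, `y` is algebraic).
Put `z = aeval x g : M`. Both `j` and `i` are compatible with the maps from `RatFunc k`: `j (algebraMap (RatFunc k) M r) =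
i (ratMap k F r)` for all `r` (from `hij`, quotients). Hence `j z = i (C c)`. As `c` is algebraic over `k`, so is `z`
(`j` is injective), so `τ z = z` by `hτ`.
So for every coefficient `c` there is `z c : M` with `j (z c) = i (C c)`, `τ (z c) = z c`.
Put `A = ∑ z (a_l) t^l`, `B = ∑ z (b_l) t^l` in `M` (`a = y.num`, `b = y.denom`, `t = algebraMap k[X] M X`): `j A = i (a)`,
`j B = i (b) ≠ 0`, `j x * j B = i y * i b = i a = j A`, so `x * B = A`, `τ A = A`, `τ B = B`, `B ≠ 0`, `τ x = x`.
-/

set_option autoImplicit false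

namespace Pool.Agent.SmB

open Polynomial

private noncomputable def p3key_CF (F : Type*) [Field F] : F →+* RatFunc F :=
  (algebraMap F[X] (RatFunc F)).comp C

private theorem p3key_CF_apply {F : Type*} [Field F] (c : F) :
    p3key_CF F c = algebraMap F[X] (RatFunc F) (C c) := rfl

private theorem p3key_CF_inj {F : Type*} [Field F] : Function.Injective (p3key_CF F) :=
  (p3key_CF F).injective

private theorem p3key_const {k F : Type*} [Field k] [Field F] [Algebra k F] (c : k) :
    p3key_CF F (algebraMap k F c) = ratMap k F (algebraMap k[X] (RatFunc k) (C c)) := by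
  rw [ratMap_alg, map_C]
  rfl

private theorem p3key_range {k F : Type*} [Field k] [Field F] [Algebra k F] [IsAlgClosed F]
    [Algebra.IsAlgebraic k F] (s : RatFunc F →+* RatFunc F)
    (hs : ∀ r : RatFunc k, s (ratMap k F r) = ratMap k F r) (a : F) :
    s (p3key_CF F a) ∈ (p3key_CF F).range := by
  have ha : IsIntegral k a := Algebra.IsIntegral.isIntegral a
  have hscomp : s.comp ((p3key_CF F).comp (algebraMap k F)) =
      (p3key_CF F).comp (algebraMap k F) := by
    apply RingHom.ext
    intro c
    rw [RingHom.comp_apply, RingHom.comp_apply, p3key_const, hs]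
  have h0 : (minpoly k a).eval₂ ((p3key_CF F).comp (algebraMap k F)) (s (p3key_CF F a)) = 0 := by
    rw [← hscomp, ← hom_eval₂, ← hom_eval₂]
    have h1 : (minpoly k a).eval₂ (algebraMap k F) a = 0 := minpoly.aeval k a
    rw [h1, map_zero, map_zero]
  have hint : IsIntegral F (s (p3key_CF F a)) := by
    refine ⟨(minpoly k a).map (algebraMap k F), (minpoly.monic ha).map _, ?_⟩
    rw [eval₂_map]
    exact h0
  have h2 : (minpoly F (s (p3key_CF F a))).degree = 1 :=
    IsAlgClosed.degree_eq_one_of_irreducible F (minpoly.irreducible hint)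
  obtain ⟨c, hc⟩ := minpoly.mem_range_of_degree_eq_one F _ h2
  exact ⟨c, hc⟩

private theorem p3key_phi {k F : Type*} [Field k] [Field F] [Algebra k F] [IsAlgClosed F]
    [Algebra.IsAlgebraic k F] (s : RatFunc F →+* RatFunc F)
    (hs : ∀ r : RatFunc k, s (ratMap k F r) = ratMap k F r) :
    ∃ φ : F →+* F, ∀ a : F, s (p3key_CF F a) = p3key_CF F (φ a) := by
  choose f hf using p3key_range s hs
  refine ⟨{ toFun := f, map_one' := ?_, map_mul' := ?_, map_zero' := ?_, map_add' := ?_ }, ?_⟩
  · apply p3key_CF_inj
    rw [hf, map_one, map_one]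
  · intro x y
    apply p3key_CF_inj
    rw [hf, map_mul, map_mul, map_mul, hf, hf]
  · apply p3key_CF_inj
    rw [hf, map_zero, map_zero]
  · intro x y
    apply p3key_CF_inj
    rw [hf, map_add, map_add, map_add, hf, hf]
  · intro a
    exact (hf a).symm

private theorem p3key_aeval {k F : Type*} [Field k] [Finite k] [Field F] [Algebra k F]
    [IsAlgClosed F] [Algebra.IsAlgebraic k F] (y : RatFunc F) (c : F)
    (hc : ∃ l, c = y.num.coeff l ∨ c = y.denom.coeff l) :
    ∃ g : (RatFunc k)[X], g.eval₂ (ratMap k F) y = p3key_CF F c := by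
  letI : Algebra (RatFunc k) (RatFunc F) := (ratMap k F).toAlgebra
  haveI : IsGalois (RatFunc k) (RatFunc F) := rat_isGalois k F
  have hmem : p3key_CF F c ∈ IntermediateField.adjoin (RatFunc k) {y} := by
    rw [← InfiniteGalois.fixedField_fixingSubgroup (IntermediateField.adjoin (RatFunc k) {y})]
    rw [IntermediateField.mem_fixedField_iff]
    intro s hs
    have hsy : s y = y :=
      (IntermediateField.mem_fixingSubgroup_iff _ _).mp hs y
        (IntermediateField.mem_adjoin_simple_self _ y)
    have hsr : ∀ r : RatFunc k, (s : RatFunc F →+* RatFunc F) (ratMap k F r) = ratMap k F r :=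
      fun r => s.commutes r
    obtain ⟨φ, hφ⟩ := p3key_phi (s : RatFunc F →+* RatFunc F) hsr
    have hX : (s : RatFunc F →+* RatFunc F) (algebraMap F[X] (RatFunc F) X) =
        algebraMap F[X] (RatFunc F) X := by
      have h1 := hsr (algebraMap k[X] (RatFunc k) X)
      rw [ratMap_alg, map_X] at h1
      exact h1
    obtain ⟨l, hl⟩ := hc
    have h2 := coef_fixed φ (s : RatFunc F →+* RatFunc F) hφ hX y hsy l
    have h3 : φ c = c := by
      rcases hl with rfl | rfl
      · exact h2.1
      · exact h2.2
    have h4 := hφ c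
    rw [h3] at h4
    exact h4
  have halg : IsAlgebraic (RatFunc k) y := Algebra.IsAlgebraic.isAlgebraic y
  rw [← IntermediateField.mem_toSubalgebra,
    IntermediateField.adjoin_simple_toSubalgebra_of_isAlgebraic halg,
    Algebra.adjoin_singleton_eq_range_aeval] at hmem
  obtain ⟨g, hg⟩ := hmem
  exact ⟨g, hg⟩

theorem p3_key {k F M Ω : Type*} [Field k] [Finite k] [Field F] [Algebra k F] [IsAlgClosed F]
    [Algebra.IsAlgebraic k F] [Field M] [Algebra k[X] M] [Algebra (RatFunc k) M]
    [IsScalarTower k[X] (RatFunc k) M] [Algebra k M] [IsScalarTower k k[X] M] [Field Ω]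
    (i : RatFunc F →+* Ω) (j : M →+* Ω)
    (hij : ∀ h : k[X], j (algebraMap k[X] M h) =
      i (algebraMap F[X] (RatFunc F) (h.map (algebraMap k F))))
    (τ : M ≃ₐ[RatFunc k] M) (hτ : ∀ z : M, IsIntegral k z → τ z = z)
    (x : M) (y : RatFunc F) (hxy : j x = i y) : τ x = x := by
  classical
  have hj : j.comp (algebraMap (RatFunc k) M) = i.comp (ratMap k F) := by
    apply IsLocalization.ringHom_ext (nonZeroDivisors k[X])
    apply RingHom.ext
    intro h
    rw [RingHom.comp_apply, RingHom.comp_apply, RingHom.comp_apply, RingHom.comp_apply,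
      ratMap_alg, ← IsScalarTower.algebraMap_apply, hij]
  have hjk : j.comp (algebraMap k M) = (i.comp (p3key_CF F)).comp (algebraMap k F) := by
    apply RingHom.ext
    intro c
    rw [RingHom.comp_apply, RingHom.comp_apply, RingHom.comp_apply,
      IsScalarTower.algebraMap_apply k k[X] M, hij, p3key_CF_apply]
    congr 2
    rw [← Polynomial.C_eq_algebraMap, map_C]
  have hz : ∀ c : F, (∃ l, c = y.num.coeff l ∨ c = y.denom.coeff l) →
      ∃ z : M, j z = i (p3key_CF F c) ∧ τ z = z := by
    intro c hc
    obtain ⟨g, hg⟩ := p3key_aeval (k := k) y c hc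
    refine ⟨g.eval₂ (algebraMap (RatFunc k) M) x, ?_, ?_⟩
    · rw [hom_eval₂, hj, hxy, ← hom_eval₂, hg]
    · apply hτ
      have hc' : IsIntegral k c := Algebra.IsIntegral.isIntegral c
      refine ⟨minpoly k c, minpoly.monic hc', ?_⟩
      apply j.injective
      have h5 : j (g.eval₂ (algebraMap (RatFunc k) M) x) = i (p3key_CF F c) := by
        rw [hom_eval₂, hj, hxy, ← hom_eval₂, hg]
      rw [map_zero, hom_eval₂, hjk, h5]
      have h6 : i (p3key_CF F c) = (i.comp (p3key_CF F)) c := rfl
      rw [h6, ← hom_eval₂]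
      have h7 : (minpoly k c).eval₂ (algebraMap k F) c = 0 := minpoly.aeval k c
      rw [h7, map_zero]
  have hpoly : ∀ q : F[X], (∀ l, ∃ z : M, j z = i (p3key_CF F (q.coeff l)) ∧ τ z = z) →
      ∃ z : M, j z = i (algebraMap F[X] (RatFunc F) q) ∧ τ z = z := by
    intro q hq
    choose f hf1 hf2 using hq
    have ht : τ (algebraMap k[X] M X) = algebraMap k[X] M X := by
      rw [IsScalarTower.algebraMap_apply k[X] (RatFunc k) M]
      exact τ.commutes _
    refine ⟨∑ l ∈ Finset.range (q.natDegree + 1), f l * algebraMap k[X] M X ^ l, ?_, ?_⟩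
    · conv_rhs => rw [q.as_sum_range_C_mul_X_pow]
      rw [map_sum, map_sum, map_sum]
      apply Finset.sum_congr rfl
      intro l _
      rw [map_mul, map_pow, hf1, hij, map_X, map_mul, map_pow, map_mul, map_pow]
      rfl
    · rw [map_sum]
      apply Finset.sum_congr rfl
      intro l _
      rw [map_mul, map_pow, hf2, ht]
  obtain ⟨A, hA1, hA2⟩ := hpoly y.num (fun l => hz _ ⟨l, Or.inl rfl⟩)
  obtain ⟨B, hB1, hB2⟩ := hpoly y.denom (fun l => hz _ ⟨l, Or.inr rfl⟩)
  have hden : algebraMap F[X] (RatFunc F) y.denom ≠ 0 :=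
    RatFunc.algebraMap_ne_zero y.denom_ne_zero
  have hB0 : B ≠ 0 := by
    rintro rfl
    rw [map_zero] at hB1
    exact hden ((map_eq_zero i).mp hB1.symm)
  have hxB : x * B = A := by
    apply j.injective
    rw [map_mul, hxy, hB1, hA1, ← map_mul]
    congr 1
    have h8 := RatFunc.num_div_denom y
    rw [div_eq_iff hden] at h8
    exact h8.symm
  have h9 : τ x * B = x * B := by
    calc τ x * B = τ x * τ B := by rw [hB2]
      _ = τ (x * B) := (map_mul τ x B).symm
      _ = x * B := by rw [hxB, hA2]
  exact mul_right_cancel₀ hB0 h9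

end Pool.Agent.SmB
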