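import Pool.Agent.Lib.SmB.P4Defs

/-!
Block B of SMITH, part 4, module P4Frob (Frobenius elements at finite level). About 220 lines.

`M/k(t)` finite Galois, `k` finite, `q = Nat.card k`, `A = AA k M` the integral closure of `k[X]`
in `M`, `G = M ≃ₐ[RatFunc k] M`.

TOOLS. Mathlib: `Mathlib.RingTheory.Invariant.Galois` (the action
`IsIntegralClosure.MulSemiringAction k[X] (RatFunc k) M A` of `G` on `A`, and
`Algebra.isInvariant_of_isGalois`), `Mathlib.RingTheory.Invariant.Basic`
(`Algebra.IsInvariant.exists_smul_of_under_eq`: transitivity on the primes above a prime),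
`Mathlib.RingTheory.Frobenius` (`IsArithFrobAt`, `IsArithFrobAt.exists_of_isInvariant`,
`IsArithFrobAt.mul_inv_mem_inertia`, `IsArithFrobAt.conj`). The link: for `g ∈ G` and `x ∈ A`,
`((g • x : A) : M) = g (x : M)` (`algebraMap_galRestrict_apply`). You may use these or argue
directly as follows.

PROOFS (`Q = q ^ P.natDegree`).
* `frob_exists`: `A` is integral over `k[X]`, so there is a prime `I` above the prime `(P)` of
  `k[X]` (`Ideal.exists_ideal_over_prime_of_isIntegral` and friends; the map `k[X] → A` is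
  injective). `A/I` is a finite field: `A` is a finite `k[X]`-module (`RatFunc k` is the fraction
  field of the integrally closed Noetherian `k[X]` and `M` is finite and separable:
  `IsIntegralClosure.finite` or `IsIntegralClosure.isNoetherian`), `k[X]/(P)` is finite with
  `Q` elements (`AdjoinRoot`/`Polynomial.card_quotient...`; basis `1, X, .., X^(deg P - 1)`).
  `IsArithFrobAt.exists_of_isInvariant` gives `σ` with `σ • x - x ^ Nat.card (k[X] ⧸ I.under)
  ∈ I` for all `x ∈ A`, and `Nat.card (k[X] ⧸ span {P}) = Q`.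
* `frob_conj`: let `σ` be a Frobenius at `I` and `τ` a Frobenius at `I'`, both primes above `(P)`.
  By transitivity `I' = g I` for some `g ∈ G`. For `x ∈ A`,
  `g σ g⁻¹ x - x^Q = g (σ (g⁻¹ x) - (g⁻¹ x)^Q) ∈ g I = I'`. So `σ' = g σ g⁻¹` and `τ` are both
  Frobenius elements at `I'`: `σ' x - τ x ∈ I'` for all `x ∈ A`; apply it to `τ⁻¹ x`:
  `σ' τ⁻¹ x - x ∈ I'` for all `x ∈ A`; by `UnramM` `σ' τ⁻¹ = 1`, `τ = g σ g⁻¹`.
* `frob_comp`: let `x ∈ M` be integral over `k`; then `σ x` is integral over `k` and both are in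
  `A` (`IsIntegral.tower_top`). Let `y = σ x - x^Q`, integral over `k` and in `I`. If
  `y ≠ 0`, then `y⁻¹` is integral over `k` (`IsIntegral.inv`, or: `y` is algebraic over the field
  `k`, so `k[y]` is a field), so `y⁻¹ ∈ A`, `1 = y y⁻¹ ∈ I`, a contradiction.
* `frob_conj'` and `frob_unram` (statement as written): converses used by the users of B1.
  `frob_conj'`: if `σ` is a Frobenius at `I`, `g σ g⁻¹` is a Frobenius at `g I` (computation above);
  `g I` is again a prime above `(P)`, as `g` is the identity on `k[X]`. (Take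
  `g I = {x | g⁻¹ x ∈ I}`, the comap of `I` under the ring automorphism of `A` given by `g⁻¹`.)
-/

namespace Pool.Agent.SmB

open Module Polynomial

section

variable {k : Type*} [Field k] [Finite k] {M : Type*} [Field M] [Algebra k[X] M]
  [Algebra (RatFunc k) M] [IsScalarTower k[X] (RatFunc k) M] [FiniteDimensional (RatFunc k) M]
  [IsGalois (RatFunc k) M] [Algebra k M] [IsScalarTower k k[X] M]

omit [Finite k] [Algebra k M] [IsScalarTower k k[X] M] in
/-- Automorphisms preserve the ring of integers. -/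
theorem smul_mem_AA (g : M ≃ₐ[RatFunc k] M) {x : M} (hx : x ∈ AA k M) : g x ∈ AA k M := by
  have h1 : IsIntegral k[X] x := hx
  have h2 := h1.map ((g : M →ₐ[RatFunc k] M).restrictScalars k[X])
  exact h2

omit [Finite k] [Algebra k M] [IsScalarTower k k[X] M] in
private theorem p4f_key : IsFractionRing (AA k M) M ∧ Module.Finite k[X] (AA k M) ∧
    Function.Injective (algebraMap k[X] (AA k M)) := by
  have h0 : Function.Injective (algebraMap k[X] M) := by
    rw [IsScalarTower.algebraMap_eq k[X] (RatFunc k) M]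
    exact (algebraMap (RatFunc k) M).injective.comp (IsFractionRing.injective k[X] (RatFunc k))
  refine ⟨integralClosure.isFractionRing_of_finite_extension (RatFunc k) M, ?_, ?_⟩
  · exact IsIntegralClosure.finite k[X] (RatFunc k) M (AA k M)
  · intro a b hab
    apply h0
    exact congrArg (algebraMap (AA k M) M) hab

private noncomputable def p4f_act (g : M ≃ₐ[RatFunc k] M) : AA k M →+* AA k M where
  toFun x := ⟨g x, smul_mem_AA g x.2⟩
  map_one' := Subtype.ext (map_one g)
  map_zero' := Subtype.ext (map_zero g)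
  map_mul' a b := Subtype.ext (map_mul g (a : M) (b : M))
  map_add' a b := Subtype.ext (map_add g (a : M) (b : M))

omit [Finite k] [Algebra k M] [IsScalarTower k k[X] M] in
private theorem p4f_act_coe (g : M ≃ₐ[RatFunc k] M) (x : AA k M) :
    ((p4f_act g x : AA k M) : M) = g x := rfl

omit [Finite k] [Algebra k M] [IsScalarTower k k[X] M] in
private theorem p4f_act_alg (g : M ≃ₐ[RatFunc k] M) :
    (p4f_act g).comp (algebraMap k[X] (AA k M)) = algebraMap k[X] (AA k M) := by
  refine RingHom.ext fun p => Subtype.ext ?_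
  show g (algebraMap k[X] M p) = algebraMap k[X] M p
  rw [IsScalarTower.algebraMap_apply k[X] (RatFunc k) M, g.commutes]

omit [Finite k] [Algebra k M] [IsScalarTower k k[X] M] in
/-- the comap of a Frobenius under an automorphism -/
private theorem p4f_conj {σ : M → M} {I : Ideal (AA k M)} (Q : ℕ)
    (h : ∀ x y : AA k M, (y : M) = σ x → y - x ^ Q ∈ I) (g : M ≃ₐ[RatFunc k] M)
    (x y : AA k M) (hxy : (y : M) = g (σ (g⁻¹ x))) :
    y - x ^ Q ∈ I.comap (p4f_act g⁻¹) := by
  rw [Ideal.mem_comap, map_sub, map_pow]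
  refine h _ _ ?_
  rw [p4f_act_coe, p4f_act_coe, hxy]
  exact g.symm_apply_apply _

omit [Finite k] [Algebra k M] [IsScalarTower k k[X] M] in
/-- transitivity -/
private theorem p4f_trans {I I' : Ideal (AA k M)} [I.IsPrime] [I'.IsPrime]
    (h : I.comap (algebraMap k[X] (AA k M)) = I'.comap (algebraMap k[X] (AA k M))) :
    ∃ g : M ≃ₐ[RatFunc k] M, I' = I.comap (p4f_act g⁻¹) := by
  obtain ⟨h1, h2, h3⟩ := p4f_key (k := k) (M := M)
  let := IsIntegralClosure.MulSemiringAction k[X] (RatFunc k) M (AA k M)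
  have hsm : ∀ (g : M ≃ₐ[RatFunc k] M) (x : AA k M), g • x = p4f_act g x := by
    intro g x
    refine Subtype.ext ?_
    exact algebraMap_galRestrict_apply k[X] g x
  have hinv : Algebra.IsInvariant k[X] (AA k M) (M ≃ₐ[RatFunc k] M) :=
    Algebra.isInvariant_of_isGalois k[X] (RatFunc k) M (AA k M)
  have hcomm : SMulCommClass (M ≃ₐ[RatFunc k] M) k[X] (AA k M) := by
    refine ⟨fun g p x => ?_⟩
    rw [hsm, hsm, Algebra.smul_def, Algebra.smul_def, map_mul]
    congr 1
    exact congrArg (fun f : k[X] →+* AA k M => f p) (p4f_act_alg g)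
  obtain ⟨g, hg⟩ := Algebra.IsInvariant.exists_smul_of_under_eq k[X] (AA k M)
    (M ≃ₐ[RatFunc k] M) I I' h
  refine ⟨g, ?_⟩
  ext x
  rw [hg, Ideal.mem_pointwise_smul_iff_inv_smul_mem, Ideal.mem_comap, hsm]

private theorem p4f_card {P : k[X]} (hP : Irreducible P) :
    Nat.card (k[X] ⧸ Ideal.span {P}) = Nat.card k ^ P.natDegree := by
  let pb := AdjoinRoot.powerBasis hP.ne_zero
  have h1 : Module.finrank k (AdjoinRoot P) = P.natDegree := by
    rw [pb.finrank, AdjoinRoot.powerBasis_dim]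
  have : Module.Finite k (AdjoinRoot P) := Module.Finite.of_basis pb.basis
  rw [← h1]
  exact Module.natCard_eq_pow_finrank (K := k) (V := AdjoinRoot P)

omit [Algebra k M] [IsScalarTower k k[X] M] in
theorem frob_exists {P : k[X]} (hP : Irreducible P) : ∃ σ : M ≃ₐ[RatFunc k] M, FrobM P σ := by
  obtain ⟨h1, h2, h3⟩ := p4f_key (k := k) (M := M)
  let := IsIntegralClosure.MulSemiringAction k[X] (RatFunc k) M (AA k M)
  have hsm : ∀ (g : M ≃ₐ[RatFunc k] M) (x : AA k M), g • x = p4f_act g x := by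
    intro g x
    refine Subtype.ext ?_
    exact algebraMap_galRestrict_apply k[X] g x
  have hinv : Algebra.IsInvariant k[X] (AA k M) (M ≃ₐ[RatFunc k] M) :=
    Algebra.isInvariant_of_isGalois k[X] (RatFunc k) M (AA k M)
  have hcomm : SMulCommClass (M ≃ₐ[RatFunc k] M) k[X] (AA k M) := by
    refine ⟨fun g p x => ?_⟩
    rw [hsm, hsm, Algebra.smul_def, Algebra.smul_def, map_mul]
    congr 1
    exact congrArg (fun f : k[X] →+* AA k M => f p) (p4f_act_alg g)
  have hmax : (Ideal.span {P} : Ideal k[X]).IsMaximal :=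
    PrincipalIdealRing.isMaximal_of_irreducible hP
  have hker : RingHom.ker (algebraMap k[X] (AA k M)) ≤ Ideal.span {P} := by
    rw [(RingHom.injective_iff_ker_eq_bot _).1 h3]
    exact bot_le
  obtain ⟨I, hI, hIP⟩ := Ideal.exists_ideal_over_maximal_of_isIntegral (S := AA k M)
    (Ideal.span {P}) hker
  have := hI.isPrime
  have hlo : I.LiesOver (Ideal.span {P}) := ⟨hIP.symm⟩
  have hf0 : Finite (k[X] ⧸ Ideal.span {P}) := by
    refine Nat.finite_of_card_ne_zero ?_
    rw [p4f_card hP]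
    exact pow_ne_zero _ Nat.card_pos.ne'
  have hf : Finite (AA k M ⧸ I) := Module.finite_of_finite (k[X] ⧸ Ideal.span {P})
  obtain ⟨σ, hσ⟩ := IsArithFrobAt.exists_of_isInvariant k[X] (M ≃ₐ[RatFunc k] M) I
  refine ⟨σ, I, hI.isPrime, hIP, fun x y hxy => ?_⟩
  have h4 := hσ x
  have h5 : I.under k[X] = Ideal.span {P} := hIP
  rw [h5, p4f_card hP] at h4
  have h6 : y = σ • x := by
    rw [hsm]
    exact Subtype.ext hxy
  rw [h6]
  exact h4

omit [Algebra k M] [IsScalarTower k k[X] M] in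
theorem frob_conj {P : k[X]} (hP : Irreducible P) (hU : UnramM M P) {σ τ : M ≃ₐ[RatFunc k] M}
    (hσ : FrobM P σ) (hτ : FrobM P τ) : ∃ g : M ≃ₐ[RatFunc k] M, τ = g * σ * g⁻¹ := by
  obtain ⟨I, hI, hIP, hI'⟩ := hσ
  obtain ⟨J, hJ, hJP, hJ'⟩ := hτ
  obtain ⟨g, hg⟩ := p4f_trans (I := I) (I' := J) (hIP.trans hJP.symm)
  refine ⟨g, ?_⟩
  have h1 : ∀ x y : AA k M, (y : M) = (g * σ * g⁻¹ : M ≃ₐ[RatFunc k] M) x →
      y - x ^ (Nat.card k) ^ P.natDegree ∈ J := by
    intro x y hxy
    rw [hg]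
    exact p4f_conj _ hI' g x y hxy
  have h2 : (g * σ * g⁻¹ : M ≃ₐ[RatFunc k] M) * τ⁻¹ = 1 := by
    refine hU J hJ hJP _ fun x y hxy => ?_
    let z : AA k M := p4f_act τ⁻¹ x
    have h3 := h1 z y (by rw [hxy]; rfl)
    have h4 := hJ' z x (by
      rw [p4f_act_coe]
      exact (τ.apply_symm_apply _).symm)
    have h5 := J.sub_mem h3 h4
    rwa [sub_sub_sub_cancel_right] at h5
  exact (mul_inv_eq_one.1 h2).symm

omit [Algebra k M] [IsScalarTower k k[X] M] in
theorem frob_conj' {P : k[X]} {σ : M ≃ₐ[RatFunc k] M} (hσ : FrobM P σ)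
    (g : M ≃ₐ[RatFunc k] M) : FrobM P (g * σ * g⁻¹ : M ≃ₐ[RatFunc k] M) := by
  obtain ⟨I, hI, hIP, hI'⟩ := hσ
  refine ⟨I.comap (p4f_act g⁻¹), Ideal.comap_isPrime _ _, ?_, fun x y hxy => ?_⟩
  · rw [Ideal.comap_comap, p4f_act_alg, hIP]
  · exact p4f_conj _ hI' g x y hxy

theorem frob_comp {N : ℕ} {P : k[X]} (hN : P.natDegree = N) {σ : M ≃ₐ[RatFunc k] M}
    (hσ : FrobM P σ) : CompN k N σ := by
  obtain ⟨I, hI, hIP, hI'⟩ := hσ
  intro x hx
  have hσk : (algebraMap k M).comp (RingHom.id k) =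
      ((σ : M ≃ₐ[RatFunc k] M) : M →+* M).comp (algebraMap k M) := by
    ext c
    show algebraMap k M c = σ (algebraMap k M c)
    rw [IsScalarTower.algebraMap_apply k k[X] M, IsScalarTower.algebraMap_apply k[X] (RatFunc k) M,
      σ.commutes]
  have hx' : IsIntegral k (σ x) :=
    IsIntegral.map_of_comp_eq (RingHom.id k) ((σ : M ≃ₐ[RatFunc k] M) : M →+* M) hσk hx
  have hxA : x ∈ AA k M := hx.tower_top
  have hxA' : σ x ∈ AA k M := hx'.tower_top
  have hy : IsIntegral k (σ x - x ^ (Nat.card k) ^ N) := hx'.sub (hx.pow _)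
  have h1 := hI' ⟨x, hxA⟩ ⟨σ x, hxA'⟩ rfl
  rw [hN] at h1
  by_contra hne
  have hne' : σ x - x ^ (Nat.card k) ^ N ≠ 0 := sub_ne_zero.2 hne
  have hinv : IsIntegral k (σ x - x ^ (Nat.card k) ^ N)⁻¹ := hy.inv
  have hinvA : (σ x - x ^ (Nat.card k) ^ N)⁻¹ ∈ AA k M := hinv.tower_top
  apply hI.ne_top
  rw [Ideal.eq_top_iff_one]
  have h2 := I.mul_mem_left ⟨_, hinvA⟩ h1
  have h3 : (⟨(σ x - x ^ (Nat.card k) ^ N)⁻¹, hinvA⟩ : AA k M) *
      ((⟨σ x, hxA'⟩ : AA k M) - ⟨x, hxA⟩ ^ (Nat.card k) ^ N) = 1 := by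
    refine Subtype.ext ?_
    exact inv_mul_cancel₀ hne'
  rwa [h3] at h2

end

end Pool.Agent.SmB
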