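import Pool.Agent.Lib.SmB.P4Defs

/-!
Block B of SMITH, part 4, module P4Pt (points of Frobenius type give Frobenius elements).
About 150 lines.

`M` a field over `k[X]`, `k` finite, `q = Nat.card k`; `F/k` a field extension, `L` a field over
`F[X]`, `j : M → L` a ring homomorphism compatible with `k[X] → F[X]`.

PROOFS.
* `map_mem`: if `x ∈ M` is a root of the monic polynomial `f ∈ k[X][Y]`, then `j x` is a root of
  the monic polynomial `f.map (mapRingHom (algebraMap k F)) ∈ F[X][Y]` (by `hj`, `j ∘ algebraMap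
  k[X] M = algebraMap F[X] L ∘ mapRingHom`; `Polynomial.hom_eval₂`, `Polynomial.eval₂_map`).
* `frob_of_pt`: let `jA : AA k M →+* AA F L` be the restriction of `j` (codomain-restricted with
  `map_mem`), `ψ = φ ∘ jA : AA k M →+* F` and `I = ker ψ`, a prime ideal (`RingHom.ker_isPrime`,
  `F` is a field).
  For `h ∈ k[X]`, `ψ (algebraMap h) = φ (algebraMap F[X] (AA F L) (h.map (algebraMap k F)))`
  (by `hj`; check equality in `L`), and `φ ∘ algebraMap F[X] (AA F L)` is an `F`-algebra
  homomorphism `F[X] → F` with `X ↦ φ (tA F L) = c` (`Polynomial.algHom_ext`), so the value is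
  `(h.map (algebraMap k F)).eval c = aeval c h`. So `I ∩ k[X]` is the kernel of `aeval c`, which
  contains the maximal ideal `(P)` (`P` irreducible in the PID `k[X]`) and is not everything, so it
  is `(P)`.
  For `x, y ∈ AA k M` with `y = σ x`: `(jA y : L) = j (σ x) = Θ (j x) = Θ (jA x : L)`, so by the
  definition of `PtL`, `φ (jA y) = φ (jA x) ^ q^N`, that is `ψ (y - x ^ q^N) = 0`, and
  `N = P.natDegree`.
* `pt_tA`: `Θ t = t` in `L`, so by the definition of `PtL` with `x = y = tA F L`,
  `φ t = φ t ^ Q`.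
* `pt_finite`: `φ (tA F L) = c`. The set of the `F`-algebra homomorphisms
  `φ : AA F L → F` with `φ (tA F L) = c` is finite. `AA F L` is a finite module over `F[X]`
  (`L` is finite separable over `RatFunc F`, the fraction field of the integrally closed
  Noetherian `F[X]`: `IsIntegralClosure.finite`). Let `x_1, .., x_m` generate it. Every
  `x_i` is a root of a monic polynomial `f_i ∈ F[X][Y]`, so `φ (x_i)` is a root of the monic (so
  non-zero) polynomial `f_i (c, Y) ∈ F[Y]` (the image of `f_i` under `X ↦ c`), so the vector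
  `(φ x_i)_i` lies in a finite set (a finite product of finite sets, `Set.Finite.pi`), and it
  determines `φ`: `φ (∑ g_i x_i) = ∑ g_i(c) φ(x_i)`. (`Set.Finite.of_injOn`, or
  `Set.Finite.of_finite_image`.)
-/

namespace Pool.Agent.SmB

open Module Polynomial

section

variable {k : Type*} [Field k] [Finite k] {M : Type*} [Field M] [Algebra k[X] M]
variable {F : Type*} [Field F] [Algebra k F] {L : Type*} [Field L]
  [Algebra F[X] L] [Algebra F L] [IsScalarTower F F[X] L]

omit [Finite k] [Algebra F L] [IsScalarTower F F[X] L] in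
theorem map_mem {j : M →+* L}
    (hj : ∀ h : k[X], j (algebraMap k[X] M h) = algebraMap F[X] L (h.map (algebraMap k F)))
    {x : M} (hx : x ∈ AA k M) : j x ∈ AA F L := by
  obtain ⟨f, hf, hfx⟩ := hx
  refine ⟨f.map (mapRingHom (algebraMap k F)), hf.map _, ?_⟩
  have h : (algebraMap F[X] L).comp (mapRingHom (algebraMap k F)) =
      j.comp (algebraMap k[X] M) := RingHom.ext fun h => (hj h).symm
  rw [eval₂_map, h, ← Polynomial.hom_eval₂, hfx, map_zero]

omit [Algebra k F] in
private theorem P4Pt_eval (φ : AA F L →ₐ[F] F) (g : F[X]) :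
    φ (algebraMap F[X] (AA F L) g) = g.eval (φ (tA F L)) := by
  have h : φ.comp (IsScalarTower.toAlgHom F F[X] (AA F L)) = aeval (φ (tA F L)) := by
    refine Polynomial.algHom_ext ?_
    rw [aeval_X]
    rfl
  have h2 := DFunLike.congr_fun h g
  rw [Polynomial.coe_aeval_eq_eval] at h2
  exact h2

theorem frob_of_pt {j : M →+* L}
    (hj : ∀ h : k[X], j (algebraMap k[X] M h) = algebraMap F[X] L (h.map (algebraMap k F)))
    {N : ℕ} {σ : M → M} {Θ : L → L} (hΘ : ∀ x, Θ (j x) = j (σ x)) {P : k[X]}
    (hP : Irreducible P) (hN : P.natDegree = N) {c : F} (hc : aeval c P = 0)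
    {φ : AA F L →ₐ[F] F} (hφ : φ ∈ PtL F Θ ((Nat.card k) ^ N)) (hφc : φ (tA F L) = c) :
    FrobM P σ := by
  let jA : AA k M →+* AA F L :=
    (j.comp ((AA k M).val : AA k M →+* M)).codRestrict (AA F L) fun x => map_mem hj x.2
  let ψ : AA k M →+* F := (φ : AA F L →+* F).comp jA
  have hψ : ∀ h : k[X], ψ (algebraMap k[X] (AA k M) h) = aeval c h := by
    intro h
    have h1 : jA (algebraMap k[X] (AA k M) h) =
        algebraMap F[X] (AA F L) (h.map (algebraMap k F)) := Subtype.ext (hj h)
    change φ (jA (algebraMap k[X] (AA k M) h)) = _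
    rw [h1, P4Pt_eval, hφc, Polynomial.eval_map, Polynomial.aeval_def]
  refine ⟨RingHom.ker ψ, RingHom.ker_isPrime ψ, ?_, ?_⟩
  · ext h
    rw [Ideal.mem_comap, RingHom.mem_ker, hψ, Ideal.mem_span_singleton]
    constructor
    · intro h0
      by_contra hd
      obtain ⟨a, b, hab⟩ := (hP.coprime_iff_not_dvd).2 hd
      have h1 := congrArg (aeval c) hab
      rw [map_add, map_mul, map_mul, hc, h0, mul_zero, mul_zero, add_zero, map_one] at h1
      exact zero_ne_one h1
    · rintro ⟨g, rfl⟩
      rw [map_mul, hc, zero_mul]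
  · intro x y hxy
    rw [RingHom.mem_ker, map_sub, map_pow, sub_eq_zero, hN]
    refine hφ (jA x) (jA y) ?_
    change j y = Θ (j x)
    rw [hΘ, hxy]

omit [Algebra k F] in
theorem pt_tA {Q : ℕ} {Θ : L ≃+* L} (hΘ : FrobLift F Q Θ) {φ : AA F L →ₐ[F] F}
    (hφ : φ ∈ PtL F Θ Q) : φ (tA F L) ^ Q = φ (tA F L) :=
  (hφ (tA F L) (tA F L) hΘ.map_X.symm).symm

theorem pt_finite [Algebra (RatFunc F) L] [IsScalarTower F[X] (RatFunc F) L]
    [FiniteDimensional (RatFunc F) L] [Algebra.IsSeparable (RatFunc F) L] (c : F) :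
    {φ : AA F L →ₐ[F] F | φ (tA F L) = c}.Finite := by
  have hfin : Module.Finite F[X] (AA F L) := IsIntegralClosure.finite F[X] (RatFunc F) L (AA F L)
  obtain ⟨S, hS⟩ := hfin.fg_top
  have hint : ∀ s : S, ∃ f : F[X][X], f.Monic ∧
      eval₂ (algebraMap F[X] (AA F L)) (s : AA F L) f = 0 :=
    fun s => Algebra.IsIntegral.isIntegral (R := F[X]) (s : AA F L)
  choose f hf hfs using hint
  have hT : (Set.pi Set.univ fun s : S => {y : F | y ∈ ((f s).map (evalRingHom c)).roots}).Finite :=
    Set.Finite.pi fun s => Multiset.finite_toSet _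
  refine Set.Finite.of_injOn (f := fun (φ : AA F L →ₐ[F] F) (s : S) => φ s) ?_ ?_ hT
  · intro φ hφ s _
    have hφ' : φ (tA F L) = c := hφ
    rw [Set.mem_ofPred_eq, mem_roots ((hf s).map _).ne_zero, IsRoot.def, eval_map]
    have h1 : (φ : AA F L →+* F).comp (algebraMap F[X] (AA F L)) = evalRingHom c := by
      refine RingHom.ext fun g => ?_
      have h2 := P4Pt_eval φ g
      rw [hφ'] at h2
      exact h2
    rw [← h1]
    have h3 := Polynomial.hom_eval₂ (f s) (algebraMap F[X] (AA F L)) (φ : AA F L →+* F)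
      (s : AA F L)
    rw [hfs, map_zero] at h3
    exact h3.symm
  · intro φ hφ φ' hφ' hh
    have hφ1 : φ (tA F L) = c := hφ
    have hφ2 : φ' (tA F L) = c := hφ'
    refine AlgHom.ext fun x => ?_
    have hx : x ∈ Submodule.span F[X] (S : Set (AA F L)) := by rw [hS]; trivial
    induction hx using Submodule.span_induction with
    | mem x hx => exact congrFun hh ⟨x, hx⟩
    | zero => rw [map_zero, map_zero]
    | add x y _ _ hx hy => rw [map_add, map_add, hx, hy]
    | smul g x _ hx =>
      rw [Algebra.smul_def, map_mul, map_mul, P4Pt_eval, P4Pt_eval, hφ1, hφ2, hx]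

end

end Pool.Agent.SmB
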