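import Pool.Agent.Lib.SmB.P4Roots
import Pool.Agent.Lib.SmB.P4Frob
import Pool.Agent.Lib.SmB.P4Pt

/-!
Block B of SMITH, part 4, module P4Core (the main identity). About 250 lines.

`k` finite, `q = Nat.card k`, `M/k(t)` finite Galois; a geometric model: `F` an algebraic closure
of `k`, `L/F(t)` finite Galois, `j : M → L` compatible with `k[X] → F[X]`, `res` the restriction
map, `σ` an automorphism of `M/k(t)` and `Θ` a ring automorphism of `L` extending `σ` and the
`Q`-th power on `F`, `Q = q^N`.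

PROOF of `core`. Write `G' = L ≃ₐ[RatFunc F] L`, `n = finrank (RatFunc F) L = #G' > 0`
(`IsGalois.card_aut_eq_finrank`), `R = FixF k F N hN` (the `c ∈ F` with `c^Q = c`), and for
`g ∈ G'`, `c ∈ F`: `m_c(g)` = the number of `φ ∈ PtL F (g Θ) Q` with `φ t = c`.
(0) `lift_mul`: `Θ' = Θ.trans g` (`x ↦ g (Θ x)`) is a `FrobLift` again, as `g` is the identity on
the image of `RatFunc F`, in particular on the image of `F[X]`.
(1) For `φ ∈ PtL F (g Θ) Q` we have `φ t ∈ R` (`pt_tA`), and the fibres of `φ ↦ φ t` are finite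
(`pt_finite`), so `PtL F (g Θ) Q` is finite and its cardinality is `∑_{c ∈ R} m_c(g)`
(`Finset.card_eq_sum_card_fiberwise`, or induction).
(2) So `∑_g f(res g * σ) #PtL(gΘ) = ∑_{c ∈ R} S(c)`, `S(c) = ∑_g f(res g * σ) m_c(g)`.
(3) Let `c ∈ R`, `P = minpoly k c` (monic irreducible, `P(c) = 0`; `c` is algebraic over `k`) and
suppose `P.natDegree = N` and `UnramM M P`; so `P ∈ GoodF k M N`. If `m_c(g) ≠ 0`, there is
`φ ∈ PtL F (gΘ) Q` with `φ t = c`; as `g (Θ (j x)) = g (j (σ x)) = j (res g (σ x))`,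
`frob_of_pt` gives `FrobM P (res g * σ)`, so by `frob_conj` with `hfr` `f (res g * σ) = f (fr P)`.
So `S(c) = f(fr P) ∑_g m_c(g) = n f(fr P)` by `hsum`.
(4) For every `c ∈ R`, `|S(c)| ≤ ∑_g m_c(g) = n` by `hf1` and `hsum`.
(5) By `sum_minpoly` with `h P = if UnramM M P then f (fr P) else 0`:
`∑_{c ∈ R, deg = N, P unramified} f(fr P) = N ∑_{P ∈ GoodF k M N} f(fr P)`. The number of the
other `c ∈ R` is at most `2 q^(N/2)` (those with `deg ≠ N`, `card_small`) plus
`N #{P ∈ IrrF k N | ¬ UnramM M P}` (`sum_minpoly` with `h P = if UnramM M P then 0 else 1`). So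
`|∑_{c ∈ R} S(c) - n N ∑_{P ∈ GoodF} f(fr P)| ≤ n (2 q^(N/2) + N #{..})`.
(6) By `hf0`, `∑_g f(res g * σ) #PtL(gΘ) = ∑_g f(res g * σ) (#PtL(gΘ) - q^N)`, of absolute value
at most `n B` by `hB` and `hf1`.
(7) Divide by `n > 0`.
-/

namespace Pool.Agent.SmB

open Module Polynomial

section

variable {k : Type*} [Field k] [Finite k] {M : Type*} [Field M] [Algebra k[X] M]
  [Algebra (RatFunc k) M] [IsScalarTower k[X] (RatFunc k) M] [FiniteDimensional (RatFunc k) M]
  [IsGalois (RatFunc k) M] [Algebra k M] [IsScalarTower k k[X] M]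
variable {F : Type*} [Field F] [Algebra k F] [IsAlgClosed F] [Algebra.IsAlgebraic k F]
  {L : Type*} [Field L] [Algebra (RatFunc F) L] [Algebra F[X] L] [Algebra F L]
  [IsScalarTower F F[X] L] [IsScalarTower F[X] (RatFunc F) L] [FiniteDimensional (RatFunc F) L]
  [IsGalois (RatFunc F) L]

omit [IsAlgClosed F] [Algebra F L] [IsScalarTower F F[X] L] [FiniteDimensional (RatFunc F) L]
  [IsGalois (RatFunc F) L] in
theorem lift_mul {Q : ℕ} {Θ : L ≃+* L} (hΘ : FrobLift F Q Θ) (g : L ≃ₐ[RatFunc F] L) :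
    FrobLift F Q (Θ.trans g.toRingEquiv) := by
  constructor
  · have h1 := hΘ.map_X
    change g (Θ (algebraMap F[X] L X)) = _
    rw [h1, IsScalarTower.algebraMap_apply F[X] (RatFunc F) L]
    exact g.commutes _
  · intro c
    have h1 := hΘ.map_C c
    change g (Θ (algebraMap F[X] L (C c))) = _
    rw [h1, IsScalarTower.algebraMap_apply F[X] (RatFunc F) L]
    exact g.commutes _

open Classical in
theorem core {N : ℕ} (hN : N ≠ 0) {j : M →+* L}
    (hj : ∀ h : k[X], j (algebraMap k[X] M h) = algebraMap F[X] L (h.map (algebraMap k F)))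
    {Θ : L ≃+* L} (hΘ : FrobLift F ((Nat.card k) ^ N) Θ) {σ : M ≃ₐ[RatFunc k] M}
    (hΘσ : ∀ x, Θ (j x) = j (σ x)) {res : (L ≃ₐ[RatFunc F] L) → (M ≃ₐ[RatFunc k] M)}
    (hres : ∀ g x, g (j x) = j (res g x))
    (hsum : ∀ c : F, c ^ (Nat.card k) ^ N = c → ∑ g : L ≃ₐ[RatFunc F] L,
      {φ : AA F L →ₐ[F] F | φ ∈ PtL F (fun x => g (Θ x)) ((Nat.card k) ^ N) ∧
        φ (tA F L) = c}.ncard = finrank (RatFunc F) L)
    {f : (M ≃ₐ[RatFunc k] M) → ℝ} (hf : ∀ g τ, f (g * τ * g⁻¹) = f τ) (hf1 : ∀ τ, |f τ| ≤ 1)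
    (hf0 : ∑ g : L ≃ₐ[RatFunc F] L, f (res g * σ) = 0) {B : ℝ}
    (hB : ∀ g : L ≃ₐ[RatFunc F] L,
      |((PtL F (fun x => g (Θ x)) ((Nat.card k) ^ N)).ncard : ℝ) - (Nat.card k : ℝ) ^ N| ≤ B)
    {fr : k[X] → (M ≃ₐ[RatFunc k] M)} (hfr : ∀ P ∈ GoodF k M N, FrobM P (fr P)) :
    N * |∑ P ∈ GoodF k M N, f (fr P)| ≤
      B + N * ((IrrF k N).filter fun P => ¬ UnramM M P).card + 2 * (Nat.card k : ℝ) ^ (N / 2) := by
  set q := Nat.card k with hq
  set n : ℕ := finrank (RatFunc F) L with hn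
  have hnpos : 0 < n := finrank_pos
  have hnR : (0 : ℝ) < n := by exact_mod_cast hnpos
  have hcard : (Fintype.card (L ≃ₐ[RatFunc F] L) : ℝ) = n := by
    have h1 : Nat.card (L ≃ₐ[RatFunc F] L) = n := IsGalois.card_aut_eq_finrank (RatFunc F) L
    rw [Nat.card_eq_fintype_card] at h1
    exact_mod_cast h1
  set R := FixF k F N hN with hR
  have hsepL : Algebra.IsSeparable (RatFunc F) L := IsGalois.to_isSeparable
  -- the values of `t`
  have hval : ∀ (g : L ≃ₐ[RatFunc F] L) (φ : AA F L →ₐ[F] F),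
      φ ∈ PtL F (fun x => g (Θ x)) (q ^ N) → φ (tA F L) ∈ R := by
    intro g φ hφ
    rw [hR, mem_fixF]
    exact pt_tA (lift_mul hΘ g) hφ
  have hfin : ∀ g : L ≃ₐ[RatFunc F] L, (PtL F (fun x => g (Θ x)) (q ^ N)).Finite := by
    intro g
    refine Set.Finite.subset (Set.Finite.biUnion R.finite_toSet
      (fun c _ => pt_finite (F := F) (L := L) c)) ?_
    intro φ hφ
    simp only [Set.mem_iUnion]
    exact ⟨φ (tA F L), hval g φ hφ, rfl⟩
  set m : (L ≃ₐ[RatFunc F] L) → F → ℕ := fun g c =>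
    {φ : AA F L →ₐ[F] F | φ ∈ PtL F (fun x => g (Θ x)) (q ^ N) ∧ φ (tA F L) = c}.ncard with hm
  have h1 : ∀ g : L ≃ₐ[RatFunc F] L,
      ((PtL F (fun x => g (Θ x)) (q ^ N)).ncard : ℝ) = ∑ c ∈ R, (m g c : ℝ) := by
    intro g
    have h2 : (hfin g).toFinset.card = ∑ c ∈ R,
        ((hfin g).toFinset.filter fun φ => φ (tA F L) = c).card := by
      apply Finset.card_eq_sum_card_fiberwise
      intro φ hφ
      exact hval g φ ((hfin g).mem_toFinset.1 hφ)
    rw [Set.ncard_eq_toFinset_card _ (hfin g), h2]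
    push_cast
    refine Finset.sum_congr rfl fun c _ => ?_
    congr 1
    rw [hm]
    simp only
    rw [← Set.ncard_coe_finset]
    congr 1
    ext φ
    simp
  have hsumR : ∀ c ∈ R, ∑ g : L ≃ₐ[RatFunc F] L, (m g c : ℝ) = n := by
    intro c hc
    have h2 := hsum c (mem_fixF.1 hc)
    have h3 : ∑ g : L ≃ₐ[RatFunc F] L, m g c = n := h2
    exact_mod_cast h3
  set S : F → ℝ := fun c => ∑ g : L ≃ₐ[RatFunc F] L, f (res g * σ) * m g c with hS
  have h2 : ∑ g : L ≃ₐ[RatFunc F] L,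
      f (res g * σ) * ((PtL F (fun x => g (Θ x)) (q ^ N)).ncard : ℝ) = ∑ c ∈ R, S c := by
    rw [hS, Finset.sum_comm]
    refine Finset.sum_congr rfl fun g _ => ?_
    rw [h1 g, Finset.mul_sum]
  -- the good values
  have h3 : ∀ c ∈ R, (minpoly k c).natDegree = N → UnramM M (minpoly k c) →
      S c = n * f (fr (minpoly k c)) := by
    intro c hc hdeg hU
    have hint : IsIntegral k c := (Algebra.IsAlgebraic.isAlgebraic c).isIntegral
    have hirr : Irreducible (minpoly k c) := minpoly.irreducible hint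
    have hgood : minpoly k c ∈ GoodF k M N :=
      mem_goodF.2 ⟨mem_irrF.2 ⟨minpoly.monic hint, hirr, hdeg⟩, hU⟩
    have hterm : ∀ g : L ≃ₐ[RatFunc F] L,
        f (res g * σ) * (m g c : ℝ) = f (fr (minpoly k c)) * m g c := by
      intro g
      by_cases h0 : m g c = 0
      · rw [h0]; simp
      · have hne : {φ : AA F L →ₐ[F] F | φ ∈ PtL F (fun x => g (Θ x)) (q ^ N) ∧
            φ (tA F L) = c}.Nonempty := by
          by_contra hemp
          rw [Set.not_nonempty_iff_eq_empty] at hemp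
          apply h0
          rw [hm]
          simp only
          rw [hemp, Set.ncard_empty]
        obtain ⟨φ, hφ, hφc⟩ := hne
        have hfrob : FrobM (minpoly k c) (res g * σ : M ≃ₐ[RatFunc k] M) := by
          refine frob_of_pt (k := k) (M := M) (F := F) (L := L) (j := j) hj (N := N)
            (Θ := fun x => g (Θ x)) ?_ hirr hdeg (minpoly.aeval k c) hφ hφc
          intro x
          change g (Θ (j x)) = j (res g (σ x))
          rw [hΘσ, hres]
        obtain ⟨g0, hg0⟩ := frob_conj hirr hU (hfr _ hgood) hfrob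
        rw [hg0, hf]
    rw [hS]
    simp only
    rw [Finset.sum_congr rfl fun g _ => hterm g, ← Finset.mul_sum, hsumR c hc, mul_comm]
  have h4 : ∀ c ∈ R, |S c| ≤ n := by
    intro c hc
    rw [hS]
    simp only
    refine (Finset.abs_sum_le_sum_abs _ _).trans ?_
    rw [← hsumR c hc]
    refine Finset.sum_le_sum fun g _ => ?_
    rw [abs_mul, Nat.abs_cast]
    have h5 : (0 : ℝ) ≤ (m g c : ℝ) := Nat.cast_nonneg _
    nlinarith [hf1 (res g * σ)]
  -- the comparison function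
  set T : ℝ := ∑ P ∈ GoodF k M N, f (fr P) with hT
  set a1 : k[X] → ℝ := fun P => if UnramM M P then f (fr P) else 0 with ha1
  set a2 : k[X] → ℝ := fun P => if UnramM M P then 0 else 1 with ha2
  have hT1 : T = ∑ P ∈ IrrF k N, a1 P := by
    rw [hT, ha1, ← Finset.sum_filter]
    refine Finset.sum_congr ?_ fun _ _ => rfl
    ext P
    rw [mem_goodF, Finset.mem_filter]
  have hT2 : ((((IrrF k N).filter fun P => ¬ UnramM M P).card : ℕ) : ℝ)
      = ∑ P ∈ IrrF k N, a2 P := by
    rw [ha2, Finset.card_filter]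
    push_cast
    refine Finset.sum_congr rfl fun P _ => ?_
    by_cases hU : UnramM M P <;> simp [hU]
  have hS1 := sum_minpoly (F := F) hN a1
  have hS2 := sum_minpoly (F := F) hN a2
  rw [← hR, ← hT1] at hS1
  rw [← hR, ← hT2] at hS2
  set S' : F → ℝ := fun c =>
    if (minpoly k c).natDegree = N then (n : ℝ) * a1 (minpoly k c) else 0 with hS'
  set e : F → ℝ := fun c => (if (minpoly k c).natDegree ≠ N then 1 else 0)
    + (if (minpoly k c).natDegree = N then a2 (minpoly k c) else 0) with he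
  have hS'sum : ∑ c ∈ R, S' c = n * (N * T) := by
    rw [hS', ← Finset.sum_filter, ← Finset.mul_sum, hS1]
  have hesum : ∑ c ∈ R, e c ≤ 2 * (q : ℝ) ^ (N / 2)
      + N * (((IrrF k N).filter fun P => ¬ UnramM M P).card : ℝ) := by
    rw [he, Finset.sum_add_distrib]
    refine add_le_add ?_ ?_
    · have h5 := card_small (k := k) (F := F) hN
      rw [← hR] at h5
      have h6 : ∑ c ∈ R, (if (minpoly k c).natDegree ≠ N then (1 : ℝ) else 0)
          = ((R.filter fun c => (minpoly k c).natDegree ≠ N).card : ℝ) := by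
        rw [Finset.card_filter]
        push_cast
        rfl
      rw [h6]
      exact_mod_cast h5
    · rw [← Finset.sum_filter, hS2]
  have hdiff : ∀ c ∈ R, |S c - S' c| ≤ n * e c := by
    intro c hc
    by_cases hdeg : (minpoly k c).natDegree = N
    · by_cases hU : UnramM M (minpoly k c)
      · rw [h3 c hc hdeg hU]
        simp [hS', he, hdeg, ha1, ha2, hU]
      · have h5 := h4 c hc
        simp [hS', he, hdeg, ha1, ha2, hU]
        exact h5
    · have h5 := h4 c hc
      simp [hS', he, hdeg]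
      exact h5
  have hdsum : |∑ c ∈ R, S c - n * (N * T)| ≤ n * (2 * (q : ℝ) ^ (N / 2)
      + N * (((IrrF k N).filter fun P => ¬ UnramM M P).card : ℝ)) := by
    rw [← hS'sum, ← Finset.sum_sub_distrib]
    refine (Finset.abs_sum_le_sum_abs _ _).trans ((Finset.sum_le_sum hdiff).trans ?_)
    rw [← Finset.mul_sum]
    exact mul_le_mul_of_nonneg_left hesum hnR.le
  have h6 : |∑ c ∈ R, S c| ≤ n * B := by
    have h7 : ∑ c ∈ R, S c = ∑ g : L ≃ₐ[RatFunc F] L, f (res g * σ) *
        (((PtL F (fun x => g (Θ x)) (q ^ N)).ncard : ℝ) - (q : ℝ) ^ N) := by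
      simp only [mul_sub]
      rw [Finset.sum_sub_distrib, h2, ← Finset.sum_mul, hf0, zero_mul, sub_zero]
    rw [h7]
    refine (Finset.abs_sum_le_sum_abs _ _).trans ?_
    have h8 : ∀ g ∈ (Finset.univ : Finset (L ≃ₐ[RatFunc F] L)), |f (res g * σ) *
        (((PtL F (fun x => g (Θ x)) (q ^ N)).ncard : ℝ) - (q : ℝ) ^ N)| ≤ B := by
      intro g _
      rw [abs_mul]
      have h9 := hB g
      have h10 := hf1 (res g * σ)
      have h11 := abs_nonneg (((PtL F (fun x => g (Θ x)) (q ^ N)).ncard : ℝ) - (q : ℝ) ^ N)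
      nlinarith [abs_nonneg (f (res g * σ))]
    refine (Finset.sum_le_sum h8).trans ?_
    rw [Finset.sum_const, nsmul_eq_mul, Finset.card_univ, hcard]
  have h7 : (n : ℝ) * (N * |T|) ≤ n * (B + N * (((IrrF k N).filter fun P => ¬ UnramM M P).card : ℝ)
      + 2 * (q : ℝ) ^ (N / 2)) := by
    have h8 : (n : ℝ) * (N * |T|) = |n * (N * T)| := by
      rw [abs_mul, abs_mul, Nat.abs_cast, Nat.abs_cast]
    have h9 : |n * (N * T)| ≤ |∑ c ∈ R, S c| + |∑ c ∈ R, S c - n * (N * T)| := by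
      have h10 := abs_sub_abs_le_abs_sub (n * (N * T)) (∑ c ∈ R, S c)
      rw [abs_sub_comm] at h10
      linarith
    rw [h8]
    refine h9.trans ((add_le_add h6 hdsum).trans (le_of_eq ?_))
    ring
  exact le_of_mul_le_mul_left h7 hnR

end

end Pool.Agent.SmB
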