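import Pool.Agent.Lib.SmB.P5Plc
import Pool.Agent.Lib.SmB.P4Frob
import Pool.Agent.Lib.SmD.LiftInt

/-!
Block B of SMITH, part 5: Frobenius and inertia at a finite level `L`, for the chosen place of
`Om` above the place of `k(t)` given by an irreducible polynomial `P`.
-/

set_option autoImplicit false

namespace Pool.Agent.SmB

open Pool.Agent.Lib.SmD Pool.Agent.BSDFF Polynomial

section trans

variable {k : Type*} [Field k] {M : Type*} [Field M] [Algebra k[X] M]
  [Algebra (RatFunc k) M] [IsScalarTower k[X] (RatFunc k) M] [FiniteDimensional (RatFunc k) M]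
  [IsGalois (RatFunc k) M]

private noncomputable def P5Fin_act (g : M ≃ₐ[RatFunc k] M) : AA k M →+* AA k M where
  toFun x := ⟨g x, smul_mem_AA g x.2⟩
  map_one' := Subtype.ext (map_one g)
  map_zero' := Subtype.ext (map_zero g)
  map_mul' a b := Subtype.ext (map_mul g (a : M) (b : M))
  map_add' a b := Subtype.ext (map_add g (a : M) (b : M))

private theorem P5Fin_act_alg (g : M ≃ₐ[RatFunc k] M) :
    (P5Fin_act g).comp (algebraMap k[X] (AA k M)) = algebraMap k[X] (AA k M) := by
  refine RingHom.ext fun p => Subtype.ext ?_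
  change g (algebraMap k[X] M p) = algebraMap k[X] M p
  rw [IsScalarTower.algebraMap_apply k[X] (RatFunc k) M, g.commutes]

/-- Transitivity of the Galois group on the primes above a prime. -/
theorem trans_primes {I I' : Ideal (AA k M)} [I.IsPrime] [I'.IsPrime]
    (h : I.comap (algebraMap k[X] (AA k M)) = I'.comap (algebraMap k[X] (AA k M))) :
    ∃ g : M ≃ₐ[RatFunc k] M, ∀ x y : AA k M, (y : M) = g x → (y ∈ I ↔ x ∈ I') := by
  have hfr : IsFractionRing (AA k M) M :=
    integralClosure.isFractionRing_of_finite_extension (RatFunc k) M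
  let := IsIntegralClosure.MulSemiringAction k[X] (RatFunc k) M (AA k M)
  have hsm : ∀ (g : M ≃ₐ[RatFunc k] M) (x : AA k M), g • x = P5Fin_act g x := by
    intro g x
    refine Subtype.ext ?_
    exact algebraMap_galRestrict_apply k[X] g x
  have hinv : Algebra.IsInvariant k[X] (AA k M) (M ≃ₐ[RatFunc k] M) :=
    Algebra.isInvariant_of_isGalois k[X] (RatFunc k) M (AA k M)
  have hcomm : SMulCommClass (M ≃ₐ[RatFunc k] M) k[X] (AA k M) := by
    refine ⟨fun g p x => ?_⟩
    rw [hsm, hsm, Algebra.smul_def, Algebra.smul_def, map_mul]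
    congr 1
    exact congrArg (fun f : k[X] →+* AA k M => f p) (P5Fin_act_alg g)
  obtain ⟨g, hg⟩ := Algebra.IsInvariant.exists_smul_of_under_eq k[X] (AA k M)
    (M ≃ₐ[RatFunc k] M) I I' h
  refine ⟨g⁻¹, fun x y hxy => ?_⟩
  rw [hg, Ideal.mem_pointwise_smul_iff_inv_smul_mem, hsm]
  have h1 : P5Fin_act g⁻¹ x = y := Subtype.ext hxy.symm
  rw [h1]

end trans

section level

variable {k : Type} [Field k] {Om : Type} [Field Om] [Algebra (RatFunc k) Om]
  (L : IntermediateField (RatFunc k) Om) [Algebra k[X] L] [IsScalarTower k[X] (RatFunc k) L]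

theorem memW {P : k[X]} (h : Irreducible P) (x : AA k L) :
    (((x : AA k L) : L) : Om) ∈ ab Om (placeOf P h) :=
  mem_of_isIntegral_sub (RatFunc k) L (ab Om (placeOf P h)) _ (integral_below h x.2)

/-- The prime of `AA k L` given by the chosen place. -/
noncomputable def primeW {P : k[X]} (h : Irreducible P) : Ideal (AA k L) where
  carrier := {x | (ab Om (placeOf P h)).valuation (((x : AA k L) : L) : Om) < 1}
  zero_mem' := by simp
  add_mem' {a b} ha hb := by
    have h1 : ((((a + b : AA k L)) : L) : Om) = ((a : L) : Om) + ((b : L) : Om) := rfl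
    rw [Set.mem_ofPred_eq, h1]
    exact lt_of_le_of_lt (Valuation.map_add _ _ _) (max_lt ha hb)
  smul_mem' c {b} hb := by
    have h1 : ((((c • b : AA k L)) : L) : Om) = ((c : L) : Om) * ((b : L) : Om) := rfl
    rw [Set.mem_ofPred_eq, h1, map_mul]
    refine lt_of_le_of_lt (mul_le_mul_left
      ((ValuationSubring.valuation_le_one_iff _ _).2 (memW L h c)) _) ?_
    rw [one_mul]
    exact hb

theorem mem_primeW {P : k[X]} (h : Irreducible P) (x : AA k L) :
    x ∈ primeW L h ↔ (ab Om (placeOf P h)).valuation (((x : AA k L) : L) : Om) < 1 := Iff.rfl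

theorem primeW_isPrime {P : k[X]} (h : Irreducible P) : (primeW L h).IsPrime := by
  refine Ideal.isPrime_iff.2 ⟨?_, ?_⟩
  · intro h1
    have h2 : (1 : AA k L) ∈ primeW L h := by rw [h1]; trivial
    rw [mem_primeW] at h2
    have h3 : (((1 : AA k L) : L) : Om) = 1 := rfl
    rw [h3, map_one] at h2
    exact lt_irrefl _ h2
  · intro x y hxy
    rw [mem_primeW] at hxy
    have h1 : ((((x * y : AA k L)) : L) : Om) = ((x : L) : Om) * ((y : L) : Om) := rfl
    rw [h1, map_mul] at hxy
    by_contra hcon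
    push Not at hcon
    rw [mem_primeW, mem_primeW, not_lt, not_lt] at hcon
    exact absurd hxy (not_lt.2 (one_le_mul hcon.1 hcon.2))

theorem primeW_comap {P : k[X]} (h : Irreducible P) :
    (primeW L h).comap (algebraMap k[X] (AA k L)) = Ideal.span {P} := by
  ext f
  rw [Ideal.mem_comap, mem_primeW, Ideal.mem_span_singleton, ← pO_val_lt (Om := Om) h]
  have h1 : (((algebraMap k[X] (AA k L) f : AA k L) : L) : Om) = pO k Om f := by
    change ((algebraMap k[X] L f : L) : Om) = _
    rw [IsScalarTower.algebraMap_apply k[X] (RatFunc k) L]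
    rfl
  rw [h1]

/-- Frobenius elements of `Gal(Om/K)` give Frobenius elements at the finite level. -/
theorem frobM_of_isFrob [Finite k] {P : k[X]} (h : Irreducible P) {φ : Om ≃ₐ[RatFunc k] Om}
    (hφ : IsFrob (RatFunc k) (ab Om (placeOf P h)) φ) {τ : L ≃ₐ[RatFunc k] L}
    (hτ : ∀ x : L, (τ x : Om) = φ x) : FrobM P τ := by
  refine ⟨primeW L h, primeW_isPrime L h, primeW_comap L h, fun x y hxy => ?_⟩
  rw [mem_primeW]
  have h1 := hφ.frob _ (memW L h x)
  rw [resCard_placeOf] at h1
  have h2 : (((y - x ^ (Nat.card k) ^ P.natDegree : AA k L) : L) : Om) =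
      φ ((x : L) : Om) - ((x : L) : Om) ^ (Nat.card k) ^ P.natDegree := by
    rw [← hτ, ← hxy]
    rfl
  rw [h2]
  exact h1

/-- Elements of the inertia group are trivial at an unramified level. -/
theorem fixed_of_unramM {P : k[X]} (h : Irreducible P) (hU : UnramM L P)
    {σ : Om ≃ₐ[RatFunc k] Om} (hσ : σ ∈ iner (RatFunc k) (ab Om (placeOf P h)))
    {τ : L ≃ₐ[RatFunc k] L} (hτ : ∀ x : L, (τ x : Om) = σ x) : τ = 1 := by
  refine hU (primeW L h) (primeW_isPrime L h) (primeW_comap L h) τ fun x y hxy => ?_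
  rw [mem_primeW]
  have h1 := hσ.2 _ (memW L h x)
  have h2 : (((y - x : AA k L) : L) : Om) = σ ((x : L) : Om) - ((x : L) : Om) := by
    rw [← hτ, ← hxy]
    rfl
  rw [h2]
  exact h1

/-- If the inertia group acts trivially on `L` then `L` is unramified at `P`. -/
theorem unramM_of_iner [IsGalois (RatFunc k) Om] [FiniteDimensional (RatFunc k) L]
    [IsGalois (RatFunc k) L] {P : k[X]} (h : Irreducible P)
    (hin : ∀ σ ∈ iner (RatFunc k) (ab Om (placeOf P h)), ∀ x : L, σ (x : Om) = x) :
    UnramM L P := by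
  intro I hI hIP σ hσ
  have hW := primeW_isPrime L h
  obtain ⟨g, hg⟩ := trans_primes (I := I) (I' := primeW L h)
    (hIP.trans (primeW_comap L h).symm)
  -- the conjugate automorphism
  set τ : L ≃ₐ[RatFunc k] L := g⁻¹ * σ * g with hτ
  have h1 : ∀ x y : AA k L, (y : L) = τ x → y - x ∈ primeW L h := by
    intro x y hxy
    let gx : AA k L := ⟨g x, smul_mem_AA g x.2⟩
    let sgx : AA k L := ⟨σ (g x), smul_mem_AA σ (smul_mem_AA g x.2)⟩
    have h2 : sgx - gx ∈ I := hσ gx sgx rfl
    refine (hg (y - x) (sgx - gx) ?_).1 h2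
    change σ (g x) - g x = g ((y : L) - (x : L))
    rw [map_sub, hxy, hτ]
    congr 1
    change σ (g x) = g (g⁻¹ (σ (g x)))
    rw [← AlgEquiv.mul_apply g g⁻¹, mul_inv_cancel, AlgEquiv.one_apply]
  have h3 : ∀ b : L, IsIntegral (below (RatFunc k) (ab Om (placeOf P h))) b →
      (ab Om (placeOf P h)).valuation ((τ b : Om) - (b : Om)) < 1 := by
    intro b hb
    obtain ⟨f, hf, hfb⟩ := integral_mul h hb
    have h4 := h1 ⟨_, hfb⟩ ⟨τ (algebraMap k[X] L f * b), smul_mem_AA τ hfb⟩ rfl
    rw [mem_primeW] at h4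
    have h5 : τ (algebraMap k[X] L f) = algebraMap k[X] L f := by
      rw [IsScalarTower.algebraMap_apply k[X] (RatFunc k) L, τ.commutes]
    have h6 : ((algebraMap k[X] L f : L) : Om) = pO k Om f := by
      rw [IsScalarTower.algebraMap_apply k[X] (RatFunc k) L]
      rfl
    have h7 : ((τ (algebraMap k[X] L f * b) : L) : Om) -
        ((algebraMap k[X] L f * b : L) : Om) = pO k Om f * ((τ b : Om) - (b : Om)) := by
      rw [map_mul, h5, ← h6]
      push_cast
      ring
    have h8 : (ab Om (placeOf P h)).valuation (pO k Om f * ((τ b : Om) - (b : Om))) < 1 := by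
      rw [← h7]
      exact h4
    have h9 : (ab Om (placeOf P h)).valuation (pO k Om f) = 1 := by
      refine le_antisymm ((ValuationSubring.valuation_le_one_iff _ _).2 (pO_mem h f)) ?_
      rw [← not_lt, pO_val_lt]
      exact hf
    rwa [map_mul, h9, one_mul] at h8
  obtain ⟨s, hs, hsx⟩ := lift_inertia (RatFunc k) L h3
  have h10 : τ = 1 := by
    ext1 x
    apply Subtype.ext
    rw [hsx x, hin s hs x]
    rfl
  have h11 : σ = g * τ * g⁻¹ := by
    rw [hτ]
    group
  rw [h11, h10, mul_one, mul_inv_cancel]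

end level

end Pool.Agent.SmB
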