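import Pool.Agent.Lib.SmD.Main
import Pool.Agent.Lib.SmD.Prim
import Pool.Agent.Lib.SmB.Defs2

/-!
Block B of SMITH, part 5: the chosen place of `Om` above the place of `k(t)` given by an
irreducible polynomial `P`.
-/

set_option autoImplicit false

namespace Pool.Agent.SmB

open Pool.Agent.Lib.SmD Pool.Agent.BSDFF Polynomial

variable {k : Type} [Field k] {Om : Type} [Field Om] [Algebra (RatFunc k) Om]

/-- `k[X] → Om` -/
noncomputable def pO (k Om : Type) [Field k] [Field Om] [Algebra (RatFunc k) Om] : k[X] →+* Om :=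
  (algebraMap (RatFunc k) Om).comp (algebraMap k[X] (RatFunc k))

theorem pO_mem {P : k[X]} (h : Irreducible P) (f : k[X]) :
    pO k Om f ∈ ab Om (placeOf P h) := by
  have h1 : algebraMap k[X] (RatFunc k) f ∈ below (RatFunc k) (ab Om (placeOf P h)) := by
    rw [below_ab]
    exact poly_mem _ (X_mem_placeOf P h) f
  exact h1

theorem pO_val_lt {P : k[X]} (h : Irreducible P) (f : k[X]) :
    (ab Om (placeOf P h)).valuation (pO k Om f) < 1 ↔ P ∣ f := by
  have hX := X_mem_placeOf P h
  have hu := polyHom_unit_iff (placeOf P h) hX h (nonunit_placeOf P h) f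
  by_cases hf : f = 0
  · subst hf
    rw [map_zero, map_zero]
    exact ⟨fun _ => dvd_zero _, fun _ => zero_lt_one⟩
  have hf0 : algebraMap k[X] (RatFunc k) f ≠ 0 := by
    simpa using hf
  change (ab Om (placeOf P h)).valuation (algebraMap (RatFunc k) Om
    (algebraMap k[X] (RatFunc k) f)) < 1 ↔ _
  rw [val_lt_below, below_ab]
  constructor
  · rintro (h1 | h1)
    · exact absurd h1 hf0
    · by_contra h2
      obtain ⟨y, hy⟩ := (hu.2 h2).exists_right_inv
      apply h1
      have h3 : algebraMap k[X] (RatFunc k) f * (y : RatFunc k) = 1 := congrArg Subtype.val hy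
      have h4 : (algebraMap k[X] (RatFunc k) f)⁻¹ = (y : RatFunc k) :=
        (eq_inv_of_mul_eq_one_right h3).symm
      rw [h4]
      exact y.2
  · intro h1
    right
    intro h2
    have h3 : IsUnit (polyHom (placeOf P h) hX f) := by
      refine IsUnit.of_mul_eq_one ⟨(algebraMap k[X] (RatFunc k) f)⁻¹, h2⟩ (Subtype.ext ?_)
      change algebraMap k[X] (RatFunc k) f * (algebraMap k[X] (RatFunc k) f)⁻¹ = 1
      exact mul_inv_cancel₀ hf0
    exact hu.1 h3 h1

theorem resCard_placeOf [Finite k] {P : k[X]} (h : Irreducible P) :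
    resCard (below (RatFunc k) (ab Om (placeOf P h))) = (Nat.card k) ^ P.natDegree := by
  rw [below_ab]
  obtain ⟨e, -⟩ := residue_equiv (placeOf P h) (X_mem_placeOf P h) h (nonunit_placeOf P h)
  have h1 : resCard (placeOf P h).ring = Nat.card (AdjoinRoot P) := by
    unfold resCard
    exact (Nat.card_congr e.toEquiv).symm
  rw [h1]
  have hfin : Module.Finite k (AdjoinRoot P) := (AdjoinRoot.powerBasis h.ne_zero).finite
  rw [Module.natCard_eq_pow_finrank (K := k), (AdjoinRoot.powerBasis h.ne_zero).finrank,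
    AdjoinRoot.powerBasis_dim]

/-- `k[X] → below w` -/
noncomputable def pB {P : k[X]} (h : Irreducible P) :
    k[X] →+* below (RatFunc k) (ab Om (placeOf P h)) :=
  (algebraMap k[X] (RatFunc k)).codRestrict
    (below (RatFunc k) (ab Om (placeOf P h))).toSubring (fun f => pO_mem h f)

theorem coe_pB {P : k[X]} (h : Irreducible P) (f : k[X]) :
    ((pB (Om := Om) h f : below (RatFunc k) (ab Om (placeOf P h))) : RatFunc k) =
      algebraMap k[X] (RatFunc k) f := rfl

/-- Elements of `L` integral over `k[X]` are integral over the ring of the place. -/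
theorem integral_below {P : k[X]} (h : Irreducible P) {L : Type*} [Field L]
    [Algebra (RatFunc k) L] [Algebra k[X] L] [IsScalarTower k[X] (RatFunc k) L] {x : L}
    (hx : IsIntegral k[X] x) : IsIntegral (below (RatFunc k) (ab Om (placeOf P h))) x := by
  obtain ⟨p, hp, hpx⟩ := hx
  refine ⟨p.map (pB h), hp.map _, ?_⟩
  rw [eval₂_map]
  have h1 : (algebraMap (below (RatFunc k) (ab Om (placeOf P h))) L).comp (pB h) =
      algebraMap k[X] L := by
    refine RingHom.ext fun f => ?_
    rw [RingHom.comp_apply, IsScalarTower.algebraMap_apply k[X] (RatFunc k) L]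
    rfl
  rw [h1]
  exact hpx

/-- Elements of `L` integral over the ring of the place are, up to a factor prime to `P`, integral
over `k[X]`. -/
theorem integral_mul {P : k[X]} (h : Irreducible P) {L : Type*} [Field L]
    [Algebra (RatFunc k) L] [Algebra k[X] L] [IsScalarTower k[X] (RatFunc k) L] {x : L}
    (hx : IsIntegral (below (RatFunc k) (ab Om (placeOf P h))) x) :
    ∃ f : k[X], ¬ P ∣ f ∧ IsIntegral k[X] (algebraMap k[X] L f * x) := by
  set R := below (RatFunc k) (ab Om (placeOf P h)) with hR
  have hXm := X_mem_placeOf P h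
  -- a common denominator of the coefficients
  have hden : ∀ a : R, ∃ f : k[X], ¬ P ∣ f ∧ ∃ g : k[X],
      algebraMap k[X] (RatFunc k) f * (a : RatFunc k) = algebraMap k[X] (RatFunc k) g := by
    intro a
    have ha : (a : RatFunc k) ∈ (placeOf P h).ring := by
      rw [← below_ab Om (placeOf P h)]
      exact a.2
    have h1 := (ring_mem_iff _ hXm h (nonunit_placeOf P h) _).1 ha
    refine ⟨(a : RatFunc k).denom, h1, (a : RatFunc k).num, ?_⟩
    have hd0 : algebraMap k[X] (RatFunc k) (a : RatFunc k).denom ≠ 0 := by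
      simpa using RatFunc.denom_ne_zero (a : RatFunc k)
    rw [mul_comm]
    exact (eq_div_iff hd0).mp (RatFunc.num_div_denom (a : RatFunc k)).symm
  choose den hden1 num hnum using hden
  obtain ⟨p, hp, hpx⟩ := hx
  set n := p.natDegree with hn
  set F : k[X] := ∏ i ∈ Finset.range n, den (p.coeff i) with hF
  have hF1 : ¬ P ∣ F := by
    rw [hF, h.prime.dvd_finsetProd_iff]
    rintro ⟨i, -, hi⟩
    exact hden1 _ hi
  refine ⟨F, hF1, ?_⟩
  -- `F ^ n p (x / F)` has coefficients in `k[X]`
  have hq : ∀ i ∈ Finset.range n, ∃ g : k[X], algebraMap k[X] (RatFunc k) F * (p.coeff i : RatFunc k)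
      = algebraMap k[X] (RatFunc k) g := by
    intro i hi
    obtain ⟨c, hc⟩ : den (p.coeff i) ∣ F := Finset.dvd_prod_of_mem _ hi
    refine ⟨c * num (p.coeff i), ?_⟩
    rw [hc, map_mul, map_mul, ← hnum]
    ring
  choose! g hg using hq
  have hsum : algebraMap R L 1 * x ^ n + ∑ i ∈ Finset.range n, algebraMap R L (p.coeff i) * x ^ i
      = 0 := by
    rw [eval₂_eq_sum_range, Finset.sum_range_succ] at hpx
    have h2 : p.coeff p.natDegree = 1 := hp
    rw [h2] at hpx
    rw [add_comm]
    exact hpx
  rw [map_one, one_mul] at hsum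
  set y := algebraMap k[X] L F * x with hy
  have hy2 : y ^ n + ∑ i ∈ Finset.range n,
      algebraMap k[X] L (g i * F ^ (n - 1 - i)) * y ^ i = 0 := by
    have h3 : ∀ i ∈ Finset.range n, algebraMap k[X] L (g i * F ^ (n - 1 - i)) * y ^ i =
        algebraMap k[X] L F ^ n * (algebraMap R L (p.coeff i) * x ^ i) := by
      intro i hi
      have hin := Finset.mem_range.1 hi
      have h4 : algebraMap k[X] L (g i) = algebraMap k[X] L F * algebraMap R L (p.coeff i) := by
        rw [IsScalarTower.algebraMap_apply k[X] (RatFunc k) L (g i), ← hg i hi, map_mul,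
          ← IsScalarTower.algebraMap_apply k[X] (RatFunc k) L]
        rfl
      rw [map_mul, map_pow, h4, hy, mul_pow]
      have h5 : algebraMap k[X] L F ^ n = algebraMap k[X] L F * algebraMap k[X] L F ^ (n - 1 - i) *
          algebraMap k[X] L F ^ i := by
        rw [← pow_succ', ← pow_add]
        congr 1
        omega
      rw [h5]
      ring
    rw [Finset.sum_congr rfl h3, ← Finset.mul_sum, hy, mul_pow, ← mul_add, hsum, mul_zero]
  refine ⟨X ^ n + ∑ i ∈ Finset.range n, C (g i * F ^ (n - 1 - i)) * X ^ i, ?_, ?_⟩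
  · apply monic_X_pow_add
    refine (degree_sum_le _ _).trans_lt ?_
    rw [Finset.sup_lt_iff (by exact WithBot.bot_lt_coe n)]
    intro i hi
    refine (degree_C_mul_X_pow_le _ _).trans_lt ?_
    exact_mod_cast Finset.mem_range.1 hi
  · rw [eval₂_add, eval₂_pow, eval₂_X, eval₂_finsetSum]
    simp only [eval₂_mul, eval₂_C, eval₂_pow, eval₂_X]
    exact hy2

end Pool.Agent.SmB
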